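import Pool.Agent.H14.NP.Signs

/-!
# The finite dimensional block in `ℓ_1^n`
-/

open Filter Topology
open scoped ENNReal

namespace Pool.Agent.H14.NP

variable {𝕜 : Type*} [RCLike 𝕜]

/-- Index set of the coordinates. -/
abbrev Idx (N : ℕ) : Type := Fin N ⊕ ((Fin N → Bool) → Bool)

/-- Coefficients of the block vectors (real). -/
noncomputable def coef (N : ℕ) (lam : ℝ) (j : Fin N → Bool) : Idx N → ℝ :=
  Sum.elim (fun s => sg (j s) / N) (fun u => lam / 2 ^ (2 ^ N) * sg (u j))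

/-- The block vectors. -/
noncomputable def bv (𝕜 : Type*) [RCLike 𝕜] (N : ℕ) (lam : ℝ) (j : Fin N → Bool) :
    PiLp 1 (fun _ : Idx N => 𝕜) :=
  WithLp.toLp 1 fun i => (coef N lam j i : 𝕜)

theorem card_signs (N : ℕ) : Fintype.card (Fin N → Bool) = 2 ^ N := by simp

theorem norm_sum_bv (N : ℕ) (hN : 0 < N) {lam : ℝ} (hlam : 0 ≤ lam) (a : (Fin N → Bool) → 𝕜)
    (s : Finset (Fin N → Bool)) :
    ‖∑ j ∈ s, a j • bv 𝕜 N lam j‖ = (∑ t : Fin N, ‖∑ j ∈ s, (sg (j t) : 𝕜) * a j‖) / N +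
      lam / 2 ^ (2 ^ N) * ∑ u : (Fin N → Bool) → Bool, ‖∑ j ∈ s, (sg (u j) : 𝕜) * a j‖ := by
  have hN' : (0 : ℝ) < N := by exact_mod_cast hN
  rw [PiLp.norm_eq_of_L1, Fintype.sum_sum_type]
  have h0 : ∀ i, (∑ j ∈ s, a j • bv 𝕜 N lam j) i = ∑ j ∈ s, a j * (coef N lam j i : 𝕜) := by
    intro i
    rw [WithLp.ofLp_sum, Finset.sum_apply]
    rfl
  congr 1
  · rw [Finset.sum_div]
    refine Finset.sum_congr rfl fun t _ => ?_
    rw [h0]
    have : ∑ j ∈ s, a j * (coef N lam j (Sum.inl t) : 𝕜)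
        = ((1 / N : ℝ) : 𝕜) * ∑ j ∈ s, (sg (j t) : 𝕜) * a j := by
      rw [Finset.mul_sum]
      refine Finset.sum_congr rfl fun j _ => ?_
      simp only [coef, Sum.elim_inl]
      push_cast
      ring
    rw [this, norm_mul, RCLike.norm_ofReal, abs_of_nonneg (by positivity)]
    ring
  · rw [Finset.mul_sum]
    refine Finset.sum_congr rfl fun u _ => ?_
    rw [h0]
    have : ∑ j ∈ s, a j * (coef N lam j (Sum.inr u) : 𝕜)
        = ((lam / 2 ^ (2 ^ N) : ℝ) : 𝕜) * ∑ j ∈ s, (sg (u j) : 𝕜) * a j := by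
      rw [Finset.mul_sum]
      refine Finset.sum_congr rfl fun j _ => ?_
      simp only [coef, Sum.elim_inr]
      push_cast
      ring
    rw [this, norm_mul, RCLike.norm_ofReal, abs_of_nonneg (by positivity)]

/-- Lower estimate. -/
theorem norm_sum_bv_ge (N : ℕ) (hN : 0 < N) {lam : ℝ} (hlam : 0 ≤ lam) (a : (Fin N → Bool) → 𝕜)
    (s : Finset (Fin N → Bool)) :
    5 / 9 * lam * Real.sqrt (∑ j ∈ s, ‖a j‖ ^ 2) ≤ ‖∑ j ∈ s, a j • bv 𝕜 N lam j‖ := by
  rw [norm_sum_bv N hN hlam]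
  have h1 := khintchine (𝕜 := 𝕜) a s
  rw [card_signs] at h1
  have h2 : 0 ≤ (∑ t : Fin N, ‖∑ j ∈ s, (sg (j t) : 𝕜) * a j‖) / N := by positivity
  have h3 : 5 / 9 * lam * Real.sqrt (∑ j ∈ s, ‖a j‖ ^ 2) ≤
      lam / 2 ^ (2 ^ N) * ∑ u : (Fin N → Bool) → Bool, ‖∑ j ∈ s, (sg (u j) : 𝕜) * a j‖ := by
    calc 5 / 9 * lam * Real.sqrt (∑ j ∈ s, ‖a j‖ ^ 2)
        = lam / 2 ^ (2 ^ N) * (5 / 9 * 2 ^ (2 ^ N) * Real.sqrt (∑ j ∈ s, ‖a j‖ ^ 2)) := by
          field_simp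
      _ ≤ _ := by gcongr
  linarith

/-- Upper estimate. -/
theorem norm_sum_bv_le (N : ℕ) (hN : 0 < N) {lam : ℝ} (hlam : 0 ≤ lam)
    (hlam2 : (2 : ℝ) ^ N ≤ N * lam ^ 2) (a : (Fin N → Bool) → 𝕜) (s : Finset (Fin N → Bool)) :
    ‖∑ j ∈ s, a j • bv 𝕜 N lam j‖ ≤ 2 * lam * Real.sqrt (∑ j ∈ s, ‖a j‖ ^ 2) := by
  classical
  have hN' : (0 : ℝ) < N := by exact_mod_cast hN
  rw [norm_sum_bv N hN hlam]
  set S := ∑ j ∈ s, ‖a j‖ ^ 2 with hS
  have hS0 : 0 ≤ S := Finset.sum_nonneg fun i _ => by positivity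
  -- first part
  have h1 : ∑ t : Fin N, ‖∑ j ∈ s, (sg (j t) : 𝕜) * a j‖ ^ 2 ≤ 2 ^ N * S := by
    let a' : (Fin N → Bool) → 𝕜 := fun j => if j ∈ s then a j else 0
    have hb := bessel_signs (𝕜 := 𝕜) (J := Fin N → Bool) (K := Fin N) (fun t j => sg (j t))
      (fun t j => sg_mul_self _) (fun t t' h => sum_sg_mul_sg h) a'
    rw [card_signs] at hb
    have e1 : ∀ t : Fin N, ∑ j, (sg (j t) : 𝕜) * a' j = ∑ j ∈ s, (sg (j t) : 𝕜) * a j := by
      intro t
      simp only [a', mul_ite, mul_zero]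
      rw [← Finset.sum_filter]
      congr 1
      ext j; simp
    have e2 : ∑ j, ‖a' j‖ ^ 2 = S := by
      have : ∀ j, ‖a' j‖ ^ 2 = if j ∈ s then ‖a j‖ ^ 2 else 0 := by
        intro j
        simp only [a']
        split_ifs <;> simp
      simp only [this]
      rw [← Finset.sum_filter, hS]
      congr 1
      ext j; simp
    simp only [e1, e2] at hb
    exact_mod_cast hb
  have h2 : (∑ t : Fin N, ‖∑ j ∈ s, (sg (j t) : 𝕜) * a j‖) / N ≤ lam * Real.sqrt S := by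
    have h3 : (∑ t : Fin N, ‖∑ j ∈ s, (sg (j t) : 𝕜) * a j‖) ^ 2 ≤ N * (2 ^ N * S) := by
      have := sq_sum_le_card_mul_sum_sq (s := (Finset.univ : Finset (Fin N)))
        (f := fun t => ‖∑ j ∈ s, (sg (j t) : 𝕜) * a j‖)
      rw [Finset.card_univ, Fintype.card_fin] at this
      exact this.trans (by gcongr)
    rw [div_le_iff₀ hN']
    refine abs_le_of_sq_le_sq' ?_ (by positivity) |>.2
    calc (∑ t : Fin N, ‖∑ j ∈ s, (sg (j t) : 𝕜) * a j‖) ^ 2 ≤ N * (2 ^ N * S) := h3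
      _ ≤ N * ((N * lam ^ 2) * S) := by gcongr
      _ = (lam * Real.sqrt S * N) ^ 2 := by
          rw [mul_pow, mul_pow, Real.sq_sqrt hS0]; ring
  -- second part
  have h4 : lam / 2 ^ (2 ^ N) * ∑ u : (Fin N → Bool) → Bool, ‖∑ j ∈ s, (sg (u j) : 𝕜) * a j‖
      ≤ lam * Real.sqrt S := by
    have h5 := second_moment (𝕜 := 𝕜) a s
    rw [card_signs, ← hS] at h5
    have h6 : (∑ u : (Fin N → Bool) → Bool, ‖∑ j ∈ s, (sg (u j) : 𝕜) * a j‖) ^ 2
        ≤ 2 ^ (2 ^ N) * (2 ^ (2 ^ N) * S) := by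
      have := sq_sum_le_card_mul_sum_sq (s := (Finset.univ : Finset ((Fin N → Bool) → Bool)))
        (f := fun u => ‖∑ j ∈ s, (sg (u j) : 𝕜) * a j‖)
      rw [h5] at this
      simpa using this
    have h7 : (∑ u : (Fin N → Bool) → Bool, ‖∑ j ∈ s, (sg (u j) : 𝕜) * a j‖)
        ≤ 2 ^ (2 ^ N) * Real.sqrt S := by
      refine abs_le_of_sq_le_sq' ?_ (by positivity) |>.2
      rw [mul_pow, Real.sq_sqrt hS0]
      calc _ ≤ _ := h6
        _ = _ := by ring
    calc lam / 2 ^ (2 ^ N) * ∑ u : (Fin N → Bool) → Bool, ‖∑ j ∈ s, (sg (u j) : 𝕜) * a j‖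
        ≤ lam / 2 ^ (2 ^ N) * (2 ^ (2 ^ N) * Real.sqrt S) := by gcongr
      _ = lam * Real.sqrt S := by field_simp
  linarith

/-- Bessel for products of two coordinates. -/
theorem sum_sq_products (N : ℕ) (ε : (Fin N → Bool) → ℝ) (hε : ∀ j, ε j * ε j = 1)
    (hε0 : ∑ j, ε j = 0) :
    ∑ s : Fin N, ∑ t : Fin N, (∑ j, ε j * sg (j s) * sg (j t)) ^ 2 ≤ 2 * (2 ^ N * 2 ^ N) := by
  classical
  let S : Fin N → Fin N → ℝ := fun s t => ∑ j, ε j * sg (j s) * sg (j t)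
  have hsymm : ∀ s t, S s t = S t s := fun s t =>
    Finset.sum_congr rfl fun j _ => by ring
  have hdiag : ∀ s, S s s = 0 := by
    intro s
    simp only [S]
    rw [← hε0]
    refine Finset.sum_congr rfl fun j _ => ?_
    rw [mul_assoc, sg_mul_self, mul_one]
  let K := {q : Fin N × Fin N // q.1 < q.2}
  have hb := bessel_signs (𝕜 := ℝ) (J := Fin N → Bool) (K := K)
    (fun q j => sg (j q.1.1) * sg (j q.1.2)) (fun q j => by
      calc (sg (j q.1.1) * sg (j q.1.2)) * (sg (j q.1.1) * sg (j q.1.2))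
          = (sg (j q.1.1) * sg (j q.1.1)) * (sg (j q.1.2) * sg (j q.1.2)) := by ring
        _ = 1 := by rw [sg_mul_self, sg_mul_self, one_mul]) (fun q q' hqq => by
      obtain ⟨⟨s, t⟩, hst⟩ := q
      obtain ⟨⟨s', t'⟩, hst'⟩ := q'
      simp only at hst hst' ⊢
      have hne : ¬ (s = s' ∧ t = t') := by
        rintro ⟨rfl, rfl⟩; exact hqq rfl
      by_cases h1 : s = s' ∨ s = t'
      · -- then `t` does not occur in the second pair
        have h2 : t ≠ s' ∧ t ≠ t' := by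
          rcases h1 with h1 | h1
          · subst h1
            exact ⟨fun h => by rw [h] at hst; exact lt_irrefl _ hst, fun h => hne ⟨rfl, h⟩⟩
          · subst h1
            refine ⟨fun h => ?_, fun h => ?_⟩
            · rw [h] at hst; exact absurd (hst.trans hst') (lt_irrefl _)
            · rw [h] at hst; exact lt_irrefl _ hst
        have := sum_sg_four (ι := Fin N) (s := t) (t := s) (s' := s') (t' := t')
          (ne_of_gt hst) h2.1 h2.2
        rw [← this]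
        exact Finset.sum_congr rfl fun j _ => by ring
      · push Not at h1
        exact sum_sg_four (ne_of_lt hst) h1.1 h1.2) ε
  rw [card_signs] at hb
  have e1 : ∑ j, ‖ε j‖ ^ 2 = 2 ^ N := by
    have : ∀ j, ‖ε j‖ ^ 2 = 1 := fun j => by
      rw [Real.norm_eq_abs, sq_abs, pow_two, hε]
    rw [Finset.sum_congr rfl fun j _ => this j]
    simp
  rw [e1] at hb
  have e2 : ∀ q : K, ‖∑ j, ((sg (j q.1.1) * sg (j q.1.2) : ℝ) : ℝ) * ε j‖ ^ 2 = S q.1.1 q.1.2 ^ 2 := by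
    intro q
    rw [Real.norm_eq_abs, sq_abs]
    congr 1
    exact Finset.sum_congr rfl fun j _ => by ring
  have e3 : ∑ q : K, S q.1.1 q.1.2 ^ 2 ≤ 2 ^ N * 2 ^ N := by
    calc ∑ q : K, S q.1.1 q.1.2 ^ 2 = ∑ q : K, ‖∑ j, ((sg (j q.1.1) * sg (j q.1.2) : ℝ) : ℝ) * ε j‖ ^ 2 :=
          Finset.sum_congr rfl fun q _ => (e2 q).symm
      _ ≤ _ := by
          refine hb.trans (le_of_eq ?_)
          push_cast; ring
  have e4 : ∑ s : Fin N, ∑ t : Fin N, S s t ^ 2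
      = ∑ q ∈ (Finset.univ : Finset (Fin N × Fin N)).filter (fun q => q.1 < q.2), S q.1 q.2 ^ 2 +
        ∑ q ∈ (Finset.univ : Finset (Fin N × Fin N)).filter (fun q => q.2 < q.1), S q.1 q.2 ^ 2 := by
    rw [← Fintype.sum_prod_type' (f := fun s t => S s t ^ 2)]
    rw [← Finset.sum_union]
    · symm
      refine Finset.sum_subset (Finset.subset_univ _) fun q _ hq => ?_
      simp only [Finset.mem_union, Finset.mem_filter, Finset.mem_univ, true_and, not_or,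
        not_lt] at hq
      have : q.1 = q.2 := le_antisymm hq.2 hq.1
      rw [this, hdiag]
      norm_num
    · rw [Finset.disjoint_left]
      intro q hq hq'
      simp only [Finset.mem_filter, Finset.mem_univ, true_and] at hq hq'
      exact absurd (hq.trans hq') (lt_irrefl _)
  have e5 : ∑ q ∈ (Finset.univ : Finset (Fin N × Fin N)).filter (fun q => q.1 < q.2), S q.1 q.2 ^ 2
      = ∑ q : K, S q.1.1 q.1.2 ^ 2 := by
    rw [Finset.sum_subtype (p := fun q : Fin N × Fin N => q.1 < q.2)]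
    intro q; simp
  have e6 : ∑ q ∈ (Finset.univ : Finset (Fin N × Fin N)).filter (fun q => q.2 < q.1), S q.1 q.2 ^ 2
      = ∑ q ∈ (Finset.univ : Finset (Fin N × Fin N)).filter (fun q => q.1 < q.2), S q.1 q.2 ^ 2 := by
    refine Finset.sum_nbij' (fun q => (q.2, q.1)) (fun q => (q.2, q.1)) ?_ ?_ ?_ ?_ ?_
    · intro q hq; simpa using hq
    · intro q hq; simpa using hq
    · intro q _; rfl
    · intro q _; rfl
    · intro q _; simp only; rw [hsymm]
  change ∑ s : Fin N, ∑ t : Fin N, S s t ^ 2 ≤ _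
  rw [e4, e6, e5]
  linarith

/-- The key estimate: an operator acting on the block by balanced signs has large norm. -/
theorem key_estimate (n : ℕ) (hn : 0 < n) (N : ℕ) (hN : N = n ^ 4) (ε : (Fin N → Bool) → ℝ)
    (hε : ∀ j, ε j * ε j = 1) (hε0 : ∑ j, ε j = 0)
    (T : PiLp 1 (fun _ : Idx N => 𝕜) →L[𝕜] PiLp 1 (fun _ : Idx N => 𝕜))
    (hT : ∀ j, T (bv 𝕜 N (Real.sqrt (2 ^ N) / n ^ 2) j) =
      (ε j : 𝕜) • bv 𝕜 N (Real.sqrt (2 ^ N) / n ^ 2) j) :
    (n : ℝ) ≤ 7 * ‖T‖ := by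
  classical
  have hn' : (0 : ℝ) < n := by exact_mod_cast hn
  have hN0 : 0 < N := by rw [hN]; positivity
  have hN' : (0 : ℝ) < N := by exact_mod_cast hN0
  have hNn : (N : ℝ) = n ^ 4 := by rw [hN]; push_cast; ring
  set μ : ℝ := Real.sqrt (2 ^ N) with hμ
  have hμ0 : 0 < μ := Real.sqrt_pos.2 (by positivity)
  have hμ2 : μ ^ 2 = 2 ^ N := Real.sq_sqrt (by positivity)
  set lam : ℝ := μ / n ^ 2 with hlam
  have hlam0 : 0 < lam := by positivity
  let τ : Idx N → Idx N → 𝕜 := fun i k => (T (PiLp.single 1 i (1 : 𝕜))) k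
  -- row sums
  have hrow : ∀ i, ∑ k, ‖τ i k‖ ≤ ‖T‖ := by
    intro i
    have h1 := T.le_opNorm (PiLp.single 1 i (1 : 𝕜))
    rw [PiLp.norm_single, norm_one, mul_one, PiLp.norm_eq_of_L1] at h1
    exact h1
  have hexp : ∀ j k, ∑ i, (coef N lam j i : 𝕜) * τ i k = (ε j : 𝕜) * (coef N lam j k : 𝕜) := by
    intro j k
    have h1 : bv 𝕜 N lam j = ∑ i, (coef N lam j i : 𝕜) • PiLp.single 1 i (1 : 𝕜) := by
      have := (PiLp.basisFun 1 𝕜 (Idx N)).sum_repr (bv 𝕜 N lam j)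
      simp only [PiLp.basisFun_repr, PiLp.basisFun_apply] at this
      exact this.symm
    have h2 := congrArg (fun v : PiLp 1 (fun _ : Idx N => 𝕜) => v k) (hT j)
    simp only at h2
    conv_lhs at h2 => rw [h1, map_sum]
    rw [WithLp.ofLp_sum, Finset.sum_apply] at h2
    simp only [map_smul] at h2
    exact h2
  have hrow' : ∀ i, ∑ s : Fin N, ‖τ i (Sum.inl s)‖ ≤ ‖T‖ := by
    intro i
    refine le_trans ?_ (hrow i)
    rw [Fintype.sum_sum_type]
    exact le_add_of_nonneg_right (Finset.sum_nonneg fun _ _ => norm_nonneg _)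
  -- the two kinds of correlations
  let S : Fin N → Fin N → ℝ := fun s t => ∑ j, ε j * sg (j s) * sg (j t)
  let R : Fin N → ((Fin N → Bool) → Bool) → ℝ := fun s u => ∑ j, ε j * sg (j s) * sg (u j)
  -- the identity
  have hid : (2 ^ N : 𝕜) = ∑ s : Fin N, ∑ s' : Fin N, τ (Sum.inl s') (Sum.inl s) * ((S s s' / N : ℝ) : 𝕜)
      + ∑ s : Fin N, ∑ u, τ (Sum.inr u) (Sum.inl s) * ((lam / 2 ^ (2 ^ N) * R s u : ℝ) : 𝕜) := by
    have h1 : ∀ s : Fin N, ∀ j : Fin N → Bool,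
        (ε j : 𝕜) * (sg (j s) : 𝕜) * ∑ i, (coef N lam j i : 𝕜) * τ i (Sum.inl s) = ((1 / N : ℝ) : 𝕜) := by
      intro s j
      rw [hexp j (Sum.inl s)]
      have h2 : (ε j : 𝕜) * (sg (j s) : 𝕜) * ((ε j : 𝕜) * (coef N lam j (Sum.inl s) : 𝕜))
          = ((ε j * sg (j s) * (ε j * (sg (j s) / N)) : ℝ) : 𝕜) := by
        simp only [coef, Sum.elim_inl]
        push_cast
        ring
      rw [h2]
      congr 1
      calc ε j * sg (j s) * (ε j * (sg (j s) / N)) = (ε j * ε j) * (sg (j s) * sg (j s)) / N := by ring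
        _ = 1 / N := by rw [hε, sg_mul_self]; ring
    have h3 : ∑ s : Fin N, ∑ j : Fin N → Bool,
        (ε j : 𝕜) * (sg (j s) : 𝕜) * ∑ i, (coef N lam j i : 𝕜) * τ i (Sum.inl s) = (2 ^ N : 𝕜) := by
      simp only [h1, Finset.sum_const, Finset.card_univ, card_signs, Fintype.card_fin, nsmul_eq_mul]
      have h5 : (N : 𝕜) ≠ 0 := by exact_mod_cast hN0.ne'
      push_cast
      field_simp
    rw [← h3, ← Finset.sum_add_distrib]
    refine Finset.sum_congr rfl fun s _ => ?_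
    have h4 : ∑ j : Fin N → Bool,
        (ε j : 𝕜) * (sg (j s) : 𝕜) * ∑ i, (coef N lam j i : 𝕜) * τ i (Sum.inl s)
        = ∑ i, τ i (Sum.inl s) * ∑ j : Fin N → Bool, (ε j : 𝕜) * (sg (j s) : 𝕜) * (coef N lam j i : 𝕜) := by
      simp only [Finset.mul_sum]
      rw [Finset.sum_comm]
      refine Finset.sum_congr rfl fun i _ => Finset.sum_congr rfl fun j _ => ?_
      ring
    rw [h4, Fintype.sum_sum_type]
    congr 1
    · refine Finset.sum_congr rfl fun s' _ => ?_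
      congr 1
      simp only [coef, Sum.elim_inl, S]
      push_cast
      rw [Finset.sum_div]
      refine Finset.sum_congr rfl fun j _ => ?_
      ring
    · refine Finset.sum_congr rfl fun u _ => ?_
      congr 1
      simp only [coef, Sum.elim_inr, R]
      push_cast
      rw [Finset.mul_sum]
      refine Finset.sum_congr rfl fun j _ => ?_
      ring
  -- bounds for the correlations
  set ρ1 : ℝ := 2 ^ N / n ^ 2 with hρ1
  have hρ10 : 0 < ρ1 := by positivity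
  set ρ2 : ℝ := n * μ with hρ2
  have hρ20 : 0 < ρ2 := by positivity
  have hSb : ∀ s s', |S s s'| ≤ ρ1 + (1 / ρ1) * ∑ t, S t s' ^ 2 := by
    intro s s'
    have h1 : S s s' ^ 2 ≤ ∑ t, S t s' ^ 2 :=
      Finset.single_le_sum (f := fun t => S t s' ^ 2) (fun t _ => sq_nonneg _) (Finset.mem_univ s)
    have h2 : |S s s'| ≤ ρ1 + (1 / ρ1) * S s s' ^ 2 := by
      rw [← sq_abs (S s s')]
      set x := |S s s'|
      have hx : 0 ≤ x := abs_nonneg _
      rw [one_div, ← sub_le_iff_le_add', inv_mul_eq_div, le_div_iff₀ hρ10]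
      nlinarith [sq_nonneg (x - ρ1)]
    refine h2.trans ?_
    gcongr
  have hRb : ∀ s u, |R s u| ≤ ρ2 + (1 / ρ2 ^ 3) * ∑ t, R t u ^ 4 := by
    intro s u
    have h1 : R s u ^ 4 ≤ ∑ t, R t u ^ 4 :=
      Finset.single_le_sum (f := fun t => R t u ^ 4) (fun t _ => by positivity) (Finset.mem_univ s)
    have h2 : |R s u| ≤ ρ2 + (1 / ρ2 ^ 3) * R s u ^ 4 := by
      have h3 : R s u ^ 4 = |R s u| ^ 4 := by
        rw [← abs_pow, abs_of_nonneg]; positivity
      rw [h3]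
      set x := |R s u|
      have hx : 0 ≤ x := abs_nonneg _
      rw [one_div, ← sub_le_iff_le_add', inv_mul_eq_div, le_div_iff₀ (by positivity)]
      rcases le_total x ρ2 with h | h
      · have : (x - ρ2) * ρ2 ^ 3 ≤ 0 := mul_nonpos_of_nonpos_of_nonneg (by linarith) (by positivity)
        have : 0 ≤ x ^ 4 := by positivity
        linarith
      · have h5 : ρ2 ^ 3 ≤ x ^ 3 := pow_le_pow_left₀ hρ20.le h 3
        calc (x - ρ2) * ρ2 ^ 3 ≤ x * x ^ 3 := by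
              apply mul_le_mul _ h5 (by positivity) hx
              linarith
          _ = x ^ 4 := by ring
    refine h2.trans ?_
    gcongr
  have hTn : 0 ≤ ‖T‖ := norm_nonneg _
  -- first sum
  have hfirst : ‖∑ s : Fin N, ∑ s' : Fin N, τ (Sum.inl s') (Sum.inl s) * ((S s s' / N : ℝ) : 𝕜)‖
      ≤ ‖T‖ * (3 * 2 ^ N / n ^ 2) := by
    rw [Finset.sum_comm]
    calc ‖∑ s' : Fin N, ∑ s : Fin N, τ (Sum.inl s') (Sum.inl s) * ((S s s' / N : ℝ) : 𝕜)‖
        ≤ ∑ s' : Fin N, ∑ s : Fin N, ‖τ (Sum.inl s') (Sum.inl s)‖ * (|S s s'| / N) := by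
          refine (norm_sum_le _ _).trans (Finset.sum_le_sum fun s' _ => ?_)
          refine (norm_sum_le _ _).trans (Finset.sum_le_sum fun s _ => ?_)
          rw [norm_mul, RCLike.norm_ofReal, abs_div, abs_of_pos hN']
      _ ≤ ∑ s' : Fin N, ∑ s : Fin N, ‖τ (Sum.inl s') (Sum.inl s)‖ *
            ((ρ1 + (1 / ρ1) * ∑ t, S t s' ^ 2) / N) := by
          gcongr with s' _ s _
          exact hSb s s'
      _ = ∑ s' : Fin N, (∑ s : Fin N, ‖τ (Sum.inl s') (Sum.inl s)‖) *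
            ((ρ1 + (1 / ρ1) * ∑ t, S t s' ^ 2) / N) := by
          simp only [Finset.sum_mul]
      _ ≤ ∑ s' : Fin N, ‖T‖ * ((ρ1 + (1 / ρ1) * ∑ t, S t s' ^ 2) / N) := by
          gcongr with s' _
          exact hrow' _
      _ = ‖T‖ * (ρ1 + (1 / ρ1) * (∑ s' : Fin N, ∑ t, S t s' ^ 2) / N) := by
          rw [← Finset.mul_sum, ← Finset.sum_div, Finset.sum_add_distrib, ← Finset.mul_sum,
            Finset.sum_const, Finset.card_univ, Fintype.card_fin, nsmul_eq_mul]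
          field_simp
      _ ≤ ‖T‖ * (ρ1 + (1 / ρ1) * (2 * (2 ^ N * 2 ^ N)) / N) := by
          have h := sum_sq_products N ε hε hε0
          rw [Finset.sum_comm] at h
          gcongr
      _ = ‖T‖ * (3 * 2 ^ N / n ^ 2) := by
          rw [hρ1, hNn]
          field_simp
          ring
  -- fourth moments
  have hR4 : ∑ u, ∑ t : Fin N, R t u ^ 4 ≤ N * (3 * 2 ^ (2 ^ N) * (2 ^ N) ^ 2) := by
    rw [Finset.sum_comm]
    calc ∑ t : Fin N, ∑ u, R t u ^ 4 ≤ ∑ _t : Fin N, (3 * 2 ^ (2 ^ N) * (2 ^ N) ^ 2 : ℝ) := by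
          refine Finset.sum_le_sum fun t _ => ?_
          have h := fourth_moment (𝕜 := ℝ) (ι := Fin N → Bool) (fun j => ε j * sg (j t)) Finset.univ
          rw [card_signs] at h
          have e1 : ∀ u : (Fin N → Bool) → Bool, R t u ^ 4 =
              ‖∑ j, ((sg (u j) : ℝ) : ℝ) * (ε j * sg (j t))‖ ^ 4 := by
            intro u
            rw [Real.norm_eq_abs, ← abs_pow, abs_of_nonneg (by positivity)]
            congr 1
            exact Finset.sum_congr rfl fun j _ => by ring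
          have e2 : ∑ j : Fin N → Bool, ‖ε j * sg (j t)‖ ^ 2 = 2 ^ N := by
            have : ∀ j : Fin N → Bool, ‖ε j * sg (j t)‖ ^ 2 = 1 := fun j => by
              rw [Real.norm_eq_abs, sq_abs]
              calc (ε j * sg (j t)) ^ 2 = (ε j * ε j) * (sg (j t) * sg (j t)) := by ring
                _ = 1 := by rw [hε, sg_mul_self, one_mul]
            rw [Finset.sum_congr rfl fun j _ => this j]
            simp
          rw [e2] at h
          calc ∑ u, R t u ^ 4 = ∑ u : (Fin N → Bool) → Bool,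
                ‖∑ j, ((sg (u j) : ℝ) : ℝ) * (ε j * sg (j t))‖ ^ 4 :=
                Finset.sum_congr rfl fun u _ => e1 u
            _ ≤ _ := h
      _ = _ := by
          rw [Finset.sum_const, Finset.card_univ, Fintype.card_fin, nsmul_eq_mul]
  have hcardU : (Fintype.card ((Fin N → Bool) → Bool) : ℝ) = 2 ^ (2 ^ N) := by
    simp
  have hsecond : ‖∑ s : Fin N, ∑ u, τ (Sum.inr u) (Sum.inl s) *
      ((lam / 2 ^ (2 ^ N) * R s u : ℝ) : 𝕜)‖ ≤ ‖T‖ * (4 * 2 ^ N / n) := by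
    rw [Finset.sum_comm]
    calc ‖∑ u, ∑ s : Fin N, τ (Sum.inr u) (Sum.inl s) * ((lam / 2 ^ (2 ^ N) * R s u : ℝ) : 𝕜)‖
        ≤ ∑ u, ∑ s : Fin N, ‖τ (Sum.inr u) (Sum.inl s)‖ * (lam / 2 ^ (2 ^ N) * |R s u|) := by
          refine (norm_sum_le _ _).trans (Finset.sum_le_sum fun u _ => ?_)
          refine (norm_sum_le _ _).trans (Finset.sum_le_sum fun s _ => ?_)
          rw [norm_mul, RCLike.norm_ofReal, abs_mul, abs_of_pos (by positivity : 0 < lam / 2 ^ (2 ^ N))]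
      _ ≤ ∑ u, ∑ s : Fin N, ‖τ (Sum.inr u) (Sum.inl s)‖ *
            (lam / 2 ^ (2 ^ N) * (ρ2 + (1 / ρ2 ^ 3) * ∑ t, R t u ^ 4)) := by
          gcongr with u _ s _
          exact hRb s u
      _ = ∑ u, (∑ s : Fin N, ‖τ (Sum.inr u) (Sum.inl s)‖) *
            (lam / 2 ^ (2 ^ N) * (ρ2 + (1 / ρ2 ^ 3) * ∑ t, R t u ^ 4)) := by
          simp only [Finset.sum_mul]
      _ ≤ ∑ u, ‖T‖ * (lam / 2 ^ (2 ^ N) * (ρ2 + (1 / ρ2 ^ 3) * ∑ t, R t u ^ 4)) := by
          gcongr with u _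
          exact hrow' _
      _ = ‖T‖ * (lam * ρ2 + lam / 2 ^ (2 ^ N) * ((1 / ρ2 ^ 3) * ∑ u, ∑ t, R t u ^ 4)) := by
          have e : ∀ u : (Fin N → Bool) → Bool,
              ‖T‖ * (lam / 2 ^ (2 ^ N) * (ρ2 + (1 / ρ2 ^ 3) * ∑ t, R t u ^ 4))
              = ‖T‖ * lam / 2 ^ (2 ^ N) * ρ2 +
                (‖T‖ * (lam / 2 ^ (2 ^ N) * (1 / ρ2 ^ 3))) * ∑ t, R t u ^ 4 := fun u => by ring
          rw [Finset.sum_congr rfl fun u _ => e u, Finset.sum_add_distrib,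
            Finset.sum_const, Finset.card_univ, nsmul_eq_mul, hcardU, ← Finset.mul_sum]
          have h2 : (2 : ℝ) ^ (2 ^ N) ≠ 0 := by positivity
          have h3 : (2 : ℝ) ^ (2 ^ N) * (‖T‖ * lam / 2 ^ (2 ^ N) * ρ2) = ‖T‖ * (lam * ρ2) := by
            field_simp
          rw [h3]
          ring
      _ ≤ ‖T‖ * (lam * ρ2 + lam / 2 ^ (2 ^ N) * ((1 / ρ2 ^ 3) *
            (N * (3 * 2 ^ (2 ^ N) * (2 ^ N) ^ 2)))) := by
          gcongr
      _ = ‖T‖ * (4 * 2 ^ N / n) := by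
          rw [hlam, hρ2, hNn, ← hμ2]
          field_simp
          ring
  -- conclusion
  have hfin : (2 : ℝ) ^ N ≤ ‖T‖ * (3 * 2 ^ N / n ^ 2) + ‖T‖ * (4 * 2 ^ N / n) := by
    have h1 : ‖(2 ^ N : 𝕜)‖ = 2 ^ N := by
      rw [norm_pow, RCLike.norm_ofNat]
    calc (2 : ℝ) ^ N = ‖(2 ^ N : 𝕜)‖ := h1.symm
      _ ≤ _ := by
        rw [hid]
        exact (norm_add_le _ _).trans (add_le_add hfirst hsecond)
  have hn1 : (1 : ℝ) ≤ n := by exact_mod_cast hn
  have h2N : (0 : ℝ) < 2 ^ N := by positivity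
  have h3 : ‖T‖ * (3 * 2 ^ N / n ^ 2) ≤ ‖T‖ * (3 * 2 ^ N / n) := by
    gcongr
    nlinarith
  have h4 : (2 : ℝ) ^ N * n ≤ 2 ^ N * (7 * ‖T‖) := by
    have h5 : (2 : ℝ) ^ N ≤ ‖T‖ * (3 * 2 ^ N / n) + ‖T‖ * (4 * 2 ^ N / n) := by linarith
    calc (2 : ℝ) ^ N * n ≤ (‖T‖ * (3 * 2 ^ N / n) + ‖T‖ * (4 * 2 ^ N / n)) * n := by gcongr
      _ = 2 ^ N * (7 * ‖T‖) := by field_simp; ring
  exact le_of_mul_le_mul_left h4 h2N

end Pool.Agent.H14.NP
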