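import Pool.Agent.H14.NP.Rosen

/-!
# Symmetric independent functions on small sets
-/

open Filter Topology
open scoped ENNReal

namespace Pool.Agent.H14.NP

variable {𝕜 : Type*} [RCLike 𝕜]

section defs

variable {G : Type*} [AddCommGroup G] [DecidableEq G] {ι : Type*} [Fintype ι]

/-- `∑ a_i 1_{ω_i = 0} ε_i`. -/
noncomputable def chi (a : ι → 𝕜) (x : (ι → G) × (ι → Bool)) : 𝕜 :=
  ∑ i, (sg (x.2 i) : 𝕜) * ((ind0 (x.1 i) : 𝕜) * a i)

theorem chi_add (a b : ι → 𝕜) (x : (ι → G) × (ι → Bool)) : chi (a + b) x = chi a x + chi b x := by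
  unfold chi
  rw [← Finset.sum_add_distrib]
  exact Finset.sum_congr rfl fun i _ => by rw [Pi.add_apply]; ring

theorem chi_smul (c : 𝕜) (a : ι → 𝕜) (x : (ι → G) × (ι → Bool)) : chi (c • a) x = c * chi a x := by
  unfold chi
  rw [Finset.mul_sum]
  exact Finset.sum_congr rfl fun i _ => by rw [Pi.smul_apply, smul_eq_mul]; ring

theorem chi_ofReal (a : ι → ℝ) (x : (ι → G) × (ι → Bool)) :
    chi (fun i => (a i : 𝕜)) x = ((chi a x : ℝ) : 𝕜) := by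
  unfold chi
  push_cast
  rfl

theorem chi_sum {κ : Type*} (s : Finset κ) (c : κ → 𝕜) (a : κ → ι → 𝕜)
    (x : (ι → G) × (ι → Bool)) : chi (∑ k ∈ s, c k • a k) x = ∑ k ∈ s, c k * chi (a k) x := by
  classical
  induction s using Finset.induction_on with
  | empty => simp [chi]
  | insert k s hk ih => rw [Finset.sum_insert hk, Finset.sum_insert hk, chi_add, chi_smul, ih]

end defs

variable {G : Type*} [AddCommGroup G] [Fintype G] [DecidableEq G]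
variable {ι : Type*} [Fintype ι] [DecidableEq ι]

theorem card_Om : (Fintype.card ((ι → G) × (ι → Bool)) : ℝ) =
    (Fintype.card (ι → G) : ℝ) * 2 ^ Fintype.card ι := by
  rw [Fintype.card_prod]
  push_cast
  simp

theorem sum_ind0 (i : ι) : ∑ ω : ι → G, ind0 (ω i) =
    (Fintype.card G : ℝ)⁻¹ * Fintype.card (ι → G) := by
  have hMpos : (0 : ℝ) < Fintype.card G := by exact_mod_cast Fintype.card_pos
  have := sum_ind_indep i (fun _ : ι → G => (1 : ℝ)) (fun _ _ => rfl)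
  simp only [mul_one, Finset.sum_const, Finset.card_univ, nsmul_eq_mul] at this
  rw [← this, ← mul_assoc, inv_mul_cancel₀ hMpos.ne', one_mul]

/-- Upper bound for the moments. -/
theorem chi_moment {s : ℝ} (hs : 2 ≤ s) (a : ι → 𝕜) :
    ∑ x : (ι → G) × (ι → Bool), ‖chi a x‖ ^ s ≤
      (Fintype.card ((ι → G) × (ι → Bool)) : ℝ) * (kc s *
        (2 ^ (s / 2) * ((Fintype.card G : ℝ)⁻¹ * ∑ i, ‖a i‖ ^ s) +
        (2 ^ (s / 2) * ((Fintype.card G : ℝ)⁻¹ * ∑ i, ‖a i‖ ^ 2)) ^ (s / 2))) := by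
  have hs0 : 0 < s := by linarith
  have hkc := kc_pos s
  rw [Fintype.sum_prod_type, card_Om]
  have h1 : ∀ ω : ι → G, ∑ u : ι → Bool, ‖chi a (ω, u)‖ ^ s ≤
      2 ^ Fintype.card ι * kc s * (∑ i, ‖a i‖ ^ 2 * ind0 (ω i)) ^ (s / 2) := by
    intro ω
    have h2 := khintchine_upper (𝕜 := 𝕜) hs0 (fun i => (ind0 (ω i) : 𝕜) * a i)
    have h3 : ∑ i, ‖(ind0 (ω i) : 𝕜) * a i‖ ^ 2 = ∑ i, ‖a i‖ ^ 2 * ind0 (ω i) := by
      refine Finset.sum_congr rfl fun i _ => ?_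
      rw [norm_mul, mul_pow, RCLike.norm_ofReal, sq_abs, ind0_sq, mul_comm]
    rw [h3] at h2
    have h4 : 0 ≤ ∑ i, ‖a i‖ ^ 2 * ind0 (ω i) :=
      Finset.sum_nonneg fun i _ => mul_nonneg (by positivity) (ind0_nonneg _)
    have h5 : Real.sqrt (∑ i, ‖a i‖ ^ 2 * ind0 (ω i)) ^ s =
        (∑ i, ‖a i‖ ^ 2 * ind0 (ω i)) ^ (s / 2) := by
      rw [Real.sqrt_eq_rpow, ← Real.rpow_mul h4]
      congr 1
      ring
    rw [h5] at h2
    exact h2
  have h6 := rosenthal_pos (G := G) (q := s / 2) (by linarith) (fun i => ‖a i‖ ^ 2)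
    (fun i => by positivity)
  have h7 : ∀ i, (‖a i‖ ^ 2) ^ (s / 2) = ‖a i‖ ^ s := by
    intro i
    rw [← Real.rpow_natCast, ← Real.rpow_mul (norm_nonneg _)]
    congr 1
    push_cast
    ring
  simp only [h7] at h6
  calc ∑ ω : ι → G, ∑ u : ι → Bool, ‖chi a (ω, u)‖ ^ s
      ≤ ∑ ω : ι → G, 2 ^ Fintype.card ι * kc s * (∑ i, ‖a i‖ ^ 2 * ind0 (ω i)) ^ (s / 2) :=
        Finset.sum_le_sum fun ω _ => h1 ω
    _ = 2 ^ Fintype.card ι * kc s * ∑ ω : ι → G, (∑ i, ‖a i‖ ^ 2 * ind0 (ω i)) ^ (s / 2) := by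
        rw [Finset.mul_sum]
    _ ≤ 2 ^ Fintype.card ι * kc s * ((Fintype.card (ι → G) : ℝ) *
        (2 ^ (s / 2) * ((Fintype.card G : ℝ)⁻¹ * ∑ i, ‖a i‖ ^ s) +
        (2 ^ (s / 2) * ((Fintype.card G : ℝ)⁻¹ * ∑ i, ‖a i‖ ^ 2)) ^ (s / 2))) := by
        gcongr
    _ = _ := by ring

/-- The second moment. -/
theorem chi_second (a : ι → 𝕜) :
    ∑ x : (ι → G) × (ι → Bool), ‖chi a x‖ ^ 2 =
      (Fintype.card ((ι → G) × (ι → Bool)) : ℝ) * ((Fintype.card G : ℝ)⁻¹ * ∑ i, ‖a i‖ ^ 2) := by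
  rw [Fintype.sum_prod_type, card_Om]
  have h1 : ∀ ω : ι → G, ∑ u : ι → Bool, ‖chi a (ω, u)‖ ^ 2 =
      2 ^ Fintype.card ι * ∑ i, ‖a i‖ ^ 2 * ind0 (ω i) := by
    intro ω
    have h2 := second_moment (𝕜 := 𝕜) (fun i => (ind0 (ω i) : 𝕜) * a i) Finset.univ
    have h3 : ∑ i, ‖(ind0 (ω i) : 𝕜) * a i‖ ^ 2 = ∑ i, ‖a i‖ ^ 2 * ind0 (ω i) := by
      refine Finset.sum_congr rfl fun i _ => ?_
      rw [norm_mul, mul_pow, RCLike.norm_ofReal, sq_abs, ind0_sq, mul_comm]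
    rw [h3] at h2
    exact h2
  rw [Finset.sum_congr rfl fun ω _ => h1 ω, ← Finset.mul_sum, Finset.sum_comm]
  have h4 : ∀ i, ∑ ω : ι → G, ‖a i‖ ^ 2 * ind0 (ω i) =
      ‖a i‖ ^ 2 * ((Fintype.card G : ℝ)⁻¹ * Fintype.card (ι → G)) := by
    intro i
    rw [← Finset.mul_sum, sum_ind0]
  rw [Finset.sum_congr rfl fun i _ => h4 i, ← Finset.sum_mul]
  ring

/-- Dual norm of a `chi`. -/
theorem chi_dual {s' : ℝ} (h1 : 1 ≤ s') (h2 : s' ≤ 2) (c : ι → ℝ) :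
    (∑ x : (ι → G) × (ι → Bool), |chi c x| ^ s') ^ (1 / s') ≤
      (Fintype.card ((ι → G) × (ι → Bool)) : ℝ) ^ (1 / s') *
        Real.sqrt ((Fintype.card G : ℝ)⁻¹ * ∑ i, c i ^ 2) := by
  have hm := (mean_bounds h1 h2 (fun x : (ι → G) × (ι → Bool) => |chi c x|)
    fun x => abs_nonneg _).2
  set N : ℝ := (Fintype.card ((ι → G) × (ι → Bool)) : ℝ) with hN
  have hNpos : 0 < N := by rw [hN]; exact_mod_cast Fintype.card_pos
  have h3 := chi_second (𝕜 := ℝ) (G := G) c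
  simp only [Real.norm_eq_abs, sq_abs] at h3
  simp only [sq_abs] at hm
  rw [h3, ← hN, inv_mul_cancel_left₀ hNpos.ne'] at hm
  have h4 : 0 ≤ ∑ x : (ι → G) × (ι → Bool), |chi c x| ^ s' :=
    Finset.sum_nonneg fun x _ => Real.rpow_nonneg (abs_nonneg _) _
  calc (∑ x : (ι → G) × (ι → Bool), |chi c x| ^ s') ^ (1 / s')
      = (N * (N⁻¹ * ∑ x : (ι → G) × (ι → Bool), |chi c x| ^ s')) ^ (1 / s') := by
        rw [mul_inv_cancel_left₀ hNpos.ne']
    _ = N ^ (1 / s') * (N⁻¹ * ∑ x : (ι → G) × (ι → Bool), |chi c x| ^ s') ^ (1 / s') :=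
        Real.mul_rpow hNpos.le (by positivity)
    _ ≤ _ := by gcongr

/-- Dual norm of a single function. -/
theorem chi_dual_single {s' : ℝ} (h1 : 0 < s') (i : ι) :
    (∑ x : (ι → G) × (ι → Bool), |chi (Pi.single i (1 : ℝ)) x| ^ s') ^ (1 / s') =
      ((Fintype.card ((ι → G) × (ι → Bool)) : ℝ) * (Fintype.card G : ℝ)⁻¹) ^ (1 / s') := by
  congr 1
  have h2 : ∀ x : (ι → G) × (ι → Bool), |chi (Pi.single i (1 : ℝ)) x| ^ s' = ind0 (x.1 i) := by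
    intro x
    have h3 : chi (Pi.single i (1 : ℝ)) x = sg (x.2 i) * ind0 (x.1 i) := by
      unfold chi
      rw [Finset.sum_eq_single i]
      · simp
      · intro b _ hb
        simp [hb]
      · intro h
        exact absurd (Finset.mem_univ _) h
    rw [h3, abs_mul, abs_sg, one_mul, abs_of_nonneg (ind0_nonneg _), ind0_rpow _ h1]
  rw [Finset.sum_congr rfl fun x _ => h2 x, Fintype.sum_prod_type, card_Om]
  simp only [Finset.sum_const, Finset.card_univ, nsmul_eq_mul]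
  rw [← Finset.mul_sum, sum_ind0]
  simp
  ring

/-- Hölder's inequality for the pairing. -/
theorem holder_pair {κ : Type*} [Fintype κ] {p : ℝ≥0∞} [hp1 : Fact (1 ≤ p)] {s' : ℝ}
    (hconj : p.toReal.HolderConjugate s') (f : PiLp p (fun _ : κ => 𝕜)) (g : κ → ℝ) :
    ‖∑ x, f x * (g x : 𝕜)‖ ≤ ‖f‖ * (∑ x, |g x| ^ s') ^ (1 / s') := by
  have e5 := Real.inner_le_Lp_mul_Lq Finset.univ (fun x => ‖f x‖) (fun x => |g x|) hconj
  rw [PiLp.norm_eq_sum hconj.pos]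
  simp only [abs_norm, abs_abs] at e5
  refine le_trans ?_ e5
  refine (norm_sum_le _ _).trans (le_of_eq ?_)
  exact Finset.sum_congr rfl fun x _ => by rw [norm_mul, RCLike.norm_ofReal]

/-- The operator `B`. -/
noncomputable def chiL (𝕜 : Type*) [RCLike 𝕜] (G : Type*) [AddCommGroup G] [DecidableEq G]
    (ι : Type*) [Fintype ι] (p : ℝ≥0∞) (c : ℝ) :
    (ι → 𝕜) →ₗ[𝕜] PiLp p (fun _ : (ι → G) × (ι → Bool) => 𝕜) where
  toFun a := WithLp.toLp p fun x => (c : 𝕜) * chi a x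
  map_add' a b := by
    ext x
    change (c : 𝕜) * chi (a + b) x = (c : 𝕜) * chi a x + (c : 𝕜) * chi b x
    rw [chi_add, mul_add]
  map_smul' z a := by
    ext x
    change (c : 𝕜) * chi (z • a) x = z * ((c : 𝕜) * chi a x)
    rw [chi_smul, mul_left_comm]

theorem chiL_apply (p : ℝ≥0∞) (c : ℝ) (a : ι → 𝕜) (x : (ι → G) × (ι → Bool)) :
    chiL 𝕜 G ι p c a x = (c : 𝕜) * chi a x := rfl

/-- The constant in the bound for `B`. -/
noncomputable def bc (s : ℝ) : ℝ := (kc s * (2 ^ (s / 2) + (2 ^ (s / 2)) ^ (s / 2))) ^ (1 / s)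

theorem bc_nonneg (s : ℝ) : 0 ≤ bc s := by
  unfold bc
  have := kc_pos s
  positivity

theorem norm_chiL_le {p : ℝ≥0∞} [hp1 : Fact (1 ≤ p)] (hp2 : 2 ≤ p.toReal) (a : ι → 𝕜) :
    ‖chiL 𝕜 G ι p (((Fintype.card ((ι → G) × (ι → Bool)) : ℝ) * (Fintype.card G : ℝ)⁻¹) ^
      (-(1 / p.toReal))) a‖ ≤ bc p.toReal * (‖(WithLp.toLp p a : PiLp p (fun _ : ι => 𝕜))‖ +
        (Fintype.card G : ℝ) ^ (-(1 / 2 - 1 / p.toReal)) *
          ‖(WithLp.toLp 2 a : PiLp 2 (fun _ : ι => 𝕜))‖) := by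
  set s := p.toReal with hs
  have hs0 : 0 < s := by linarith
  set N : ℝ := (Fintype.card ((ι → G) × (ι → Bool)) : ℝ) with hN
  have hNpos : 0 < N := by rw [hN]; exact_mod_cast Fintype.card_pos
  set M : ℝ := (Fintype.card G : ℝ) with hM
  have hMpos : 0 < M := by rw [hM]; exact_mod_cast Fintype.card_pos
  set c : ℝ := (N * M⁻¹) ^ (-(1 / s)) with hc
  have hNM : 0 < N * M⁻¹ := by positivity
  have hc0 : 0 < c := Real.rpow_pos_of_pos hNM _
  have hcs : c ^ s * (N * M⁻¹) = 1 := by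
    rw [hc, ← Real.rpow_mul hNM.le]
    have : -(1 / s) * s = -1 := by field_simp
    rw [this, Real.rpow_neg_one, inv_mul_cancel₀ hNM.ne']
  set w : ℝ := M ^ (-(1 / 2 - 1 / s)) with hw
  have hw0 : 0 < w := Real.rpow_pos_of_pos hMpos _
  have hkc := kc_pos s
  set A : ℝ := ∑ i, ‖a i‖ ^ s with hA
  set B : ℝ := ∑ i, ‖a i‖ ^ 2 with hB
  have hA0 : 0 ≤ A := Finset.sum_nonneg fun i _ => Real.rpow_nonneg (norm_nonneg _) _
  have hB0 : 0 ≤ B := Finset.sum_nonneg fun i _ => by positivity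
  have h1 := chi_moment (𝕜 := 𝕜) (G := G) hp2 a
  rw [← hN, ← hM, ← hA, ← hB] at h1
  have h2 : ‖chiL 𝕜 G ι p c a‖ = (∑ x : (ι → G) × (ι → Bool), (c * ‖chi a x‖) ^ s) ^ (1 / s) := by
    rw [PiLp.norm_eq_sum hs0]
    congr 1
    refine Finset.sum_congr rfl fun x _ => ?_
    rw [chiL_apply, norm_mul, RCLike.norm_ofReal, abs_of_pos hc0]
  have hna : ‖(WithLp.toLp p a : PiLp p (fun _ : ι => 𝕜))‖ = A ^ (1 / s) := by
    rw [PiLp.norm_eq_sum hs0]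
  have hnb : ‖(WithLp.toLp 2 a : PiLp 2 (fun _ : ι => 𝕜))‖ = B ^ ((1 : ℝ) / 2) := by
    rw [EuclideanSpace.norm_eq, Real.sqrt_eq_rpow]
  rw [h2, hna, hnb]
  have hws : w ^ s = M * (M⁻¹) ^ (s / 2) := by
    rw [hw, ← Real.rpow_mul hMpos.le, Real.inv_rpow hMpos.le, ← Real.rpow_neg hMpos.le]
    nth_rewrite 2 [← Real.rpow_one M]
    rw [← Real.rpow_add hMpos]
    congr 1
    field_simp
    ring
  have h3 : ∑ x : (ι → G) × (ι → Bool), (c * ‖chi a x‖) ^ s ≤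
      (kc s * (2 ^ (s / 2) + (2 ^ (s / 2)) ^ (s / 2))) * (A + (w * B ^ ((1 : ℝ) / 2)) ^ s) := by
    have e1 : ∑ x : (ι → G) × (ι → Bool), (c * ‖chi a x‖) ^ s =
        c ^ s * ∑ x : (ι → G) × (ι → Bool), ‖chi a x‖ ^ s := by
      rw [Finset.mul_sum]
      exact Finset.sum_congr rfl fun x _ => Real.mul_rpow hc0.le (norm_nonneg _)
    have e2 : (2 ^ (s / 2) * (M⁻¹ * B)) ^ (s / 2) =
        (2 ^ (s / 2)) ^ (s / 2) * ((M⁻¹) ^ (s / 2) * B ^ (s / 2)) := by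
      rw [Real.mul_rpow (by positivity) (by positivity), Real.mul_rpow (by positivity) hB0]
    have e3 : (w * B ^ ((1 : ℝ) / 2)) ^ s = M * (M⁻¹) ^ (s / 2) * B ^ (s / 2) := by
      rw [Real.mul_rpow hw0.le (Real.rpow_nonneg hB0 _), hws, ← Real.rpow_mul hB0]
      congr 2
      ring
    have hE : 0 ≤ (2 : ℝ) ^ (s / 2) := by positivity
    have hE2 : 0 ≤ ((2 : ℝ) ^ (s / 2)) ^ (s / 2) := by positivity
    have hBs : 0 ≤ M * (M⁻¹) ^ (s / 2) * B ^ (s / 2) := by positivity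
    calc ∑ x : (ι → G) × (ι → Bool), (c * ‖chi a x‖) ^ s
        ≤ c ^ s * (N * (kc s * (2 ^ (s / 2) * (M⁻¹ * A) + (2 ^ (s / 2) * (M⁻¹ * B)) ^ (s / 2)))) := by
          rw [e1]
          gcongr
      _ = (c ^ s * (N * M⁻¹)) * (kc s * (2 ^ (s / 2) * A +
          (2 ^ (s / 2)) ^ (s / 2) * (M * (M⁻¹) ^ (s / 2) * B ^ (s / 2)))) := by
          rw [e2]
          field_simp
      _ = kc s * (2 ^ (s / 2) * A +
          (2 ^ (s / 2)) ^ (s / 2) * (M * (M⁻¹) ^ (s / 2) * B ^ (s / 2))) := by rw [hcs, one_mul]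
      _ ≤ kc s * ((2 ^ (s / 2) + (2 ^ (s / 2)) ^ (s / 2)) * A +
          (2 ^ (s / 2) + (2 ^ (s / 2)) ^ (s / 2)) * (M * (M⁻¹) ^ (s / 2) * B ^ (s / 2))) := by
          gcongr
          · linarith
          · linarith
      _ = _ := by rw [e3]; ring
  have h4 : A + (w * B ^ ((1 : ℝ) / 2)) ^ s ≤ (A ^ (1 / s) + w * B ^ ((1 : ℝ) / 2)) ^ s := by
    have := Real.add_rpow_le_rpow_add (p := s) (a := A ^ (1 / s)) (b := w * B ^ ((1 : ℝ) / 2))
      (by positivity) (by positivity) (by linarith)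
    rwa [← Real.rpow_mul hA0, one_div_mul_cancel hs0.ne', Real.rpow_one] at this
  have hsumnn : 0 ≤ ∑ x : (ι → G) × (ι → Bool), (c * ‖chi a x‖) ^ s :=
    Finset.sum_nonneg fun x _ => Real.rpow_nonneg (by positivity) _
  have hCnn : 0 ≤ kc s * (2 ^ (s / 2) + (2 ^ (s / 2)) ^ (s / 2)) := by positivity
  calc (∑ x : (ι → G) × (ι → Bool), (c * ‖chi a x‖) ^ s) ^ (1 / s)
      ≤ ((kc s * (2 ^ (s / 2) + (2 ^ (s / 2)) ^ (s / 2))) *
          (A ^ (1 / s) + w * B ^ ((1 : ℝ) / 2)) ^ s) ^ (1 / s) := by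
        refine Real.rpow_le_rpow hsumnn (h3.trans ?_) (by positivity)
        exact mul_le_mul_of_nonneg_left h4 hCnn
    _ = bc s * (A ^ (1 / s) + w * B ^ ((1 : ℝ) / 2)) := by
        rw [Real.mul_rpow hCnn (by positivity),
          ← Real.rpow_mul (x := A ^ (1 / s) + w * B ^ ((1 : ℝ) / 2)) (by positivity),
          mul_one_div_cancel hs0.ne', Real.rpow_one]
        rfl

end Pool.Agent.H14.NP
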