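import Pool.Agent.H14.NP.Tail

/-!
# Combining complemented pieces placed in the tails of a basis
-/

open Filter Topology
open scoped ENNReal

namespace Pool.Agent.H14.NP

variable {𝕜 : Type*} [RCLike 𝕜] {E : Type*} [NormedAddCommGroup E] [NormedSpace 𝕜 E]

/-- `F` can be placed, complementably, in arbitrarily late finite pieces. -/
def TailEmb (P : ℕ → E →L[𝕜] E) (C : ℝ) (F : Type*) [NormedAddCommGroup F] [NormedSpace 𝕜 F] :
    Prop :=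
  ∀ k : ℕ, ∃ (l : ℕ) (i : F →L[𝕜] E) (q : E →L[𝕜] F), k ≤ l ∧ (∀ x, q (i x) = x) ∧
    (∀ x, P l (i x) = i x) ∧ (∀ x, P k (i x) = 0) ∧ (∀ v, q (P l v) = q v) ∧
    (∀ v, q (P k v) = 0) ∧ ‖i‖ ≤ C ∧ ‖q‖ ≤ C

theorem TailEmb.isometry {P : ℕ → E →L[𝕜] E} {C : ℝ} {F F' : Type*} [NormedAddCommGroup F]
    [NormedSpace 𝕜 F] [NormedAddCommGroup F'] [NormedSpace 𝕜 F'] (h : TailEmb P C F)
    (R : F' ≃ₗᵢ[𝕜] F) : TailEmb P C F' := by
  intro k
  obtain ⟨l, i, q, hkl, h1, h2, h3, h4, h5, h6, h7⟩ := h k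
  have hC : 0 ≤ C := (norm_nonneg _).trans h6
  refine ⟨l, i.comp (R.toContinuousLinearEquiv : F' →L[𝕜] F),
    (R.symm.toContinuousLinearEquiv : F →L[𝕜] F').comp q, hkl, ?_, ?_, ?_, ?_, ?_, ?_, ?_⟩
  · intro x
    change R.symm (q (i (R x))) = x
    rw [h1, R.symm_apply_apply]
  · intro x
    exact h2 _
  · intro x
    exact h3 _
  · intro v
    change R.symm (q (P l v)) = R.symm (q v)
    rw [h4]
  · intro v
    change R.symm (q (P k v)) = 0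
    rw [h5, map_zero]
  · refine ContinuousLinearMap.opNorm_le_bound _ hC fun x => ?_
    change ‖i (R x)‖ ≤ C * ‖x‖
    calc ‖i (R x)‖ ≤ ‖i‖ * ‖R x‖ := i.le_opNorm _
      _ ≤ C * ‖x‖ := by
          rw [R.norm_map]
          gcongr
  · refine ContinuousLinearMap.opNorm_le_bound _ hC fun x => ?_
    change ‖R.symm (q x)‖ ≤ C * ‖x‖
    rw [R.symm.norm_map]
    exact (q.le_opNorm _).trans (by gcongr)

theorem TailEmb.prod {P : ℕ → E →L[𝕜] E} (hPP : ∀ n m v, P n (P m v) = P (min n m) v) {C : ℝ}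
    {F1 F2 : Type*} [NormedAddCommGroup F1] [NormedSpace 𝕜 F1] [NormedAddCommGroup F2]
    [NormedSpace 𝕜 F2] (hF1 : TailEmb P C F1) (hF2 : TailEmb P C F2) :
    TailEmb P (2 * C) (F1 × F2) := by
  intro k
  obtain ⟨l1, i1, q1, hkl1, a1, a2, a3, a4, a5, a6, a7⟩ := hF1 k
  obtain ⟨l2, i2, q2, hkl2, b1, b2, b3, b4, b5, b6, b7⟩ := hF2 l1
  have hC : 0 ≤ C := (norm_nonneg _).trans a6
  have c1 : ∀ y, q1 (i2 y) = 0 := by
    intro y
    rw [← a4, b3, map_zero]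
  have c2 : ∀ x, q2 (i1 x) = 0 := by
    intro x
    rw [← a2 x, b5]
  refine ⟨l2, i1.comp (ContinuousLinearMap.fst 𝕜 F1 F2) + i2.comp (ContinuousLinearMap.snd 𝕜 F1 F2),
    q1.prod q2, hkl1.trans hkl2, ?_, ?_, ?_, ?_, ?_, ?_, ?_⟩
  · rintro ⟨x, y⟩
    change (q1 (i1 x + i2 y), q2 (i1 x + i2 y)) = (x, y)
    rw [map_add, map_add, a1, b1, c1, c2, add_zero, zero_add]
  · rintro ⟨x, y⟩
    change P l2 (i1 x + i2 y) = i1 x + i2 y
    rw [map_add, b2]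
    congr 1
    rw [← a2 x, hPP, min_eq_right hkl2]
  · rintro ⟨x, y⟩
    change P k (i1 x + i2 y) = 0
    rw [map_add, a3, zero_add]
    have := hPP k l1 (i2 y)
    rw [b3, map_zero, min_eq_left hkl1] at this
    exact this.symm
  · intro v
    change (q1 (P l2 v), q2 (P l2 v)) = (q1 v, q2 v)
    rw [b4, ← a4 (P l2 v), hPP, min_eq_left hkl2, a4]
  · intro v
    change (q1 (P k v), q2 (P k v)) = 0
    have h1 : P k v = P l1 (P k v) := by rw [hPP, min_eq_right hkl1]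
    rw [a5, h1, b5]
    rfl
  · refine ContinuousLinearMap.opNorm_le_bound _ (by positivity) fun z => ?_
    change ‖i1 z.1 + i2 z.2‖ ≤ 2 * C * ‖z‖
    calc ‖i1 z.1 + i2 z.2‖ ≤ ‖i1 z.1‖ + ‖i2 z.2‖ := norm_add_le _ _
      _ ≤ C * ‖z.1‖ + C * ‖z.2‖ := add_le_add ((i1.le_opNorm _).trans (by gcongr))
          ((i2.le_opNorm _).trans (by gcongr))
      _ ≤ C * ‖z‖ + C * ‖z‖ := by
          gcongr
          · exact norm_fst_le z
          · exact norm_snd_le z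
      _ = 2 * C * ‖z‖ := by ring
  · refine ContinuousLinearMap.opNorm_le_bound _ (by positivity) fun v => ?_
    change ‖(q1 v, q2 v)‖ ≤ 2 * C * ‖v‖
    rw [Prod.norm_def]
    have h1 : ‖q1 v‖ ≤ C * ‖v‖ := (q1.le_opNorm _).trans (by gcongr)
    have h2 : ‖q2 v‖ ≤ C * ‖v‖ := (q2.le_opNorm _).trans (by gcongr)
    have h3 : 0 ≤ C * ‖v‖ := by positivity
    exact max_le (by simp only; linarith) (by simp only; linarith)

theorem TailEmb.mono {P : ℕ → E →L[𝕜] E} {C C' : ℝ} (hCC : C ≤ C') {F : Type*}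
    [NormedAddCommGroup F] [NormedSpace 𝕜 F] (h : TailEmb P C F) : TailEmb P C' F := by
  intro k
  obtain ⟨l, i, q, hkl, h1, h2, h3, h4, h5, h6, h7⟩ := h k
  exact ⟨l, i, q, hkl, h1, h2, h3, h4, h5, h6.trans hCC, h7.trans hCC⟩

variable {p : ℝ≥0∞} [hp1 : Fact (1 ≤ p)]

theorem UnifCompl.tailEmb [CompleteSpace E] (h : UnifCompl 𝕜 E p) (P : ℕ → E →L[𝕜] E) (CP : ℝ)
    (hPC : ∀ n, ‖P n‖ ≤ CP) (hPP : ∀ n m v, P n (P m v) = P (min n m) v)
    (hPt : ∀ v, Tendsto (fun n => P n v) atTop (𝓝 v))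
    (hPf : ∀ n, ∃ V : Submodule 𝕜 E, FiniteDimensional 𝕜 V ∧ ∀ v, P n v ∈ V) :
    ∃ C : ℝ, 0 ≤ C ∧ ∀ (ι : Type) [Fintype ι], TailEmb P C (PiLp p (fun _ : ι => 𝕜)) := by
  obtain ⟨C, hC0, hC⟩ := h.tail P CP hPC hPP hPt hPf
  refine ⟨C, hC0, fun ι _ => ?_⟩
  have h1 : TailEmb P C (PiLp p (fun _ : Fin (Fintype.card ι) => 𝕜)) := fun k =>
    hC (Fintype.card ι) k
  exact h1.isometry (LinearIsometryEquiv.piLpCongrLeft p 𝕜 𝕜 (Fintype.equivFin ι))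

end Pool.Agent.H14.NP
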