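import Mathlib

/-!
# Bases, basic sequences, property (NP)
-/

open Filter Topology

namespace Pool.Agent.H14.NP

variable (𝕜 : Type*) [RCLike 𝕜] {E : Type*} [NormedAddCommGroup E] [NormedSpace 𝕜 E]

/-- `x` is a (Schauder) basis of `E`: every vector of `E` has a unique norm-convergent expansion
`∑ a m • x m`. -/
def IsBasis (x : ℕ → E) : Prop :=
  ∀ v : E, ∃! a : ℕ → 𝕜, Tendsto (fun n => ∑ i ∈ Finset.range n, a i • x i) atTop (𝓝 v)

/-- `y` is a basic sequence: it is a basis of its closed linear span. -/
def IsBasicSeq (y : ℕ → E) : Prop :=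
  ∀ v ∈ (Submodule.span 𝕜 (Set.range y)).topologicalClosure,
    ∃! a : ℕ → 𝕜, Tendsto (fun n => ∑ i ∈ Finset.range n, a i • y i) atTop (𝓝 v)

/-- `y` extends to a basis of `E`: it is a subsequence of some basis of `E`. -/
def ExtendsToBasis (y : ℕ → E) : Prop :=
  ∃ x : ℕ → E, IsBasis 𝕜 x ∧ ∃ k : ℕ → ℕ, StrictMono k ∧ ∀ n, y n = x (k n)

variable (E) in
/-- Property (NP): some basic sequence of `E` has no permutation that extends to a basis of `E`. -/
def PropNP : Prop :=
  ∃ y : ℕ → E, IsBasicSeq 𝕜 y ∧ ∀ σ : Equiv.Perm ℕ, ¬ ExtendsToBasis 𝕜 (y ∘ σ)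

variable {𝕜}

/-! ### Continuity of the partial sum projections (Banach) -/

/-- In a Banach space the partial sum operators of a basis are bounded, uniformly. -/
theorem IsBasis.exists_proj [CompleteSpace E] {x : ℕ → E} (hx : IsBasis 𝕜 x) :
    ∃ (P : ℕ → E →L[𝕜] E) (C : ℝ), 0 ≤ C ∧ (∀ n, ‖P n‖ ≤ C) ∧
      (∀ n i, P n (x i) = if i < n then x i else 0) ∧
      (∀ v, Tendsto (fun n => P n v) atTop (𝓝 v)) ∧
      (∀ n v, ∃ a : ℕ → 𝕜, P n v = ∑ i ∈ Finset.range n, a i • x i) ∧
      (∀ n m v, P n (P m v) = P (min n m) v) := by
  classical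
  choose a ha hu using hx
  have hadd : ∀ v w, a (v + w) = a v + a w := by
    intro v w
    refine (hu (v + w) (a v + a w) ?_).symm
    have := (ha v).add (ha w)
    refine this.congr fun n => ?_
    rw [← Finset.sum_add_distrib]
    exact Finset.sum_congr rfl fun i _ => by simp [add_smul]
  have hsmul : ∀ (c : 𝕜) v, a (c • v) = c • a v := by
    intro c v
    refine (hu (c • v) (c • a v) ?_).symm
    have := (ha v).const_smul c
    refine this.congr fun n => ?_
    rw [Finset.smul_sum]
    exact Finset.sum_congr rfl fun i _ => by simp [mul_smul]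
  have hbasis : ∀ i, a (x i) = Pi.single i 1 := by
    intro i
    refine (hu (x i) (Pi.single i 1) ?_).symm
    refine tendsto_const_nhds.congr' ?_
    filter_upwards [eventually_gt_atTop i] with n hn
    rw [Finset.sum_eq_single i]
    · simp
    · intro j _ hj
      simp [Pi.single_eq_of_ne hj]
    · intro h
      exact absurd (Finset.mem_range.2 hn) h
  have hne : ∀ i, x i ≠ 0 := by
    intro i h0
    have h1 := hbasis i
    have h2 : a (0 : E) = 0 := by
      have := hsmul 0 0
      simpa using this
    rw [h0, h2] at h1
    have := congrFun h1 i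
    simp at this
  -- partial sums
  let S : E → ℕ → E := fun v n => ∑ i ∈ Finset.range n, a v i • x i
  have hSt : ∀ v, Tendsto (S v) atTop (𝓝 v) := ha
  have hbdd : ∀ v, ∃ C, ∀ n, ‖S v n‖ ≤ C := by
    intro v
    obtain ⟨M, hM⟩ := isBounded_iff_forall_norm_le.mp
      (Metric.isBounded_range_of_tendsto (S v) (hSt v))
    exact ⟨M, Set.forall_mem_range.mp hM⟩
  let B : E → BoundedContinuousFunction ℕ E := fun v =>
    BoundedContinuousFunction.ofNormedAddCommGroupDiscrete (S v) (hbdd v).choose
      (hbdd v).choose_spec
  have hB : ∀ v n, B v n = S v n := fun v n => rfl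
  let L : E →ₗ[𝕜] BoundedContinuousFunction ℕ E :=
    { toFun := B
      map_add' := by
        intro v w
        ext n
        simp only [BoundedContinuousFunction.coe_add, Pi.add_apply, hB, S]
        rw [← Finset.sum_add_distrib]
        exact Finset.sum_congr rfl fun i _ => by rw [hadd]; simp [add_smul]
      map_smul' := by
        intro c v
        ext n
        simp only [BoundedContinuousFunction.coe_smul, hB, S, RingHom.id_apply]
        rw [Finset.smul_sum]
        exact Finset.sum_congr rfl fun i _ => by rw [hsmul]; simp [mul_smul] }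
  have hL : ∀ v n, L v n = S v n := fun v n => rfl
  -- the lines spanned by the basis vectors are closed
  have hline : ∀ i, IsClosed ((Submodule.span 𝕜 {x i} : Submodule 𝕜 E) : Set E) := fun i =>
    Submodule.closed_of_finiteDimensional _
  have hcont : Continuous L := by
    refine LinearMap.continuous_of_seq_closed_graph L ?_
    intro u v w hu' hw
    have hpt : ∀ n, Tendsto (fun k => S (u k) n) atTop (𝓝 (w n)) := by
      intro n
      have := ((BoundedContinuousFunction.evalCLM 𝕜 (β := E) n).continuous.tendsto w).comp hw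
      exact this
    have hdiff : ∀ n, w (n + 1) - w n ∈ (Submodule.span 𝕜 {x n} : Submodule 𝕜 E) := by
      intro n
      have h1 : Tendsto (fun k => S (u k) (n + 1) - S (u k) n) atTop (𝓝 (w (n + 1) - w n)) :=
        (hpt (n + 1)).sub (hpt n)
      refine (hline n).mem_of_tendsto h1 (Eventually.of_forall fun k => ?_)
      have : S (u k) (n + 1) - S (u k) n = a (u k) n • x n := by
        simp only [S, Finset.sum_range_succ, add_sub_cancel_left]
      simp only [SetLike.mem_coe]
      rw [this]
      exact Submodule.smul_mem _ _ (Submodule.subset_span rfl)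
    have hd : ∀ n, ∃ c : 𝕜, c • x n = w (n + 1) - w n := fun n =>
      Submodule.mem_span_singleton.1 (hdiff n)
    choose c hc using hd
    have h0 : w 0 = 0 := by
      have := hpt 0
      simp only [S, Finset.range_zero, Finset.sum_empty] at this
      exact (tendsto_nhds_unique this tendsto_const_nhds)
    have hsum : ∀ n, w n = ∑ i ∈ Finset.range n, c i • x i := by
      intro n
      induction n with
      | zero => simpa using h0
      | succ n ih => rw [Finset.sum_range_succ, ← ih, hc]; abel
    have hlim : Tendsto (fun n => w n) atTop (𝓝 v) := by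
      rw [Metric.tendsto_atTop]
      intro ε hε
      have hw' := Metric.tendsto_atTop.1 hw (ε / 3) (by positivity)
      have hu'' := Metric.tendsto_atTop.1 hu' (ε / 3) (by positivity)
      obtain ⟨k1, hk1⟩ := hw'
      obtain ⟨k2, hk2⟩ := hu''
      set k := max k1 k2
      have e1 : dist (L (u k)) w < ε / 3 := hk1 k (le_max_left _ _)
      have e2 : dist (u k) v < ε / 3 := hk2 k (le_max_right _ _)
      obtain ⟨n0, hn0⟩ := Metric.tendsto_atTop.1 (hSt (u k)) (ε / 3) (by positivity)
      refine ⟨n0, fun n hn => ?_⟩
      have e3 := hn0 n hn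
      have e4 : dist (w n) (S (u k) n) < ε / 3 := by
        rw [dist_comm, ← hL]
        exact (BoundedContinuousFunction.dist_coe_le_dist n).trans_lt e1
      calc dist (w n) v ≤ dist (w n) (S (u k) n) + dist (S (u k) n) (u k) + dist (u k) v :=
            dist_triangle4 _ _ _ _
        _ < ε / 3 + ε / 3 + ε / 3 := by gcongr
        _ = ε := by ring
    have hcv : c = a v := hu v c (by
      refine hlim.congr fun n => ?_
      exact hsum n)
    ext n
    rw [hL, hsum n, hcv]
  -- now the projections
  let LC : E →L[𝕜] BoundedContinuousFunction ℕ E := ⟨L, hcont⟩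
  let P : ℕ → E →L[𝕜] E := fun n => (BoundedContinuousFunction.evalCLM 𝕜 n).comp LC
  have hP : ∀ n v, P n v = S v n := fun n v => rfl
  refine ⟨P, ‖LC‖, norm_nonneg _, ?_, ?_, ?_, ?_, ?_⟩
  · intro n
    refine ContinuousLinearMap.opNorm_le_bound _ (norm_nonneg _) fun v => ?_
    calc ‖P n v‖ = ‖(LC v) n‖ := rfl
      _ ≤ ‖LC v‖ := BoundedContinuousFunction.norm_coe_le_norm _ n
      _ ≤ ‖LC‖ * ‖v‖ := LC.le_opNorm v
  · intro n i
    rw [hP]
    simp only [S, hbasis]
    split_ifs with h
    · rw [Finset.sum_eq_single i]
      · simp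
      · intro j _ hj
        simp [Pi.single_eq_of_ne hj]
      · intro h'
        exact absurd (Finset.mem_range.2 h) h'
    · refine Finset.sum_eq_zero fun j hj => ?_
      have : j ≠ i := by
        rintro rfl
        exact h (Finset.mem_range.1 hj)
      simp [Pi.single_eq_of_ne this]
  · intro v
    exact hSt v
  · intro n v
    exact ⟨a v, rfl⟩
  · intro n m v
    have hPb : ∀ n i, P n (x i) = if i < n then x i else 0 := by
      intro n i
      rw [hP]
      simp only [S, hbasis]
      split_ifs with h
      · rw [Finset.sum_eq_single i]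
        · simp
        · intro j _ hj
          simp [Pi.single_eq_of_ne hj]
        · intro h'
          exact absurd (Finset.mem_range.2 h) h'
      · refine Finset.sum_eq_zero fun j hj => ?_
        have : j ≠ i := by
          rintro rfl
          exact h (Finset.mem_range.1 hj)
        simp [Pi.single_eq_of_ne this]
    rw [hP m v, hP (min n m) v]
    simp only [S, map_sum, map_smul, hPb]
    rw [Finset.sum_congr rfl (g := fun i => if i < n then a v i • x i else 0)]
    · rw [← Finset.sum_filter]
      congr 1
      ext i
      simp only [Finset.mem_filter, Finset.mem_range, lt_min_iff]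
      tauto
    · intro i _
      split_ifs <;> simp

end Pool.Agent.H14.NP
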