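import Pool.Agent.H14.NP.Grunblum

/-!
# Gluing finite blocks into a basic sequence
-/

open Filter Topology

namespace Pool.Agent.H14.NP

variable {𝕜 : Type*} [RCLike 𝕜] {E : Type*} [NormedAddCommGroup E] [NormedSpace 𝕜 E]

/-- If the tails of a basis of `E` carry finite basic blocks with a uniform constant, whose
half-splittings do not extend to operators of bounded norm, then `E` has (NP). -/
theorem propNP_of_blocks [CompleteSpace E] (P : ℕ → E →L[𝕜] E) (CP : ℝ)
    (hPC : ∀ n, ‖P n‖ ≤ CP) (hPP : ∀ n m v, P n (P m v) = P (min n m) v) (C : ℝ)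
    (hblk : ∀ (K : ℝ) (k : ℕ), ∃ (l h : ℕ) (y : ℕ → E), 0 < h ∧ k ≤ l ∧
      (∀ j < 2 * h, P l (y j) = y j ∧ P k (y j) = 0 ∧ y j ≠ 0) ∧
      (∀ (a : ℕ → 𝕜) (r : ℕ), r ≤ 2 * h →
        ‖∑ j ∈ Finset.range r, a j • y j‖ ≤ C * ‖∑ j ∈ Finset.range (2 * h), a j • y j‖) ∧
      (∀ A ⊆ Finset.range (2 * h), A.card = h → ∀ T : E →L[𝕜] E,
        (∀ j < 2 * h, T (y j) = if j ∈ A then y j else 0) → K ≤ ‖T‖)) :
    PropNP 𝕜 E := by
  classical
  choose l h y hpos hkl hy hgr hT using hblk
  let kk : ℕ → ℕ := fun N => Nat.rec 0 (fun N k => l (N : ℝ) k) N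
  have hkk : ∀ N, kk (N + 1) = l (N : ℝ) (kk N) := fun N => rfl
  let H : ℕ → ℕ := fun N => h (N : ℝ) (kk N)
  let Y : ℕ → ℕ → E := fun N => y (N : ℝ) (kk N)
  have hkmono : Monotone kk := monotone_nat_of_le_succ fun N => by
    rw [hkk]; exact hkl _ _
  let M : ℕ → ℕ := fun N => ∑ i ∈ Finset.range N, 2 * H i
  have hM0 : M 0 = 0 := by simp [M]
  have hMs : ∀ N, M (N + 1) = M N + 2 * H N := fun N => by simp [M, Finset.sum_range_succ]
  have hHpos : ∀ N, 0 < H N := fun N => hpos _ _
  have hMmono : StrictMono M := strictMono_nat_of_lt_succ fun N => by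
    rw [hMs]; have := hHpos N; omega
  have hex : ∀ n, ∃ N, M N ≤ n ∧ n < M (N + 1) := by
    intro n
    have hlt : ∃ N, n < M (N + 1) := ⟨n, lt_of_lt_of_le (Nat.lt_succ_self n)
      (hMmono.le_apply (x := n + 1))⟩
    refine ⟨Nat.find hlt, ?_, Nat.find_spec hlt⟩
    rcases Nat.eq_zero_or_pos (Nat.find hlt) with h0 | h0
    · rw [h0, hM0]; exact Nat.zero_le _
    · have h1 := Nat.find_min hlt (m := Nat.find hlt - 1) (by omega)
      have h2 : Nat.find hlt - 1 + 1 = Nat.find hlt := by omega
      rw [h2] at h1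
      omega
  choose b hb1 hb2 using hex
  have hbu : ∀ n N, M N ≤ n → n < M (N + 1) → b n = N := by
    intro n N h1 h2
    have h3 : b n < N + 1 := hMmono.lt_iff_lt.1 ((hb1 n).trans_lt h2)
    have h4 : N < b n + 1 := hMmono.lt_iff_lt.1 (h1.trans_lt (hb2 n))
    omega
  let z : ℕ → E := fun n => Y (b n) (n - M (b n))
  have hz : ∀ N j, j < 2 * H N → z (M N + j) = Y N j := by
    intro N j hj
    have : b (M N + j) = N := hbu _ _ (Nat.le_add_right _ _) (by rw [hMs]; omega)
    simp only [z, this, Nat.add_sub_cancel_left]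
  have hzb : ∀ n, ∃ j, j < 2 * H (b n) ∧ z n = Y (b n) j := fun n =>
    ⟨n - M (b n), by have h1 := hb1 n; have h2 := hb2 n; rw [hMs] at h2; omega, rfl⟩
  have hYP : ∀ N j, j < 2 * H N → P (kk (N + 1)) (Y N j) = Y N j ∧ P (kk N) (Y N j) = 0 ∧
      Y N j ≠ 0 := fun N j hj => hy _ _ j hj
  have hz0 : ∀ n, z n ≠ 0 := by
    intro n
    obtain ⟨j, hj, hjz⟩ := hzb n
    rw [hjz]
    exact (hYP _ j hj).2.2
  have hPz1 : ∀ N i, i < M N → P (kk N) (z i) = z i := by
    intro N i hi
    obtain ⟨j, hj, hjz⟩ := hzb i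
    have hbN : b i + 1 ≤ N := by
      have := hMmono.lt_iff_lt.1 ((hb1 i).trans_lt hi)
      omega
    rw [hjz]
    have h1 := (hYP (b i) j hj).1
    rw [← h1, hPP, min_eq_right (hkmono hbN)]
  have hPz2 : ∀ N i, M N ≤ i → P (kk N) (z i) = 0 := by
    intro N i hi
    obtain ⟨j, hj, hjz⟩ := hzb i
    have hbN : N ≤ b i := by
      have := hMmono.lt_iff_lt.1 (hi.trans_lt (hb2 i))
      omega
    rw [hjz]
    have h1 := (hYP (b i) j hj).2.1
    have h2 := hPP (kk N) (kk (b i)) (Y (b i) j)
    rw [h1, map_zero, min_eq_left (hkmono hbN)] at h2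
    exact h2.symm
  have hPsum : ∀ N m (a : ℕ → 𝕜), P (kk N) (∑ i ∈ Finset.range m, a i • z i)
      = ∑ i ∈ Finset.range (min m (M N)), a i • z i := by
    intro N m a
    rw [map_sum]
    have h1 : ∀ i ∈ Finset.range m, P (kk N) (a i • z i) = if i < M N then a i • z i else 0 := by
      intro i _
      rw [map_smul]
      split_ifs with hi
      · rw [hPz1 N i hi]
      · rw [hPz2 N i (not_lt.1 hi), smul_zero]
    rw [Finset.sum_congr rfl h1, ← Finset.sum_filter]
    congr 1
    ext i
    simp only [Finset.mem_filter, Finset.mem_range, lt_min_iff]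
  have hCP0 : 0 ≤ CP := (norm_nonneg _).trans (hPC 0)
  have hPle : ∀ n v, ‖P n v‖ ≤ CP * ‖v‖ := fun n v =>
    ((P n).le_opNorm v).trans (by gcongr; exact hPC n)
  have hC0 : 0 ≤ C := by
    have h1 := hgr 0 0 (fun j => if j = 0 then (1 : 𝕜) else 0) (2 * h 0 0) le_rfl
    have h2 : 0 < 2 * h 0 0 := by have := hpos 0 0; omega
    have h3 : ∑ j ∈ Finset.range (2 * h 0 0), (if j = 0 then (1 : 𝕜) else 0) • y 0 0 j = y 0 0 0 := by
      rw [Finset.sum_eq_single 0]
      · simp
      · intro j _ hj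
        simp [hj]
      · intro h'
        exact absurd (Finset.mem_range.2 h2) h'
    rw [h3] at h1
    have h4 : 0 < ‖y 0 0 0‖ := norm_pos_iff.2 (hy 0 0 0 h2).2.2
    nlinarith
  refine ⟨z, ?_, ?_⟩
  · refine isBasicSeq_of_grunblum hz0 (K := CP + C * (2 * CP)) ?_
    intro a n m hnm
    set v := ∑ i ∈ Finset.range m, a i • z i with hv
    set N := b n with hN
    have hn1 : M N ≤ n := hb1 n
    have hn2 : n < M (N + 1) := hb2 n
    have hn3 : n < M N + 2 * H N := by rw [← hMs]; exact hn2
    set r := n - M N with hr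
    have hnr : n = M N + r := by omega
    have e1 : ∑ i ∈ Finset.range n, a i • z i =
        P (kk N) v + ∑ j ∈ Finset.range r, a (M N + j) • Y N j := by
      rw [hv, hPsum, min_eq_right (hn1.trans hnm), hnr, Finset.sum_range_add]
      congr 1
      refine Finset.sum_congr rfl fun j hj => ?_
      rw [hz N j (by rw [Finset.mem_range] at hj; omega)]
    set r' := min m (M (N + 1)) - M N with hr'
    have hmin : min m (M (N + 1)) = M N + r' := by
      have : M N ≤ min m (M (N + 1)) := le_min (hn1.trans hnm) (hMmono.monotone (Nat.le_succ N))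
      omega
    have hr'le : r' ≤ 2 * H N := by
      have : min m (M (N + 1)) ≤ M (N + 1) := min_le_right _ _
      rw [hMs] at this hmin
      omega
    have hrr' : r ≤ r' := by
      have : n ≤ min m (M (N + 1)) := le_min hnm hn2.le
      omega
    have e2 : P (kk (N + 1)) v - P (kk N) v = ∑ j ∈ Finset.range r', a (M N + j) • Y N j := by
      rw [hv, hPsum (N + 1) m a, hPsum N m a, min_eq_right (hn1.trans hnm), hmin,
        Finset.sum_range_add, add_sub_cancel_left]
      refine Finset.sum_congr rfl fun j hj => ?_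
      rw [hz N j (by rw [Finset.mem_range] at hj; omega)]
    let a' : ℕ → 𝕜 := fun j => if j < r' then a (M N + j) else 0
    have h3 := hgr (N : ℝ) (kk N) a' r (hrr'.trans hr'le)
    have e3 : ∑ j ∈ Finset.range r, a' j • y (N : ℝ) (kk N) j
        = ∑ j ∈ Finset.range r, a (M N + j) • Y N j := by
      refine Finset.sum_congr rfl fun j hj => ?_
      rw [Finset.mem_range] at hj
      simp only [a', if_pos (hj.trans_le hrr'), Y]
    have e4 : ∑ j ∈ Finset.range (2 * h (N : ℝ) (kk N)), a' j • y (N : ℝ) (kk N) j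
        = ∑ j ∈ Finset.range r', a (M N + j) • Y N j := by
      symm
      rw [← Finset.sum_subset (Finset.range_mono hr'le)]
      · refine Finset.sum_congr rfl fun j hj => ?_
        rw [Finset.mem_range] at hj
        simp only [a', if_pos hj, Y]
      · intro j _ hj
        rw [Finset.mem_range] at hj
        simp only [a', if_neg hj, zero_smul]
    rw [e3, e4, ← e2] at h3
    rw [e1]
    calc ‖P (kk N) v + ∑ j ∈ Finset.range r, a (M N + j) • Y N j‖
        ≤ ‖P (kk N) v‖ + ‖∑ j ∈ Finset.range r, a (M N + j) • Y N j‖ := norm_add_le _ _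
      _ ≤ CP * ‖v‖ + C * ‖P (kk (N + 1)) v - P (kk N) v‖ := by
          gcongr
          exact hPle _ _
      _ ≤ CP * ‖v‖ + C * (CP * ‖v‖ + CP * ‖v‖) := by
          gcongr
          exact (norm_sub_le _ _).trans (add_le_add (hPle _ _) (hPle _ _))
      _ = (CP + C * (2 * CP)) * ‖v‖ := by ring
  · intro σ
    refine not_extends_of_blocks (fun K => ?_) σ
    obtain ⟨N, hN⟩ := exists_nat_ge K
    refine ⟨(Finset.range (2 * H N)).map (addLeftEmbedding (M N)), H N, ?_, ?_⟩
    · rw [Finset.card_map, Finset.card_range]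
    · intro A hA hAc T hTA
      refine hN.trans ?_
      let A' : Finset ℕ := (Finset.range (2 * H N)).filter fun j => M N + j ∈ A
      have hA' : A = A'.map (addLeftEmbedding (M N)) := by
        ext i
        simp only [Finset.mem_map, A', Finset.mem_filter, Finset.mem_range, addLeftEmbedding_apply]
        constructor
        · intro hi
          have := hA hi
          simp only [Finset.mem_map, Finset.mem_range, addLeftEmbedding_apply] at this
          obtain ⟨j, hj, rfl⟩ := this
          exact ⟨j, ⟨hj, hi⟩, rfl⟩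
        · rintro ⟨j, ⟨_, hj⟩, rfl⟩
          exact hj
      have hA'c : A'.card = H N := by
        rw [← hAc, hA', Finset.card_map]
      refine hT (N : ℝ) (kk N) A' (Finset.filter_subset _ _) hA'c T ?_
      intro j hj
      have h1 := hTA (M N + j) (by
        simp only [Finset.mem_map, Finset.mem_range, addLeftEmbedding_apply]
        exact ⟨j, hj, rfl⟩)
      rw [hz N j hj] at h1
      have h2 : (M N + j ∈ A) ↔ j ∈ A' := by
        simp only [A', Finset.mem_filter, Finset.mem_range]
        exact ⟨fun h => ⟨hj, h⟩, fun h => h.2⟩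
      simp only [h2] at h1
      exact h1

end Pool.Agent.H14.NP
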