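import Pool.Agent.H14.NP.Maps

/-!
# Uniformly complemented `ℓ_p^n`'s in the tails of a basis
-/

open Filter Topology
open scoped ENNReal

namespace Pool.Agent.H14.NP

variable {𝕜 : Type*} [RCLike 𝕜] {E : Type*} [NormedAddCommGroup E] [NormedSpace 𝕜 E]

/-- `E` contains uniformly complemented copies of the spaces `ℓ_p^n`: for some `C` and every `n`
there are operators `i : ℓ_p^n → E` and `q : E → ℓ_p^n` with `q ∘ i = id` and
`‖i‖ * ‖q‖ ≤ C`. -/
def UnifCompl (𝕜 : Type*) [RCLike 𝕜] (E : Type*) [NormedAddCommGroup E] [NormedSpace 𝕜 E]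
    (p : ℝ≥0∞) [Fact (1 ≤ p)] : Prop :=
  ∃ C : ℝ, ∀ n : ℕ, ∃ (i : PiLp p (fun _ : Fin n => 𝕜) →L[𝕜] E)
    (q : E →L[𝕜] PiLp p (fun _ : Fin n => 𝕜)), (∀ x, q (i x) = x) ∧ ‖i‖ * ‖q‖ ≤ C

variable {p : ℝ≥0∞} [hp1 : Fact (1 ≤ p)]

/-- Normalisation: `‖i‖ ≤ C`, `‖q‖ ≤ 1`. -/
theorem UnifCompl.normalize (h : UnifCompl 𝕜 E p) :
    ∃ C : ℝ, 0 ≤ C ∧ ∀ n : ℕ, ∃ (i : PiLp p (fun _ : Fin n => 𝕜) →L[𝕜] E)
      (q : E →L[𝕜] PiLp p (fun _ : Fin n => 𝕜)), (∀ x, q (i x) = x) ∧ ‖i‖ ≤ C ∧ ‖q‖ ≤ 1 := by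
  obtain ⟨C, hC⟩ := h
  have hC0 : 0 ≤ C := by
    obtain ⟨i, q, -, h⟩ := hC 0
    exact (mul_nonneg (norm_nonneg _) (norm_nonneg _)).trans h
  refine ⟨C, hC0, fun n => ?_⟩
  obtain ⟨i, q, hqi, hn⟩ := hC n
  rcases eq_or_ne q 0 with h0 | h0
  · refine ⟨0, 0, fun x => ?_, by simpa using hC0, by simp⟩
    have := hqi x
    rw [h0] at this
    simpa using this
  · have hq : 0 < ‖q‖ := norm_pos_iff.2 h0
    have hq' : (‖q‖ : 𝕜) ≠ 0 := by
      rw [Ne, RCLike.ofReal_eq_zero]; exact hq.ne'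
    refine ⟨(‖q‖ : 𝕜) • i, (‖q‖ : 𝕜)⁻¹ • q, fun x => ?_, ?_, ?_⟩
    · rw [_root_.smul_apply, _root_.smul_apply, map_smul, hqi,
        smul_smul, inv_mul_cancel₀ hq', one_smul]
    · rw [norm_smul, RCLike.norm_ofReal, abs_of_pos hq, mul_comm]
      exact hn
    · rw [norm_smul, norm_inv, RCLike.norm_ofReal, abs_of_pos hq, inv_mul_cancel₀ hq.ne']

/-- Norm of an operator on `ℓ_p^n` controlled by its values on the unit vectors. -/
theorem norm_apply_le_sum {n : ℕ} {F : Type*} [NormedAddCommGroup F] [NormedSpace 𝕜 F]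
    (T : PiLp p (fun _ : Fin n => 𝕜) →L[𝕜] F) (δ : ℝ)
    (hT : ∀ t, ‖T (PiLp.single p t (1 : 𝕜))‖ ≤ δ) (x : PiLp p (fun _ : Fin n => 𝕜)) :
    ‖T x‖ ≤ n * δ * ‖x‖ := by
  have hx : x = ∑ t, x t • (PiLp.single p t (1 : 𝕜)) := by
    have := (PiLp.basisFun p 𝕜 (Fin n)).sum_repr x
    simp only [PiLp.basisFun_repr, PiLp.basisFun_apply] at this
    exact this.symm
  have h1 : T x = ∑ t, x t • T (PiLp.single p t (1 : 𝕜)) := by
    conv_lhs => rw [hx]
    rw [map_sum]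
    exact Finset.sum_congr rfl fun t _ => map_smul _ _ _
  rw [h1]
  calc ‖∑ t, x t • T (PiLp.single p t (1 : 𝕜))‖
      ≤ ∑ t : Fin n, ‖x t • T (PiLp.single p t (1 : 𝕜))‖ := norm_sum_le _ _
    _ ≤ ∑ _t : Fin n, ‖x‖ * δ := by
        refine Finset.sum_le_sum fun t _ => ?_
        rw [norm_smul]
        exact mul_le_mul (PiLp.norm_apply_le x t) (hT t) (norm_nonneg _) (norm_nonneg _)
    _ = n * δ * ‖x‖ := by
        rw [Finset.sum_const, Finset.card_univ, Fintype.card_fin, nsmul_eq_mul]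
        ring

/-- Pigeonhole in the range of a finite rank operator. -/
theorem exists_close {V : Submodule 𝕜 E} [FiniteDimensional 𝕜 V] (R δ : ℝ) (hδ : 0 < δ) (n : ℕ) :
    ∃ n' : ℕ, ∀ w : Fin n' → E, (∀ j, w j ∈ V) → (∀ j, ‖w j‖ ≤ R) →
      ∃ f : Fin n → Fin n', Function.Injective f ∧ ∀ s t, ‖w (f s) - w (f t)‖ ≤ δ := by
  classical
  have : ProperSpace V := FiniteDimensional.proper 𝕜 V
  obtain ⟨t, -, htf, ht⟩ := (isCompact_closedBall (0 : V) R).finite_cover_balls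
    (e := δ / 2) (by positivity)
  refine ⟨htf.toFinset.card * n + 1, fun w hw hR => ?_⟩
  have hmem : ∀ j, ∃ c ∈ htf.toFinset, (⟨w j, hw j⟩ : V) ∈ Metric.ball c (δ / 2) := by
    intro j
    have h1 : (⟨w j, hw j⟩ : V) ∈ Metric.closedBall (0 : V) R := by
      rw [mem_closedBall_zero_iff]
      exact hR j
    have h2 := ht h1
    simp only [Set.mem_iUnion, exists_prop] at h2
    obtain ⟨c, hc, hc2⟩ := h2
    exact ⟨c, htf.mem_toFinset.2 hc, hc2⟩
  choose c hc hcb using hmem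
  obtain ⟨y, hy, hny⟩ := Finset.exists_lt_card_fiber_of_mul_lt_card_of_maps_to
    (s := (Finset.univ : Finset (Fin (htf.toFinset.card * n + 1)))) (t := htf.toFinset)
    (f := c) (n := n) (fun j _ => hc j) (by
      rw [Finset.card_univ, Fintype.card_fin]; exact Nat.lt_succ_self _)
  set S := Finset.univ.filter fun j => c j = y with hS
  have hcard : Fintype.card (Fin n) ≤ Fintype.card S := by
    rw [Fintype.card_fin, Fintype.card_coe]; exact hny.le
  obtain ⟨g⟩ := Function.Embedding.nonempty_of_card_le hcard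
  refine ⟨fun s => (g s : Fin _), fun a b hab => g.injective (Subtype.ext hab), fun s t => ?_⟩
  have hs : c (g s) = y := (Finset.mem_filter.1 (g s).2).2
  have ht' : c (g t) = y := (Finset.mem_filter.1 (g t).2).2
  have h1 := hcb (g s)
  have h2 := hcb (g t)
  rw [hs, Metric.mem_ball] at h1
  rw [ht', Metric.mem_ball] at h2
  have h3 : dist (⟨w (g s), hw _⟩ : V) (⟨w (g t), hw _⟩ : V) ≤ δ := by
    have := dist_triangle_right (⟨w (g s), hw _⟩ : V) (⟨w (g t), hw _⟩ : V) y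
    linarith
  rw [dist_eq_norm] at h3
  exact h3

/-- The tail lemma: uniformly complemented copies of `ℓ_p^n` can be placed in the tail of a
basis, with finite support. -/
theorem UnifCompl.tail [CompleteSpace E] (h : UnifCompl 𝕜 E p) (P : ℕ → E →L[𝕜] E) (CP : ℝ)
    (hPC : ∀ n, ‖P n‖ ≤ CP) (hPP : ∀ n m v, P n (P m v) = P (min n m) v)
    (hPt : ∀ v, Tendsto (fun n => P n v) atTop (𝓝 v))
    (hPf : ∀ n, ∃ V : Submodule 𝕜 E, FiniteDimensional 𝕜 V ∧ ∀ v, P n v ∈ V) :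
    ∃ C : ℝ, 0 ≤ C ∧ ∀ n k : ℕ, ∃ (l : ℕ) (i : PiLp p (fun _ : Fin n => 𝕜) →L[𝕜] E)
      (q : E →L[𝕜] PiLp p (fun _ : Fin n => 𝕜)), k ≤ l ∧ (∀ x, q (i x) = x) ∧
      (∀ x, P l (i x) = i x) ∧ (∀ x, P k (i x) = 0) ∧ (∀ v, q (P l v) = q v) ∧
      (∀ v, q (P k v) = 0) ∧ ‖i‖ ≤ C ∧ ‖q‖ ≤ C := by
  classical
  obtain ⟨C, hC0, hC⟩ := h.normalize
  have hCP0 : 0 ≤ CP := (norm_nonneg _).trans (hPC 0)
  refine ⟨max (2 * CP * C) (8 * CP), by positivity, fun n k => ?_⟩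
  set δ : ℝ := 1 / (8 * (n + 1)) with hδ
  have hδ0 : 0 < δ := by positivity
  obtain ⟨V, hVf, hV⟩ := hPf k
  obtain ⟨n', hn'⟩ := exists_close (V := V) (CP * C) δ hδ0 (n + n)
  obtain ⟨i, q, hqi, hi, hq⟩ := hC n'
  have hsingle : ∀ {m : ℕ} (t : Fin m), ‖(PiLp.single p t (1 : 𝕜) : PiLp p (fun _ : Fin m => 𝕜))‖ = 1 := by
    intro m t
    rw [PiLp.norm_single]
    simp
  obtain ⟨f, hf, hfc⟩ := hn' (fun j => P k (i (PiLp.single p j 1))) (fun j => hV _) (fun j => by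
    calc ‖P k (i (PiLp.single p j 1))‖ ≤ ‖P k‖ * ‖i (PiLp.single p j 1)‖ := (P k).le_opNorm _
      _ ≤ CP * (C * 1) := by
          refine mul_le_mul (hPC k) ?_ (norm_nonneg _) hCP0
          refine (i.le_opNorm _).trans ?_
          rw [hsingle]
          gcongr
      _ = CP * C := by ring)
  let a : Fin n → Fin n' := fun t => f (Fin.castAdd n t)
  let b : Fin n → Fin n' := fun t => f (Fin.natAdd n t)
  have ha : Function.Injective a := hf.comp (Fin.castAdd_injective n n)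
  have hb : Function.Injective b := hf.comp (Fin.natAdd_injective n n)
  have hab : ∀ s t, a s ≠ b t := by
    intro s t hst
    have := hf hst
    have h1 := congrArg Fin.val this
    simp at h1
    have := s.2
    omega
  -- the operators J, J'
  let J : PiLp p (fun _ : Fin n => 𝕜) →L[𝕜] PiLp p (fun _ : Fin n' => 𝕜) :=
    ((1 : 𝕜) / 2) • (extendL 𝕜 p a ha - extendL 𝕜 p b hb)
  let J' : PiLp p (fun _ : Fin n' => 𝕜) →L[𝕜] PiLp p (fun _ : Fin n => 𝕜) :=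
    restrictL 𝕜 p a ha - restrictL 𝕜 p b hb
  have hJJ : ∀ x, J' (J x) = x := by
    intro x
    ext t
    have h1 : (J' (J x)) t = (J x) (a t) - (J x) (b t) := rfl
    have h2 : ∀ r, (J x) r = (1 / 2 : 𝕜) * (extendL 𝕜 p a ha x r - extendL 𝕜 p b hb x r) :=
      fun r => rfl
    rw [h1, h2, h2, extendL_apply, extendL_apply, extendL_apply' p b hb x (a t) (by
      rintro ⟨s, hs⟩; exact hab t s hs.symm), extendL_apply' p a ha x (b t) (by
      rintro ⟨s, hs⟩; exact hab s t hs)]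
    ring
  have hJn : ‖J‖ ≤ 1 := by
    have : ‖(1 / 2 : 𝕜)‖ = 1 / 2 := by simp
    calc ‖J‖ = 1 / 2 * ‖extendL 𝕜 p a ha - extendL 𝕜 p b hb‖ := by
          rw [← this]; exact norm_smul _ _
      _ ≤ 1 / 2 * (1 + 1) := by
          gcongr
          exact (norm_sub_le _ _).trans (add_le_add (norm_extendL_le p a ha) (norm_extendL_le p b hb))
      _ = 1 := by norm_num
  have hJn' : ‖J'‖ ≤ 2 := by
    calc ‖J'‖ ≤ ‖restrictL 𝕜 p a ha‖ + ‖restrictL 𝕜 p b hb‖ := norm_sub_le _ _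
      _ ≤ 1 + 1 := add_le_add (norm_restrictL_le p a ha) (norm_restrictL_le p b hb)
      _ = 2 := by norm_num
  have hJs : ∀ t, J (PiLp.single p t 1) =
      (1 / 2 : 𝕜) • (PiLp.single p (a t) 1 - PiLp.single p (b t) 1) := by
    intro t
    have hext : ∀ (c : Fin n → Fin n') (hc : Function.Injective c),
        extendL 𝕜 p c hc (PiLp.single p t 1) = PiLp.single p (c t) 1 := by
      intro c hc
      ext r
      by_cases hr : ∃ s, c s = r
      · obtain ⟨s, rfl⟩ := hr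
        rw [extendL_apply]
        by_cases hst : s = t
        · subst hst; simp
        · have : c s ≠ c t := fun h => hst (hc h)
          simp [hst, this]
      · rw [extendL_apply' p c hc _ r hr]
        have : r ≠ c t := fun h => hr ⟨t, h.symm⟩
        simp [this]
    change (1 / 2 : 𝕜) • (extendL 𝕜 p a ha (PiLp.single p t 1) -
      extendL 𝕜 p b hb (PiLp.single p t 1)) = _
    rw [hext, hext]
  let i1 : PiLp p (fun _ : Fin n => 𝕜) →L[𝕜] E := i.comp J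
  let q1 : E →L[𝕜] PiLp p (fun _ : Fin n => 𝕜) := J'.comp q
  have hq1i1 : ∀ x, q1 (i1 x) = x := fun x => by
    change J' (q (i (J x))) = x
    rw [hqi, hJJ]
  have hi1 : ‖i1‖ ≤ C := by
    calc ‖i1‖ ≤ ‖i‖ * ‖J‖ := ContinuousLinearMap.opNorm_comp_le _ _
      _ ≤ C * 1 := mul_le_mul hi hJn (norm_nonneg _) hC0
      _ = C := mul_one _
  have hq1 : ‖q1‖ ≤ 2 := by
    calc ‖q1‖ ≤ ‖J'‖ * ‖q‖ := ContinuousLinearMap.opNorm_comp_le _ _
      _ ≤ 2 * 1 := mul_le_mul hJn' hq (norm_nonneg _) (by norm_num)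
      _ = 2 := by norm_num
  have hPk : ∀ x, ‖P k (i1 x)‖ ≤ n * δ * ‖x‖ := by
    intro x
    refine norm_apply_le_sum ((P k).comp i1) δ (fun t => ?_) x
    change ‖P k (i (J (PiLp.single p t 1)))‖ ≤ δ
    rw [hJs, map_smul, map_smul, map_sub, map_sub, norm_smul]
    have h1 := hfc (Fin.castAdd n t) (Fin.natAdd n t)
    have h2 : ‖(1 / 2 : 𝕜)‖ = 1 / 2 := by simp
    rw [h2]
    linarith [norm_nonneg (P k (i (PiLp.single p (a t) 1)) - P k (i (PiLp.single p (b t) 1)))]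
  -- choose l
  have hl : ∃ l, k ≤ l ∧ ∀ t : Fin n, ‖i1 (PiLp.single p t 1) - P l (i1 (PiLp.single p t 1))‖ ≤ δ := by
    have h1 : ∀ t : Fin n, ∀ᶠ l in atTop, ‖i1 (PiLp.single p t 1) -
        P l (i1 (PiLp.single p t 1))‖ ≤ δ := by
      intro t
      have := (tendsto_const_nhds (x := i1 (PiLp.single p t 1))).sub (hPt (i1 (PiLp.single p t 1)))
      rw [sub_self] at this
      have h2 := this.norm
      rw [norm_zero] at h2
      exact h2.eventually (eventually_le_nhds hδ0)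
    have h2 := (eventually_all.2 h1).and (eventually_ge_atTop k)
    obtain ⟨l, hl1, hl2⟩ := h2.exists
    exact ⟨l, hl2, hl1⟩
  obtain ⟨l, hkl, hl⟩ := hl
  have hPl : ∀ x, ‖i1 x - P l (i1 x)‖ ≤ n * δ * ‖x‖ := by
    intro x
    refine norm_apply_le_sum (i1 - (P l).comp i1) δ (fun t => ?_) x
    exact hl t
  let Q : E →L[𝕜] E := P l - P k
  have hQ : ∀ v, Q v = P l v - P k v := fun v => rfl
  have hQn : ‖Q‖ ≤ 2 * CP := by
    calc ‖Q‖ ≤ ‖P l‖ + ‖P k‖ := norm_sub_le _ _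
      _ ≤ CP + CP := add_le_add (hPC l) (hPC k)
      _ = 2 * CP := by ring
  have hPlQ : ∀ v, P l (Q v) = Q v := by
    intro v
    rw [hQ, map_sub, hPP, hPP, min_self, min_eq_right hkl]
  have hPkQ : ∀ v, P k (Q v) = 0 := by
    intro v
    rw [hQ, map_sub, hPP, hPP, min_self, min_eq_left hkl, sub_self]
  have hQQ : ∀ v, Q (Q v) = Q v := by
    intro v
    rw [hQ (Q v), hPlQ, hPkQ, sub_zero]
  have hQPl : ∀ v, Q (P l v) = Q v := by
    intro v
    rw [hQ, hQ, hPP, hPP, min_self, min_eq_left hkl]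
  have hQPk : ∀ v, Q (P k v) = 0 := by
    intro v
    rw [hQ, hPP, hPP, min_self, min_eq_right hkl, sub_self]
  -- the perturbed operator
  let W : PiLp p (fun _ : Fin n => 𝕜) →L[𝕜] PiLp p (fun _ : Fin n => 𝕜) := q1.comp (Q.comp i1)
  have hW : ∀ x, ‖x - W x‖ ≤ 1 / 2 * ‖x‖ := by
    intro x
    have h1 : x - W x = q1 ((i1 x - P l (i1 x)) + P k (i1 x)) := by
      have h2 : (i1 x - P l (i1 x)) + P k (i1 x) = i1 x - Q (i1 x) := by rw [hQ]; abel
      rw [h2, map_sub, hq1i1]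
      rfl
    rw [h1]
    calc ‖q1 ((i1 x - P l (i1 x)) + P k (i1 x))‖ ≤ ‖q1‖ * ‖(i1 x - P l (i1 x)) + P k (i1 x)‖ :=
          q1.le_opNorm _
      _ ≤ 2 * (n * δ * ‖x‖ + n * δ * ‖x‖) := by
          refine mul_le_mul hq1 ((norm_add_le _ _).trans (add_le_add (hPl x) (hPk x)))
            (norm_nonneg _) (by norm_num)
      _ = (4 * n * δ) * ‖x‖ := by ring
      _ ≤ 1 / 2 * ‖x‖ := by
          gcongr
          rw [hδ, mul_one_div, div_le_div_iff₀ (by positivity) (by norm_num)]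
          nlinarith
  have hWn : ‖(1 : PiLp p (fun _ : Fin n => 𝕜) →L[𝕜] PiLp p (fun _ : Fin n => 𝕜)) - W‖ ≤ 1 / 2 :=
    ContinuousLinearMap.opNorm_le_bound _ (by norm_num) fun x => hW x
  let u := Units.oneSub ((1 : PiLp p (fun _ : Fin n => 𝕜) →L[𝕜] PiLp p (fun _ : Fin n => 𝕜)) - W)
    (lt_of_le_of_lt hWn (by norm_num))
  have hu : (u : PiLp p (fun _ : Fin n => 𝕜) →L[𝕜] PiLp p (fun _ : Fin n => 𝕜)) = W := by
    change 1 - (1 - W) = W
    abel
  let U : PiLp p (fun _ : Fin n => 𝕜) →L[𝕜] PiLp p (fun _ : Fin n => 𝕜) := (u⁻¹ : Units _)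
  have hUW : ∀ x, U (W x) = x := by
    intro x
    have h1 : (U * W) = 1 := by rw [← hu]; exact u.inv_mul
    calc U (W x) = (U * W) x := rfl
      _ = x := by rw [h1]; rfl
  have hWU : ∀ x, W (U x) = x := by
    intro x
    have h1 : (W * U) = 1 := by rw [← hu]; exact u.mul_inv
    calc W (U x) = (W * U) x := rfl
      _ = x := by rw [h1]; rfl
  have hUn : ‖U‖ ≤ 2 := by
    refine ContinuousLinearMap.opNorm_le_bound _ (by norm_num) fun x => ?_
    have h1 := hW (U x)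
    rw [hWU] at h1
    have h2 : ‖U x‖ ≤ ‖U x - x‖ + ‖x‖ := by
      calc ‖U x‖ = ‖(U x - x) + x‖ := by rw [sub_add_cancel]
        _ ≤ _ := norm_add_le _ _
    linarith
  refine ⟨l, Q.comp i1, U.comp (q1.comp Q), hkl, ?_, ?_, ?_, ?_, ?_, ?_, ?_⟩
  · intro x
    change U (q1 (Q (Q (i1 x)))) = x
    rw [hQQ]
    exact hUW x
  · intro x
    exact hPlQ _
  · intro x
    exact hPkQ _
  · intro v
    change U (q1 (Q (P l v))) = U (q1 (Q v))
    rw [hQPl]
  · intro v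
    change U (q1 (Q (P k v))) = 0
    rw [hQPk, map_zero, map_zero]
  · refine le_max_of_le_left ?_
    calc ‖Q.comp i1‖ ≤ ‖Q‖ * ‖i1‖ := ContinuousLinearMap.opNorm_comp_le _ _
      _ ≤ 2 * CP * C := mul_le_mul hQn hi1 (norm_nonneg _) (by positivity)
  · refine le_max_of_le_right ?_
    calc ‖U.comp (q1.comp Q)‖ ≤ ‖U‖ * ‖q1.comp Q‖ := ContinuousLinearMap.opNorm_comp_le _ _
      _ ≤ 2 * (2 * (2 * CP)) := by
          refine mul_le_mul hUn ?_ (norm_nonneg _) (by norm_num)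
          refine (ContinuousLinearMap.opNorm_comp_le _ _).trans ?_
          exact mul_le_mul hq1 hQn (norm_nonneg _) (by norm_num)
      _ = 8 * CP := by ring

end Pool.Agent.H14.NP
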