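import Pool.Agent.H14.NP.BlockOne
import Pool.Agent.H14.NP.Glue
import Pool.Agent.H14.NP.Tail

/-!
# Spaces with uniformly complemented `ℓ_1^n`'s have (NP)
-/

open Filter Topology
open scoped ENNReal

namespace Pool.Agent.H14.NP

variable {𝕜 : Type*} [RCLike 𝕜] {E : Type*} [NormedAddCommGroup E] [NormedSpace 𝕜 E]

theorem sum_range_eq_sum_filter {M : ℕ} {X : Type*} [Fintype X] (φ : X ≃ Fin M)
    {V : Type*} [AddCommMonoid V] (F : ℕ → V) (r : ℕ) (hr : r ≤ M) :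
    ∑ j ∈ Finset.range r, F j =
      ∑ x ∈ Finset.univ.filter (fun x : X => (φ x : ℕ) < r), F (φ x) := by
  symm
  refine Finset.sum_bij (fun x _ => (φ x : ℕ)) ?_ ?_ ?_ ?_
  · intro x hx
    simpa using hx
  · intro x _ y _ hxy
    exact φ.injective (Fin.ext hxy)
  · intro j hj
    rw [Finset.mem_range] at hj
    refine ⟨φ.symm ⟨j, hj.trans_le hr⟩, ?_, ?_⟩
    · simpa using hj
    · simp
  · intro x _
    rfl

/-- From finite-dimensional blocks in complemented subspaces to property (NP): a version with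
arbitrary finite index sets. -/
theorem block_transfer (P : ℕ → E →L[𝕜] E) (C0 C K : ℝ) (k l : ℕ) (hkl : k ≤ l)
    {F : Type*} [NormedAddCommGroup F] [NormedSpace 𝕜 F] (i : F →L[𝕜] E) (q : E →L[𝕜] F)
    (hqi : ∀ x, q (i x) = x) (hPl : ∀ x, P l (i x) = i x) (hPk : ∀ x, P k (i x) = 0)
    (hi : ‖i‖ ≤ C) (hq : ‖q‖ ≤ C) (h : ℕ) (hh : 0 < h) {X : Type*} [Fintype X]
    [DecidableEq X] (φ : X ≃ Fin (2 * h)) (b : X → F)
    (hb0 : ∀ x, b x ≠ 0)
    (hb : ∀ (a : X → 𝕜) (s : Finset X), ‖∑ x ∈ s, a x • b x‖ ≤ C0 * ‖∑ x, a x • b x‖)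
    (hbT : ∀ A : Finset X, A.card = h → ∀ T : F →L[𝕜] F,
      (∀ x, T (b x) = if x ∈ A then b x else 0) → C ^ 2 * K < ‖T‖) :
    ∃ (l h : ℕ) (y : ℕ → E), 0 < h ∧ k ≤ l ∧
      (∀ j < 2 * h, P l (y j) = y j ∧ P k (y j) = 0 ∧ y j ≠ 0) ∧
      (∀ (a : ℕ → 𝕜) (r : ℕ), r ≤ 2 * h →
        ‖∑ j ∈ Finset.range r, a j • y j‖ ≤ (C ^ 2 * C0) *
          ‖∑ j ∈ Finset.range (2 * h), a j • y j‖) ∧
      (∀ A ⊆ Finset.range (2 * h), A.card = h → ∀ T : E →L[𝕜] E,
        (∀ j < 2 * h, T (y j) = if j ∈ A then y j else 0) → K ≤ ‖T‖) := by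
  classical
  have hC : 0 ≤ C := (norm_nonneg _).trans hi
  let y : ℕ → E := fun j => if hj : j < 2 * h then i (b (φ.symm ⟨j, hj⟩)) else 0
  have hy : ∀ x, y (φ x) = i (b x) := by
    intro x
    simp only [y, (φ x).2, dif_pos, Fin.eta, Equiv.symm_apply_apply]
  have hy' : ∀ j (hj : j < 2 * h), y j = i (b (φ.symm ⟨j, hj⟩)) := by
    intro j hj
    simp only [y, hj, dif_pos]
  have hsum : ∀ (a : ℕ → 𝕜) (r : ℕ), r ≤ 2 * h → ∑ j ∈ Finset.range r, a j • y j
      = i (∑ x ∈ Finset.univ.filter (fun x : X => (φ x : ℕ) < r), a (φ x) • b x) := by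
    intro a r hr
    rw [sum_range_eq_sum_filter φ _ r hr, map_sum]
    refine Finset.sum_congr rfl fun x _ => ?_
    rw [hy, map_smul]
  have hinj : ∀ x, ‖x‖ ≤ C * ‖i x‖ := by
    intro x
    calc ‖x‖ = ‖q (i x)‖ := by rw [hqi]
      _ ≤ ‖q‖ * ‖i x‖ := q.le_opNorm _
      _ ≤ C * ‖i x‖ := by gcongr
  refine ⟨l, h, y, hh, hkl, ?_, ?_, ?_⟩
  · intro j hj
    rw [hy' j hj]
    refine ⟨hPl _, hPk _, fun h0 => ?_⟩
    have h1 := hqi (b (φ.symm ⟨j, hj⟩))
    rw [h0, map_zero] at h1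
    exact hb0 _ h1.symm
  · intro a r hr
    have e1 := hsum a r hr
    have e2 := hsum a (2 * h) le_rfl
    have e3 : Finset.univ.filter (fun x : X => (φ x : ℕ) < 2 * h) = Finset.univ :=
      Finset.filter_true_of_mem fun x _ => (φ x).2
    rw [e3] at e2
    rw [e1, e2]
    have hC0 : ∀ z : F, z = ∑ x, a (φ x) • b x → 0 ≤ C0 * ‖z‖ := by
      intro z hz
      have := hb (fun x => a (φ x)) ∅
      simp only [Finset.sum_empty, norm_zero] at this
      rw [hz]; exact this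
    calc ‖i (∑ x ∈ Finset.univ.filter (fun x : X => (φ x : ℕ) < r), a (φ x) • b x)‖
        ≤ C * ‖∑ x ∈ Finset.univ.filter (fun x : X => (φ x : ℕ) < r), a (φ x) • b x‖ := by
          refine (i.le_opNorm _).trans ?_
          gcongr
      _ ≤ C * (C0 * ‖∑ x, a (φ x) • b x‖) := by
          gcongr
          exact hb (fun x => a (φ x)) _
      _ ≤ C * (C0 * (C * ‖i (∑ x, a (φ x) • b x)‖)) := by
          rcases le_or_gt 0 C0 with h0 | h0
          · gcongr
            exact hinj _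
          · have h1 := hC0 _ rfl
            have h2 : ‖∑ x, a (φ x) • b x‖ = 0 := by
              have h3 := norm_nonneg (∑ x, a (φ x) • b x)
              nlinarith
            have h4 : i (∑ x, a (φ x) • b x) = 0 := by
              rw [norm_eq_zero.1 h2, map_zero]
            rw [h2, h4]
            simp
      _ = C ^ 2 * C0 * ‖i (∑ x, a (φ x) • b x)‖ := by ring
  · intro A hA hAc T hT
    by_contra hlt
    push Not at hlt
    let A' : Finset X := Finset.univ.filter fun x => (φ x : ℕ) ∈ A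
    have hA'c : A'.card = h := by
      rw [← hAc]
      refine Finset.card_bij (fun x _ => (φ x : ℕ)) ?_ ?_ ?_
      · intro x hx
        simpa [A'] using hx
      · intro x _ y _ hxy
        exact φ.injective (Fin.ext hxy)
      · intro j hj
        have hj' : j < 2 * h := by
          have := hA hj
          rwa [Finset.mem_range] at this
        refine ⟨φ.symm ⟨j, hj'⟩, ?_, ?_⟩
        · simpa [A'] using hj
        · simp
    have h1 := hbT A' hA'c (q.comp (T.comp i)) (by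
      intro x
      change q (T (i (b x))) = _
      rw [← hy x, hT _ (φ x).2]
      have : ((φ x : ℕ) ∈ A) ↔ x ∈ A' := by simp [A']
      simp only [this]
      split_ifs
      · rw [hy, hqi]
      · rw [map_zero])
    have h2 : ‖q.comp (T.comp i)‖ ≤ C ^ 2 * ‖T‖ := by
      calc ‖q.comp (T.comp i)‖ ≤ ‖q‖ * ‖T.comp i‖ := ContinuousLinearMap.opNorm_comp_le _ _
        _ ≤ C * (‖T‖ * C) := by
            refine mul_le_mul hq ?_ (norm_nonneg _) hC
            exact (ContinuousLinearMap.opNorm_comp_le _ _).trans (by gcongr)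
        _ = C ^ 2 * ‖T‖ := by ring
    have h3 : C ^ 2 * ‖T‖ ≤ C ^ 2 * K := by gcongr
    linarith

/-- The `ℓ_1`-block, ready for use. -/
theorem ell_one_block (K : ℝ) : ∃ (N : ℕ) (lam : ℝ), 0 < N ∧
    (∀ x, bv 𝕜 N lam x ≠ 0) ∧
    (∀ (a : (Fin N → Bool) → 𝕜) (s : Finset (Fin N → Bool)),
      ‖∑ x ∈ s, a x • bv 𝕜 N lam x‖ ≤ 18 / 5 * ‖∑ x, a x • bv 𝕜 N lam x‖) ∧
    (∀ A : Finset (Fin N → Bool), 2 * A.card = 2 ^ N →
      ∀ T : PiLp 1 (fun _ : Idx N => 𝕜) →L[𝕜] PiLp 1 (fun _ : Idx N => 𝕜),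
      (∀ x, T (bv 𝕜 N lam x) = if x ∈ A then bv 𝕜 N lam x else 0) → K < ‖T‖) := by
  classical
  obtain ⟨n0, hn0⟩ := exists_nat_gt (7 * (2 * K + 1))
  set n := max n0 1 with hn
  have hnpos : 0 < n := lt_of_lt_of_le one_pos (le_max_right _ _)
  have hnK : 7 * (2 * K + 1) < n := hn0.trans_le (by exact_mod_cast le_max_left _ _)
  set N := n ^ 4 with hN
  have hNpos : 0 < N := by positivity
  set lam : ℝ := Real.sqrt (2 ^ N) / n ^ 2 with hlam
  have hlampos : 0 < lam := by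
    have : (0 : ℝ) < n := by exact_mod_cast hnpos
    have h2 : 0 < Real.sqrt ((2 : ℝ) ^ N) := Real.sqrt_pos.2 (by positivity)
    positivity
  have hlam2 : (2 : ℝ) ^ N ≤ N * lam ^ 2 := by
    have : (0 : ℝ) < n := by exact_mod_cast hnpos
    rw [hlam, div_pow, Real.sq_sqrt (by positivity)]
    have h3 : (N : ℝ) = n ^ 4 := by rw [hN]; push_cast; ring
    rw [h3]
    apply le_of_eq
    field_simp
  have hlow : ∀ (a : (Fin N → Bool) → 𝕜) (s : Finset (Fin N → Bool)),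
      5 / 9 * lam * Real.sqrt (∑ j ∈ s, ‖a j‖ ^ 2) ≤ ‖∑ j ∈ s, a j • bv 𝕜 N lam j‖ :=
    fun a s => norm_sum_bv_ge N hNpos hlampos.le a s
  refine ⟨N, lam, hNpos, ?_, ?_, ?_⟩
  · intro x h0
    have h1 := hlow (fun _ => 1) {x}
    simp only [Finset.sum_singleton, norm_one, one_pow, Real.sqrt_one, mul_one, one_smul] at h1
    rw [h0, norm_zero] at h1
    nlinarith
  · intro a s
    have h1 := norm_sum_bv_le N hNpos hlampos.le hlam2 a s
    have h2 := hlow a Finset.univ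
    have h3 : Real.sqrt (∑ j ∈ s, ‖a j‖ ^ 2) ≤ Real.sqrt (∑ j, ‖a j‖ ^ 2) :=
      Real.sqrt_le_sqrt (Finset.sum_le_sum_of_subset_of_nonneg (Finset.subset_univ _)
        fun i _ _ => by positivity)
    calc ‖∑ x ∈ s, a x • bv 𝕜 N lam x‖ ≤ 2 * lam * Real.sqrt (∑ j ∈ s, ‖a j‖ ^ 2) := h1
      _ ≤ 2 * lam * Real.sqrt (∑ j, ‖a j‖ ^ 2) := by gcongr
      _ = 18 / 5 * (5 / 9 * lam * Real.sqrt (∑ j, ‖a j‖ ^ 2)) := by ring
      _ ≤ 18 / 5 * ‖∑ x, a x • bv 𝕜 N lam x‖ := by gcongr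
  · intro A hA T hT
    let ε : (Fin N → Bool) → ℝ := fun j => if j ∈ A then 1 else -1
    have hε : ∀ j, ε j * ε j = 1 := fun j => by simp only [ε]; split_ifs <;> norm_num
    have hε0 : ∑ j, ε j = 0 := by
      have h1 : ∀ j, ε j = 2 * (if j ∈ A then (1 : ℝ) else 0) - 1 := fun j => by
        simp only [ε]; split_ifs <;> norm_num
      rw [Finset.sum_congr rfl fun j _ => h1 j, Finset.sum_sub_distrib, ← Finset.mul_sum,
        Finset.sum_ite_mem, Finset.univ_inter, Finset.sum_const, Finset.sum_const,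
        Finset.card_univ, card_signs]
      simp only [nsmul_eq_mul, mul_one]
      have h2 : ((2 * A.card : ℕ) : ℝ) = ((2 ^ N : ℕ) : ℝ) := by rw [hA]
      push_cast at h2 ⊢
      linarith
    let T' : PiLp 1 (fun _ : Idx N => 𝕜) →L[𝕜] PiLp 1 (fun _ : Idx N => 𝕜) :=
      (2 : 𝕜) • T - ContinuousLinearMap.id 𝕜 _
    have hT' : ∀ j, T' (bv 𝕜 N lam j) = (ε j : 𝕜) • bv 𝕜 N lam j := by
      intro j
      change (2 : 𝕜) • T (bv 𝕜 N lam j) - bv 𝕜 N lam j = _
      rw [hT]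
      simp only [ε]
      split_ifs
      · simp [two_smul]
      · simp
    have h1 := key_estimate n hnpos N hN ε hε hε0 T' hT'
    have h2 : ‖T'‖ ≤ 2 * ‖T‖ + 1 := by
      calc ‖T'‖ ≤ ‖(2 : 𝕜) • T‖ + ‖ContinuousLinearMap.id 𝕜 _‖ := norm_sub_le _ _
        _ ≤ 2 * ‖T‖ + 1 := by
            refine add_le_add ?_ (ContinuousLinearMap.norm_id_le)
            rw [norm_smul]
            simp
    by_contra hle
    push Not at hle
    linarith

theorem propNP_of_unifCompl_one [CompleteSpace E] (hE : ∃ e : ℕ → E, IsBasis 𝕜 e)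
    (h1 : UnifCompl 𝕜 E 1) : PropNP 𝕜 E := by
  classical
  obtain ⟨e, he⟩ := hE
  obtain ⟨P, CP, hCP0, hPC, -, hPt, hPf, hPP⟩ := he.exists_proj
  have hPf' : ∀ n, ∃ V : Submodule 𝕜 E, FiniteDimensional 𝕜 V ∧ ∀ v, P n v ∈ V := by
    intro n
    refine ⟨Submodule.span 𝕜 (e '' (Finset.range n : Set ℕ)), ?_, fun v => ?_⟩
    · exact FiniteDimensional.span_of_finite 𝕜 ((Finset.finite_toSet _).image _)
    · obtain ⟨a, ha⟩ := hPf n v
      rw [ha]
      exact Submodule.sum_mem _ fun i hi =>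
        Submodule.smul_mem _ _ (Submodule.subset_span ⟨i, hi, rfl⟩)
  obtain ⟨C, hC0, hC⟩ := h1.tail P CP hPC hPP hPt hPf'
  refine propNP_of_blocks P CP hPC hPP (C ^ 2 * (18 / 5)) fun K k => ?_
  obtain ⟨N, lam, hN, hb0, hb, hbT⟩ := ell_one_block (𝕜 := 𝕜) (C ^ 2 * K)
  let e1 : Idx N ≃ Fin (Fintype.card (Idx N)) := Fintype.equivFin _
  let R := LinearIsometryEquiv.piLpCongrLeft 1 𝕜 𝕜 e1
  obtain ⟨l, i, q, hkl, hqi, hPl, hPk, -, -, hi, hq⟩ := hC (Fintype.card (Idx N)) k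
  obtain ⟨M, hM⟩ : ∃ M, N = M + 1 := ⟨N - 1, by omega⟩
  have hcard : Fintype.card (Fin N → Bool) = 2 * 2 ^ M := by
    rw [card_signs, hM, pow_succ]; ring
  refine block_transfer P (18 / 5) C K k l hkl
    (i.comp (R.toContinuousLinearEquiv : PiLp 1 (fun _ : Idx N => 𝕜) →L[𝕜] _))
    ((R.symm.toContinuousLinearEquiv : _ →L[𝕜] PiLp 1 (fun _ : Idx N => 𝕜)).comp q)
    ?_ ?_ ?_ ?_ ?_ (2 ^ M) (by positivity) (Fintype.equivFinOfCardEq hcard)
    (bv 𝕜 N lam) hb0 hb ?_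
  · intro x
    change R.symm (q (i (R x))) = x
    rw [hqi]
    exact R.symm_apply_apply x
  · intro x
    exact hPl _
  · intro x
    exact hPk _
  · refine (ContinuousLinearMap.opNorm_le_bound _ hC0 fun x => ?_)
    change ‖i (R x)‖ ≤ C * ‖x‖
    calc ‖i (R x)‖ ≤ ‖i‖ * ‖R x‖ := i.le_opNorm _
      _ ≤ C * ‖x‖ := by
          rw [R.norm_map]
          gcongr
  · refine (ContinuousLinearMap.opNorm_le_bound _ hC0 fun x => ?_)
    change ‖R.symm (q x)‖ ≤ C * ‖x‖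
    rw [R.symm.norm_map]
    exact (q.le_opNorm _).trans (by gcongr)
  · intro A hA T hT
    refine hbT A ?_ T hT
    rw [hA, hM, pow_succ]; ring

end Pool.Agent.H14.NP
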