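import Pool.Agent.H14.NP.LargeP2

/-!
# The spaces `ℓ_p`, `1 ≤ p < ∞`, `p ≠ 2`, have (NP)
-/

open Filter Topology
open scoped ENNReal

namespace Pool.Agent.H14.NP

variable {𝕜 : Type*} [RCLike 𝕜]

/-- Uniformly complemented `ℓ_p^n`'s with `p ≠ 2`, `p < ∞` give (NP). -/
theorem propNP_of_unifCompl {E : Type*} [NormedAddCommGroup E] [NormedSpace 𝕜 E] [CompleteSpace E]
    (hE : ∃ e : ℕ → E, IsBasis 𝕜 e) (p : ℝ≥0∞) [hp1 : Fact (1 ≤ p)] (hp2 : p ≠ 2) (htop : p ≠ ∞)
    (hp : UnifCompl 𝕜 E p) : PropNP 𝕜 E := by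
  rcases lt_or_gt_of_ne hp2 with h | h
  · exact propNP_of_small hE p h hp
  · exact propNP_of_large hE p h htop hp

variable (p : ℝ≥0∞) [hp1 : Fact (1 ≤ p)]

/-- The unit vectors form a basis of `ℓ_p`. -/
theorem ellp_isBasis (htop : p ≠ ∞) :
    IsBasis 𝕜 (fun n : ℕ => (lp.single p n (1 : 𝕜) : lp (fun _ : ℕ => 𝕜) p)) := by
  have hp0 : 0 < p := zero_lt_one.trans_le hp1.out
  have hs : ∀ (n : ℕ) (c : 𝕜), c • (lp.single p n (1 : 𝕜) : lp (fun _ : ℕ => 𝕜) p) =
      lp.single p n c := by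
    intro n c
    rw [← lp.single_smul, smul_eq_mul, mul_one]
  intro f
  refine ⟨fun n => f n, ?_, ?_⟩
  · have h1 := (lp.hasSum_single htop f).tendsto_sum_nat
    simp only [hs]
    exact h1
  · intro a ha
    simp only [hs] at ha
    funext k
    have hcont : Continuous (fun g : lp (fun _ : ℕ => 𝕜) p => g k) := by
      refine LipschitzWith.continuous (K := 1) (LipschitzWith.of_dist_le_mul fun g h => ?_)
      rw [dist_eq_norm, dist_eq_norm, NNReal.coe_one, one_mul]
      exact lp.norm_apply_le_norm hp0.ne' (g - h) k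
    have h2 := (hcont.tendsto f).comp ha
    have h3 : ∀ᶠ n in atTop, (∑ i ∈ Finset.range n, (lp.single p i (a i) : lp (fun _ : ℕ => 𝕜) p) :
        lp (fun _ : ℕ => 𝕜) p) k = a k := by
      filter_upwards [eventually_gt_atTop k] with n hn
      rw [lp.coeFn_sum, Finset.sum_apply, Finset.sum_eq_single k]
      · rw [lp.single_apply_self]
      · intro j _ hj
        rw [lp.single_apply_ne]
        exact hj.symm
      · intro h
        exact absurd (Finset.mem_range.2 hn) h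
    have h4 : Tendsto (fun _ : ℕ => a k) atTop (𝓝 (f k)) := h2.congr' h3
    exact tendsto_nhds_unique tendsto_const_nhds h4

/-- `ℓ_p` contains uniformly complemented `ℓ_p^n`'s. -/
theorem ellp_unifCompl (htop : p ≠ ∞) : UnifCompl 𝕜 (lp (fun _ : ℕ => 𝕜) p) p := by
  have hp0 : 0 < p := zero_lt_one.trans_le hp1.out
  have hs0 : 0 < p.toReal := ENNReal.toReal_pos hp0.ne' htop
  refine ⟨1, fun n => ?_⟩
  let i0 : PiLp p (fun _ : Fin n => 𝕜) →ₗ[𝕜] lp (fun _ : ℕ => 𝕜) p :=
    { toFun := fun x => ∑ k : Fin n, lp.single p (k : ℕ) (x k)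
      map_add' := fun x y => by
        rw [← Finset.sum_add_distrib]
        exact Finset.sum_congr rfl fun k _ => by rw [PiLp.add_apply, lp.single_add]
      map_smul' := fun c x => by
        rw [RingHom.id_apply, Finset.smul_sum]
        exact Finset.sum_congr rfl fun k _ => by rw [PiLp.smul_apply, lp.single_smul] }
  let q0 : lp (fun _ : ℕ => 𝕜) p →ₗ[𝕜] PiLp p (fun _ : Fin n => 𝕜) :=
    { toFun := fun f => WithLp.toLp p fun k => f k
      map_add' := fun x y => by ext k; rfl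
      map_smul' := fun c x => by ext k; rfl }
  have hi0 : ∀ x, i0 x = ∑ k : Fin n, lp.single p (k : ℕ) (x k) := fun x => rfl
  have hi1 : ∀ x (k : Fin n), i0 x k = x k := by
    intro x k
    rw [hi0, lp.coeFn_sum, Finset.sum_apply, Finset.sum_eq_single k]
    · rw [lp.single_apply_self]
    · intro j _ hj
      rw [lp.single_apply_ne]
      exact fun h => hj (Fin.ext h.symm)
    · intro h
      exact absurd (Finset.mem_univ _) h
  have hin : ∀ x, ‖i0 x‖ ≤ 1 * ‖x‖ := by
    intro x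
    rw [one_mul]
    have h1 : i0 x = ∑ k ∈ Finset.range n, lp.single p k
        ((fun k : ℕ => if h : k < n then x ⟨k, h⟩ else 0) k) := by
      rw [hi0, Finset.sum_range]
      refine Finset.sum_congr rfl fun k _ => ?_
      simp
    have h2 := lp.norm_sum_single (p := p) (E := fun _ : ℕ => 𝕜) hs0
      (fun k : ℕ => if h : k < n then x ⟨k, h⟩ else 0) (Finset.range n)
    rw [← h1, Finset.sum_range] at h2
    have h3 : ∑ k : Fin n, ‖(if h : (k : ℕ) < n then x ⟨k, h⟩ else 0 : 𝕜)‖ ^ p.toReal =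
        ∑ k : Fin n, ‖x k‖ ^ p.toReal := by
      refine Finset.sum_congr rfl fun k _ => ?_
      simp
    rw [h3] at h2
    rw [PiLp.norm_eq_sum hs0, ← h2, ← Real.rpow_mul (norm_nonneg _),
      mul_one_div_cancel hs0.ne', Real.rpow_one]
  have hqn : ∀ f, ‖q0 f‖ ≤ 1 * ‖f‖ := by
    intro f
    rw [one_mul, PiLp.norm_eq_sum hs0]
    have h1 := lp.sum_rpow_le_norm_rpow (p := p) (E := fun _ : ℕ => 𝕜) hs0 f (Finset.range n)
    rw [Finset.sum_range] at h1
    calc (∑ k : Fin n, ‖q0 f k‖ ^ p.toReal) ^ (1 / p.toReal) ≤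
        (‖f‖ ^ p.toReal) ^ (1 / p.toReal) :=
          Real.rpow_le_rpow (Finset.sum_nonneg fun k _ => Real.rpow_nonneg (norm_nonneg _) _) h1
            (by positivity)
      _ = ‖f‖ := by
          rw [← Real.rpow_mul (norm_nonneg _), mul_one_div_cancel hs0.ne', Real.rpow_one]
  refine ⟨i0.mkContinuous 1 hin, q0.mkContinuous 1 hqn, fun x => ?_, ?_⟩
  · ext k
    exact hi1 x k
  · have h1 := LinearMap.mkContinuous_norm_le i0 zero_le_one hin
    have h2 := LinearMap.mkContinuous_norm_le q0 zero_le_one hqn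
    calc _ ≤ (1 : ℝ) * 1 := mul_le_mul h1 h2 (norm_nonneg _) zero_le_one
      _ = 1 := one_mul _

/-- `ℓ_p` has (NP) for `1 ≤ p < ∞`, `p ≠ 2`. -/
theorem propNP_ellp (hp2 : p ≠ 2) (htop : p ≠ ∞) : PropNP 𝕜 (lp (fun _ : ℕ => 𝕜) p) :=
  propNP_of_unifCompl ⟨_, ellp_isBasis p htop⟩ p hp2 htop (ellp_unifCompl p htop)

end Pool.Agent.H14.NP
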