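import Pool.Agent.H14.NP.Signs

/-!
# The little Grothendieck inequality for operators `ℓ_∞^N → ℓ_2`
-/

open Filter Topology
open scoped ENNReal

namespace Pool.Agent.H14.NP

variable {𝕜 : Type*} [RCLike 𝕜]

/-- Second moment of a Hilbert space valued Rademacher sum. -/
theorem second_moment_vec {K V : Type*} [Fintype K] [DecidableEq K] [Fintype V]
    (y : K → PiLp 2 (fun _ : V => 𝕜)) :
    ∑ u : K → Bool, ‖∑ k, (sg (u k) : 𝕜) • y k‖ ^ 2 = 2 ^ Fintype.card K * ∑ k, ‖y k‖ ^ 2 := by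
  have h1 : ∀ u : K → Bool, ‖∑ k, (sg (u k) : 𝕜) • y k‖ ^ 2
      = ∑ i, ‖∑ k, (sg (u k) : 𝕜) * y k i‖ ^ 2 := by
    intro u
    rw [EuclideanSpace.norm_sq_eq]
    refine Finset.sum_congr rfl fun i _ => ?_
    rw [WithLp.ofLp_sum, Finset.sum_apply]
    rfl
  simp only [h1]
  rw [Finset.sum_comm]
  have h2 : ∀ i, ∑ u : K → Bool, ‖∑ k, (sg (u k) : 𝕜) * y k i‖ ^ 2
      = 2 ^ Fintype.card K * ∑ k, ‖y k i‖ ^ 2 := fun i =>
    second_moment (fun k => y k i) Finset.univ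
  simp only [h2]
  rw [← Finset.mul_sum, Finset.sum_comm]
  congr 1
  refine Finset.sum_congr rfl fun k _ => ?_
  rw [EuclideanSpace.norm_sq_eq]

/-- `ℓ_1`-norm of the coefficients of a functional of the form `⟨Y, R ·⟩` on `ℓ_∞^N`. -/
theorem sum_norm_inner_le {N : ℕ} {V : Type*} [Fintype V]
    (R : PiLp ∞ (fun _ : Fin N => 𝕜) →L[𝕜] PiLp 2 (fun _ : V => 𝕜))
    (Y : PiLp 2 (fun _ : V => 𝕜)) :
    ∑ t, ‖inner 𝕜 Y (R (PiLp.single ∞ t (1 : 𝕜)))‖ ≤ ‖Y‖ * ‖R‖ := by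
  classical
  let g : Fin N → 𝕜 := fun t => inner 𝕜 Y (R (PiLp.single ∞ t (1 : 𝕜)))
  let θ : Fin N → 𝕜 := fun t => if g t = 0 then 0 else (starRingEnd 𝕜 (g t)) / (‖g t‖ : 𝕜)
  have hθ : ∀ t, ‖θ t‖ ≤ 1 := by
    intro t
    simp only [θ]
    split_ifs with h
    · simp
    · rw [norm_div, RCLike.norm_conj, RCLike.norm_ofReal, abs_of_nonneg (norm_nonneg _),
        div_self (norm_ne_zero_iff.2 h)]
  have hθg : ∀ t, θ t * g t = (‖g t‖ : 𝕜) := by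
    intro t
    simp only [θ]
    split_ifs with h
    · rw [h]; simp
    · have h1 : (‖g t‖ : 𝕜) ≠ 0 := by
        rw [Ne, RCLike.ofReal_eq_zero]; exact norm_ne_zero_iff.2 h
      rw [div_mul_eq_mul_div, RCLike.conj_mul, div_eq_iff h1, pow_two]
  let x : PiLp ∞ (fun _ : Fin N => 𝕜) := WithLp.toLp ∞ θ
  have hx : ‖x‖ ≤ 1 := by
    rw [PiLp.norm_eq_ciSup]
    exact Real.iSup_le (fun t => hθ t) zero_le_one
  have hxs : x = ∑ t, θ t • PiLp.single ∞ t (1 : 𝕜) := by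
    have := (PiLp.basisFun ∞ 𝕜 (Fin N)).sum_repr x
    simp only [PiLp.basisFun_repr, PiLp.basisFun_apply] at this
    exact this.symm
  have h1 : inner 𝕜 Y (R x) = ((∑ t, ‖g t‖ : ℝ) : 𝕜) := by
    rw [hxs, map_sum, inner_sum]
    push_cast
    refine Finset.sum_congr rfl fun t _ => ?_
    rw [map_smul, inner_smul_right]
    exact hθg t
  have h2 : ‖inner 𝕜 Y (R x)‖ = ∑ t, ‖g t‖ := by
    rw [h1, RCLike.norm_ofReal, abs_of_nonneg (Finset.sum_nonneg fun _ _ => norm_nonneg _)]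
  calc ∑ t, ‖g t‖ = ‖inner 𝕜 Y (R x)‖ := h2.symm
    _ ≤ ‖Y‖ * ‖R x‖ := norm_inner_le_norm _ _
    _ ≤ ‖Y‖ * (‖R‖ * 1) := by
        gcongr
        exact (R.le_opNorm x).trans (by gcongr)
    _ = ‖Y‖ * ‖R‖ := by ring

/-- The little Grothendieck inequality. -/
theorem little_grothendieck {N : ℕ} {K V : Type*} [Fintype K] [DecidableEq K] [Fintype V]
    (R : PiLp ∞ (fun _ : Fin N => 𝕜) →L[𝕜] PiLp 2 (fun _ : V => 𝕜))
    (z : K → PiLp ∞ (fun _ : Fin N => 𝕜)) (M : ℝ) (hM : 0 ≤ M)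
    (hz : ∀ t, ∑ k, ‖z k t‖ ^ 2 ≤ M ^ 2) :
    ∑ k, ‖R (z k)‖ ^ 2 ≤ (9 / 5 * M * ‖R‖) ^ 2 := by
  classical
  set S := ∑ k, ‖R (z k)‖ ^ 2 with hS
  have hS0 : 0 ≤ S := Finset.sum_nonneg fun _ _ => by positivity
  let y : K → PiLp 2 (fun _ : V => 𝕜) := fun k => R (z k)
  let h : K → Fin N → 𝕜 := fun k t => inner 𝕜 (y k) (R (PiLp.single ∞ t (1 : 𝕜)))
  set D : ℝ := (2 : ℝ) ^ Fintype.card K with hD
  have hD0 : 0 < D := by positivity
  -- expansion of S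
  have h1 : S ≤ ∑ t, ∑ k, ‖z k t‖ * ‖h k t‖ := by
    have e1 : ∀ k, ‖y k‖ ^ 2 ≤ ∑ t, ‖z k t‖ * ‖h k t‖ := by
      intro k
      have hzs : z k = ∑ t, z k t • PiLp.single ∞ t (1 : 𝕜) := by
        have := (PiLp.basisFun ∞ 𝕜 (Fin N)).sum_repr (z k)
        simp only [PiLp.basisFun_repr, PiLp.basisFun_apply] at this
        exact this.symm
      have e2 : inner 𝕜 (y k) (y k) = ∑ t, z k t * h k t := by
        change inner 𝕜 (y k) (R (z k)) = _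
        conv_lhs => rw [hzs]
        rw [map_sum, inner_sum]
        refine Finset.sum_congr rfl fun t _ => ?_
        rw [map_smul, inner_smul_right]
      have e3 : ‖y k‖ ^ 2 = ‖inner 𝕜 (y k) (y k)‖ := by
        rw [inner_self_eq_norm_sq_to_K, norm_pow, RCLike.norm_ofReal, abs_of_nonneg (norm_nonneg _)]
      rw [e3, e2]
      refine (norm_sum_le _ _).trans (le_of_eq ?_)
      exact Finset.sum_congr rfl fun t _ => norm_mul _ _
    rw [hS, Finset.sum_comm]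
    exact Finset.sum_le_sum fun k _ => e1 k
  have h2 : ∀ t, ∑ k, ‖z k t‖ * ‖h k t‖ ≤ M * Real.sqrt (∑ k, ‖h k t‖ ^ 2) := by
    intro t
    have := Real.sum_mul_le_sqrt_mul_sqrt Finset.univ (fun k => ‖z k t‖) (fun k => ‖h k t‖)
    refine this.trans ?_
    gcongr
    exact Real.sqrt_le_iff.2 ⟨hM, hz t⟩
  have h3 : ∀ t, Real.sqrt (∑ k, ‖h k t‖ ^ 2) ≤
      9 / 5 / D * ∑ u : K → Bool, ‖∑ k, (sg (u k) : 𝕜) * h k t‖ := by
    intro t
    have := khintchine (𝕜 := 𝕜) (fun k => h k t) Finset.univ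
    rw [← hD] at this
    rw [div_mul_eq_mul_div, le_div_iff₀ hD0]
    linarith
  have h4 : ∀ u : K → Bool, ∑ t, ‖∑ k, (sg (u k) : 𝕜) * h k t‖ ≤
      ‖∑ k, (sg (u k) : 𝕜) • y k‖ * ‖R‖ := by
    intro u
    have e : ∀ t, ∑ k, (sg (u k) : 𝕜) * h k t =
        inner 𝕜 (∑ k, (sg (u k) : 𝕜) • y k) (R (PiLp.single ∞ t (1 : 𝕜))) := by
      intro t
      rw [sum_inner]
      refine Finset.sum_congr rfl fun k _ => ?_
      rw [inner_smul_left, RCLike.conj_ofReal]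
    simp only [e]
    exact sum_norm_inner_le R _
  have h5 : ∑ u : K → Bool, ‖∑ k, (sg (u k) : 𝕜) • y k‖ ≤ D * Real.sqrt S := by
    have e1 := second_moment_vec (𝕜 := 𝕜) y
    have e2 := sq_sum_le_card_mul_sum_sq (s := (Finset.univ : Finset (K → Bool)))
      (f := fun u => ‖∑ k, (sg (u k) : 𝕜) • y k‖)
    rw [e1] at e2
    have e3 : (((Finset.univ : Finset (K → Bool)).card : ℕ) : ℝ) = D := by
      simp [hD]
    rw [e3] at e2
    refine abs_le_of_sq_le_sq' ?_ (by positivity) |>.2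
    rw [mul_pow, Real.sq_sqrt hS0]
    calc _ ≤ _ := e2
      _ = D ^ 2 * S := by rw [← hD]; ring
  have h6 : S ≤ (9 / 5 * M * ‖R‖) * Real.sqrt S := by
    calc S ≤ ∑ t, ∑ k, ‖z k t‖ * ‖h k t‖ := h1
      _ ≤ ∑ t, M * Real.sqrt (∑ k, ‖h k t‖ ^ 2) := Finset.sum_le_sum fun t _ => h2 t
      _ ≤ ∑ t, M * (9 / 5 / D * ∑ u : K → Bool, ‖∑ k, (sg (u k) : 𝕜) * h k t‖) := by
          gcongr with t _
          exact h3 t
      _ = M * (9 / 5 / D) * ∑ u : K → Bool, ∑ t, ‖∑ k, (sg (u k) : 𝕜) * h k t‖ := by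
          rw [Finset.sum_comm, Finset.mul_sum]
          refine Finset.sum_congr rfl fun t _ => ?_
          ring
      _ ≤ M * (9 / 5 / D) * ∑ u : K → Bool, ‖∑ k, (sg (u k) : 𝕜) • y k‖ * ‖R‖ := by
          gcongr with u _
          exact h4 u
      _ = M * (9 / 5 / D) * ((∑ u : K → Bool, ‖∑ k, (sg (u k) : 𝕜) • y k‖) * ‖R‖) := by
          rw [Finset.sum_mul]
      _ ≤ M * (9 / 5 / D) * ((D * Real.sqrt S) * ‖R‖) := by gcongr
      _ = (9 / 5 * M * ‖R‖) * Real.sqrt S := by field_simp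
  set σ := Real.sqrt S with hσ
  have hσ0 : 0 ≤ σ := Real.sqrt_nonneg _
  have hσ2 : S = σ ^ 2 := (Real.sq_sqrt hS0).symm
  rcases hσ0.eq_or_lt with h0 | hpos
  · rw [hσ2, ← h0, zero_pow two_ne_zero]; positivity
  · have h7 : σ * σ ≤ (9 / 5 * M * ‖R‖) * σ := by rw [← pow_two, ← hσ2]; exact h6
    have h8 : σ ≤ 9 / 5 * M * ‖R‖ := le_of_mul_le_mul_right h7 hpos
    rw [hσ2]
    exact pow_le_pow_left₀ hσ0 h8 2

end Pool.Agent.H14.NP
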