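import Pool.Agent.H14.NP.Defs

/-!
# Grunblum's criterion and the half-time argument
-/

open Filter Topology

namespace Pool.Agent.H14.NP

variable {𝕜 : Type*} [RCLike 𝕜] {E : Type*} [NormedAddCommGroup E] [NormedSpace 𝕜 E]

/-- Grunblum's criterion: a sequence of nonzero vectors with uniformly bounded partial sum
projections is a basic sequence. -/
theorem isBasicSeq_of_grunblum {y : ℕ → E} (hy : ∀ n, y n ≠ 0) {K : ℝ}
    (hK : ∀ (a : ℕ → 𝕜) (n m : ℕ), n ≤ m →
      ‖∑ i ∈ Finset.range n, a i • y i‖ ≤ K * ‖∑ i ∈ Finset.range m, a i • y i‖) :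
    IsBasicSeq 𝕜 y := by
  classical
  have hK0 : 0 ≤ K := by
    have h := hK (fun _ => 1) 1 1 le_rfl
    simp only [Finset.range_one, Finset.sum_singleton, one_smul] at h
    have hpos : 0 < ‖y 0‖ := norm_pos_iff.2 (hy 0)
    nlinarith
  -- coefficients are controlled
  have hcoef : ∀ (a : ℕ → 𝕜) (i m : ℕ), i < m →
      ‖a i‖ * ‖y i‖ ≤ 2 * K * ‖∑ j ∈ Finset.range m, a j • y j‖ := by
    intro a i m him
    have h1 := hK a (i + 1) m him
    have h2 := hK a i m him.le
    have h3 : a i • y i = ∑ j ∈ Finset.range (i + 1), a j • y j - ∑ j ∈ Finset.range i, a j • y j := by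
      rw [Finset.sum_range_succ]; abel
    calc ‖a i‖ * ‖y i‖ = ‖a i • y i‖ := (norm_smul _ _).symm
      _ ≤ ‖∑ j ∈ Finset.range (i + 1), a j • y j‖ + ‖∑ j ∈ Finset.range i, a j • y j‖ := by
          rw [h3]; exact norm_sub_le _ _
      _ ≤ 2 * K * ‖∑ j ∈ Finset.range m, a j • y j‖ := by linarith
  -- every element of the span is a finite sum over a range
  have hspan : ∀ w ∈ Submodule.span 𝕜 (Set.range y), ∃ (a : ℕ → 𝕜) (m : ℕ),
      (∀ i, m ≤ i → a i = 0) ∧ w = ∑ i ∈ Finset.range m, a i • y i := by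
    intro w hw
    rw [Finsupp.mem_span_range_iff_exists_finsupp] at hw
    obtain ⟨c, hc⟩ := hw
    obtain ⟨m, hm⟩ : ∃ m, c.support ⊆ Finset.range m := by
      refine ⟨c.support.sup id + 1, fun i hi => ?_⟩
      rw [Finset.mem_range]
      exact Nat.lt_succ_of_le (Finset.le_sup (f := id) hi)
    refine ⟨c, m, ?_, ?_⟩
    · intro i hi
      by_contra h
      have := hm (Finsupp.mem_support_iff.2 h)
      rw [Finset.mem_range] at this
      omega
    · rw [← hc, Finsupp.sum]
      refine Finset.sum_subset hm ?_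
      intro i _ hi
      rw [Finsupp.notMem_support_iff.1 hi, zero_smul]
  intro v hv
  -- approximating sequence
  have hv' : v ∈ closure ((Submodule.span 𝕜 (Set.range y) : Submodule 𝕜 E) : Set E) := hv
  obtain ⟨u, hu, hul⟩ := mem_closure_iff_seq_limit.1 hv'
  choose a m ham hua using fun k => hspan (u k) (hu k)
  -- compare two elements of the span
  have hcmp : ∀ k l n, ‖∑ i ∈ Finset.range n, (a k i - a l i) • y i‖ ≤ K * ‖u k - u l‖ := by
    intro k l n
    set M := max n (max (m k) (m l)) with hM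
    have h1 := hK (fun i => a k i - a l i) n M (le_max_left _ _)
    have h2 : ∀ k, m k ≤ M → ∑ i ∈ Finset.range M, a k i • y i = u k := by
      intro k hk
      rw [hua k]
      symm
      refine Finset.sum_subset (Finset.range_mono hk) ?_
      intro i _ hi
      rw [ham k i (not_lt.1 fun h => hi (Finset.mem_range.2 h)), zero_smul]
    have h3 : ∑ i ∈ Finset.range M, (a k i - a l i) • y i = u k - u l := by
      simp only [sub_smul, Finset.sum_sub_distrib]
      rw [h2 k ((le_max_left _ _).trans (le_max_right _ _)),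
        h2 l ((le_max_right _ _).trans (le_max_right _ _))]
    rw [h3] at h1
    exact h1
  have hcoef2 : ∀ k l i, ‖a k i - a l i‖ ≤ 2 * K / ‖y i‖ * ‖u k - u l‖ := by
    intro k l i
    have hpos : 0 < ‖y i‖ := norm_pos_iff.2 (hy i)
    set M := max (i + 1) (max (m k) (m l)) with hM
    have h1 := hcoef (fun i => a k i - a l i) i M (Nat.lt_of_succ_le (le_max_left _ _))
    have h2 : ∀ k, m k ≤ M → ∑ i ∈ Finset.range M, a k i • y i = u k := by
      intro k hk
      rw [hua k]
      symm
      refine Finset.sum_subset (Finset.range_mono hk) ?_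
      intro i _ hi
      rw [ham k i (not_lt.1 fun h => hi (Finset.mem_range.2 h)), zero_smul]
    have h3 : ∑ i ∈ Finset.range M, (a k i - a l i) • y i = u k - u l := by
      simp only [sub_smul, Finset.sum_sub_distrib]
      rw [h2 k ((le_max_left _ _).trans (le_max_right _ _)),
        h2 l ((le_max_right _ _).trans (le_max_right _ _))]
    rw [h3] at h1
    rw [div_mul_eq_mul_div, le_div_iff₀ hpos]
    exact h1
  -- limits of coefficients
  have hcauchy : CauchySeq u := hul.cauchySeq
  have hlim : ∀ i, ∃ b : 𝕜, Tendsto (fun k => a k i) atTop (𝓝 b) := by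
    intro i
    apply cauchySeq_tendsto_of_complete
    rw [Metric.cauchySeq_iff] at hcauchy ⊢
    intro ε hε
    have hpos : 0 < ‖y i‖ := norm_pos_iff.2 (hy i)
    obtain ⟨N, hN⟩ := hcauchy (ε / (2 * K / ‖y i‖ + 1)) (by positivity)
    refine ⟨N, fun k hk l hl => ?_⟩
    have h1 := hN k hk l hl
    rw [dist_eq_norm] at h1 ⊢
    have h2 := hcoef2 k l i
    have h3 : 0 ≤ 2 * K / ‖y i‖ := by positivity
    rw [lt_div_iff₀ (by positivity)] at h1
    have h4 : 0 ≤ ‖u k - u l‖ := norm_nonneg _
    nlinarith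
  choose b hb using hlim
  have hbd : ∀ k n, ‖∑ i ∈ Finset.range n, (a k i - b i) • y i‖ ≤ K * ‖u k - v‖ := by
    intro k n
    have h1 : Tendsto (fun l => ‖∑ i ∈ Finset.range n, (a k i - a l i) • y i‖) atTop
        (𝓝 ‖∑ i ∈ Finset.range n, (a k i - b i) • y i‖) := by
      refine Tendsto.norm (tendsto_finsetSum _ fun i _ => ?_)
      exact (tendsto_const_nhds.sub (hb i)).smul_const _
    have h2 : Tendsto (fun l => K * ‖u k - u l‖) atTop (𝓝 (K * ‖u k - v‖)) :=
      ((tendsto_const_nhds.sub hul).norm).const_mul K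
    exact le_of_tendsto_of_tendsto' h1 h2 fun l => hcmp k l n
  have hbt : Tendsto (fun n => ∑ i ∈ Finset.range n, b i • y i) atTop (𝓝 v) := by
    rw [Metric.tendsto_atTop]
    intro ε hε
    obtain ⟨k, hk⟩ := Metric.tendsto_atTop.1 hul (ε / (K + 2)) (by positivity)
    have hk' := hk k le_rfl
    rw [dist_eq_norm] at hk'
    refine ⟨m k, fun n hn => ?_⟩
    rw [dist_eq_norm]
    have h1 : ∑ i ∈ Finset.range n, a k i • y i = u k := by
      rw [hua k]
      symm
      refine Finset.sum_subset (Finset.range_mono hn) ?_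
      intro i _ hi
      rw [ham k i (not_lt.1 fun h => hi (Finset.mem_range.2 h)), zero_smul]
    have h2 : ∑ i ∈ Finset.range n, b i • y i - v
        = (u k - v) - ∑ i ∈ Finset.range n, (a k i - b i) • y i := by
      simp only [sub_smul, Finset.sum_sub_distrib, h1]
      abel
    rw [h2]
    calc ‖(u k - v) - ∑ i ∈ Finset.range n, (a k i - b i) • y i‖
        ≤ ‖u k - v‖ + ‖∑ i ∈ Finset.range n, (a k i - b i) • y i‖ := norm_sub_le _ _
      _ ≤ ‖u k - v‖ + K * ‖u k - v‖ := by gcongr; exact hbd k n
      _ = (K + 1) * ‖u k - v‖ := by ring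
      _ ≤ (K + 1) * (ε / (K + 2)) := by gcongr
      _ < ε := by
          rw [← mul_div_assoc, div_lt_iff₀ (by positivity)]
          nlinarith
  refine ⟨b, hbt, ?_⟩
  · -- uniqueness
    intro c hc
    by_contra hne
    have hex : ∃ i, c i ≠ b i := by
      by_contra h
      push Not at h
      exact hne (funext h)
    obtain ⟨i, hi⟩ := hex
    have hd : Tendsto (fun n => ∑ j ∈ Finset.range n, (c j - b j) • y j) atTop (𝓝 0) := by
      have := hc.sub hbt
      rw [sub_self] at this
      refine this.congr fun n => ?_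
      simp only [sub_smul, Finset.sum_sub_distrib]
    have hle : ∀ n, i < n → ‖c i - b i‖ * ‖y i‖ ≤
        2 * K * ‖∑ j ∈ Finset.range n, (c j - b j) • y j‖ := fun n hn =>
      hcoef (fun j => c j - b j) i n hn
    have h0 : ‖c i - b i‖ * ‖y i‖ ≤ 2 * K * ‖(0 : E)‖ := by
      refine ge_of_tendsto (hd.norm.const_mul (2 * K)) ?_
      filter_upwards [eventually_gt_atTop i] with n hn using hle n hn
    rw [norm_zero, mul_zero] at h0
    have h1 : 0 < ‖c i - b i‖ := norm_pos_iff.2 (sub_ne_zero.2 hi)
    have h2 : 0 < ‖y i‖ := norm_pos_iff.2 (hy i)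
    nlinarith [mul_pos h1 h2]

/-- Half-time: if `τ` is injective on a finite set `B` of cardinality `2 * h`, then at some moment
exactly `h` elements of `B` have been used. -/
theorem exists_half {ι : Type*} [DecidableEq ι] (B : Finset ι) (τ : ι → ℕ)
    (hτ : Function.Injective τ) (h : ℕ) (hB : h ≤ B.card) :
    ∃ M : ℕ, (B.filter fun j => τ j < M).card = h := by
  classical
  let f : ℕ → ℕ := fun M => (B.filter fun j => τ j < M).card
  have hf0 : f 0 = 0 := by simp [f]
  have hstep : ∀ M, f (M + 1) ≤ f M + 1 := by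
    intro M
    have hsub : (B.filter fun j => τ j < M + 1) ⊆
        (B.filter fun j => τ j < M) ∪ (B.filter fun j => τ j = M) := by
      intro j hj
      simp only [Finset.mem_filter, Finset.mem_union] at hj ⊢
      rcases Nat.lt_succ_iff_lt_or_eq.1 hj.2 with h | h
      · exact Or.inl ⟨hj.1, h⟩
      · exact Or.inr ⟨hj.1, h⟩
    have h1 : (B.filter fun j => τ j = M).card ≤ 1 := by
      rw [Finset.card_le_one]
      intro a ha b hb
      simp only [Finset.mem_filter] at ha hb
      exact hτ (ha.2.trans hb.2.symm)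
    calc f (M + 1) ≤ ((B.filter fun j => τ j < M) ∪ (B.filter fun j => τ j = M)).card :=
          Finset.card_le_card hsub
      _ ≤ f M + (B.filter fun j => τ j = M).card := Finset.card_union_le _ _
      _ ≤ f M + 1 := by omega
  have hlarge : ∃ M, h ≤ f M := by
    refine ⟨B.sup τ + 1, ?_⟩
    have : (B.filter fun j => τ j < B.sup τ + 1) = B := by
      refine Finset.filter_true_of_mem fun j hj => ?_
      exact Nat.lt_succ_of_le (Finset.le_sup hj)
    simp only [f]
    rw [this]
    exact hB
  classical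
  let M := Nat.find hlarge
  have hM : h ≤ f M := Nat.find_spec hlarge
  refine ⟨M, le_antisymm ?_ hM⟩
  change f M ≤ h
  rcases Nat.eq_zero_or_pos M with h0 | hpos
  · rw [h0, hf0]; exact Nat.zero_le _
  · obtain ⟨M', hM'⟩ : ∃ M', M = M' + 1 := ⟨M - 1, by omega⟩
    have hlt : f M' < h := by
      have := Nat.find_min hlarge (m := M') (by change M' < M; omega)
      omega
    have := hstep M'
    rw [← hM'] at this
    omega

/-- The half-time argument: if a sequence `y` has, for every `K`, a finite even block `B` such that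
every operator `T` with `T (y j) = 1_A(j) y j` on `B` for a set `A ⊆ B` with half the elements has
norm at least `K`, then no permutation of `y` extends to a basis. -/
theorem not_extends_of_blocks [CompleteSpace E] {y : ℕ → E}
    (hblock : ∀ K : ℝ, ∃ (B : Finset ℕ) (h : ℕ), B.card = 2 * h ∧
      ∀ A ⊆ B, A.card = h → ∀ T : E →L[𝕜] E,
        (∀ j ∈ B, T (y j) = if j ∈ A then y j else 0) → K ≤ ‖T‖) (σ : Equiv.Perm ℕ) :
    ¬ ExtendsToBasis 𝕜 (y ∘ σ) := by
  classical
  rintro ⟨x, hx, k, hk, hkx⟩
  obtain ⟨P, C, hC0, hPC, hPb, -, -, -⟩ := hx.exists_proj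
  obtain ⟨B, h, hBh, hB⟩ := hblock (C + 1)
  let τ : ℕ → ℕ := fun j => k (σ.symm j)
  have hτ : Function.Injective τ := hk.injective.comp σ.symm.injective
  have hyx : ∀ j, y j = x (τ j) := by
    intro j
    have := hkx (σ.symm j)
    simpa [τ] using this
  obtain ⟨M, hM⟩ := exists_half B τ hτ h (by omega)
  have := hB (B.filter fun j => τ j < M) (Finset.filter_subset _ _) hM (P M) (by
    intro j hj
    rw [hyx j, hPb]
    simp only [Finset.mem_filter, hj, true_and])
  have h2 := hPC M
  linarith

end Pool.Agent.H14.NP
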