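import Pool.Agent.H14.NP.Signs

/-!
# Khintchine's inequality: upper bounds for all moments
-/

open Filter Topology
open scoped ENNReal

namespace Pool.Agent.H14.NP

/-- Exponential moment of a real Rademacher sum. -/
theorem exp_moment {ι : Type*} [Fintype ι] [DecidableEq ι] (a : ι → ℝ) :
    ∑ u : ι → Bool, Real.exp (∑ i, sg (u i) * a i) ≤
      2 ^ Fintype.card ι * Real.exp ((∑ i, a i ^ 2) / 2) := by
  classical
  have h1 : ∑ u : ι → Bool, Real.exp (∑ i, sg (u i) * a i) = ∏ i, (2 * Real.cosh (a i)) := by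
    have h2 : ∀ i, 2 * Real.cosh (a i) = ∑ b : Bool, Real.exp (sg b * a i) := by
      intro i
      rw [Fintype.sum_bool, Real.cosh_eq]
      simp only [sg]
      norm_num
      ring
    simp only [h2]
    rw [Finset.prod_univ_sum]
    simp only [Fintype.piFinset_univ]
    refine Finset.sum_congr rfl fun u _ => ?_
    rw [Real.exp_sum]
  rw [h1, Finset.prod_mul_distrib, Finset.prod_const, Finset.card_univ]
  gcongr
  rw [Finset.sum_div, Real.exp_sum]
  exact Finset.prod_le_prod (fun i _ => (Real.cosh_pos _).le)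
    fun i _ => Real.cosh_le_exp_half_sq _

/-- Elementary: `x ^ s ≤ n! * exp x`. -/
theorem rpow_le_exp {s x : ℝ} (hs : 0 ≤ s) (hx : 0 ≤ x) :
    x ^ s ≤ (Nat.factorial ⌈s⌉₊ : ℝ) * Real.exp x := by
  set n := ⌈s⌉₊ with hn
  have hfac : (1 : ℝ) ≤ (Nat.factorial n : ℝ) := by
    exact_mod_cast Nat.succ_le_of_lt (Nat.factorial_pos n)
  have hexp : 1 ≤ Real.exp x := Real.one_le_exp hx
  rcases le_total x 1 with h | h
  · calc x ^ s ≤ 1 := Real.rpow_le_one hx h hs
      _ = 1 * 1 := (one_mul _).symm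
      _ ≤ _ := mul_le_mul hfac hexp zero_le_one (by positivity)
  · have h1 : x ^ s ≤ x ^ (n : ℝ) := Real.rpow_le_rpow_of_exponent_le h (Nat.le_ceil s)
    rw [Real.rpow_natCast] at h1
    have h2 := Real.pow_div_factorial_le_exp x hx n
    rw [div_le_iff₀ (by positivity)] at h2
    linarith

/-- Moments of a normalised real Rademacher sum. -/
theorem moment_real_normalized {ι : Type*} [Fintype ι] [DecidableEq ι] {s : ℝ} (hs : 0 ≤ s)
    (a : ι → ℝ) (ha : ∑ i, a i ^ 2 ≤ 1) :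
    ∑ u : ι → Bool, |∑ i, sg (u i) * a i| ^ s ≤
      2 ^ Fintype.card ι * (4 * (Nat.factorial ⌈s⌉₊ : ℝ)) := by
  set c : ℝ := (Nat.factorial ⌈s⌉₊ : ℝ) with hc
  have hc0 : 0 ≤ c := by positivity
  have h1 : ∀ u : ι → Bool, |∑ i, sg (u i) * a i| ^ s ≤
      c * (Real.exp (∑ i, sg (u i) * a i) + Real.exp (∑ i, sg (u i) * (- a i))) := by
    intro u
    refine (rpow_le_exp hs (abs_nonneg _)).trans ?_
    gcongr
    have h2 : ∑ i, sg (u i) * (- a i) = - ∑ i, sg (u i) * a i := by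
      rw [← Finset.sum_neg_distrib]
      exact Finset.sum_congr rfl fun i _ => by ring
    rw [h2]
    rcases abs_cases (∑ i, sg (u i) * a i) with ⟨h, _⟩ | ⟨h, _⟩
    · rw [h]; exact le_add_of_nonneg_right (Real.exp_pos _).le
    · rw [h]; exact le_add_of_nonneg_left (Real.exp_pos _).le
  have h3 := exp_moment a
  have h4 := exp_moment (fun i => - a i)
  have h5 : ∑ i, (- a i) ^ 2 = ∑ i, a i ^ 2 := Finset.sum_congr rfl fun i _ => by ring
  rw [h5] at h4
  have h6 : Real.exp ((∑ i, a i ^ 2) / 2) ≤ 2 := by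
    have h7 : Real.exp ((∑ i, a i ^ 2) / 2) ≤ Real.exp (1 / 2) :=
      Real.exp_le_exp.2 (by linarith)
    have h8 : Real.exp (1 / 2) ≤ 2 := by
      have h9 : Real.exp (1 / 2) ^ 2 = Real.exp 1 := by
        rw [← Real.exp_nat_mul]; norm_num
      have h10 := Real.exp_one_lt_d9
      nlinarith [Real.exp_pos (1 / 2)]
    exact h7.trans h8
  calc ∑ u : ι → Bool, |∑ i, sg (u i) * a i| ^ s
      ≤ ∑ u : ι → Bool, c * (Real.exp (∑ i, sg (u i) * a i) +
          Real.exp (∑ i, sg (u i) * (- a i))) := Finset.sum_le_sum fun u _ => h1 u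
    _ = c * (∑ u : ι → Bool, Real.exp (∑ i, sg (u i) * a i) +
          ∑ u : ι → Bool, Real.exp (∑ i, sg (u i) * (- a i))) := by
        rw [← Finset.mul_sum, Finset.sum_add_distrib]
    _ ≤ c * (2 ^ Fintype.card ι * 2 + 2 ^ Fintype.card ι * 2) := by
        gcongr
        · exact h3.trans (by gcongr)
        · exact h4.trans (by gcongr)
    _ = 2 ^ Fintype.card ι * (4 * c) := by ring

/-- Moments of a real Rademacher sum. -/
theorem moment_real {ι : Type*} [Fintype ι] [DecidableEq ι] {s : ℝ} (hs : 0 < s)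
    (a : ι → ℝ) : ∑ u : ι → Bool, |∑ i, sg (u i) * a i| ^ s ≤
      2 ^ Fintype.card ι * (4 * (Nat.factorial ⌈s⌉₊ : ℝ)) * (Real.sqrt (∑ i, a i ^ 2)) ^ s := by
  set σ := Real.sqrt (∑ i, a i ^ 2) with hσ
  have hS0 : 0 ≤ ∑ i, a i ^ 2 := Finset.sum_nonneg fun i _ => sq_nonneg _
  have hσ0 : 0 ≤ σ := Real.sqrt_nonneg _
  rcases hσ0.eq_or_lt with h0 | hpos
  · have h1 : ∑ i, a i ^ 2 = 0 := by
      have := (Real.sqrt_eq_zero hS0).1 h0.symm
      exact this
    have h2 : ∀ i, a i = 0 := by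
      intro i
      have := (Finset.sum_eq_zero_iff_of_nonneg (fun i _ => sq_nonneg (a i))).1 h1 i
        (Finset.mem_univ i)
      exact pow_eq_zero_iff two_ne_zero |>.1 this
    simp only [h2, mul_zero, Finset.sum_const_zero, abs_zero, Real.zero_rpow hs.ne']
    positivity
  · have h1 := moment_real_normalized hs.le (fun i => a i / σ) (by
      have : ∑ i, (a i / σ) ^ 2 = (∑ i, a i ^ 2) / σ ^ 2 := by
        rw [Finset.sum_div]
        exact Finset.sum_congr rfl fun i _ => by rw [div_pow]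
      rw [this, hσ, Real.sq_sqrt hS0]
      exact div_self_le_one _)
    have h2 : ∀ u : ι → Bool, |∑ i, sg (u i) * a i| ^ s =
        |∑ i, sg (u i) * (a i / σ)| ^ s * σ ^ s := by
      intro u
      rw [← Real.mul_rpow (abs_nonneg _) hσ0]
      congr 1
      rw [← abs_of_pos hpos, ← abs_mul, Finset.sum_mul]
      congr 1
      refine Finset.sum_congr rfl fun i _ => ?_
      rw [abs_of_pos hpos]
      field_simp
    simp only [h2]
    rw [← Finset.sum_mul]
    gcongr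

variable {𝕜 : Type*} [RCLike 𝕜]

/-- The constant in Khintchine's inequality. -/
noncomputable def kc (s : ℝ) : ℝ := 2 ^ s * (8 * (Nat.factorial ⌈s⌉₊ : ℝ))

theorem kc_pos (s : ℝ) : 0 < kc s := by
  unfold kc
  positivity

/-- Khintchine's inequality, upper bound, for all moments and scalars in `𝕜`. -/
theorem khintchine_upper {ι : Type*} [Fintype ι] [DecidableEq ι] {s : ℝ} (hs : 0 < s)
    (a : ι → 𝕜) : ∑ u : ι → Bool, ‖∑ i, (sg (u i) : 𝕜) * a i‖ ^ s ≤
      2 ^ Fintype.card ι * kc s * (Real.sqrt (∑ i, ‖a i‖ ^ 2)) ^ s := by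
  set σ := Real.sqrt (∑ i, ‖a i‖ ^ 2) with hσ
  have hre : ∀ u : ι → Bool, RCLike.re (∑ i, (sg (u i) : 𝕜) * a i) =
      ∑ i, sg (u i) * RCLike.re (a i) := by
    intro u
    rw [map_sum]
    refine Finset.sum_congr rfl fun i _ => ?_
    rw [RCLike.re_ofReal_mul]
  have him : ∀ u : ι → Bool, RCLike.im (∑ i, (sg (u i) : 𝕜) * a i) =
      ∑ i, sg (u i) * RCLike.im (a i) := by
    intro u
    rw [map_sum]
    refine Finset.sum_congr rfl fun i _ => ?_
    rw [RCLike.im_ofReal_mul]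
  have hpt : ∀ x y z : ℝ, 0 ≤ x → 0 ≤ y → 0 ≤ z → z ≤ x + y → z ^ s ≤ 2 ^ s * (x ^ s + y ^ s) := by
    intro x y z hx hy hz hzxy
    rcases le_total x y with h | h
    · calc z ^ s ≤ (2 * y) ^ s := Real.rpow_le_rpow hz (by linarith) hs.le
        _ = 2 ^ s * y ^ s := Real.mul_rpow (by norm_num) hy
        _ ≤ _ := by
            gcongr
            exact le_add_of_nonneg_left (Real.rpow_nonneg hx _)
    · calc z ^ s ≤ (2 * x) ^ s := Real.rpow_le_rpow hz (by linarith) hs.le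
        _ = 2 ^ s * x ^ s := Real.mul_rpow (by norm_num) hx
        _ ≤ _ := by
            gcongr
            exact le_add_of_nonneg_right (Real.rpow_nonneg hy _)
  have h1 : ∀ u : ι → Bool, ‖∑ i, (sg (u i) : 𝕜) * a i‖ ^ s ≤
      2 ^ s * (|∑ i, sg (u i) * RCLike.re (a i)| ^ s + |∑ i, sg (u i) * RCLike.im (a i)| ^ s) := by
    intro u
    refine hpt _ _ _ (abs_nonneg _) (abs_nonneg _) (norm_nonneg _) ?_
    rw [← hre, ← him]
    have h9 := RCLike.norm_sq_eq_def (z := ∑ i, (sg (u i) : 𝕜) * a i)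
    have h10 := sq_abs (RCLike.re (∑ i, (sg (u i) : 𝕜) * a i))
    have h11 := sq_abs (RCLike.im (∑ i, (sg (u i) : 𝕜) * a i))
    have h12 := abs_nonneg (RCLike.re (∑ i, (sg (u i) : 𝕜) * a i))
    have h13 := abs_nonneg (RCLike.im (∑ i, (sg (u i) : 𝕜) * a i))
    nlinarith [norm_nonneg (∑ i, (sg (u i) : 𝕜) * a i)]
  have h2 := moment_real hs (fun i => RCLike.re (a i))
  have h3 := moment_real hs (fun i => RCLike.im (a i))
  have h4 : Real.sqrt (∑ i, (RCLike.re (a i)) ^ 2) ≤ σ := by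
    refine Real.sqrt_le_sqrt (Finset.sum_le_sum fun i _ => ?_)
    rw [← sq_abs (RCLike.re (a i))]
    exact pow_le_pow_left₀ (abs_nonneg _) (RCLike.abs_re_le_norm _) 2
  have h5 : Real.sqrt (∑ i, (RCLike.im (a i)) ^ 2) ≤ σ := by
    refine Real.sqrt_le_sqrt (Finset.sum_le_sum fun i _ => ?_)
    rw [← sq_abs (RCLike.im (a i))]
    exact pow_le_pow_left₀ (abs_nonneg _) (RCLike.abs_im_le_norm _) 2
  set c : ℝ := 2 ^ Fintype.card ι * (4 * (Nat.factorial ⌈s⌉₊ : ℝ)) with hc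
  have hc0 : 0 ≤ c := by positivity
  calc ∑ u : ι → Bool, ‖∑ i, (sg (u i) : 𝕜) * a i‖ ^ s
      ≤ ∑ u : ι → Bool, 2 ^ s * (|∑ i, sg (u i) * RCLike.re (a i)| ^ s +
          |∑ i, sg (u i) * RCLike.im (a i)| ^ s) := Finset.sum_le_sum fun u _ => h1 u
    _ = 2 ^ s * (∑ u : ι → Bool, |∑ i, sg (u i) * RCLike.re (a i)| ^ s +
          ∑ u : ι → Bool, |∑ i, sg (u i) * RCLike.im (a i)| ^ s) := by
        rw [← Finset.mul_sum, Finset.sum_add_distrib]
    _ ≤ 2 ^ s * (c * σ ^ s + c * σ ^ s) := by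
        have h6 : (Real.sqrt (∑ i, (RCLike.re (a i)) ^ 2)) ^ s ≤ σ ^ s :=
          Real.rpow_le_rpow (Real.sqrt_nonneg _) h4 hs.le
        have h7 : (Real.sqrt (∑ i, (RCLike.im (a i)) ^ 2)) ^ s ≤ σ ^ s :=
          Real.rpow_le_rpow (Real.sqrt_nonneg _) h5 hs.le
        gcongr
        · exact h2.trans (by gcongr)
        · exact h3.trans (by gcongr)
    _ = 2 ^ Fintype.card ι * kc s * σ ^ s := by
        rw [hc]; unfold kc; ring

end Pool.Agent.H14.NP
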