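import Pool.Agent.H14.NP.SmallP

/-!
# Spaces with uniformly complemented `ℓ_p^n`'s, `1 < p < 2`, have (NP): conclusion
-/

open Filter Topology
open scoped ENNReal

namespace Pool.Agent.H14.NP

variable {𝕜 : Type*} [RCLike 𝕜]

/-- Choice of the size. -/
theorem exists_size (s : ℝ) (hs0 : 0 < s) (hs2 : s < 2) (K : ℝ) : ∃ r : ℕ, 0 < r ∧
    576 * ((512 * 2 ^ r : ℕ) : ℝ) * (((512 * 2 ^ r : ℕ) : ℝ) ^ (-(1 / s))) ^ 2 *
      (((512 * 2 ^ r : ℕ) : ℝ) * K ^ 2) < (2 : ℝ) ^ r / (8 * r ^ 2) := by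
  set e : ℝ := 2 / s - 1 with he
  have he0 : 0 < e := by
    rw [he, sub_pos, lt_div_iff₀ hs0]; linarith
  have hbase : 1 < (2 : ℝ) ^ e := Real.one_lt_rpow (by norm_num) he0
  have h1 : Tendsto (fun r : ℕ => (r : ℝ) ^ 2 / ((2 : ℝ) ^ e) ^ r) atTop (𝓝 0) :=
    tendsto_pow_const_div_const_pow_of_one_lt 2 hbase
  have hε : 0 < 1 / (8 * 576 * 512 * (K ^ 2 + 1)) := by positivity
  obtain ⟨r, hr1, hr2⟩ := ((h1.eventually (gt_mem_nhds hε)).and (eventually_gt_atTop 0)).exists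
  refine ⟨r, hr2, ?_⟩
  have hr' : (0 : ℝ) < r := by exact_mod_cast hr2
  set N : ℝ := ((512 * 2 ^ r : ℕ) : ℝ) with hN
  have hNe : N = 512 * 2 ^ r := by rw [hN]; push_cast; ring
  have hN0 : 0 < N := by rw [hNe]; positivity
  set D : ℝ := ((2 : ℝ) ^ e) ^ r with hD
  have hD0 : 0 < D := by positivity
  have h2 : (N ^ (-(1 / s))) ^ 2 * N ^ 2 = N * N ^ (-e) := by
    rw [← Real.rpow_natCast (N ^ (-(1 / s))) 2, ← Real.rpow_mul hN0.le, ← Real.rpow_natCast N 2,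
      ← Real.rpow_add hN0]
    nth_rewrite 2 [← Real.rpow_one N]
    rw [← Real.rpow_add hN0]
    congr 1
    rw [he]
    push_cast
    ring
  have h3 : N ^ (-e) ≤ 1 / D := by
    have h4 : (2 : ℝ) ^ r ≤ N := by
      rw [hNe]
      have : (0 : ℝ) < 2 ^ r := by positivity
      linarith
    have h5 : D = ((2 : ℝ) ^ r) ^ e := by
      rw [hD, ← Real.rpow_natCast, ← Real.rpow_natCast, ← Real.rpow_mul (by norm_num),
        ← Real.rpow_mul (by norm_num), mul_comm]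
    rw [Real.rpow_neg hN0.le, h5, ← one_div]
    apply one_div_le_one_div_of_le (by positivity)
    exact Real.rpow_le_rpow (by positivity) h4 he0.le
  have h6 : 576 * N * (N ^ (-(1 / s))) ^ 2 * (N * K ^ 2) = 576 * K ^ 2 * (N * N ^ (-e)) := by
    rw [← h2]; ring
  rw [h6]
  have h7 : N * N ^ (-e) ≤ 512 * 2 ^ r / D := by
    rw [hNe, mul_div_assoc]
    rw [hNe] at h3
    calc (512 * 2 ^ r : ℝ) * (512 * 2 ^ r) ^ (-e) ≤ 512 * 2 ^ r * (1 / D) := by gcongr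
      _ = _ := by ring
  refine lt_of_le_of_lt (mul_le_mul_of_nonneg_left h7 (by positivity)) ?_
  rw [lt_div_iff₀ (by positivity)]
  rw [div_lt_div_iff₀ hD0 (by positivity)] at hr1
  have h8 : 576 * K ^ 2 * (512 * 2 ^ r / D) * (8 * (r : ℝ) ^ 2) =
      (2 ^ r / D) * ((r : ℝ) ^ 2 * (8 * 576 * 512 * K ^ 2)) := by ring
  rw [h8]
  have h9 : (r : ℝ) ^ 2 * (8 * 576 * 512 * K ^ 2) < D := by
    nlinarith [sq_nonneg (r : ℝ)]
  calc (2 : ℝ) ^ r / D * ((r : ℝ) ^ 2 * (8 * 576 * 512 * K ^ 2)) < 2 ^ r / D * D := by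
        apply mul_lt_mul_of_pos_left h9 (by positivity)
    _ = 2 ^ r := by field_simp

/-- The sign matrix for the block. -/
theorem exists_block_matrix (𝕜 : Type*) [RCLike 𝕜] (r : ℕ) :
    ∃ (N : ℕ) (M : Fin N × JJ r → Bool), N = 512 * 2 ^ r ∧
      (∀ (a : JJ r → 𝕜), ∑ t, ‖Xk 𝕜 M a t‖ ^ 2 ≤ 144 * N * ∑ i, ‖a i‖ ^ 2) ∧
      (∀ a : JJ r → 𝕜, (N : ℝ) / 64 * Real.sqrt (∑ i, ‖a i‖ ^ 2) ≤ ∑ t, ‖Xk 𝕜 M a t‖) := by
  obtain ⟨M, hM1, hM2⟩ := exists_sign_matrix' 𝕜 (JJ r)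
  have hNc : (256 : ℝ) * (Fintype.card (JJ r) : ℝ) = ((256 * Fintype.card (JJ r) : ℕ) : ℝ) := by
    push_cast; ring
  rw [hNc] at hM1 hM2
  refine ⟨256 * Fintype.card (JJ r), M, ?_, hM1, hM2⟩
  rw [card_JJ]; ring

/-- Existence of the block in `ℓ_2 ⊕ ℓ_p`, `1 ≤ p < 2`. -/
theorem small_p_block (p : ℝ≥0∞) [hp1 : Fact (1 ≤ p)] (hp2 : p < 2) (K : ℝ) :
    ∃ (r N : ℕ) (Z : (JJ r → 𝕜) →ₗ[𝕜] PiLp p (fun _ : Fin N => 𝕜)),
    (∀ j, bvec r (toLpL 𝕜 2 (Cube r)) Z j ≠ 0) ∧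
    (∀ (a : JJ r → 𝕜) (s : Finset (JJ r)), ‖∑ j ∈ s, a j • bvec r (toLpL 𝕜 2 (Cube r)) Z j‖ ≤
      768 * ‖∑ j, a j • bvec r (toLpL 𝕜 2 (Cube r)) Z j‖) ∧
    (∀ A : Finset (JJ r), A.card = 2 ^ r →
      ∀ T : PiLp 2 (fun _ : Cube r => 𝕜) × PiLp p (fun _ : Fin N => 𝕜) →L[𝕜]
        PiLp 2 (fun _ : Cube r => 𝕜) × PiLp p (fun _ : Fin N => 𝕜),
      (∀ j, T (bvec r (toLpL 𝕜 2 (Cube r)) Z j) =
        if j ∈ A then bvec r (toLpL 𝕜 2 (Cube r)) Z j else 0) → K < ‖T‖) := by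
  classical
  have htop : p ≠ ∞ := (lt_trans hp2 ENNReal.ofNat_lt_top).ne
  set s := p.toReal with hs
  have hs1 : 1 ≤ s := by
    rw [hs, ← ENNReal.toReal_one]
    exact (ENNReal.toReal_le_toReal ENNReal.one_ne_top htop).2 hp1.out
  have hs2 : s < 2 := by
    rw [hs, ← ENNReal.toReal_ofNat 2]
    exact (ENNReal.toReal_lt_toReal htop ENNReal.ofNat_ne_top).2 hp2
  obtain ⟨r, hr, hrK⟩ := exists_size s (by linarith) hs2 K
  obtain ⟨N, M, hN, hM1, hM2⟩ := exists_block_matrix 𝕜 r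
  have hNpos : 0 < N := by rw [hN]; positivity
  rw [← hN] at hrK
  have : NeZero N := ⟨hNpos.ne'⟩
  set c : ℝ := (N : ℝ) ^ (-(1 / s)) with hc
  set Z := matL 𝕜 p M c with hZ
  have hZn := fun a : JJ r → 𝕜 => norm_matL p hp2.le M hM1 hM2 a
  set U := toLpL 𝕜 2 (Cube r) with hU
  have hPle : ∀ a : JJ r → 𝕜, ‖U (Pf 𝕜 r a)‖ ≤ 2 * ‖(WithLp.toLp 2 a : PiLp 2 (fun _ : JJ r => 𝕜))‖ := by
    intro a
    rw [hU, toLpL_apply, ← PL_eq]
    refine (ContinuousLinearMap.le_opNorm _ _).trans ?_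
    gcongr
    exact norm_PL_le 2 r hr
  have hup : ∀ (a : JJ r → 𝕜) (s : Finset (JJ r)), ‖∑ j ∈ s, a j • bvec r U Z j‖ ≤
      12 * ‖(WithLp.toLp 2 a : PiLp 2 (fun _ : JJ r => 𝕜))‖ := by
    intro a s
    rw [sum_bvec_finset, Prod.norm_def]
    have h1 := norm_restrict_set_le 2 a s
    have h0 := norm_nonneg (WithLp.toLp 2 a : PiLp 2 (fun _ : JJ r => 𝕜))
    refine max_le ?_ ?_
    · refine (hPle _).trans ?_
      calc 2 * _ ≤ 2 * ‖(WithLp.toLp 2 a : PiLp 2 (fun _ : JJ r => 𝕜))‖ := by gcongr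
        _ ≤ _ := by linarith
    · refine (hZn _).2.trans ?_
      gcongr
  have hlow : ∀ (a : JJ r → 𝕜), 1 / 64 * ‖(WithLp.toLp 2 a : PiLp 2 (fun _ : JJ r => 𝕜))‖ ≤
      ‖∑ j, a j • bvec r U Z j‖ := by
    intro a
    rw [sum_bvec]
    exact (hZn a).1.trans (norm_snd_le (U (Pf 𝕜 r a), Z a))
  refine ⟨r, N, Z, ?_, ?_, ?_⟩
  · intro j h0
    have h1 := hlow (Pi.single j 1)
    have h2 : ∑ j', (Pi.single j 1 : JJ r → 𝕜) j' • bvec r U Z j' = bvec r U Z j := by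
      rw [Finset.sum_eq_single j]
      · simp
      · intro b _ hb
        simp [hb]
      · intro h
        exact absurd (Finset.mem_univ _) h
    rw [h2, h0, norm_zero] at h1
    have h3 : ‖(WithLp.toLp 2 (Pi.single j (1 : 𝕜)) : PiLp 2 (fun _ : JJ r => 𝕜))‖ = 1 := by
      have := PiLp.norm_single (p := 2) (β := fun _ : JJ r => 𝕜) j (1 : 𝕜)
      rw [norm_one] at this
      exact this
    rw [h3] at h1
    norm_num at h1
  · intro a s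
    calc ‖∑ j ∈ s, a j • bvec r U Z j‖ ≤ 12 * ‖(WithLp.toLp 2 a : PiLp 2 (fun _ : JJ r => 𝕜))‖ := hup a s
      _ = 768 * (1 / 64 * ‖(WithLp.toLp 2 a : PiLp 2 (fun _ : JJ r => 𝕜))‖) := by ring
      _ ≤ 768 * ‖∑ j, a j • bvec r U Z j‖ := by
          gcongr
          exact hlow a
  · intro A hA T hT
    have hkey := key_relation r U Z A T hT
    let R : PiLp p (fun _ : Fin N => 𝕜) →L[𝕜] PiLp 2 (fun _ : Cube r => 𝕜) :=
      (ContinuousLinearMap.fst 𝕜 _ _).comp (T.comp (ContinuousLinearMap.inr 𝕜 _ _))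
    have hR : ∀ z, R z = (T (0, z)).1 := fun z => rfl
    have hRn : ‖R‖ ≤ ‖T‖ := by
      refine ContinuousLinearMap.opNorm_le_bound _ (norm_nonneg _) fun z => ?_
      rw [hR]
      calc ‖(T (0, z)).1‖ ≤ ‖T (0, z)‖ := norm_fst_le _
        _ ≤ ‖T‖ * ‖((0 : PiLp 2 (fun _ : Cube r => 𝕜)), z)‖ := T.le_opNorm _
        _ = ‖T‖ * ‖z‖ := by rw [Prod.norm_def]; simp
    have h1 : (2 : ℝ) ^ r / (8 * r ^ 2) ≤ ∑ i', ‖R (Z (vf 𝕜 r i'))‖ ^ 2 := by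
      refine (sum_norm_Fv (𝕜 := 𝕜) r hr A hA).trans (le_of_eq ?_)
      refine Finset.sum_congr rfl fun i' _ => ?_
      rw [hR, hkey]
      rfl
    have h2 := obstruction_small p r hr M c hM1 R
    by_contra hle
    push Not at hle
    have hR0 : 0 ≤ ‖R‖ := norm_nonneg _
    have h3 : ‖R‖ ^ 2 ≤ K ^ 2 := pow_le_pow_left₀ hR0 (hRn.trans hle) 2
    have h4 : 576 * (N : ℝ) * c ^ 2 * (N * ‖R‖ ^ 2) ≤ 576 * N * c ^ 2 * (N * K ^ 2) := by gcongr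
    linarith

variable {E : Type*} [NormedAddCommGroup E] [NormedSpace 𝕜 E]

theorem propNP_of_two_small [CompleteSpace E] (hE : ∃ e : ℕ → E, IsBasis 𝕜 e)
    (h2 : UnifCompl 𝕜 E 2) (p : ℝ≥0∞) [hp1 : Fact (1 ≤ p)] (hp2 : p < 2)
    (hp : UnifCompl 𝕜 E p) : PropNP 𝕜 E := by
  classical
  obtain ⟨e, he⟩ := hE
  obtain ⟨P, CP, hPC, hPP, hPt, hPf⟩ := he.exists_proj'
  obtain ⟨C2, hC20, hC2⟩ := h2.tailEmb P CP hPC hPP hPt hPf
  obtain ⟨C3, hC30, hC3⟩ := hp.tailEmb P CP hPC hPP hPt hPf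
  set C := 2 * max C2 C3 with hC
  have hC0 : 0 ≤ C := by positivity
  refine propNP_of_blocks P CP hPC hPP (C ^ 2 * 768) fun K k => ?_
  obtain ⟨r, N, Z, hb0, hb, hbT⟩ := small_p_block (𝕜 := 𝕜) p hp2 (C ^ 2 * K)
  have hemb : TailEmb P C (PiLp 2 (fun _ : Cube r => 𝕜) × PiLp p (fun _ : Fin N => 𝕜)) :=
    ((hC2 (Cube r)).mono (le_max_left _ _)).prod hPP ((hC3 (Fin N)).mono (le_max_right _ _))
  obtain ⟨l, i, q, hkl, hqi, hPl, hPk, -, -, hi, hq⟩ := hemb k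
  exact block_transfer P 768 C K k l hkl i q hqi hPl hPk hi hq (2 ^ r) (by positivity)
    (Fintype.equivFinOfCardEq (card_JJ r)) (bvec r (toLpL 𝕜 2 (Cube r)) Z) hb0 hb hbT

/-- Spaces with uniformly complemented `ℓ_p^n`'s, `1 ≤ p < 2`, have (NP). -/
theorem propNP_of_small [CompleteSpace E] (hE : ∃ e : ℕ → E, IsBasis 𝕜 e)
    (p : ℝ≥0∞) [hp1 : Fact (1 ≤ p)] (hp2 : p < 2) (hp : UnifCompl 𝕜 E p) : PropNP 𝕜 E := by
  rcases hp1.out.eq_or_lt with h | h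
  · subst h
    exact propNP_of_unifCompl_one hE hp
  · exact propNP_of_two_small hE (hp.two h (lt_trans hp2 ENNReal.ofNat_lt_top).ne) p hp2 hp

end Pool.Agent.H14.NP
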