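import Pool.Agent.H14.NP.Chi
import Pool.Agent.H14.NP.SmallP2

/-!
# The block for `2 < p < ∞`
-/

open Filter Topology
open scoped ENNReal

namespace Pool.Agent.H14.NP

variable {𝕜 : Type*} [RCLike 𝕜]
variable {G : Type*} [AddCommGroup G] [Fintype G] [DecidableEq G]

/-- Real version of the right-hand sides. -/
noncomputable def Fr (r : ℕ) (A : Finset (JJ r)) (i' i : Cube r) : ℝ :=
  Xm r i i' * ((if Sum.inr i' ∈ A then 1 else 0) - (if Sum.inl i ∈ A then 1 else 0))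

theorem Fv_eq (r : ℕ) (A : Finset (JJ r)) (i' : Cube r) :
    Fv 𝕜 r A i' = fun i => ((Fr r A i' i : ℝ) : 𝕜) := rfl

theorem abs_Fr_le (r : ℕ) (A : Finset (JJ r)) (i' i : Cube r) : |Fr r A i' i| ≤ Xm r i i' := by
  unfold Fr
  rw [abs_mul, abs_of_nonneg (Xm_nonneg r i i')]
  have : |((if Sum.inr i' ∈ A then (1 : ℝ) else 0) - (if Sum.inl i ∈ A then 1 else 0))| ≤ 1 := by
    split_ifs <;> norm_num
  calc Xm r i i' * _ ≤ Xm r i i' * 1 := mul_le_mul_of_nonneg_left this (Xm_nonneg r i i')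
    _ = _ := mul_one _

/-- Sign averaging. -/
theorem sum_sign_bilin {K : Type*} [Fintype K] [DecidableEq K] (m : K → K → 𝕜) :
    ∑ e : K → Bool, ∑ i, ∑ j, (sg (e i) : 𝕜) * (sg (e j) : 𝕜) * m i j =
      (2 : 𝕜) ^ Fintype.card K * ∑ i, m i i := by
  have h1 : ∑ e : K → Bool, ∑ i, ∑ j, (sg (e i) : 𝕜) * (sg (e j) : 𝕜) * m i j =
      ∑ i, ∑ j, ((∑ e : K → Bool, sg (e i) * sg (e j) : ℝ) : 𝕜) * m i j := by
    rw [Finset.sum_comm]
    refine Finset.sum_congr rfl fun i _ => ?_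
    rw [Finset.sum_comm]
    refine Finset.sum_congr rfl fun j _ => ?_
    rw [RCLike.ofReal_sum, Finset.sum_mul]
    exact Finset.sum_congr rfl fun e _ => by push_cast; ring
  rw [h1, Finset.mul_sum]
  refine Finset.sum_congr rfl fun i _ => ?_
  rw [Finset.sum_eq_single i]
  · have : ∑ e : K → Bool, sg (e i) * sg (e i) = (2 : ℝ) ^ Fintype.card K := by
      simp only [sg_mul_self, Finset.sum_const, Finset.card_univ, nsmul_eq_mul, mul_one]
      simp
    rw [this]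
    push_cast
    ring
  · intro j _ hj
    rw [sum_sg_mul_sg (fun h => hj h.symm)]
    simp
  · intro h
    exact absurd (Finset.mem_univ _) h

/-- First term: the part of the operator living on `ℓ_p`. -/
theorem term_one {p : ℝ≥0∞} [hp1 : Fact (1 ≤ p)] {s' : ℝ} (hconj : p.toReal.HolderConjugate s')
    (hs' : s' ≤ 2) (r : ℕ) (hr : 0 < r) (A : Finset (JJ r))
    (R : PiLp p (fun _ : JJ r => 𝕜) →L[𝕜] PiLp p (fun _ : (Cube r → G) × (Cube r → Bool) => 𝕜)) :
    ‖∑ i', ∑ x, R (WithLp.toLp p (vf 𝕜 r i')) x * ((chi (Fr r A i') x : ℝ) : 𝕜)‖ ≤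
      ‖R‖ * (2 * (2 ^ r : ℝ) ^ (1 / p.toReal)) *
        ((Fintype.card ((Cube r → G) × (Cube r → Bool)) : ℝ) ^ (1 / s') *
          Real.sqrt ((Fintype.card G : ℝ)⁻¹ * 2 ^ r)) := by
  classical
  set s := p.toReal with hs
  have hs0 : 0 < s := hconj.pos
  set Q := ‖R‖ * (2 * (2 ^ r : ℝ) ^ (1 / s)) *
        ((Fintype.card ((Cube r → G) × (Cube r → Bool)) : ℝ) ^ (1 / s') *
          Real.sqrt ((Fintype.card G : ℝ)⁻¹ * 2 ^ r)) with hQ
  let m : Cube r → Cube r → 𝕜 := fun i' i'' =>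
    ∑ x, R (WithLp.toLp p (vf 𝕜 r i')) x * ((chi (Fr r A i'') x : ℝ) : 𝕜)
  have h1 := sum_sign_bilin m
  -- bound for each choice of signs
  have h2 : ∀ e : Cube r → Bool, ‖∑ i', ∑ i'', (sg (e i') : 𝕜) * (sg (e i'') : 𝕜) * m i' i''‖ ≤ Q := by
    intro e
    set a : Cube r → 𝕜 := fun i' => (sg (e i') : 𝕜) with ha
    set c : Cube r → ℝ := ∑ i'' : Cube r, sg (e i'') • Fr r A i'' with hc
    have e1 : ∑ i', ∑ i'', (sg (e i') : 𝕜) * (sg (e i'') : 𝕜) * m i' i'' =
        ∑ x, R (vL p 𝕜 r (WithLp.toLp p a)) x * ((chi c x : ℝ) : 𝕜) := by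
      have e2 : ∀ x : (Cube r → G) × (Cube r → Bool), ((chi c x : ℝ) : 𝕜) = ∑ i'', (sg (e i'') : 𝕜) * ((chi (Fr r A i'') x : ℝ) : 𝕜) := by
        intro x
        rw [hc, chi_sum]
        push_cast
        rfl
      have e3 : ∀ x, R (vL p 𝕜 r (WithLp.toLp p a)) x =
          ∑ i', (sg (e i') : 𝕜) * R (WithLp.toLp p (vf 𝕜 r i')) x := by
        intro x
        rw [vL_eq]
        have e4 : (WithLp.toLp p (∑ i', (WithLp.toLp p a : PiLp p (fun _ : Cube r => 𝕜)) i' • vf 𝕜 r i') :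
            PiLp p (fun _ : JJ r => 𝕜)) = ∑ i', (sg (e i') : 𝕜) •
              (WithLp.toLp p (vf 𝕜 r i') : PiLp p (fun _ : JJ r => 𝕜)) := by
          ext j
          rw [WithLp.ofLp_sum, Finset.sum_apply]
          simp only [Finset.sum_apply, Pi.smul_apply, PiLp.smul_apply]
          rfl
        rw [e4, map_sum, WithLp.ofLp_sum, Finset.sum_apply]
        refine Finset.sum_congr rfl fun i' _ => ?_
        rw [map_smul, PiLp.smul_apply, smul_eq_mul]
      simp only [m, e2, e3]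
      have e5 : ∀ i' i'', (sg (e i') : 𝕜) * (sg (e i'') : 𝕜) *
          ∑ x, R (WithLp.toLp p (vf 𝕜 r i')) x * ((chi (Fr r A i'') x : ℝ) : 𝕜) =
          ∑ x, ((sg (e i') : 𝕜) * R (WithLp.toLp p (vf 𝕜 r i')) x) *
            ((sg (e i'') : 𝕜) * ((chi (Fr r A i'') x : ℝ) : 𝕜)) := by
        intro i' i''
        rw [Finset.mul_sum]
        exact Finset.sum_congr rfl fun x _ => by ring
      simp only [e5]
      have e6 : ∀ i', ∑ i'', ∑ x, ((sg (e i') : 𝕜) * R (WithLp.toLp p (vf 𝕜 r i')) x) *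
            ((sg (e i'') : 𝕜) * ((chi (Fr r A i'') x : ℝ) : 𝕜)) =
          ∑ x, ∑ i'', ((sg (e i') : 𝕜) * R (WithLp.toLp p (vf 𝕜 r i')) x) *
            ((sg (e i'') : 𝕜) * ((chi (Fr r A i'') x : ℝ) : 𝕜)) := fun i' => Finset.sum_comm
      rw [Finset.sum_congr rfl fun i' _ => e6 i', Finset.sum_comm]
      refine Finset.sum_congr rfl fun x _ => ?_
      rw [Finset.sum_mul_sum]
    rw [e1]
    have e7 := holder_pair hconj (R (vL p 𝕜 r (WithLp.toLp p a))) (fun x => chi c x)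
    refine e7.trans ?_
    have e8 : ‖R (vL p 𝕜 r (WithLp.toLp p a))‖ ≤ ‖R‖ * (2 * (2 ^ r : ℝ) ^ (1 / s)) := by
      refine (R.le_opNorm _).trans ?_
      gcongr
      refine ((vL p 𝕜 r).le_opNorm _).trans ?_
      have e9 : ‖(WithLp.toLp p a : PiLp p (fun _ : Cube r => 𝕜))‖ = (2 ^ r : ℝ) ^ (1 / s) := by
        rw [PiLp.norm_eq_sum hs0]
        congr 1
        have : ∀ i', ‖a i'‖ ^ s = 1 := by
          intro i'
          rw [ha]
          simp only
          rw [RCLike.norm_ofReal, abs_sg, Real.one_rpow]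
        rw [← hs]
        simp [this]
      rw [e9]
      gcongr
      exact norm_vL_le p r hr
    have e10 : (∑ x : (Cube r → G) × (Cube r → Bool), |chi c x| ^ s') ^ (1 / s') ≤
        ((Fintype.card ((Cube r → G) × (Cube r → Bool)) : ℝ) ^ (1 / s') *
          Real.sqrt ((Fintype.card G : ℝ)⁻¹ * 2 ^ r)) := by
      refine (chi_dual hconj.symm.lt.le hs' c).trans ?_
      gcongr
      have e11 : ∀ i, c i ^ 2 ≤ 1 := by
        intro i
        have e12 : |c i| ≤ 1 := by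
          rw [hc, Finset.sum_apply]
          refine (Finset.abs_sum_le_sum_abs _ _).trans ?_
          rw [← Xm_row_sum r hr i]
          refine Finset.sum_le_sum fun i' _ => ?_
          rw [Pi.smul_apply, smul_eq_mul, abs_mul, abs_sg, one_mul]
          exact abs_Fr_le r A i' i
        rw [← sq_abs]
        exact pow_le_one₀ (abs_nonneg _) e12
      calc ∑ i, c i ^ 2 ≤ ∑ _i : Cube r, (1 : ℝ) := Finset.sum_le_sum fun i _ => e11 i
        _ = 2 ^ r := by simp
    rw [hQ]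
    exact mul_le_mul e8 e10 (Real.rpow_nonneg (Finset.sum_nonneg fun x _ =>
      Real.rpow_nonneg (abs_nonneg _) _) _) (by positivity)
  have h3 : ‖(2 : 𝕜) ^ Fintype.card (Cube r) * ∑ i', m i' i'‖ ≤ 2 ^ Fintype.card (Cube r) * Q := by
    rw [← h1]
    refine (norm_sum_le _ _).trans ?_
    refine (Finset.sum_le_sum fun e _ => h2 e).trans (le_of_eq ?_)
    rw [Finset.sum_const, Finset.card_univ, nsmul_eq_mul, Fintype.card_fun, Fintype.card_bool]
    push_cast
    rfl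
  rw [norm_mul, norm_pow, RCLike.norm_ofNat] at h3
  exact le_of_mul_le_mul_left h3 (by positivity)

/-- Second term: the part of the operator living on `ℓ_2`. -/
theorem term_two {p : ℝ≥0∞} [hp1 : Fact (1 ≤ p)] {s' : ℝ} (hconj : p.toReal.HolderConjugate s')
    (r : ℕ) (hr : 0 < r) (A : Finset (JJ r))
    (R : PiLp 2 (fun _ : JJ r => 𝕜) →L[𝕜] PiLp p (fun _ : (Cube r → G) × (Cube r → Bool) => 𝕜)) :
    ‖∑ i', ∑ x, R (WithLp.toLp 2 (vf 𝕜 r i')) x * ((chi (Fr r A i') x : ℝ) : 𝕜)‖ ≤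
      2 ^ r * (‖R‖ * 2 * ((Fintype.card ((Cube r → G) × (Cube r → Bool)) : ℝ) *
        (Fintype.card G : ℝ)⁻¹) ^ (1 / s')) := by
  classical
  have h1 : ∀ (i' : Cube r) (x : (Cube r → G) × (Cube r → Bool)), ((chi (Fr r A i') x : ℝ) : 𝕜) =
      ∑ i, (Fr r A i' i : 𝕜) * ((chi (Pi.single i (1 : ℝ)) x : ℝ) : 𝕜) := by
    intro i' x
    have e1 : Fr r A i' = ∑ i, Fr r A i' i • (Pi.single i (1 : ℝ) : Cube r → ℝ) := by
      funext k
      rw [Finset.sum_apply, Finset.sum_eq_single k]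
      · simp
      · intro b _ hb
        simp [hb]
      · intro h
        exact absurd (Finset.mem_univ _) h
    conv_lhs => rw [e1]
    rw [chi_sum]
    push_cast
    rfl
  -- the combined vectors
  set a : Cube r → Cube r → 𝕜 := fun i i' => (Fr r A i' i : 𝕜) with ha
  have h2 : ∑ i', ∑ x, R (WithLp.toLp 2 (vf 𝕜 r i')) x * ((chi (Fr r A i') x : ℝ) : 𝕜) =
      ∑ i, ∑ x, R (vL 2 𝕜 r (WithLp.toLp 2 (a i))) x * ((chi (Pi.single i (1 : ℝ)) x : ℝ) : 𝕜) := by
    have e3 : ∀ i x, R (vL 2 𝕜 r (WithLp.toLp 2 (a i))) x =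
        ∑ i', (Fr r A i' i : 𝕜) * R (WithLp.toLp 2 (vf 𝕜 r i')) x := by
      intro i x
      rw [vL_eq]
      have e4 : (WithLp.toLp 2 (∑ i', (WithLp.toLp 2 (a i) : PiLp 2 (fun _ : Cube r => 𝕜)) i' • vf 𝕜 r i') :
          PiLp 2 (fun _ : JJ r => 𝕜)) = ∑ i', (Fr r A i' i : 𝕜) •
            (WithLp.toLp 2 (vf 𝕜 r i') : PiLp 2 (fun _ : JJ r => 𝕜)) := by
        ext j
        rw [WithLp.ofLp_sum, Finset.sum_apply]
        simp only [Finset.sum_apply, Pi.smul_apply, PiLp.smul_apply]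
        rfl
      rw [e4, map_sum, WithLp.ofLp_sum, Finset.sum_apply]
      refine Finset.sum_congr rfl fun i' _ => ?_
      rw [map_smul, PiLp.smul_apply, smul_eq_mul]
    simp only [h1, e3, Finset.mul_sum, Finset.sum_mul]
    -- both sides are triple sums
    rw [Finset.sum_comm]
    have e7 : ∀ x : (Cube r → G) × (Cube r → Bool),
        ∑ i', ∑ i, R (WithLp.toLp 2 (vf 𝕜 r i')) x *
          ((Fr r A i' i : 𝕜) * ((chi (Pi.single i (1 : ℝ)) x : ℝ) : 𝕜)) =
        ∑ i, ∑ i', (Fr r A i' i : 𝕜) * R (WithLp.toLp 2 (vf 𝕜 r i')) x *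
          ((chi (Pi.single i (1 : ℝ)) x : ℝ) : 𝕜) := by
      intro x
      rw [Finset.sum_comm]
      exact Finset.sum_congr rfl fun i _ => Finset.sum_congr rfl fun i' _ => by ring
    rw [Finset.sum_congr rfl fun x _ => e7 x, Finset.sum_comm]
  rw [h2]
  refine (norm_sum_le _ _).trans ?_
  have h3 : ∀ i, ‖∑ x, R (vL 2 𝕜 r (WithLp.toLp 2 (a i))) x *
      ((chi (Pi.single i (1 : ℝ)) x : ℝ) : 𝕜)‖ ≤ ‖R‖ * 2 *
      ((Fintype.card ((Cube r → G) × (Cube r → Bool)) : ℝ) * (Fintype.card G : ℝ)⁻¹) ^ (1 / s') := by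
    intro i
    have e7 := holder_pair hconj (R (vL 2 𝕜 r (WithLp.toLp 2 (a i))))
      (fun x => chi (Pi.single i (1 : ℝ)) x)
    rw [chi_dual_single hconj.symm.pos i] at e7
    refine e7.trans ?_
    gcongr
    refine (R.le_opNorm _).trans ?_
    gcongr
    refine ((vL 2 𝕜 r).le_opNorm _).trans ?_
    have e8 : ‖(WithLp.toLp 2 (a i) : PiLp 2 (fun _ : Cube r => 𝕜))‖ ≤ 1 := by
      have e9 : ‖(WithLp.toLp 2 (a i) : PiLp 2 (fun _ : Cube r => 𝕜))‖ ^ 2 ≤ 1 := by
        rw [EuclideanSpace.norm_sq_eq]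
        calc ∑ i', ‖a i i'‖ ^ 2 ≤ ∑ i', Xm r i i' := by
              refine Finset.sum_le_sum fun i' _ => ?_
              rw [ha]
              simp only
              rw [RCLike.norm_ofReal]
              have e10 := abs_Fr_le r A i' i
              have e11 : Xm r i i' ≤ 1 := by
                rw [← Xm_row_sum r hr i]
                exact Finset.single_le_sum (f := fun i' => Xm r i i') (fun k _ => Xm_nonneg r i k)
                  (Finset.mem_univ i')
              have e12 := Xm_nonneg r i i'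
              nlinarith [abs_nonneg (Fr r A i' i)]
          _ = 1 := Xm_row_sum r hr i
      nlinarith [norm_nonneg (WithLp.toLp 2 (a i) : PiLp 2 (fun _ : Cube r => 𝕜))]
    calc ‖vL 2 𝕜 r‖ * ‖(WithLp.toLp 2 (a i) : PiLp 2 (fun _ : Cube r => 𝕜))‖ ≤ 2 * 1 := by
          gcongr
          exact norm_vL_le 2 r hr
      _ = 2 := by norm_num
  refine (Finset.sum_le_sum fun i _ => h3 i).trans (le_of_eq ?_)
  rw [Finset.sum_const, Finset.card_univ, nsmul_eq_mul, Fintype.card_fun, Fintype.card_bool,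
    Fintype.card_fin]
  push_cast
  rfl

end Pool.Agent.H14.NP
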