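import Pool.Agent.H14.NP.LargeP

/-!
# Spaces with uniformly complemented `ℓ_p^n`'s, `2 < p < ∞`, have (NP)
-/

open Filter Topology
open scoped ENNReal

namespace Pool.Agent.H14.NP

variable {𝕜 : Type*} [RCLike 𝕜]

/-- The obstruction inequality for `2 < p`. -/
theorem obstruction_large {G : Type*} [AddCommGroup G] [Fintype G] [DecidableEq G]
    {p : ℝ≥0∞} [hp1 : Fact (1 ≤ p)] {s' : ℝ} (hconj : p.toReal.HolderConjugate s')
    (hs' : s' ≤ 2) (r : ℕ) (hr : 0 < r) (A : Finset (JJ r)) (hA : A.card = 2 ^ r)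
    (w c κ : ℝ) (hw : 0 < w) (hc : 0 < c)
    (R1 : PiLp p (fun _ : JJ r => 𝕜) →L[𝕜] PiLp p (fun _ : (Cube r → G) × (Cube r → Bool) => 𝕜))
    (R2 : PiLp 2 (fun _ : JJ r => 𝕜) →L[𝕜] PiLp p (fun _ : (Cube r → G) × (Cube r → Bool) => 𝕜))
    (h1 : ‖R1‖ ≤ κ) (h2 : ‖R2‖ ≤ κ)
    (hrel : ∀ i', R1 (WithLp.toLp p (vf 𝕜 r i')) + (w : 𝕜) • R2 (WithLp.toLp 2 (vf 𝕜 r i')) =
      chiL 𝕜 G (Cube r) p c (Fv 𝕜 r A i')) :
    c * ((Fintype.card ((Cube r → G) × (Cube r → Bool)) : ℝ) * (Fintype.card G : ℝ)⁻¹) *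
      (2 ^ r / (8 * r ^ 2)) ≤
    κ * (2 * (2 ^ r : ℝ) ^ (1 / p.toReal)) *
        ((Fintype.card ((Cube r → G) × (Cube r → Bool)) : ℝ) ^ (1 / s') *
          Real.sqrt ((Fintype.card G : ℝ)⁻¹ * 2 ^ r)) +
    w * (2 ^ r * (κ * 2 * ((Fintype.card ((Cube r → G) × (Cube r → Bool)) : ℝ) *
        (Fintype.card G : ℝ)⁻¹) ^ (1 / s'))) := by
  classical
  have t1 := term_one hconj hs' r hr A R1
  have t2 := term_two hconj r hr A R2
  set N : ℝ := (Fintype.card ((Cube r → G) × (Cube r → Bool)) : ℝ) with hN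
  have hN0 : 0 ≤ N := Nat.cast_nonneg _
  set M : ℝ := (Fintype.card G : ℝ) with hM
  have hMpos : 0 < M := by rw [hM]; exact_mod_cast Fintype.card_pos
  have e1 : ∑ i', ∑ x, R1 (WithLp.toLp p (vf 𝕜 r i')) x * ((chi (Fr r A i') x : ℝ) : 𝕜) +
      (w : 𝕜) * ∑ i', ∑ x, R2 (WithLp.toLp 2 (vf 𝕜 r i')) x * ((chi (Fr r A i') x : ℝ) : 𝕜) =
      ((c * ∑ i', ∑ x : (Cube r → G) × (Cube r → Bool), (chi (Fr r A i') x) ^ 2 : ℝ) : 𝕜) := by
    rw [Finset.mul_sum, ← Finset.sum_add_distrib, RCLike.ofReal_mul, RCLike.ofReal_sum,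
      Finset.mul_sum]
    refine Finset.sum_congr rfl fun i' _ => ?_
    rw [Finset.mul_sum, ← Finset.sum_add_distrib, RCLike.ofReal_sum, Finset.mul_sum]
    refine Finset.sum_congr rfl fun x _ => ?_
    have e2 : R1 (WithLp.toLp p (vf 𝕜 r i')) x + (w : 𝕜) * R2 (WithLp.toLp 2 (vf 𝕜 r i')) x =
        (c : 𝕜) * ((chi (Fr r A i') x : ℝ) : 𝕜) := by
      have e3 := congrArg (fun f : PiLp p (fun _ : (Cube r → G) × (Cube r → Bool) => 𝕜) => f x)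
        (hrel i')
      simp only [PiLp.add_apply, PiLp.smul_apply, smul_eq_mul] at e3
      rw [e3, chiL_apply, Fv_eq, chi_ofReal]
    calc R1 (WithLp.toLp p (vf 𝕜 r i')) x * ((chi (Fr r A i') x : ℝ) : 𝕜) +
        (w : 𝕜) * (R2 (WithLp.toLp 2 (vf 𝕜 r i')) x * ((chi (Fr r A i') x : ℝ) : 𝕜))
        = (R1 (WithLp.toLp p (vf 𝕜 r i')) x + (w : 𝕜) * R2 (WithLp.toLp 2 (vf 𝕜 r i')) x) *
          ((chi (Fr r A i') x : ℝ) : 𝕜) := by ring
      _ = _ := by rw [e2]; push_cast; ring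
  have e4 : ∑ i', ∑ x : (Cube r → G) × (Cube r → Bool), (chi (Fr r A i') x) ^ 2 =
      N * M⁻¹ * ∑ i', ∑ i, Fr r A i' i ^ 2 := by
    rw [Finset.mul_sum]
    refine Finset.sum_congr rfl fun i' _ => ?_
    have := chi_second (𝕜 := ℝ) (G := G) (Fr r A i')
    simp only [Real.norm_eq_abs, sq_abs] at this
    rw [this, ← hN, ← hM]
    ring
  have e5 : (2 : ℝ) ^ r / (8 * r ^ 2) ≤ ∑ i', ∑ i, Fr r A i' i ^ 2 := mixing r hr A hA
  have e6 : c * (N * M⁻¹) * (2 ^ r / (8 * r ^ 2)) ≤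
      ‖((c * ∑ i', ∑ x : (Cube r → G) × (Cube r → Bool), (chi (Fr r A i') x) ^ 2 : ℝ) : 𝕜)‖ := by
    rw [RCLike.norm_ofReal, e4]
    refine le_trans ?_ (le_abs_self _)
    have : 0 ≤ c * (N * M⁻¹) := by positivity
    calc c * (N * M⁻¹) * (2 ^ r / (8 * r ^ 2)) ≤ c * (N * M⁻¹) * ∑ i', ∑ i, Fr r A i' i ^ 2 :=
          mul_le_mul_of_nonneg_left e5 this
      _ = _ := by ring
  refine e6.trans ?_
  rw [← e1]
  refine (norm_add_le _ _).trans (add_le_add (t1.trans ?_) ?_)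
  · gcongr
  · rw [norm_mul, RCLike.norm_ofReal, abs_of_pos hw]
    refine mul_le_mul_of_nonneg_left (t2.trans ?_) hw.le
    gcongr

/-- Choice of the size. -/
theorem exists_size_large (θ : ℝ) (hθ : 0 < θ) (K : ℝ) : ∃ k : ℕ, 0 < k ∧
    4 * K * ((2 : ℝ) ^ k) ^ (-θ) < 1 / (8 * ((2 * k : ℕ) : ℝ) ^ 2) := by
  have hbase : 1 < (2 : ℝ) ^ θ := Real.one_lt_rpow (by norm_num) hθ
  have h1 : Tendsto (fun r : ℕ => (r : ℝ) ^ 2 / ((2 : ℝ) ^ θ) ^ r) atTop (𝓝 0) :=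
    tendsto_pow_const_div_const_pow_of_one_lt 2 hbase
  have hε : 0 < 1 / (128 * (|K| + 1)) := by positivity
  obtain ⟨k, hk1, hk2⟩ := ((h1.eventually (gt_mem_nhds hε)).and (eventually_gt_atTop 0)).exists
  refine ⟨k, hk2, ?_⟩
  have hk' : (0 : ℝ) < k := by exact_mod_cast hk2
  have h2 : ((2 : ℝ) ^ k) ^ (-θ) = 1 / ((2 : ℝ) ^ θ) ^ k := by
    rw [Real.rpow_neg (by positivity), ← Real.rpow_natCast, ← Real.rpow_natCast,
      ← Real.rpow_mul (by norm_num), ← Real.rpow_mul (by norm_num), mul_comm, one_div]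
  rw [h2]
  set D : ℝ := ((2 : ℝ) ^ θ) ^ k with hD
  have hD0 : 0 < D := by positivity
  rw [div_lt_div_iff₀ hD0 (by positivity)] at hk1
  rw [mul_one_div, div_lt_div_iff₀ hD0 (by positivity)]
  push_cast
  nlinarith [le_abs_self K, sq_nonneg (k : ℝ)]

/-- The weight map `a ↦ (a, w a)` into `ℓ_p ⊕ ℓ_2`. -/
noncomputable def ZL (𝕜 : Type*) [RCLike 𝕜] (p : ℝ≥0∞) (ι : Type*) (w : ℝ) :
    (ι → 𝕜) →ₗ[𝕜] PiLp p (fun _ : ι => 𝕜) × PiLp 2 (fun _ : ι => 𝕜) :=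
  (toLpL 𝕜 p ι).prod ((w : 𝕜) • toLpL 𝕜 2 ι)

theorem ZL_apply (p : ℝ≥0∞) (ι : Type*) (w : ℝ) (a : ι → 𝕜) :
    ZL 𝕜 p ι w a = (WithLp.toLp p a, (w : 𝕜) • WithLp.toLp 2 a) := rfl

theorem norm_ZL (p : ℝ≥0∞) [hp1 : Fact (1 ≤ p)] (ι : Type*) [Fintype ι] (w : ℝ) (hw : 0 < w)
    (a : ι → 𝕜) : ‖ZL 𝕜 p ι w a‖ = max ‖(WithLp.toLp p a : PiLp p (fun _ : ι => 𝕜))‖
      (w * ‖(WithLp.toLp 2 a : PiLp 2 (fun _ : ι => 𝕜))‖) := by
  rw [ZL_apply, Prod.norm_def]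
  simp only
  rw [norm_smul, RCLike.norm_ofReal, abs_of_pos hw]

/-- Existence of the block in `ℓ_p ⊕ (ℓ_p ⊕ ℓ_2)`, `2 < p < ∞`. -/
theorem large_p_block (p : ℝ≥0∞) [hp1 : Fact (1 ≤ p)] (hp2 : 2 < p) (htop : p ≠ ∞) (K : ℝ) :
    ∃ (k : ℕ) (c w : ℝ),
    (∀ j, bvec (2 * k) (chiL 𝕜 (Fin k → ZMod 2) (Cube (2 * k)) p c) (ZL 𝕜 p (JJ (2 * k)) w) j ≠ 0) ∧
    (∀ (a : JJ (2 * k) → 𝕜) (s : Finset (JJ (2 * k))),
      ‖∑ j ∈ s, a j • bvec (2 * k) (chiL 𝕜 (Fin k → ZMod 2) (Cube (2 * k)) p c)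
        (ZL 𝕜 p (JJ (2 * k)) w) j‖ ≤
      (4 * bc p.toReal + 1) * ‖∑ j, a j • bvec (2 * k) (chiL 𝕜 (Fin k → ZMod 2) (Cube (2 * k)) p c)
        (ZL 𝕜 p (JJ (2 * k)) w) j‖) ∧
    (∀ A : Finset (JJ (2 * k)), A.card = 2 ^ (2 * k) →
      ∀ T : PiLp p (fun _ : (Cube (2 * k) → (Fin k → ZMod 2)) × (Cube (2 * k) → Bool) => 𝕜) ×
          (PiLp p (fun _ : JJ (2 * k) => 𝕜) × PiLp 2 (fun _ : JJ (2 * k) => 𝕜)) →L[𝕜]
        PiLp p (fun _ : (Cube (2 * k) → (Fin k → ZMod 2)) × (Cube (2 * k) → Bool) => 𝕜) ×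
          (PiLp p (fun _ : JJ (2 * k) => 𝕜) × PiLp 2 (fun _ : JJ (2 * k) => 𝕜)),
      (∀ j, T (bvec (2 * k) (chiL 𝕜 (Fin k → ZMod 2) (Cube (2 * k)) p c)
        (ZL 𝕜 p (JJ (2 * k)) w) j) =
        if j ∈ A then bvec (2 * k) (chiL 𝕜 (Fin k → ZMod 2) (Cube (2 * k)) p c)
        (ZL 𝕜 p (JJ (2 * k)) w) j else 0) → K < ‖T‖) := by
  classical
  set s := p.toReal with hs
  have hs2 : 2 < s := by
    rw [hs, ← ENNReal.toReal_ofNat 2]
    exact (ENNReal.toReal_lt_toReal ENNReal.ofNat_ne_top htop).2 hp2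
  have hs0 : 0 < s := by linarith
  set s' := Real.conjExponent s with hs'
  have hconj : s.HolderConjugate s' := Real.HolderConjugate.conjExponent (by linarith)
  have hs'0 : 0 < s' := hconj.symm.pos
  have hsum : 1 / s + 1 / s' = 1 := by
    have := hconj.inv_add_inv_eq_one
    rw [one_div, one_div]
    exact this
  have hs'2 : s' ≤ 2 := by
    have h1 : 1 / s < 1 / 2 := one_div_lt_one_div_of_lt (by norm_num) hs2
    have h2 : 1 / 2 ≤ 1 / s' := by linarith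
    rw [div_le_div_iff₀ (by norm_num) hs'0] at h2
    linarith
  set θ : ℝ := 1 / 2 - 1 / s with hθ
  have hθ0 : 0 < θ := by
    have h1 : 1 / s < 1 / 2 := one_div_lt_one_div_of_lt (by norm_num) hs2
    rw [hθ]; linarith
  obtain ⟨k, hk, hkK⟩ := exists_size_large θ hθ0 K
  have hr : 0 < 2 * k := by omega
  set N : ℝ := (Fintype.card ((Cube (2 * k) → (Fin k → ZMod 2)) × (Cube (2 * k) → Bool)) : ℝ)
    with hN
  have hNpos : 0 < N := by rw [hN]; exact_mod_cast Fintype.card_pos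
  set M : ℝ := (Fintype.card (Fin k → ZMod 2) : ℝ) with hM
  have hMe : M = 2 ^ k := by
    rw [hM, Fintype.card_fun, ZMod.card, Fintype.card_fin]
    push_cast
    rfl
  have hMpos : 0 < M := by rw [hMe]; positivity
  set c : ℝ := (N * M⁻¹) ^ (-(1 / s)) with hc
  have hY : 0 < N * M⁻¹ := by positivity
  have hcpos : 0 < c := Real.rpow_pos_of_pos hY _
  set w : ℝ := M ^ (-θ) with hw
  have hwpos : 0 < w := Real.rpow_pos_of_pos hMpos _
  set U := chiL 𝕜 (Fin k → ZMod 2) (Cube (2 * k)) p c with hU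
  set Z := ZL 𝕜 p (JJ (2 * k)) w with hZ
  have hZn : ∀ a, ‖Z a‖ = max ‖(WithLp.toLp p a : PiLp p (fun _ : JJ (2 * k) => 𝕜))‖
      (w * ‖(WithLp.toLp 2 a : PiLp 2 (fun _ : JJ (2 * k) => 𝕜))‖) := fun a =>
    norm_ZL p (JJ (2 * k)) w hwpos a
  have hbc := bc_nonneg s
  have hUle : ∀ a : JJ (2 * k) → 𝕜, ‖U (Pf 𝕜 (2 * k) a)‖ ≤ 4 * bc s * ‖Z a‖ := by
    intro a
    have h1 := norm_chiL_le (𝕜 := 𝕜) (G := Fin k → ZMod 2) (ι := Cube (2 * k)) (p := p) hs2.le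
      (Pf 𝕜 (2 * k) a)
    rw [← PL_eq, ← PL_eq] at h1
    have h2 : ‖PL p 𝕜 (2 * k) (WithLp.toLp p a)‖ ≤
        2 * ‖(WithLp.toLp p a : PiLp p (fun _ : JJ (2 * k) => 𝕜))‖ :=
      (ContinuousLinearMap.le_opNorm _ _).trans (by gcongr; exact norm_PL_le p (2 * k) hr)
    have h3 : ‖PL 2 𝕜 (2 * k) (WithLp.toLp 2 a)‖ ≤
        2 * ‖(WithLp.toLp 2 a : PiLp 2 (fun _ : JJ (2 * k) => 𝕜))‖ :=
      (ContinuousLinearMap.le_opNorm _ _).trans (by gcongr; exact norm_PL_le 2 (2 * k) hr)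
    have h4 : ‖(WithLp.toLp p a : PiLp p (fun _ : JJ (2 * k) => 𝕜))‖ ≤ ‖Z a‖ := by
      rw [hZn]; exact le_max_left _ _
    have h5 : w * ‖(WithLp.toLp 2 a : PiLp 2 (fun _ : JJ (2 * k) => 𝕜))‖ ≤ ‖Z a‖ := by
      rw [hZn]; exact le_max_right _ _
    refine h1.trans ?_
    calc bc s * (‖PL p 𝕜 (2 * k) (WithLp.toLp p a)‖ + M ^ (-(1 / 2 - 1 / s)) *
          ‖PL 2 𝕜 (2 * k) (WithLp.toLp 2 a)‖)
        ≤ bc s * (2 * ‖(WithLp.toLp p a : PiLp p (fun _ : JJ (2 * k) => 𝕜))‖ + w *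
          (2 * ‖(WithLp.toLp 2 a : PiLp 2 (fun _ : JJ (2 * k) => 𝕜))‖)) := by gcongr
      _ = bc s * (2 * ‖(WithLp.toLp p a : PiLp p (fun _ : JJ (2 * k) => 𝕜))‖ +
          2 * (w * ‖(WithLp.toLp 2 a : PiLp 2 (fun _ : JJ (2 * k) => 𝕜))‖)) := by ring
      _ ≤ bc s * (2 * ‖Z a‖ + 2 * ‖Z a‖) := by gcongr
      _ = 4 * bc s * ‖Z a‖ := by ring
  have hrest : ∀ (a : JJ (2 * k) → 𝕜) (s : Finset (JJ (2 * k))),
      ‖Z (fun j => if j ∈ s then a j else 0)‖ ≤ ‖Z a‖ := by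
    intro a s
    rw [hZn, hZn]
    refine max_le_max (norm_restrict_set_le p a s) ?_
    gcongr
    exact norm_restrict_set_le 2 a s
  have hlow : ∀ (a : JJ (2 * k) → 𝕜), ‖Z a‖ ≤ ‖∑ j, a j • bvec (2 * k) U Z j‖ := by
    intro a
    rw [sum_bvec]
    exact norm_snd_le (U (Pf 𝕜 (2 * k) a), Z a)
  refine ⟨k, c, w, ?_, ?_, ?_⟩
  · intro j h0
    have h1 := hlow (Pi.single j 1)
    have h2 : ∑ j', (Pi.single j 1 : JJ (2 * k) → 𝕜) j' • bvec (2 * k) U Z j' =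
        bvec (2 * k) U Z j := by
      rw [Finset.sum_eq_single j]
      · simp
      · intro b _ hb
        simp [hb]
      · intro h
        exact absurd (Finset.mem_univ _) h
    rw [h2, h0, norm_zero, hZn] at h1
    have h3 : ‖(WithLp.toLp p (Pi.single j (1 : 𝕜)) : PiLp p (fun _ : JJ (2 * k) => 𝕜))‖ = 1 := by
      have := PiLp.norm_single (p := p) (β := fun _ : JJ (2 * k) => 𝕜) j (1 : 𝕜)
      rw [norm_one] at this
      exact this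
    rw [h3] at h1
    have h4 := (le_max_left _ _).trans h1
    norm_num at h4
  · intro a t
    refine le_trans ?_ (mul_le_mul_of_nonneg_left (hlow a) (by positivity))
    rw [sum_bvec_finset, Prod.norm_def]
    have h1 := hrest a t
    have h0 : 0 ≤ ‖Z a‖ := norm_nonneg _
    refine max_le ?_ ?_
    · refine (hUle _).trans ?_
      calc 4 * bc s * ‖Z (fun j => if j ∈ t then a j else 0)‖ ≤ 4 * bc s * ‖Z a‖ := by gcongr
        _ ≤ _ := by nlinarith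
    · refine h1.trans ?_
      nlinarith [mul_nonneg hbc h0]
  · intro A hA T hT
    have hkey := key_relation (2 * k) U Z A T hT
    by_contra hle
    push Not at hle
    let R1 : PiLp p (fun _ : JJ (2 * k) => 𝕜) →L[𝕜]
        PiLp p (fun _ : (Cube (2 * k) → (Fin k → ZMod 2)) × (Cube (2 * k) → Bool) => 𝕜) :=
      (ContinuousLinearMap.fst 𝕜 _ _).comp (T.comp ((ContinuousLinearMap.inr 𝕜 _ _).comp
        (ContinuousLinearMap.inl 𝕜 _ _)))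
    let R2 : PiLp 2 (fun _ : JJ (2 * k) => 𝕜) →L[𝕜]
        PiLp p (fun _ : (Cube (2 * k) → (Fin k → ZMod 2)) × (Cube (2 * k) → Bool) => 𝕜) :=
      (ContinuousLinearMap.fst 𝕜 _ _).comp (T.comp ((ContinuousLinearMap.inr 𝕜 _ _).comp
        (ContinuousLinearMap.inr 𝕜 _ _)))
    have hR1 : ∀ z, R1 z = (T (0, (z, 0))).1 := fun z => rfl
    have hR2 : ∀ z, R2 z = (T (0, (0, z))).1 := fun z => rfl
    have hR1n : ‖R1‖ ≤ K := by
      refine le_trans (ContinuousLinearMap.opNorm_le_bound _ (norm_nonneg T) fun z => ?_) hle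
      rw [hR1]
      refine (norm_fst_le _).trans ((T.le_opNorm _).trans (le_of_eq ?_))
      rw [Prod.norm_def, Prod.norm_def]
      simp
    have hR2n : ‖R2‖ ≤ K := by
      refine le_trans (ContinuousLinearMap.opNorm_le_bound _ (norm_nonneg T) fun z => ?_) hle
      rw [hR2]
      refine (norm_fst_le _).trans ((T.le_opNorm _).trans (le_of_eq ?_))
      rw [Prod.norm_def, Prod.norm_def]
      simp
    have hrel : ∀ i', R1 (WithLp.toLp p (vf 𝕜 (2 * k) i')) +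
        (w : 𝕜) • R2 (WithLp.toLp 2 (vf 𝕜 (2 * k) i')) =
        chiL 𝕜 (Fin k → ZMod 2) (Cube (2 * k)) p c (Fv 𝕜 (2 * k) A i') := by
      intro i'
      rw [← hU, ← hkey i', ← map_smul, hR1, hR2, ← Prod.fst_add, ← map_add]
      congr 2
      rw [hZ, ZL_apply]
      simp
    have hmain := obstruction_large hconj hs'2 (2 * k) hr A hA w c K hwpos hcpos R1 R2 hR1n hR2n hrel
    rw [← hN, ← hM] at hmain
    -- arithmetic
    have hK0 : 0 ≤ K := (norm_nonneg T).trans hle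
    set Y := N * M⁻¹ with hYd
    have hn : (2 : ℝ) ^ (2 * k) = M ^ 2 := by rw [hMe, ← pow_mul, mul_comm]
    have hcY : c * Y = Y ^ (1 / s') := by
      rw [hc]
      nth_rewrite 2 [← Real.rpow_one Y]
      rw [← Real.rpow_add hY]
      congr 1
      linarith
    have hNY : N ^ (1 / s') = Y ^ (1 / s') * M ^ (1 / s') := by
      rw [← Real.mul_rpow hY.le hMpos.le, hYd, inv_mul_cancel_right₀ hMpos.ne']
    have hsq : Real.sqrt (M⁻¹ * 2 ^ (2 * k)) = M ^ ((1 : ℝ) / 2) := by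
      rw [hn, Real.sqrt_eq_rpow]
      congr 1
      field_simp
    have hn1 : ((2 : ℝ) ^ (2 * k)) ^ (1 / s) = M ^ (2 / s) := by
      rw [hn, ← Real.rpow_natCast M 2, ← Real.rpow_mul hMpos.le]
      congr 1
      push_cast
      ring
    rw [hcY, hn1, hsq, hNY] at hmain
    have hpow : M ^ (2 / s) * (M ^ (1 / s') * M ^ ((1 : ℝ) / 2)) = M ^ 2 * w := by
      rw [hw, ← Real.rpow_natCast M 2, ← Real.rpow_add hMpos, ← Real.rpow_add hMpos,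
        ← Real.rpow_add hMpos]
      congr 1
      have : 1 / s' = 1 - 1 / s := by linarith
      rw [this, hθ]
      push_cast
      ring
    have hYp : 0 < Y ^ (1 / s') := Real.rpow_pos_of_pos hY _
    have hfin : Y ^ (1 / s') * (M ^ 2 * (1 / (8 * ((2 * k : ℕ) : ℝ) ^ 2))) ≤
        Y ^ (1 / s') * (M ^ 2 * (4 * K * w)) := by
      calc Y ^ (1 / s') * (M ^ 2 * (1 / (8 * ((2 * k : ℕ) : ℝ) ^ 2)))
          = Y ^ (1 / s') * (2 ^ (2 * k) / (8 * ((2 * k : ℕ) : ℝ) ^ 2)) := by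
            rw [hn]; ring
        _ ≤ _ := hmain
        _ = Y ^ (1 / s') * (2 * K * (M ^ (2 / s) * (M ^ (1 / s') * M ^ ((1 : ℝ) / 2))) +
            w * 2 ^ (2 * k) * K * 2) := by ring
        _ = _ := by rw [hpow, hn]; ring
    have h1 := le_of_mul_le_mul_left hfin hYp
    have h2 := le_of_mul_le_mul_left h1 (by positivity)
    rw [hw, hMe] at h2
    linarith

variable {E : Type*} [NormedAddCommGroup E] [NormedSpace 𝕜 E]

/-- Spaces with uniformly complemented `ℓ_p^n`'s, `2 < p < ∞`, have (NP). -/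
theorem propNP_of_large [CompleteSpace E] (hE : ∃ e : ℕ → E, IsBasis 𝕜 e)
    (p : ℝ≥0∞) [hp1 : Fact (1 ≤ p)] (hp2 : 2 < p) (htop : p ≠ ∞) (hp : UnifCompl 𝕜 E p) :
    PropNP 𝕜 E := by
  classical
  have h2 : UnifCompl 𝕜 E 2 := hp.two (lt_trans (by norm_num) hp2) htop
  obtain ⟨e, he⟩ := hE
  obtain ⟨P, CP, hPC, hPP, hPt, hPf⟩ := he.exists_proj'
  obtain ⟨C2, hC20, hC2⟩ := h2.tailEmb P CP hPC hPP hPt hPf
  obtain ⟨C3, hC30, hC3⟩ := hp.tailEmb P CP hPC hPP hPt hPf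
  set C' := max C2 C3 with hC'
  have hC'0 : 0 ≤ C' := by positivity
  set C := 2 * (2 * C') with hC
  have hC0 : 0 ≤ C := by positivity
  refine propNP_of_blocks P CP hPC hPP (C ^ 2 * (4 * bc p.toReal + 1)) fun K k => ?_
  obtain ⟨k', c, w, hb0, hb, hbT⟩ := large_p_block (𝕜 := 𝕜) p hp2 htop (C ^ 2 * K)
  have hemb2 : TailEmb P (2 * C') (PiLp p (fun _ : JJ (2 * k') => 𝕜) ×
      PiLp 2 (fun _ : JJ (2 * k') => 𝕜)) :=
    ((hC3 (JJ (2 * k'))).mono (le_max_right _ _)).prod hPP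
      ((hC2 (JJ (2 * k'))).mono (le_max_left _ _))
  have hemb : TailEmb P C (PiLp p (fun _ : (Cube (2 * k') → (Fin k' → ZMod 2)) ×
      (Cube (2 * k') → Bool) => 𝕜) × (PiLp p (fun _ : JJ (2 * k') => 𝕜) ×
      PiLp 2 (fun _ : JJ (2 * k') => 𝕜))) :=
    ((hC3 _).mono (by
      have : C3 ≤ C' := le_max_right _ _
      linarith)).prod hPP hemb2
  obtain ⟨l, i, q, hkl, hqi, hPl, hPk, -, -, hi, hq⟩ := hemb k
  exact block_transfer P (4 * bc p.toReal + 1) C K k l hkl i q hqi hPl hPk hi hq (2 ^ (2 * k'))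
    (by positivity) (Fintype.equivFinOfCardEq (card_JJ (2 * k'))) _ hb0 hb hbT

end Pool.Agent.H14.NP
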