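import Mathlib

/-!
# Coordinate restriction and extension on finite dimensional `ℓ_p` spaces
-/

open Filter Topology
open scoped ENNReal

namespace Pool.Agent.H14.NP

variable {𝕜 : Type*} [RCLike 𝕜] (p : ℝ≥0∞) [hp1 : Fact (1 ≤ p)]
variable {ι κ : Type*} [Fintype ι] [Fintype κ]

theorem norm_restrict_le (a : ι → κ) (ha : Function.Injective a) (x : PiLp p (fun _ : κ => 𝕜)) :
    ‖(WithLp.toLp p (fun i => x (a i)) : PiLp p (fun _ : ι => 𝕜))‖ ≤ ‖x‖ := by
  classical
  rcases eq_or_ne p ∞ with rfl | hp
  · rw [PiLp.norm_eq_ciSup]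
    refine Real.iSup_le (fun i => ?_) (norm_nonneg _)
    exact PiLp.norm_apply_le x (a i)
  · have hpos : 0 < p.toReal := ENNReal.toReal_pos (by
      intro h
      have := hp1.out
      rw [h] at this
      simp at this) hp
    rw [PiLp.norm_eq_sum hpos, PiLp.norm_eq_sum hpos]
    refine Real.rpow_le_rpow (Finset.sum_nonneg fun i _ => Real.rpow_nonneg (norm_nonneg _) _) ?_
      (by positivity)
    calc ∑ i, ‖x (a i)‖ ^ p.toReal = ∑ k ∈ Finset.univ.map ⟨a, ha⟩, ‖x k‖ ^ p.toReal := by
          rw [Finset.sum_map]; rfl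
      _ ≤ ∑ k, ‖x k‖ ^ p.toReal :=
          Finset.sum_le_sum_of_subset_of_nonneg (Finset.subset_univ _)
            fun i _ _ => Real.rpow_nonneg (norm_nonneg _) _

theorem norm_extend_le (a : ι → κ) (ha : Function.Injective a) (x : PiLp p (fun _ : ι => 𝕜)) :
    ‖(WithLp.toLp p (Function.extend a (fun i => x i) 0) : PiLp p (fun _ : κ => 𝕜))‖ ≤ ‖x‖ := by
  classical
  rcases eq_or_ne p ∞ with rfl | hp
  · rw [PiLp.norm_eq_ciSup]
    refine Real.iSup_le (fun k => ?_) (norm_nonneg _)
    by_cases hk : ∃ i, a i = k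
    · obtain ⟨i, rfl⟩ := hk
      simp only [ha.extend_apply]
      exact PiLp.norm_apply_le x i
    · simp [Function.extend_apply' _ _ _ hk]
  · have hpos : 0 < p.toReal := ENNReal.toReal_pos (by
      intro h
      have := hp1.out
      rw [h] at this
      simp at this) hp
    rw [PiLp.norm_eq_sum hpos, PiLp.norm_eq_sum hpos]
    refine Real.rpow_le_rpow (Finset.sum_nonneg fun i _ => Real.rpow_nonneg (norm_nonneg _) _) ?_
      (by positivity)
    apply le_of_eq
    simp only
    rw [← Finset.sum_subset (Finset.subset_univ (Finset.univ.map ⟨a, ha⟩))]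
    · rw [Finset.sum_map]
      refine Finset.sum_congr rfl fun i _ => ?_
      simp only [Function.Embedding.coeFn_mk, ha.extend_apply]
    · intro k _ hk
      have : ¬ ∃ i, a i = k := by
        rintro ⟨i, rfl⟩
        exact hk (Finset.mem_map.2 ⟨i, Finset.mem_univ _, rfl⟩)
      rw [Function.extend_apply' _ _ _ this]
      simp [Real.zero_rpow hpos.ne']

variable (𝕜) in
/-- Restriction of coordinates along an injective map. -/
noncomputable def restrictL (a : ι → κ) (ha : Function.Injective a) :
    PiLp p (fun _ : κ => 𝕜) →L[𝕜] PiLp p (fun _ : ι => 𝕜) :=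
  LinearMap.mkContinuous
    { toFun := fun x => WithLp.toLp p (fun i => x (a i))
      map_add' := fun x y => by ext i; simp
      map_smul' := fun c x => by ext i; simp } 1
    (fun x => by rw [one_mul]; exact norm_restrict_le p a ha x)

variable (𝕜) in
/-- Extension of coordinates by zero along an injective map. -/
noncomputable def extendL (a : ι → κ) (ha : Function.Injective a) :
    PiLp p (fun _ : ι => 𝕜) →L[𝕜] PiLp p (fun _ : κ => 𝕜) :=
  LinearMap.mkContinuous
    { toFun := fun x => WithLp.toLp p (Function.extend a (fun i => x i) 0)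
      map_add' := fun x y => by
        ext k
        by_cases hk : ∃ i, a i = k
        · obtain ⟨i, rfl⟩ := hk
          simp [ha.extend_apply]
        · simp [Function.extend_apply' _ _ _ hk]
      map_smul' := fun c x => by
        ext k
        by_cases hk : ∃ i, a i = k
        · obtain ⟨i, rfl⟩ := hk
          simp [ha.extend_apply]
        · simp [Function.extend_apply' _ _ _ hk] } 1
    (fun x => by rw [one_mul]; exact norm_extend_le p a ha x)

theorem restrictL_apply (a : ι → κ) (ha : Function.Injective a) (x : PiLp p (fun _ : κ => 𝕜))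
    (i : ι) : restrictL 𝕜 p a ha x i = x (a i) := rfl

theorem extendL_apply (a : ι → κ) (ha : Function.Injective a) (x : PiLp p (fun _ : ι => 𝕜))
    (i : ι) : extendL 𝕜 p a ha x (a i) = x i := by
  change Function.extend a (fun i => x i) 0 (a i) = x i
  rw [ha.extend_apply]

theorem extendL_apply' (a : ι → κ) (ha : Function.Injective a) (x : PiLp p (fun _ : ι => 𝕜))
    (k : κ) (hk : ¬ ∃ i, a i = k) : extendL 𝕜 p a ha x k = 0 := by
  change Function.extend a (fun i => x i) 0 k = 0
  rw [Function.extend_apply' _ _ _ hk]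
  rfl

theorem norm_restrictL_le (a : ι → κ) (ha : Function.Injective a) : ‖restrictL 𝕜 p a ha‖ ≤ 1 :=
  LinearMap.mkContinuous_norm_le _ zero_le_one _

theorem norm_extendL_le (a : ι → κ) (ha : Function.Injective a) : ‖extendL 𝕜 p a ha‖ ≤ 1 :=
  LinearMap.mkContinuous_norm_le _ zero_le_one _

end Pool.Agent.H14.NP
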