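import Pool.Agent.H14.NP.Signs
import Pool.Agent.H14.NP.Maps

/-!
# A mixing operator on the cube
-/

open Filter Topology
open scoped ENNReal

namespace Pool.Agent.H14.NP

/-- The vertex set of the cube. -/
abbrev Cube (r : ℕ) : Type := Fin r → Bool

/-- Poincaré's inequality on the cube. -/
theorem poincare (r : ℕ) : ∀ φ : Cube r → ℝ,
    4 * (2 ^ r * ∑ i, φ i ^ 2 - (∑ i, φ i) ^ 2) ≤
      2 ^ r * ∑ c : Fin r, ∑ i, (φ i - φ (flipAt c i)) ^ 2 := by
  induction r with
  | zero =>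
    intro φ
    simp
  | succ r ih =>
    intro φ
    let e : Bool × Cube r ≃ Cube (r + 1) := Fin.consEquiv (fun _ => Bool)
    have he : ∀ f : Cube (r + 1) → ℝ, ∑ i, f i =
        ∑ i : Cube r, f (Fin.cons true i) + ∑ i : Cube r, f (Fin.cons false i) := by
      intro f
      rw [← e.sum_comp, Fintype.sum_prod_type]
      simp only [Fintype.sum_bool]
      rfl
    let φ0 : Cube r → ℝ := fun i => φ (Fin.cons true i)
    let φ1 : Cube r → ℝ := fun i => φ (Fin.cons false i)
    have hfs : ∀ (b : Bool) (i : Cube r) (c : Fin r),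
        flipAt c.succ (Fin.cons b i : Cube (r + 1)) = Fin.cons b (flipAt c i) := by
      intro b i c
      funext k
      refine Fin.cases ?_ (fun k => ?_) k
      · rw [flipAt_ne _ _ (Fin.succ_ne_zero c).symm]
        simp
      · by_cases hk : k = c
        · subst hk
          rw [flipAt_same]
          simp [flipAt_same]
        · rw [flipAt_ne _ _ (fun h => hk (Fin.succ_injective _ h))]
          simp [flipAt_ne _ _ hk]
    have hf0 : ∀ (b : Bool) (i : Cube r),
        flipAt 0 (Fin.cons b i : Cube (r + 1)) = Fin.cons (!b) i := by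
      intro b i
      funext k
      refine Fin.cases ?_ (fun k => ?_) k
      · rw [flipAt_same]; simp
      · rw [flipAt_ne _ _ (Fin.succ_ne_zero k)]
        simp
    have h0 := ih φ0
    have h1 := ih φ1
    have e1 : ∑ i, φ i ^ 2 = ∑ i, φ0 i ^ 2 + ∑ i, φ1 i ^ 2 := he _
    have e2 : ∑ i, φ i = ∑ i, φ0 i + ∑ i, φ1 i := he _
    have e3 : ∑ c : Fin (r + 1), ∑ i, (φ i - φ (flipAt c i)) ^ 2
        = 2 * ∑ i, (φ0 i - φ1 i) ^ 2 + (∑ c : Fin r, ∑ i, (φ0 i - φ0 (flipAt c i)) ^ 2 +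
          ∑ c : Fin r, ∑ i, (φ1 i - φ1 (flipAt c i)) ^ 2) := by
      rw [Fin.sum_univ_succ]
      congr 1
      · rw [he]
        simp only [hf0, Bool.not_true, Bool.not_false]
        rw [two_mul]
        congr 1
        exact Finset.sum_congr rfl fun i _ => by simp only [φ0, φ1]; ring
      · rw [← Finset.sum_add_distrib]
        refine Finset.sum_congr rfl fun c _ => ?_
        rw [he]
        simp only [hfs]
        rfl
    have h3 : (∑ i, (φ0 i - φ1 i)) ^ 2 ≤ 2 ^ r * ∑ i, (φ0 i - φ1 i) ^ 2 := by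
      have := sq_sum_le_card_mul_sum_sq (s := (Finset.univ : Finset (Cube r)))
        (f := fun i => φ0 i - φ1 i)
      simpa using this
    rw [Finset.sum_sub_distrib] at h3
    rw [e1, e2, e3, pow_succ]
    have h2r : (0 : ℝ) < 2 ^ r := by positivity
    nlinarith [h0, h1, h3]

/-- The matrix of the mixing operator. -/
noncomputable def Xm (r : ℕ) (i i' : Cube r) : ℝ :=
  (if i' = i then 1 / 2 else 0) + ∑ c : Fin r, if i' = flipAt c i then 1 / (2 * (r : ℝ)) else 0

theorem Xm_nonneg (r : ℕ) (i i' : Cube r) : 0 ≤ Xm r i i' := by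
  unfold Xm
  refine add_nonneg (by split_ifs <;> norm_num) (Finset.sum_nonneg fun c _ => ?_)
  split_ifs <;> positivity

theorem Xm_sum (r : ℕ) (i : Cube r) (a : Cube r → ℝ) : ∑ i', Xm r i i' * a i' =
    1 / 2 * a i + 1 / (2 * (r : ℝ)) * ∑ c : Fin r, a (flipAt c i) := by
  unfold Xm
  simp only [add_mul, Finset.sum_mul, ite_mul, zero_mul, Finset.sum_add_distrib]
  rw [Finset.sum_ite_eq' Finset.univ i, if_pos (Finset.mem_univ _), Finset.sum_comm]
  congr 1
  rw [Finset.mul_sum]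
  refine Finset.sum_congr rfl fun c _ => ?_
  rw [Finset.sum_ite_eq' Finset.univ, if_pos (Finset.mem_univ _)]

/-- The mixing estimate. -/
theorem mixing (r : ℕ) (hr : 0 < r) (A : Finset (Cube r ⊕ Cube r)) (hA : A.card = 2 ^ r) :
    (2 : ℝ) ^ r / (8 * r ^ 2) ≤ ∑ i', ∑ i, (Xm r i i' * ((if Sum.inr i' ∈ A then 1 else 0) -
      (if Sum.inl i ∈ A then 1 else 0))) ^ 2 := by
  classical
  set φ : Cube r → ℝ := fun i => if Sum.inl i ∈ A then 1 else 0 with hφ
  set ψ : Cube r → ℝ := fun i => if Sum.inr i ∈ A then 1 else 0 with hψ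
  have hr' : (0 : ℝ) < r := by exact_mod_cast hr
  have hr1 : (1 : ℝ) ≤ r := by exact_mod_cast hr
  have hφ2 : ∀ i, φ i ^ 2 = φ i := fun i => by simp only [hφ]; split_ifs <;> norm_num
  have hψ2 : ∀ i, ψ i ^ 2 = ψ i := fun i => by simp only [hψ]; split_ifs <;> norm_num
  -- lower bound for the entries
  have hent : ∀ i i', (if i' = i then (1 : ℝ) / 4 else 0) +
      ∑ c : Fin r, (if i' = flipAt c i then 1 / (4 * (r : ℝ) ^ 2) else 0) ≤ Xm r i i' ^ 2 := by
    intro i i'
    unfold Xm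
    set x : ℝ := if i' = i then 1 / 2 else 0 with hx
    set y : Fin r → ℝ := fun c => if i' = flipAt c i then 1 / (2 * (r : ℝ)) else 0 with hy
    have hx0 : 0 ≤ x := by simp only [hx]; split_ifs <;> norm_num
    have hy0 : ∀ c, 0 ≤ y c := fun c => by simp only [hy]; split_ifs <;> positivity
    have hysum : 0 ≤ ∑ c, y c := Finset.sum_nonneg fun c _ => hy0 c
    have e1 : (if i' = i then (1 : ℝ) / 4 else 0) = x ^ 2 := by
      simp only [hx]; split_ifs <;> norm_num
    have e2 : ∀ c, (if i' = flipAt c i then 1 / (4 * (r : ℝ) ^ 2) else 0) = y c ^ 2 := by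
      intro c
      simp only [hy]
      split_ifs
      · field_simp; norm_num
      · norm_num
    have e3 : ∑ c, y c ^ 2 ≤ (∑ c, y c) ^ 2 := by
      exact Finset.sum_sq_le_sq_sum_of_nonneg (fun c _ => hy0 c)
    rw [e1, Finset.sum_congr rfl fun c _ => e2 c]
    nlinarith
  have hmain : ∑ i, (1 / 4 * (ψ i - φ i) ^ 2 + 1 / (4 * (r : ℝ) ^ 2) *
      ∑ c : Fin r, (ψ (flipAt c i) - φ i) ^ 2) ≤ ∑ i', ∑ i, (Xm r i i' * (ψ i' - φ i)) ^ 2 := by
    rw [Finset.sum_comm]
    refine Finset.sum_le_sum fun i _ => ?_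
    calc 1 / 4 * (ψ i - φ i) ^ 2 + 1 / (4 * (r : ℝ) ^ 2) * ∑ c : Fin r, (ψ (flipAt c i) - φ i) ^ 2
        = ∑ i', ((if i' = i then (1 : ℝ) / 4 else 0) +
          ∑ c : Fin r, (if i' = flipAt c i then 1 / (4 * (r : ℝ) ^ 2) else 0)) * (ψ i' - φ i) ^ 2 := by
          simp only [add_mul, Finset.sum_mul, ite_mul, zero_mul, Finset.sum_add_distrib]
          rw [Finset.sum_ite_eq' Finset.univ i, if_pos (Finset.mem_univ _), Finset.sum_comm]
          congr 1
          rw [Finset.mul_sum]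
          refine Finset.sum_congr rfl fun c _ => ?_
          rw [Finset.sum_ite_eq' Finset.univ, if_pos (Finset.mem_univ _)]
      _ ≤ ∑ i', (Xm r i i' * (ψ i' - φ i)) ^ 2 := by
          refine Finset.sum_le_sum fun i' _ => ?_
          rw [mul_pow]
          gcongr
          exact hent i i'
  refine le_trans ?_ hmain
  -- counting
  set n : ℝ := (2 : ℝ) ^ r with hn
  have hn0 : 0 < n := by positivity
  set d0 : ℝ := ∑ i, (ψ i - φ i) ^ 2 with hd0
  set d1 : ℝ := ∑ i, ∑ c : Fin r, (ψ (flipAt c i) - φ i) ^ 2 with hd1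
  have hd00 : 0 ≤ d0 := Finset.sum_nonneg fun i _ => sq_nonneg _
  have hd10 : 0 ≤ d1 := Finset.sum_nonneg fun i _ => Finset.sum_nonneg fun c _ => sq_nonneg _
  have hL : ∑ i, (1 / 4 * (ψ i - φ i) ^ 2 + 1 / (4 * (r : ℝ) ^ 2) *
      ∑ c : Fin r, (ψ (flipAt c i) - φ i) ^ 2) = 1 / 4 * d0 + 1 / (4 * (r : ℝ) ^ 2) * d1 := by
    rw [Finset.sum_add_distrib, ← Finset.mul_sum, ← Finset.mul_sum]
  rw [hL]
  set α : ℝ := ∑ i, φ i with hα
  set β : ℝ := ∑ i, ψ i with hβ
  have hαβ : α + β = n := by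
    have h1 : (A.card : ℝ) = ∑ j : Cube r ⊕ Cube r, if j ∈ A then (1 : ℝ) else 0 := by
      rw [Finset.sum_ite_mem, Finset.univ_inter, Finset.sum_const, nsmul_eq_mul, mul_one]
    rw [Fintype.sum_sum_type, hA] at h1
    rw [hα, hβ, hn]
    push_cast at h1
    exact h1.symm
  -- Poincare
  have hP := poincare r φ
  have hφs : ∑ i, φ i ^ 2 = α := by
    rw [hα]; exact Finset.sum_congr rfl fun i _ => hφ2 i
  rw [hφs, ← hα, ← hn] at hP
  -- compare flips of φ with d0, d1
  have hab : ∀ x y z : ℝ, x ^ 2 = x → y ^ 2 = y → z ^ 2 = z →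
      (x - z) ^ 2 ≤ (x - y) ^ 2 + (y - z) ^ 2 := by
    intro x y z hx hy hz
    have hx' : x = 0 ∨ x = 1 := by
      have : x * (x - 1) = 0 := by nlinarith
      rcases mul_eq_zero.1 this with h | h
      · exact Or.inl h
      · exact Or.inr (by linarith)
    have hy' : y = 0 ∨ y = 1 := by
      have : y * (y - 1) = 0 := by nlinarith
      rcases mul_eq_zero.1 this with h | h
      · exact Or.inl h
      · exact Or.inr (by linarith)
    have hz' : z = 0 ∨ z = 1 := by
      have : z * (z - 1) = 0 := by nlinarith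
      rcases mul_eq_zero.1 this with h | h
      · exact Or.inl h
      · exact Or.inr (by linarith)
    rcases hx' with rfl | rfl <;> rcases hy' with rfl | rfl <;> rcases hz' with rfl | rfl <;>
      norm_num
  have hflip : ∑ c : Fin r, ∑ i, (φ i - φ (flipAt c i)) ^ 2 ≤ d1 + r * d0 := by
    calc ∑ c : Fin r, ∑ i, (φ i - φ (flipAt c i)) ^ 2
        ≤ ∑ c : Fin r, ∑ i, ((ψ (flipAt c i) - φ i) ^ 2 +
            (ψ (flipAt c i) - φ (flipAt c i)) ^ 2) := by
          refine Finset.sum_le_sum fun c _ => Finset.sum_le_sum fun i _ => ?_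
          have := hab (φ i) (ψ (flipAt c i)) (φ (flipAt c i)) (hφ2 _) (hψ2 _) (hφ2 _)
          calc (φ i - φ (flipAt c i)) ^ 2 ≤ _ := this
            _ = _ := by ring
      _ = ∑ c : Fin r, (∑ i, (ψ (flipAt c i) - φ i) ^ 2 + d0) := by
          refine Finset.sum_congr rfl fun c _ => ?_
          rw [Finset.sum_add_distrib]
          congr 1
          exact sum_flip c (fun i => (ψ i - φ i) ^ 2)
      _ = d1 + r * d0 := by
          rw [Finset.sum_add_distrib, Finset.sum_const, Finset.card_univ, Fintype.card_fin,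
            nsmul_eq_mul, hd1, Finset.sum_comm]
  -- the difference of the means
  have hdiff : |α - β| ≤ d0 := by
    have h1 : ∀ i, |φ i - ψ i| = (ψ i - φ i) ^ 2 := by
      intro i
      simp only [hφ, hψ]
      split_ifs <;> norm_num
    calc |α - β| = |∑ i, (φ i - ψ i)| := by rw [Finset.sum_sub_distrib]
      _ ≤ ∑ i, |φ i - ψ i| := Finset.abs_sum_le_sum_abs _ _
      _ = d0 := Finset.sum_congr rfl fun i _ => h1 i
  -- conclusion
  have hr2 : (1 : ℝ) ≤ r ^ 2 := one_le_pow₀ hr1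
  have hkey1 : 4 * (α * β) ≤ n * (d1 + r * d0) := by
    have h1 : n * α - α ^ 2 = α * β := by rw [← hαβ]; ring
    rw [h1] at hP
    exact hP.trans (by gcongr)
  rcases le_total |α - β| (n / 2) with h | h
  · -- balanced case
    have h2 : 3 / 16 * n ^ 2 ≤ α * β := by
      have h3 := abs_le.1 h
      have : (α - β) ^ 2 ≤ (n / 2) ^ 2 := sq_le_sq' (by linarith [h3.1]) (by linarith [h3.2])
      nlinarith
    have h4 : 3 / 4 * n ≤ d1 + r * d0 := by
      have : n * (3 / 4 * n) ≤ n * (d1 + r * d0) := by nlinarith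
      exact le_of_mul_le_mul_left this hn0
    have h5 : (1 / (4 * (r : ℝ) ^ 2)) * (d1 + r * d0) ≤ 1 / 4 * d0 + 1 / (4 * (r : ℝ) ^ 2) * d1 := by
      have h6 : (1 / (4 * (r : ℝ) ^ 2)) * (r * d0) ≤ 1 / 4 * d0 := by
        have : (1 / (4 * (r : ℝ) ^ 2)) * (r * d0) = (1 / 4 * d0) * (1 / r) := by
          field_simp
        rw [this]
        have h7 : 1 / (r : ℝ) ≤ 1 := by rw [div_le_one hr']; exact hr1
        calc (1 / 4 * d0) * (1 / r) ≤ (1 / 4 * d0) * 1 := by gcongr
          _ = _ := mul_one _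
      linarith
    refine le_trans ?_ h5
    calc n / (8 * (r : ℝ) ^ 2) = (1 / (4 * (r : ℝ) ^ 2)) * (1 / 2 * n) := by field_simp; ring
      _ ≤ (1 / (4 * (r : ℝ) ^ 2)) * (d1 + r * d0) := by
          gcongr
          linarith
  · have h2 : n / 8 ≤ 1 / 4 * d0 := by linarith
    have h3 : n / (8 * (r : ℝ) ^ 2) ≤ n / 8 := by
      apply div_le_div_of_nonneg_left hn0.le (by norm_num)
      linarith
    have h4 : 0 ≤ 1 / (4 * (r : ℝ) ^ 2) * d1 := by positivity
    linarith

end Pool.Agent.H14.NP
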