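import Pool.Agent.H14.NP.Mix

/-!
# The operators attached to the mixing matrix
-/

open Filter Topology
open scoped ENNReal

namespace Pool.Agent.H14.NP

variable {𝕜 : Type*} [RCLike 𝕜]

/-- Index set of a mixing block. -/
abbrev JJ (r : ℕ) : Type := Cube r ⊕ Cube r

theorem Xm_sum' (r : ℕ) (i : Cube r) (a : Cube r → 𝕜) : ∑ i', (Xm r i i' : 𝕜) * a i' =
    (1 / 2 : 𝕜) * a i + (1 / (2 * (r : 𝕜))) * ∑ c : Fin r, a (flipAt c i) := by
  unfold Xm
  push_cast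
  simp only [add_mul, Finset.sum_mul, Finset.sum_add_distrib]
  have h1 : ∀ i', ((if i' = i then (1 / 2 : ℝ) else 0 : ℝ) : 𝕜) * a i' =
      if i' = i then (1 / 2 : 𝕜) * a i' else 0 := by
    intro i'
    split_ifs
    · rw [RCLike.ofReal_div, RCLike.ofReal_one, RCLike.ofReal_ofNat]
    · simp
  have h2 : ∀ (i' : Cube r) (c : Fin r), ((if i' = flipAt c i then 1 / (2 * (r : ℝ)) else 0 : ℝ) : 𝕜) * a i' =
      if i' = flipAt c i then (1 / (2 * (r : 𝕜))) * a i' else 0 := by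
    intro i' c
    split_ifs
    · rw [RCLike.ofReal_div, RCLike.ofReal_one, RCLike.ofReal_mul, RCLike.ofReal_ofNat,
        RCLike.ofReal_natCast]
    · simp
  simp only [h1, h2]
  rw [Finset.sum_ite_eq' Finset.univ i, if_pos (Finset.mem_univ _), Finset.sum_comm]
  congr 1
  rw [Finset.mul_sum]
  refine Finset.sum_congr rfl fun c _ => ?_
  rw [Finset.sum_ite_eq' Finset.univ, if_pos (Finset.mem_univ _)]

theorem Xm_symm (r : ℕ) (i i' : Cube r) : Xm r i i' = Xm r i' i := by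
  unfold Xm
  congr 1
  · simp only [eq_comm]
  · refine Finset.sum_congr rfl fun c _ => ?_
    have : i' = flipAt c i ↔ i = flipAt c i' := by
      constructor
      · intro h
        rw [h]
        exact ((flipAt c).left_inv i).symm
      · intro h
        rw [h]
        exact ((flipAt c).left_inv i').symm
    simp only [this]

theorem Xm_row_sum (r : ℕ) (hr : 0 < r) (i : Cube r) : ∑ i', Xm r i i' = 1 := by
  have := Xm_sum r i (fun _ => 1)
  simp only [mul_one, Finset.sum_const, Finset.card_univ, Fintype.card_fin, nsmul_eq_mul] at this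
  rw [this]
  have hr' : (r : ℝ) ≠ 0 := by exact_mod_cast hr.ne'
  field_simp
  norm_num

theorem Xm_col_sum (r : ℕ) (hr : 0 < r) (i' : Cube r) : ∑ i, Xm r i i' = 1 := by
  rw [← Xm_row_sum r hr i']
  exact Finset.sum_congr rfl fun i _ => Xm_symm r i i'

/-- The map `P` on coefficient functions: `P a = a|_left + X a|_right`. -/
noncomputable def Pf (𝕜 : Type*) [RCLike 𝕜] (r : ℕ) : (JJ r → 𝕜) →ₗ[𝕜] (Cube r → 𝕜) where
  toFun a := fun i => a (Sum.inl i) + ∑ i', (Xm r i i' : 𝕜) * a (Sum.inr i')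
  map_add' a b := by
    funext i
    simp only [Pi.add_apply, mul_add, Finset.sum_add_distrib]
    ring
  map_smul' c a := by
    funext i
    simp only [Pi.smul_apply, smul_eq_mul, RingHom.id_apply, mul_add, Finset.mul_sum]
    congr 1
    refine Finset.sum_congr rfl fun i' _ => ?_
    ring

/-- The kernel vectors of `P`. -/
noncomputable def vf (𝕜 : Type*) [RCLike 𝕜] (r : ℕ) (i' : Cube r) : JJ r → 𝕜 :=
  Sum.elim (fun i => -(Xm r i i' : 𝕜)) (Pi.single i' 1)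

theorem Pf_vf (r : ℕ) (i' : Cube r) : Pf 𝕜 r (vf 𝕜 r i') = 0 := by
  funext i
  simp only [Pf, vf, LinearMap.coe_mk, AddHom.coe_mk, Sum.elim_inl, Sum.elim_inr, Pi.zero_apply]
  rw [Finset.sum_eq_single i']
  · simp
  · intro b _ hb
    simp [hb]
  · intro h
    exact absurd (Finset.mem_univ _) h

/-- The right-hand sides. -/
noncomputable def Fv (𝕜 : Type*) [RCLike 𝕜] (r : ℕ) (A : Finset (JJ r)) (i' : Cube r) :
    Cube r → 𝕜 := fun i => ((Xm r i i' * ((if Sum.inr i' ∈ A then 1 else 0) -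
      (if Sum.inl i ∈ A then 1 else 0)) : ℝ) : 𝕜)

theorem Pf_ind_vf (r : ℕ) (A : Finset (JJ r)) (i' : Cube r) :
    Pf 𝕜 r (fun j => if j ∈ A then vf 𝕜 r i' j else 0) = Fv 𝕜 r A i' := by
  funext i
  simp only [Pf, vf, Fv, LinearMap.coe_mk, AddHom.coe_mk, Sum.elim_inl, Sum.elim_inr]
  rw [Finset.sum_eq_single i']
  · simp only [Pi.single_eq_same]
    push_cast
    split_ifs <;> simp
  · intro b _ hb
    simp [hb]
  · intro h
    exact absurd (Finset.mem_univ _) h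

variable {F1 F2 : Type*} [NormedAddCommGroup F1] [NormedSpace 𝕜 F1]
  [NormedAddCommGroup F2] [NormedSpace 𝕜 F2]

/-- The block vectors attached to `U` and `Z`. -/
noncomputable def bvec (r : ℕ) (U : (Cube r → 𝕜) →ₗ[𝕜] F1) (Z : (JJ r → 𝕜) →ₗ[𝕜] F2)
    (j : JJ r) : F1 × F2 := (U (Pf 𝕜 r (Pi.single j 1)), Z (Pi.single j 1))

theorem pi_sum {ι : Type*} [Fintype ι] [DecidableEq ι] {V : Type*} [AddCommGroup V] [Module 𝕜 V]
    (L : (ι → 𝕜) →ₗ[𝕜] V) (a : ι → 𝕜) : L a = ∑ j, a j • L (Pi.single j 1) := by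
  rw [LinearMap.pi_apply_eq_sum_univ L a]
  refine Finset.sum_congr rfl fun j _ => ?_
  congr 2
  funext k
  simp only [Pi.single_apply, eq_comm]

theorem sum_bvec (r : ℕ) (U : (Cube r → 𝕜) →ₗ[𝕜] F1) (Z : (JJ r → 𝕜) →ₗ[𝕜] F2)
    (a : JJ r → 𝕜) : ∑ j, a j • bvec r U Z j = (U (Pf 𝕜 r a), Z a) := by
  have h2 := pi_sum (U.comp (Pf 𝕜 r)) a
  have h3 := pi_sum Z a
  rw [LinearMap.comp_apply] at h2
  refine Prod.ext ?_ ?_
  · rw [Prod.fst_sum]; exact h2.symm
  · rw [Prod.snd_sum]; exact h3.symm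

theorem sum_bvec_finset (r : ℕ) (U : (Cube r → 𝕜) →ₗ[𝕜] F1) (Z : (JJ r → 𝕜) →ₗ[𝕜] F2)
    (a : JJ r → 𝕜) (s : Finset (JJ r)) : ∑ j ∈ s, a j • bvec r U Z j =
      (U (Pf 𝕜 r (fun j => if j ∈ s then a j else 0)), Z (fun j => if j ∈ s then a j else 0)) := by
  rw [← sum_bvec]
  simp only [ite_smul, zero_smul]
  rw [Finset.sum_ite_mem, Finset.univ_inter]

/-- The key relation: an operator acting on the block as the projection onto `A` maps the kernel
vectors to the right-hand sides. -/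
theorem key_relation (r : ℕ) (U : (Cube r → 𝕜) →ₗ[𝕜] F1) (Z : (JJ r → 𝕜) →ₗ[𝕜] F2)
    (A : Finset (JJ r)) (T : F1 × F2 →L[𝕜] F1 × F2)
    (hT : ∀ j, T (bvec r U Z j) = if j ∈ A then bvec r U Z j else 0) (i' : Cube r) :
    (T (0, Z (vf 𝕜 r i'))).1 = U (Fv 𝕜 r A i') := by
  have h1 : ((0 : F1), Z (vf 𝕜 r i')) = ∑ j, vf 𝕜 r i' j • bvec r U Z j := by
    rw [sum_bvec, Pf_vf, map_zero]
  rw [h1, map_sum]
  have h2 : ∑ j, T (vf 𝕜 r i' j • bvec r U Z j) =
      ∑ j, (if j ∈ A then vf 𝕜 r i' j else 0) • bvec r U Z j := by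
    refine Finset.sum_congr rfl fun j _ => ?_
    rw [map_smul, hT]
    split_ifs <;> simp
  rw [h2, sum_bvec, Pf_ind_vf]

variable (p : ℝ≥0∞) [hp1 : Fact (1 ≤ p)]

/-- The mixing operator on `ℓ_p`. -/
noncomputable def XL (𝕜 : Type*) [RCLike 𝕜] (r : ℕ) :
    PiLp p (fun _ : Cube r => 𝕜) →L[𝕜] PiLp p (fun _ : Cube r => 𝕜) :=
  (1 / 2 : 𝕜) • ContinuousLinearMap.id 𝕜 _ + (1 / (2 * (r : 𝕜))) •
    ∑ c : Fin r, restrictL 𝕜 p (flipAt c) (flipAt c).injective

theorem XL_apply (r : ℕ) (a : PiLp p (fun _ : Cube r => 𝕜)) (i : Cube r) :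
    XL p 𝕜 r a i = ∑ i', (Xm r i i' : 𝕜) * a i' := by
  rw [Xm_sum']
  unfold XL
  rw [_root_.add_apply, _root_.smul_apply, _root_.smul_apply, ContinuousLinearMap.id_apply,
    PiLp.add_apply, PiLp.smul_apply, PiLp.smul_apply, smul_eq_mul, smul_eq_mul]
  congr 2
  rw [_root_.sum_apply, WithLp.ofLp_sum, Finset.sum_apply]
  rfl

theorem norm_XL_le (r : ℕ) (hr : 0 < r) : ‖XL p 𝕜 r‖ ≤ 1 := by
  have hr' : (0 : ℝ) < r := by exact_mod_cast hr
  unfold XL
  have h1 : ‖(1 / 2 : 𝕜) • ContinuousLinearMap.id 𝕜 (PiLp p (fun _ : Cube r => 𝕜))‖ ≤ 1 / 2 := by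
    rw [norm_smul]
    have : ‖(1 / 2 : 𝕜)‖ = 1 / 2 := by simp
    rw [this]
    calc (1 / 2 : ℝ) * ‖ContinuousLinearMap.id 𝕜 (PiLp p (fun _ : Cube r => 𝕜))‖ ≤ 1 / 2 * 1 := by
          gcongr
          exact ContinuousLinearMap.norm_id_le
      _ = 1 / 2 := by norm_num
  have h2 : ‖(1 / (2 * (r : 𝕜))) • ∑ c : Fin r, restrictL 𝕜 p (flipAt c) (flipAt c).injective‖
      ≤ 1 / 2 := by
    rw [norm_smul]
    have : ‖(1 / (2 * (r : 𝕜)))‖ = 1 / (2 * r) := by
      rw [norm_div, norm_one, norm_mul, RCLike.norm_ofNat, RCLike.norm_natCast]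
    rw [this]
    calc 1 / (2 * (r : ℝ)) * ‖∑ c : Fin r, restrictL 𝕜 p (flipAt c) (flipAt c).injective‖
        ≤ 1 / (2 * (r : ℝ)) * ∑ _c : Fin r, (1 : ℝ) := by
          gcongr
          refine (norm_sum_le _ _).trans (Finset.sum_le_sum fun c _ => ?_)
          exact norm_restrictL_le p _ _
      _ = 1 / 2 := by
          rw [Finset.sum_const, Finset.card_univ, Fintype.card_fin, nsmul_eq_mul]
          field_simp
  calc _ ≤ _ := norm_add_le _ _
    _ ≤ 1 / 2 + 1 / 2 := add_le_add h1 h2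
    _ = 1 := by norm_num

/-- The kernel embedding `a ↦ (-X a, a)`. -/
noncomputable def vL (𝕜 : Type*) [RCLike 𝕜] (r : ℕ) :
    PiLp p (fun _ : Cube r => 𝕜) →L[𝕜] PiLp p (fun _ : JJ r => 𝕜) :=
  extendL 𝕜 p Sum.inr Sum.inr_injective -
    (extendL 𝕜 p Sum.inl Sum.inl_injective).comp (XL p 𝕜 r)

theorem norm_vL_le (r : ℕ) (hr : 0 < r) : ‖vL p 𝕜 r‖ ≤ 2 := by
  unfold vL
  calc _ ≤ ‖extendL 𝕜 p (Sum.inr : Cube r → JJ r) Sum.inr_injective‖ +
        ‖(extendL 𝕜 p (Sum.inl : Cube r → JJ r) Sum.inl_injective).comp (XL p 𝕜 r)‖ := norm_sub_le _ _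
    _ ≤ 1 + 1 * 1 := by
        refine add_le_add (norm_extendL_le p _ _) ?_
        refine (ContinuousLinearMap.opNorm_comp_le _ _).trans ?_
        exact mul_le_mul (norm_extendL_le p _ _) (norm_XL_le p r hr) (norm_nonneg _) zero_le_one
    _ = 2 := by norm_num

theorem vL_apply_inl (r : ℕ) (a : PiLp p (fun _ : Cube r => 𝕜)) (i : Cube r) :
    vL p 𝕜 r a (Sum.inl i) = - ∑ i', (Xm r i i' : 𝕜) * a i' := by
  unfold vL
  rw [_root_.sub_apply, PiLp.sub_apply, ContinuousLinearMap.comp_apply, extendL_apply,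
    extendL_apply' p _ _ _ (Sum.inl i) (by rintro ⟨k, hk⟩; cases hk), XL_apply, zero_sub]

theorem vL_apply_inr (r : ℕ) (a : PiLp p (fun _ : Cube r => 𝕜)) (i : Cube r) :
    vL p 𝕜 r a (Sum.inr i) = a i := by
  unfold vL
  rw [_root_.sub_apply, PiLp.sub_apply, ContinuousLinearMap.comp_apply, extendL_apply,
    extendL_apply' p _ _ _ (Sum.inr i) (by rintro ⟨k, hk⟩; cases hk), sub_zero]

/-- `vL` applied to `a` is the combination of the kernel vectors. -/
theorem vL_eq (r : ℕ) (a : PiLp p (fun _ : Cube r => 𝕜)) :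
    vL p 𝕜 r a = WithLp.toLp p (∑ i', a i' • vf 𝕜 r i') := by
  ext j
  simp only [Finset.sum_apply, Pi.smul_apply, smul_eq_mul]
  rcases j with i | i
  · rw [vL_apply_inl]
    simp only [vf, Sum.elim_inl]
    rw [← Finset.sum_neg_distrib]
    exact Finset.sum_congr rfl fun i' _ => by ring
  · rw [vL_apply_inr]
    simp only [vf, Sum.elim_inr]
    rw [Finset.sum_eq_single i]
    · simp
    · intro b _ hb
      simp [hb.symm]
    · intro h
      exact absurd (Finset.mem_univ _) h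

/-- The map `P` on `ℓ_p`. -/
noncomputable def PL (𝕜 : Type*) [RCLike 𝕜] (r : ℕ) :
    PiLp p (fun _ : JJ r => 𝕜) →L[𝕜] PiLp p (fun _ : Cube r => 𝕜) :=
  restrictL 𝕜 p Sum.inl Sum.inl_injective +
    (XL p 𝕜 r).comp (restrictL 𝕜 p Sum.inr Sum.inr_injective)

theorem norm_PL_le (r : ℕ) (hr : 0 < r) : ‖PL p 𝕜 r‖ ≤ 2 := by
  unfold PL
  calc _ ≤ ‖restrictL 𝕜 p (Sum.inl : Cube r → JJ r) Sum.inl_injective‖ +
        ‖(XL p 𝕜 r).comp (restrictL 𝕜 p (Sum.inr : Cube r → JJ r) Sum.inr_injective)‖ := norm_add_le _ _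
    _ ≤ 1 + 1 * 1 := by
        refine add_le_add (norm_restrictL_le p _ _) ?_
        refine (ContinuousLinearMap.opNorm_comp_le _ _).trans ?_
        exact mul_le_mul (norm_XL_le p r hr) (norm_restrictL_le p _ _) (norm_nonneg _) zero_le_one
    _ = 2 := by norm_num

theorem PL_eq (r : ℕ) (a : JJ r → 𝕜) :
    PL p 𝕜 r (WithLp.toLp p a) = WithLp.toLp p (Pf 𝕜 r a) := by
  ext i
  unfold PL
  rw [_root_.add_apply, PiLp.add_apply, ContinuousLinearMap.comp_apply, XL_apply]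
  rfl

end Pool.Agent.H14.NP
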