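import Mathlib

/-!
# Nets in finite dimensional real normed spaces
-/

open Filter Topology Module

namespace Pool.Agent.H14.NP

variable (V : Type*) [NormedAddCommGroup V] [NormedSpace ℝ V] [FiniteDimensional ℝ V]

/-- A half-net of the unit ball with at most `5 ^ dim` points. -/
theorem exists_halfNet : ∃ s : Finset V, s.card ≤ 5 ^ finrank ℝ V ∧ (∀ x ∈ s, ‖x‖ ≤ 1) ∧
    ∀ v : V, ‖v‖ ≤ 1 → ∃ x ∈ s, ‖v - x‖ ≤ 1 / 2 := by
  classical
  let Sep : Finset V → Prop := fun s => (∀ x ∈ s, ‖x‖ ≤ 1) ∧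
    ∀ c ∈ s, ∀ d ∈ s, c ≠ d → 1 / 2 ≤ ‖c - d‖
  have hcard : ∀ s, Sep s → s.card ≤ 5 ^ finrank ℝ V := by
    intro s hs
    have hinj : Function.Injective (fun x : V => (2 : ℝ) • x) :=
      smul_right_injective V (by norm_num : (2 : ℝ) ≠ 0)
    have h1 := Besicovitch.card_le_of_separated (E := V) (s.image fun x => (2 : ℝ) • x) (by
      intro c hc
      obtain ⟨x, hx, rfl⟩ := Finset.mem_image.1 hc
      rw [norm_smul, Real.norm_ofNat]
      have := hs.1 x hx
      linarith) (by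
      intro c hc d hd hcd
      obtain ⟨x, hx, rfl⟩ := Finset.mem_image.1 hc
      obtain ⟨y, hy, rfl⟩ := Finset.mem_image.1 hd
      rw [← smul_sub, norm_smul, Real.norm_ofNat]
      have := hs.2 x hx y hy (fun h => hcd (by rw [h]))
      linarith)
    rwa [Finset.card_image_of_injective _ hinj] at h1
  -- a separated set of maximal cardinality
  obtain ⟨n, hn1, hn2⟩ : ∃ n, (∃ s, Sep s ∧ s.card = n) ∧ ∀ s, Sep s → s.card ≤ n := by
    by_contra hcon
    push Not at hcon
    have h2 : ∀ k : ℕ, ∃ s, Sep s ∧ k ≤ s.card := by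
      intro k
      induction k with
      | zero => exact ⟨∅, ⟨by simp, by simp⟩, Nat.zero_le _⟩
      | succ k ih =>
        obtain ⟨s, hs, hk⟩ := ih
        obtain ⟨s', hs', hk'⟩ := hcon s.card ⟨s, hs, rfl⟩
        exact ⟨s', hs', by omega⟩
    obtain ⟨s, hs, hk⟩ := h2 (5 ^ finrank ℝ V + 1)
    have := hcard s hs
    omega
  obtain ⟨s, hs, hsn⟩ := hn1
  refine ⟨s, hcard s hs, hs.1, fun v hv => ?_⟩
  by_contra hcon
  push Not at hcon
  have hvs : v ∉ s := by
    intro h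
    have := hcon v h
    rw [sub_self, norm_zero] at this
    norm_num at this
  have h3 : Sep (insert v s) := by
    refine ⟨?_, ?_⟩
    · intro x hx
      rcases Finset.mem_insert.1 hx with rfl | h
      · exact hv
      · exact hs.1 x h
    · intro c hc d hd hcd
      rcases Finset.mem_insert.1 hc with rfl | h <;> rcases Finset.mem_insert.1 hd with rfl | h'
      · exact absurd rfl hcd
      · exact (hcon d h').le
      · rw [norm_sub_rev]; exact (hcon c h).le
      · exact hs.2 c h d h' hcd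
  have h4 := hn2 _ h3
  rw [Finset.card_insert_of_notMem hvs] at h4
  omega

/-- A `2⁻ᵏ`-net of the unit ball with at most `5 ^ (k dim)` points. -/
theorem exists_netPow (k : ℕ) : ∃ s : Finset V, s.card ≤ 5 ^ (k * finrank ℝ V) ∧
    ∀ v : V, ‖v‖ ≤ 1 → ∃ x ∈ s, ‖v - x‖ ≤ (1 / 2) ^ k := by
  classical
  induction k with
  | zero =>
    refine ⟨{0}, by simp, fun v hv => ⟨0, Finset.mem_singleton_self _, ?_⟩⟩
    rw [sub_zero, pow_zero]
    exact hv
  | succ k ih =>
    obtain ⟨s, hs, hs2⟩ := ih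
    obtain ⟨t, ht, -, ht2⟩ := exists_halfNet V
    refine ⟨(s ×ˢ t).image fun z => z.1 + ((1 / 2 : ℝ) ^ k) • z.2, ?_, fun v hv => ?_⟩
    · refine Finset.card_image_le.trans ?_
      rw [Finset.card_product, Nat.add_mul, pow_add, one_mul]
      exact Nat.mul_le_mul hs ht
    · obtain ⟨x, hx, hxv⟩ := hs2 v hv
      have hpos : (0 : ℝ) < (1 / 2) ^ k := by positivity
      obtain ⟨y, hy, hyv⟩ := ht2 ((((1 / 2 : ℝ) ^ k)⁻¹) • (v - x)) (by
        rw [norm_smul, norm_inv, Real.norm_of_nonneg hpos.le, inv_mul_le_iff₀ hpos, mul_one]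
        exact hxv)
      refine ⟨x + ((1 / 2 : ℝ) ^ k) • y, Finset.mem_image.2 ⟨(x, y), Finset.mem_product.2 ⟨hx, hy⟩, rfl⟩, ?_⟩
      have h1 : v - (x + ((1 / 2 : ℝ) ^ k) • y) =
          ((1 / 2 : ℝ) ^ k) • ((((1 / 2 : ℝ) ^ k)⁻¹) • (v - x) - y) := by
        rw [smul_sub, smul_smul, mul_inv_cancel₀ hpos.ne', one_smul]
        abel
      rw [h1, norm_smul, Real.norm_of_nonneg hpos.le, pow_succ]
      gcongr

end Pool.Agent.H14.NP
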