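import Pool.Agent.H14.NP.KhinUp
import Pool.Agent.H14.NP.Nets

/-!
# Random sign matrices
-/

open Filter Topology Module

namespace Pool.Agent.H14.NP

variable {T ι : Type*} [Fintype T] [DecidableEq T] [Fintype ι] [DecidableEq ι]

/-- The vector `M a` for a sign matrix `M`. -/
def Xs (M : T × ι → Bool) (a : ι → ℝ) (t : T) : ℝ := ∑ i, sg (M (t, i)) * a i

/-- Negative exponential moment of a Rademacher sum. -/
theorem exp_neg_abs_moment (a : ι → ℝ) (ha : ∑ i, a i ^ 2 = 1) :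
    ∑ u : ι → Bool, Real.exp (-|∑ i, sg (u i) * a i|) ≤ 2 ^ Fintype.card ι * (7 / 8) := by
  have hpt : ∀ x : ℝ, 0 ≤ x → Real.exp (-x) ≤ 1 - 1 / 2 * x ^ 2 + 1 / 8 * x ^ 4 := by
    intro x hx
    have h1 : Real.exp (-x) ≤ 1 / (1 + x) := by
      rw [Real.exp_neg, ← one_div]
      apply one_div_le_one_div_of_le (by positivity)
      have := Real.add_one_le_exp x
      linarith
    refine h1.trans ?_
    rw [div_le_iff₀ (by positivity)]
    have h2 : x / 2 + x ^ 2 / 2 - x ^ 3 / 8 - x ^ 4 / 8 ≤ 1 := by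
      nlinarith [sq_nonneg (x ^ 2 - 2), sq_nonneg (x ^ 2 + x / 2 - 2), sq_nonneg (x - 1),
        mul_nonneg hx (sq_nonneg (x - 1)), mul_nonneg hx (sq_nonneg (x - 2)), sq_nonneg x]
    have h3 : (1 - 1 / 2 * x ^ 2 + 1 / 8 * x ^ 4) * (1 + x) =
        1 + x * (1 - (x / 2 + x ^ 2 / 2 - x ^ 3 / 8 - x ^ 4 / 8)) := by ring
    rw [h3]
    nlinarith
  have h2 := second_moment (𝕜 := ℝ) a Finset.univ
  have h4 := fourth_moment (𝕜 := ℝ) a Finset.univ
  simp only [RCLike.ofReal_real_eq_id, id_eq, Real.norm_eq_abs, sq_abs] at h2 h4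
  rw [ha, mul_one] at h2
  rw [ha, one_pow, mul_one] at h4
  have h4' : ∑ u : ι → Bool, (∑ i, sg (u i) * a i) ^ 4 ≤ 3 * 2 ^ Fintype.card ι := by
    refine le_trans (le_of_eq ?_) h4
    refine Finset.sum_congr rfl fun u _ => ?_
    rw [← abs_pow]
    exact (abs_of_nonneg (by positivity)).symm
  calc ∑ u : ι → Bool, Real.exp (-|∑ i, sg (u i) * a i|)
      ≤ ∑ u : ι → Bool, (1 - 1 / 2 * (∑ i, sg (u i) * a i) ^ 2 +
          1 / 8 * (∑ i, sg (u i) * a i) ^ 4) := by
        refine Finset.sum_le_sum fun u _ => ?_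
        have := hpt _ (abs_nonneg (∑ i, sg (u i) * a i))
        rw [sq_abs] at this
        have h5 : |∑ i, sg (u i) * a i| ^ 4 = (∑ i, sg (u i) * a i) ^ 4 := by
          rw [← abs_pow]
          exact abs_of_nonneg (by positivity)
        rw [h5] at this
        exact this
    _ = 2 ^ Fintype.card ι - 1 / 2 * 2 ^ Fintype.card ι +
          1 / 8 * ∑ u : ι → Bool, (∑ i, sg (u i) * a i) ^ 4 := by
        rw [Finset.sum_add_distrib, Finset.sum_sub_distrib, ← Finset.mul_sum, ← Finset.mul_sum, h2]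
        simp
    _ ≤ 2 ^ Fintype.card ι - 1 / 2 * 2 ^ Fintype.card ι +
          1 / 8 * (3 * 2 ^ Fintype.card ι) := by gcongr
    _ = 2 ^ Fintype.card ι * (7 / 8) := by ring

/-- For a fixed unit vector few sign matrices have a small `ℓ_1` norm. -/
theorem lower_tail (a : ι → ℝ) (ha : ∑ i, a i ^ 2 = 1) :
    ((Finset.univ.filter fun M : T × ι → Bool =>
      ∑ t, |Xs M a t| ≤ Fintype.card T / 16).card : ℝ) ≤
      2 ^ (Fintype.card T * Fintype.card ι) * (Real.exp (1 / 16) * (7 / 8)) ^ Fintype.card T := by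
  classical
  have h1 : ∑ M : T × ι → Bool, Real.exp (-∑ t, |Xs M a t|) =
      (∑ u : ι → Bool, Real.exp (-|∑ i, sg (u i) * a i|)) ^ Fintype.card T := by
    rw [← Finset.card_univ, ← Finset.prod_const, Finset.prod_univ_sum]
    simp only [Fintype.piFinset_univ]
    rw [← (Equiv.curry T ι Bool).sum_comp]
    refine Finset.sum_congr rfl fun M _ => ?_
    rw [← Finset.sum_neg_distrib, Real.exp_sum]
    rfl
  have h2 : ∑ M : T × ι → Bool, Real.exp (-∑ t, |Xs M a t|) ≤
      (2 ^ Fintype.card ι * (7 / 8)) ^ Fintype.card T := by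
    rw [h1]
    exact pow_le_pow_left₀ (Finset.sum_nonneg fun _ _ => (Real.exp_pos _).le)
      (exp_neg_abs_moment a ha) _
  have h3 : ((Finset.univ.filter fun M : T × ι → Bool =>
      ∑ t, |Xs M a t| ≤ Fintype.card T / 16).card : ℝ) * Real.exp (-(Fintype.card T / 16)) ≤
      ∑ M : T × ι → Bool, Real.exp (-∑ t, |Xs M a t|) := by
    rw [← nsmul_eq_mul, ← Finset.sum_const]
    refine (Finset.sum_le_sum fun M hM => ?_).trans
      (Finset.sum_le_sum_of_subset_of_nonneg (Finset.filter_subset _ _)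
        fun _ _ _ => (Real.exp_pos _).le)
    rw [Finset.mem_filter] at hM
    exact Real.exp_le_exp.2 (neg_le_neg hM.2)
  have h4 := h3.trans h2
  rw [Real.exp_neg, ← div_eq_mul_inv, div_le_iff₀ (Real.exp_pos _)] at h4
  refine h4.trans (le_of_eq ?_)
  rw [mul_pow, mul_pow, ← pow_mul, ← Real.exp_nat_mul, mul_comm (Fintype.card ι)]
  rw [show (Fintype.card T : ℝ) * (1 / 16) = Fintype.card T / 16 by ring]
  ring

/-- For fixed unit vectors few sign matrices have a large bilinear form. -/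
theorem upper_tail (a : ι → ℝ) (b : T → ℝ) (ha : ∑ i, a i ^ 2 ≤ 1) (hb : ∑ t, b t ^ 2 ≤ 1) :
    ((Finset.univ.filter fun M : T × ι → Bool =>
      3 * Real.sqrt (Fintype.card T) ≤ ∑ t, b t * Xs M a t).card : ℝ) ≤
      2 ^ (Fintype.card T * Fintype.card ι) * Real.exp (-(9 / 2)) ^ Fintype.card T := by
  classical
  set N : ℝ := (Fintype.card T : ℝ) with hN
  have hN0 : 0 ≤ N := Nat.cast_nonneg _
  set lam := 3 * Real.sqrt N with hlam
  have hlam2 : lam ^ 2 = 9 * N := by
    rw [hlam, mul_pow, Real.sq_sqrt hN0]; norm_num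
  have h1 := exp_moment (ι := T × ι) (fun z => lam * (b z.1 * a z.2))
  have h2 : ∀ M : T × ι → Bool, ∑ z : T × ι, sg (M z) * (lam * (b z.1 * a z.2)) =
      lam * ∑ t, b t * Xs M a t := by
    intro M
    rw [Fintype.sum_prod_type, Finset.mul_sum]
    refine Finset.sum_congr rfl fun t _ => ?_
    unfold Xs
    rw [Finset.mul_sum, Finset.mul_sum]
    exact Finset.sum_congr rfl fun i _ => by ring
  have h3 : ∑ z : T × ι, (lam * (b z.1 * a z.2)) ^ 2 ≤ lam ^ 2 := by
    have : ∑ z : T × ι, (lam * (b z.1 * a z.2)) ^ 2 =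
        lam ^ 2 * ((∑ t, b t ^ 2) * ∑ i, a i ^ 2) := by
      rw [Fintype.sum_prod_type, Finset.sum_mul_sum, Finset.mul_sum]
      refine Finset.sum_congr rfl fun t _ => ?_
      rw [Finset.mul_sum]
      exact Finset.sum_congr rfl fun i _ => by ring
    rw [this]
    have h4 : (∑ t, b t ^ 2) * ∑ i, a i ^ 2 ≤ 1 * 1 :=
      mul_le_mul hb ha (Finset.sum_nonneg fun _ _ => sq_nonneg _) zero_le_one
    nlinarith [sq_nonneg lam]
  simp only [h2] at h1
  have h5 : ∑ M : T × ι → Bool, Real.exp (lam * ∑ t, b t * Xs M a t) ≤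
      2 ^ Fintype.card (T × ι) * Real.exp (9 / 2 * N) := by
    refine h1.trans ?_
    gcongr
    rw [hlam2] at h3
    linarith
  have h6 : ((Finset.univ.filter fun M : T × ι → Bool =>
      lam ≤ ∑ t, b t * Xs M a t).card : ℝ) * Real.exp (9 * N) ≤
      ∑ M : T × ι → Bool, Real.exp (lam * ∑ t, b t * Xs M a t) := by
    rw [← nsmul_eq_mul, ← Finset.sum_const]
    refine (Finset.sum_le_sum fun M hM => ?_).trans
      (Finset.sum_le_sum_of_subset_of_nonneg (Finset.filter_subset _ _)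
        fun _ _ _ => (Real.exp_pos _).le)
    rw [Finset.mem_filter] at hM
    refine Real.exp_le_exp.2 ?_
    have hl0 : 0 ≤ lam := by positivity
    nlinarith [hM.2]
  have h7 := h6.trans h5
  rw [← le_div_iff₀ (Real.exp_pos _)] at h7
  refine h7.trans (le_of_eq ?_)
  rw [mul_div_assoc, ← Real.exp_sub, ← Real.exp_nat_mul, Fintype.card_prod, ← hN]
  congr 2
  ring

end Pool.Agent.H14.NP
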