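import Pool.Agent.H14.NP.Rand

/-!
# Existence of good sign matrices
-/

open Filter Topology Module

namespace Pool.Agent.H14.NP

theorem eucl_norm_eq {κ : Type*} [Fintype κ] (x : EuclideanSpace ℝ κ) :
    ‖x‖ = Real.sqrt (∑ i, x i ^ 2) := by
  rw [EuclideanSpace.norm_eq]
  simp only [Real.norm_eq_abs, sq_abs]

theorem numeric_bound (m : ℕ) (hm : 0 < m) :
    (5 : ℝ) ^ (9 * m) * (Real.exp (1 / 16) * (7 / 8)) ^ (256 * m) +
      5 ^ m * 5 ^ (256 * m) * Real.exp (-(9 / 2)) ^ (256 * m) < 1 := by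
  have h1 : (5 : ℝ) ^ (9 * m) * (Real.exp (1 / 16) * (7 / 8)) ^ (256 * m) ≤ 1 / 4 := by
    have e1 : (5 : ℝ) ^ (9 * m) * (Real.exp (1 / 16) * (7 / 8)) ^ (256 * m) =
        (5 ^ 9 * (Real.exp 1 ^ 16 * (7 / 8) ^ 256)) ^ m := by
      rw [pow_mul, pow_mul, ← mul_pow, mul_pow (Real.exp (1 / 16)) (7 / 8) 256]
      congr 3
      rw [← Real.exp_nat_mul, ← Real.exp_nat_mul]
      norm_num
    rw [e1]
    have e2 : (5 : ℝ) ^ 9 * (Real.exp 1 ^ 16 * (7 / 8) ^ 256) ≤ 1 / 4 := by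
      have e3 : Real.exp 1 ^ 16 ≤ (2.7182818286 : ℝ) ^ 16 :=
        pow_le_pow_left₀ (Real.exp_pos _).le Real.exp_one_lt_d9.le _
      calc (5 : ℝ) ^ 9 * (Real.exp 1 ^ 16 * (7 / 8) ^ 256) ≤
          5 ^ 9 * ((2.7182818286 : ℝ) ^ 16 * (7 / 8) ^ 256) := by gcongr
        _ ≤ 1 / 4 := by norm_num
    calc ((5 : ℝ) ^ 9 * (Real.exp 1 ^ 16 * (7 / 8) ^ 256)) ^ m ≤ (1 / 4) ^ m := by
          apply pow_le_pow_left₀ (by positivity) e2
      _ ≤ (1 / 4) ^ 1 := pow_le_pow_of_le_one (by norm_num) (by norm_num) hm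
      _ = 1 / 4 := pow_one _
  have h2 : (5 : ℝ) ^ m * 5 ^ (256 * m) * Real.exp (-(9 / 2)) ^ (256 * m) ≤ 1 / 4 := by
    have e1 : (5 : ℝ) ^ m * 5 ^ (256 * m) * Real.exp (-(9 / 2)) ^ (256 * m) =
        (5 * (5 * Real.exp (-(9 / 2))) ^ 256) ^ m := by
      rw [pow_mul, pow_mul, ← mul_pow, ← mul_pow, mul_pow 5 (Real.exp (-(9 / 2))) 256]
      ring
    have e2 : Real.exp (-(9 / 2)) ≤ 1 / 16 := by
      rw [Real.exp_neg, ← one_div]
      apply one_div_le_one_div_of_le (by norm_num)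
      have e3 : Real.exp 4 ≤ Real.exp (9 / 2) := Real.exp_le_exp.2 (by norm_num)
      have e4 : Real.exp 4 = Real.exp 1 ^ 4 := by
        rw [← Real.exp_nat_mul]; norm_num
      have e5 : (2 : ℝ) ≤ Real.exp 1 := by
        have := Real.exp_one_gt_d9
        linarith
      have e6 : (2 : ℝ) ^ 4 ≤ Real.exp 1 ^ 4 := pow_le_pow_left₀ (by norm_num) e5 _
      rw [← e4] at e6
      linarith
    have e3 : (5 : ℝ) * (5 * Real.exp (-(9 / 2))) ^ 256 ≤ 1 / 4 := by
      calc (5 : ℝ) * (5 * Real.exp (-(9 / 2))) ^ 256 ≤ 5 * (5 * (1 / 16)) ^ 256 := by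
            gcongr
        _ ≤ 1 / 4 := by norm_num
    rw [e1]
    calc ((5 : ℝ) * (5 * Real.exp (-(9 / 2))) ^ 256) ^ m ≤ (1 / 4) ^ m := by
          apply pow_le_pow_left₀ (by positivity) e3
      _ ≤ (1 / 4) ^ 1 := pow_le_pow_of_le_one (by norm_num) (by norm_num) hm
      _ = 1 / 4 := pow_one _
  linarith

theorem Xs_sub {T ι : Type*} [Fintype ι] (M : T × ι → Bool) (a b : ι → ℝ) (t : T) :
    Xs M (a - b) t = Xs M a t - Xs M b t := by
  unfold Xs
  rw [← Finset.sum_sub_distrib]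
  exact Finset.sum_congr rfl fun i _ => by rw [Pi.sub_apply]; ring

theorem Xs_smul {T ι : Type*} [Fintype ι] (M : T × ι → Bool) (c : ℝ) (a : ι → ℝ) (t : T) :
    Xs M (c • a) t = c * Xs M a t := by
  unfold Xs
  rw [Finset.mul_sum]
  exact Finset.sum_congr rfl fun i _ => by rw [Pi.smul_apply, smul_eq_mul]; ring

theorem exists_sign_matrix (ι : Type) [Fintype ι] [DecidableEq ι] [Nonempty ι] :
    ∃ M : Fin (256 * Fintype.card ι) × ι → Bool,
      (∀ (a : ι → ℝ), Real.sqrt (∑ t, Xs M a t ^ 2) ≤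
        12 * Real.sqrt (256 * Fintype.card ι) * Real.sqrt (∑ i, a i ^ 2)) ∧
      (∀ a : ι → ℝ, (256 * Fintype.card ι : ℝ) / 32 * Real.sqrt (∑ i, a i ^ 2) ≤
        ∑ t, |Xs M a t|) := by
  classical
  set m := Fintype.card ι with hm
  have hmpos : 0 < m := Fintype.card_pos
  set N := 256 * m with hN
  have hNc : ((N : ℕ) : ℝ) = 256 * (m : ℝ) := by rw [hN]; push_cast; ring
  have hNpos : (0 : ℝ) < 256 * (m : ℝ) := by positivity
  let V := EuclideanSpace ℝ ι
  let W := EuclideanSpace ℝ (Fin N)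
  have hfV : finrank ℝ V = m := by simp [V, hm]
  have hfW : finrank ℝ W = N := by simp [W]
  obtain ⟨s9, hs9c, hs9⟩ := exists_netPow V 9
  obtain ⟨s1, hs1c, hs1b, hs1⟩ := exists_halfNet V
  obtain ⟨t1, ht1c, ht1b, ht1⟩ := exists_halfNet W
  rw [hfV] at hs9c hs1c
  rw [hfW] at ht1c
  have hsq : ∀ {κ : Type} [Fintype κ] (x : EuclideanSpace ℝ κ), ∑ i, x i ^ 2 = ‖x‖ ^ 2 := by
    intro κ _ x
    rw [eucl_norm_eq, Real.sq_sqrt (Finset.sum_nonneg fun _ _ => sq_nonneg _)]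
  -- the good event
  obtain ⟨M, hM1, hM2⟩ : ∃ M : Fin N × ι → Bool,
      (∀ x ∈ s9, x ≠ 0 → (N : ℝ) / 16 < ∑ t, |Xs M ((‖x‖⁻¹ • x : V) : ι → ℝ) t|) ∧
      (∀ x ∈ s1, ∀ y ∈ t1, ∑ t, y t * Xs M (x : ι → ℝ) t < 3 * Real.sqrt N) := by
    by_contra hcon
    push Not at hcon
    let B1 : V → Finset (Fin N × ι → Bool) := fun x =>
      if x = 0 then ∅ else Finset.univ.filter fun M =>
        ∑ t, |Xs M ((‖x‖⁻¹ • x : V) : ι → ℝ) t| ≤ Fintype.card (Fin N) / 16
    let B2 : V × W → Finset (Fin N × ι → Bool) := fun z =>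
      Finset.univ.filter fun M =>
        3 * Real.sqrt (Fintype.card (Fin N)) ≤ ∑ t, z.2 t * Xs M (z.1 : ι → ℝ) t
    have hcover : (Finset.univ : Finset (Fin N × ι → Bool)) ⊆
        s9.biUnion B1 ∪ (s1 ×ˢ t1).biUnion B2 := by
      intro M _
      by_cases h : ∀ x ∈ s9, x ≠ 0 → (N : ℝ) / 16 < ∑ t, |Xs M ((‖x‖⁻¹ • x : V) : ι → ℝ) t|
      · obtain ⟨x, hx, y, hy, hxy⟩ := hcon M h
        refine Finset.mem_union_right _ (Finset.mem_biUnion.2 ⟨(x, y), ?_, ?_⟩)
        · exact Finset.mem_product.2 ⟨hx, hy⟩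
        · simp only [B2, Finset.mem_filter, Finset.mem_univ, true_and, Fintype.card_fin]
          exact hxy
      · push Not at h
        obtain ⟨x, hx, hx0, hx1⟩ := h
        refine Finset.mem_union_left _ (Finset.mem_biUnion.2 ⟨x, hx, ?_⟩)
        simp only [B1, if_neg hx0, Finset.mem_filter, Finset.mem_univ, true_and, Fintype.card_fin]
        exact hx1
    set D : ℝ := 2 ^ (N * m) with hD
    have hDpos : 0 < D := by positivity
    have hB1 : ∀ x ∈ s9, ((B1 x).card : ℝ) ≤ D * (Real.exp (1 / 16) * (7 / 8)) ^ N := by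
      intro x _
      by_cases hx0 : x = 0
      · simp only [B1, if_pos hx0, Finset.card_empty, Nat.cast_zero]
        positivity
      · simp only [B1, if_neg hx0]
        have hxn : ‖x‖ ≠ 0 := norm_ne_zero_iff.2 hx0
        have h1 := lower_tail (T := Fin N) ((‖x‖⁻¹ • x : V) : ι → ℝ) (by
          rw [hsq, norm_smul, norm_inv, norm_norm, inv_mul_cancel₀ hxn, one_pow])
        rw [Fintype.card_fin] at h1
        simpa only [Fintype.card_fin] using h1
    have hB2 : ∀ z ∈ s1 ×ˢ t1, ((B2 z).card : ℝ) ≤ D * Real.exp (-(9 / 2)) ^ N := by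
      intro z hz
      rw [Finset.mem_product] at hz
      have h1 := upper_tail (T := Fin N) (z.1 : ι → ℝ) (z.2 : Fin N → ℝ) (by
        rw [hsq]
        exact pow_le_one₀ (norm_nonneg _) (hs1b _ hz.1)) (by
        rw [hsq]
        exact pow_le_one₀ (norm_nonneg _) (ht1b _ hz.2))
      rw [Fintype.card_fin] at h1
      simpa only [B2, Fintype.card_fin] using h1
    have h1 := Finset.card_le_card hcover
    have h2 : ((Finset.univ : Finset (Fin N × ι → Bool)).card : ℝ) = D := by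
      rw [Finset.card_univ, Fintype.card_fun, Fintype.card_bool, Fintype.card_prod,
        Fintype.card_fin, hD]
      push_cast
      rfl
    have h3 : (((s9.biUnion B1 ∪ (s1 ×ˢ t1).biUnion B2).card : ℕ) : ℝ) ≤
        5 ^ (9 * m) * (D * (Real.exp (1 / 16) * (7 / 8)) ^ N) +
        5 ^ m * 5 ^ N * (D * Real.exp (-(9 / 2)) ^ N) := by
      have e1 : ((s9.biUnion B1).card : ℝ) ≤ 5 ^ (9 * m) * (D * (Real.exp (1 / 16) * (7 / 8)) ^ N) := by
        calc ((s9.biUnion B1).card : ℝ) ≤ ((∑ x ∈ s9, (B1 x).card : ℕ) : ℝ) := by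
              exact_mod_cast Finset.card_biUnion_le
          _ = ∑ x ∈ s9, ((B1 x).card : ℝ) := by push_cast; rfl
          _ ≤ ∑ x ∈ s9, D * (Real.exp (1 / 16) * (7 / 8)) ^ N := Finset.sum_le_sum hB1
          _ = s9.card * (D * (Real.exp (1 / 16) * (7 / 8)) ^ N) := by
              rw [Finset.sum_const, nsmul_eq_mul]
          _ ≤ 5 ^ (9 * m) * (D * (Real.exp (1 / 16) * (7 / 8)) ^ N) := by
              gcongr
              exact_mod_cast hs9c
      have e2 : (((s1 ×ˢ t1).biUnion B2).card : ℝ) ≤ 5 ^ m * 5 ^ N * (D * Real.exp (-(9 / 2)) ^ N) := by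
        calc (((s1 ×ˢ t1).biUnion B2).card : ℝ) ≤ ((∑ x ∈ s1 ×ˢ t1, (B2 x).card : ℕ) : ℝ) := by
              exact_mod_cast Finset.card_biUnion_le
          _ = ∑ x ∈ s1 ×ˢ t1, ((B2 x).card : ℝ) := by push_cast; rfl
          _ ≤ ∑ x ∈ s1 ×ˢ t1, D * Real.exp (-(9 / 2)) ^ N := Finset.sum_le_sum hB2
          _ = (s1.card * t1.card : ℕ) * (D * Real.exp (-(9 / 2)) ^ N) := by
              rw [Finset.sum_const, nsmul_eq_mul, Finset.card_product]
          _ ≤ 5 ^ m * 5 ^ N * (D * Real.exp (-(9 / 2)) ^ N) := by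
              gcongr
              push_cast
              gcongr
              · exact_mod_cast hs1c
              · exact_mod_cast ht1c
      calc (((s9.biUnion B1 ∪ (s1 ×ˢ t1).biUnion B2).card : ℕ) : ℝ)
          ≤ (s9.biUnion B1).card + ((s1 ×ˢ t1).biUnion B2).card := by
            exact_mod_cast Finset.card_union_le _ _
        _ ≤ _ := add_le_add e1 e2
    have h4 : D ≤ 5 ^ (9 * m) * (D * (Real.exp (1 / 16) * (7 / 8)) ^ N) +
        5 ^ m * 5 ^ N * (D * Real.exp (-(9 / 2)) ^ N) := by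
      refine le_trans ?_ h3
      have : ((Finset.univ : Finset (Fin N × ι → Bool)).card : ℝ) ≤
        ((s9.biUnion B1 ∪ (s1 ×ˢ t1).biUnion B2).card : ℝ) := by exact_mod_cast h1
      rwa [h2] at this
    have h5 := numeric_bound m hmpos
    rw [← hN] at h5
    have h6 : D * (5 ^ (9 * m) * (Real.exp (1 / 16) * (7 / 8)) ^ N +
        5 ^ m * 5 ^ N * Real.exp (-(9 / 2)) ^ N) < D * 1 := by
      exact mul_lt_mul_of_pos_left h5 hDpos
    have h7 : 5 ^ (9 * m) * (D * (Real.exp (1 / 16) * (7 / 8)) ^ N) +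
        5 ^ m * 5 ^ N * (D * Real.exp (-(9 / 2)) ^ N) = D * (5 ^ (9 * m) * (Real.exp (1 / 16) * (7 / 8)) ^ N +
        5 ^ m * 5 ^ N * Real.exp (-(9 / 2)) ^ N) := by ring
    linarith
  -- the operator
  let L0 : V →ₗ[ℝ] W :=
    { toFun := fun x => WithLp.toLp 2 fun t => Xs M (x : ι → ℝ) t
      map_add' := fun x y => by
        ext t
        change Xs M ((x + y : V) : ι → ℝ) t = Xs M (x : ι → ℝ) t + Xs M (y : ι → ℝ) t
        unfold Xs
        rw [← Finset.sum_add_distrib]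
        exact Finset.sum_congr rfl fun i _ => by rw [PiLp.add_apply]; ring
      map_smul' := fun c x => by
        ext t
        change Xs M ((c • x : V) : ι → ℝ) t = c * Xs M (x : ι → ℝ) t
        unfold Xs
        rw [Finset.mul_sum]
        exact Finset.sum_congr rfl fun i _ => by rw [PiLp.smul_apply, smul_eq_mul]; ring }
  let L : V →L[ℝ] W := LinearMap.toContinuousLinearMap L0
  have hL : ∀ x t, L x t = Xs M (x : ι → ℝ) t := fun x t => rfl
  have hLnet : ∀ x ∈ s1, ‖L x‖ ≤ 6 * Real.sqrt N := by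
    intro x hx
    rcases eq_or_ne (L x) 0 with h0 | h0
    · rw [h0, norm_zero]; positivity
    have hpos : 0 < ‖L x‖ := norm_pos_iff.2 h0
    obtain ⟨y, hy, hy2⟩ := ht1 (‖L x‖⁻¹ • L x) (by
      rw [norm_smul, norm_inv, norm_norm, inv_mul_cancel₀ hpos.ne'])
    have h1 : inner ℝ (L x) (‖L x‖⁻¹ • L x) = ‖L x‖ := by
      rw [inner_smul_right, real_inner_self_eq_norm_sq]
      field_simp
    have h2 : inner ℝ (L x) (‖L x‖⁻¹ • L x - y) ≤ ‖L x‖ * (1 / 2) := by
      refine (real_inner_le_norm _ _).trans ?_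
      gcongr
    have h3 : inner ℝ (L x) y ≤ 3 * Real.sqrt N := by
      have h4 := (hM2 x hx y hy).le
      rw [PiLp.inner_apply]
      refine le_trans (le_of_eq ?_) h4
      refine Finset.sum_congr rfl fun t _ => ?_
      rw [hL]
      simp
    rw [inner_sub_right, h1] at h2
    linarith
  have hLn : ‖L‖ ≤ 12 * Real.sqrt N := by
    have h1 : ‖L‖ ≤ 6 * Real.sqrt N + ‖L‖ / 2 := by
      refine ContinuousLinearMap.opNorm_le_of_unit_norm (by positivity) fun x hx => ?_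
      obtain ⟨y, hy, hxy⟩ := hs1 x hx.le
      calc ‖L x‖ = ‖L y + L (x - y)‖ := by rw [← map_add]; congr 2; abel
        _ ≤ ‖L y‖ + ‖L (x - y)‖ := norm_add_le _ _
        _ ≤ 6 * Real.sqrt N + ‖L‖ * (1 / 2) :=
            add_le_add (hLnet y hy) ((L.le_opNorm _).trans (by gcongr))
        _ = 6 * Real.sqrt N + ‖L‖ / 2 := by ring
    linarith
  have hLle : ∀ x, ‖L x‖ ≤ 12 * Real.sqrt N * ‖x‖ := fun x => (L.le_opNorm x).trans (by gcongr)
  refine ⟨M, fun a => ?_, fun a => ?_⟩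
  · have h1 := hLle (WithLp.toLp 2 a)
    rw [eucl_norm_eq, eucl_norm_eq] at h1
    rw [← hNc]
    exact h1
  · rw [← hNc]
    rcases eq_or_ne (WithLp.toLp 2 a : V) 0 with h0 | h0
    · have h1 : Real.sqrt (∑ i, a i ^ 2) = ‖(WithLp.toLp 2 a : V)‖ := (eucl_norm_eq _).symm
      rw [h1, h0, norm_zero, mul_zero]
      exact Finset.sum_nonneg fun _ _ => abs_nonneg _
    set x : V := WithLp.toLp 2 a with hx
    have hxpos : 0 < ‖x‖ := norm_pos_iff.2 h0
    have hxn : Real.sqrt (∑ i, a i ^ 2) = ‖x‖ := (eucl_norm_eq x).symm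
    set y : V := ‖x‖⁻¹ • x with hy
    have hyn : ‖y‖ = 1 := by
      rw [hy, norm_smul, norm_inv, norm_norm, inv_mul_cancel₀ hxpos.ne']
    obtain ⟨z, hz, hyz⟩ := hs9 y hyn.le
    have hl1 : ∀ v : V, ∑ t, |L v t| ≤ Real.sqrt N * ‖L v‖ := by
      intro v
      have h1 := sq_sum_le_card_mul_sum_sq (s := (Finset.univ : Finset (Fin N)))
        (f := fun t => |L v t|)
      simp only [sq_abs] at h1
      rw [Finset.card_univ, Fintype.card_fin, hsq] at h1
      have h2 : (Real.sqrt N * ‖L v‖) ^ 2 = N * ‖L v‖ ^ 2 := by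
        rw [mul_pow, Real.sq_sqrt (Nat.cast_nonneg _)]
      rw [← h2] at h1
      exact le_of_sq_le_sq h1 (by positivity)
    have hzn : 1 - (1 / 2) ^ 9 ≤ ‖z‖ := by
      have := norm_sub_norm_le y z
      rw [hyn] at this
      linarith
    have hzpos : 0 < ‖z‖ := lt_of_lt_of_le (by norm_num) hzn
    have hz0 : z ≠ 0 := norm_pos_iff.1 hzpos
    have h1 := hM1 z hz hz0
    have h2 : ∑ t, |L z t| = ‖z‖ * ∑ t, |Xs M ((‖z‖⁻¹ • z : V) : ι → ℝ) t| := by
      rw [Finset.mul_sum]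
      refine Finset.sum_congr rfl fun t _ => ?_
      rw [← hL, map_smul, PiLp.smul_apply, smul_eq_mul, abs_mul, abs_inv, abs_norm, ← mul_assoc,
        mul_inv_cancel₀ hzpos.ne', one_mul]
    have h3 : ‖z‖ * ((N : ℝ) / 16) ≤ ∑ t, |L z t| := by
      rw [h2]
      exact mul_le_mul_of_nonneg_left h1.le hzpos.le
    have h4 : ∑ t, |L (y - z) t| ≤ Real.sqrt N * (12 * Real.sqrt N * (1 / 2) ^ 9) := by
      refine (hl1 _).trans ?_
      gcongr
      exact (hLle _).trans (by gcongr)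
    have h5 : ∑ t, |L z t| ≤ ∑ t, |L y t| + ∑ t, |L (y - z) t| := by
      rw [← Finset.sum_add_distrib]
      refine Finset.sum_le_sum fun t _ => ?_
      rw [map_sub, PiLp.sub_apply]
      have := abs_sub_abs_le_abs_sub (L z t) (L y t)
      rw [abs_sub_comm] at this
      linarith
    have hNN : Real.sqrt N * Real.sqrt N = N := Real.mul_self_sqrt (Nat.cast_nonneg _)
    have h6 : (N : ℝ) / 32 ≤ ∑ t, |L y t| := by
      have e512 : ((1 : ℝ) / 2) ^ 9 = 1 / 512 := by norm_num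
      rw [e512] at h4
      have h7 : Real.sqrt N * (12 * Real.sqrt N * (1 / 512)) = N * (12 / 512) := by
        calc Real.sqrt N * (12 * Real.sqrt N * (1 / 512)) =
            (Real.sqrt N * Real.sqrt N) * (12 / 512) := by ring
          _ = _ := by rw [hNN]
      rw [h7] at h4
      have h8 : (N : ℝ) / 16 * (1 - (1 / 2) ^ 9) ≤ ‖z‖ * ((N : ℝ) / 16) := by
        rw [mul_comm]
        gcongr
      have h9 : (0 : ℝ) < N := by rw [hNc]; exact hNpos
      rw [e512] at h8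
      linarith
    have h7 : ∑ t, |Xs M a t| = ‖x‖ * ∑ t, |L y t| := by
      rw [Finset.mul_sum]
      refine Finset.sum_congr rfl fun t _ => ?_
      have : Xs M a t = L x t := rfl
      rw [this, hy, map_smul, PiLp.smul_apply, smul_eq_mul, abs_mul, abs_inv, abs_norm, ← mul_assoc,
        mul_inv_cancel₀ hxpos.ne', one_mul]
    rw [h7, hxn, mul_comm]
    gcongr

end Pool.Agent.H14.NP
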