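import Pool.Agent.H14.NP.SmallP

/-!
# Rosenthal's inequality for independent indicator functions
-/

open Filter Topology
open scoped ENNReal

namespace Pool.Agent.H14.NP

section

variable {G : Type*} [AddCommGroup G] [DecidableEq G]

/-- Indicator of `0`. -/
def ind0 (g : G) : ℝ := if g = 0 then 1 else 0

theorem ind0_nonneg (g : G) : 0 ≤ ind0 g := by unfold ind0; split_ifs <;> norm_num

theorem ind0_sq (g : G) : ind0 g ^ 2 = ind0 g := by unfold ind0; split_ifs <;> norm_num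

theorem ind0_rpow (g : G) {s : ℝ} (hs : 0 < s) : ind0 g ^ s = ind0 g := by
  unfold ind0
  split_ifs
  · exact Real.one_rpow s
  · exact Real.zero_rpow hs.ne'

end

variable {G : Type*} [AddCommGroup G] [Fintype G] [DecidableEq G]
variable {ι : Type*} [Fintype ι] [DecidableEq ι]

theorem sum_ind_indep (i : ι) (g : (ι → G) → ℝ) (hg : ∀ ω x, g (ω + Pi.single i x) = g ω) :
    (Fintype.card G : ℝ) * ∑ ω : ι → G, ind0 (ω i) * g ω = ∑ ω, g ω := by
  calc (Fintype.card G : ℝ) * ∑ ω : ι → G, ind0 (ω i) * g ω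
      = ∑ _x : G, ∑ ω : ι → G, ind0 (ω i) * g ω := by
        rw [Finset.sum_const, Finset.card_univ, nsmul_eq_mul]
    _ = ∑ x : G, ∑ ω : ι → G, ind0 (ω i + x) * g ω := by
        refine Finset.sum_congr rfl fun x _ => ?_
        rw [← Equiv.sum_comp (Equiv.addRight (Pi.single i x : ι → G))]
        refine Finset.sum_congr rfl fun ω _ => ?_
        change ind0 ((ω + Pi.single i x : ι → G) i) * g (ω + Pi.single i x) = _
        rw [hg, Pi.add_apply, Pi.single_eq_same]
    _ = ∑ ω : ι → G, g ω := by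
        rw [Finset.sum_comm]
        refine Finset.sum_congr rfl fun ω _ => ?_
        rw [← Finset.sum_mul]
        have : ∑ x : G, ind0 (ω i + x) = 1 := by
          rw [Finset.sum_eq_single (-ω i)]
          · simp [ind0]
          · intro x _ hx
            unfold ind0
            rw [if_neg]
            intro h
            exact hx (eq_neg_of_add_eq_zero_right h)
          · intro h
            exact absurd (Finset.mem_univ _) h
        rw [this, one_mul]

/-- Rosenthal's inequality (positive case). -/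
theorem rosenthal_pos {q : ℝ} (hq : 1 ≤ q) (b : ι → ℝ) (hb : ∀ i, 0 ≤ b i) :
    ∑ ω : ι → G, (∑ i, b i * ind0 (ω i)) ^ q ≤ (Fintype.card (ι → G) : ℝ) *
      (2 ^ q * ((Fintype.card G : ℝ)⁻¹ * ∑ i, b i ^ q) +
        (2 ^ q * ((Fintype.card G : ℝ)⁻¹ * ∑ i, b i)) ^ q) := by
  set M : ℝ := (Fintype.card G : ℝ) with hM
  have hMpos : 0 < M := by rw [hM]; exact_mod_cast Fintype.card_pos
  set Om : ℝ := (Fintype.card (ι → G) : ℝ) with hOm
  have hOm0 : 0 ≤ Om := Nat.cast_nonneg _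
  set t := q - 1 with ht
  have ht0 : 0 ≤ t := by linarith
  have hq0 : 0 < q := by linarith
  set S : (ι → G) → ℝ := fun ω => ∑ i, b i * ind0 (ω i) with hS
  have hS0 : ∀ ω, 0 ≤ S ω := fun ω => Finset.sum_nonneg fun i _ => mul_nonneg (hb i) (ind0_nonneg _)
  set S' : ι → (ι → G) → ℝ := fun i ω => ∑ k ∈ Finset.univ.erase i, b k * ind0 (ω k) with hS'
  have hS'0 : ∀ i ω, 0 ≤ S' i ω := fun i ω =>
    Finset.sum_nonneg fun k _ => mul_nonneg (hb k) (ind0_nonneg _)
  have hSS' : ∀ i ω, S ω = b i * ind0 (ω i) + S' i ω := fun i ω =>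
    (Finset.add_sum_erase _ _ (Finset.mem_univ i)).symm
  have hS'S : ∀ i ω, S' i ω ≤ S ω := fun i ω => by
    rw [hSS' i ω]
    exact le_add_of_nonneg_left (mul_nonneg (hb i) (ind0_nonneg _))
  have hmulpow : ∀ x : ℝ, 0 ≤ x → x * x ^ t = x ^ q := by
    intro x hx
    rcases hx.eq_or_lt with h | h
    · rw [← h, zero_mul, Real.zero_rpow hq0.ne']
    · have : q = 1 + t := by rw [ht]; ring
      rw [this, Real.rpow_add h, Real.rpow_one]
  have hadd : ∀ x y : ℝ, 0 ≤ x → 0 ≤ y → (x + y) ^ t ≤ 2 ^ t * (x ^ t + y ^ t) := by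
    intro x y hx hy
    rcases le_total x y with h | h
    · calc (x + y) ^ t ≤ (2 * y) ^ t := Real.rpow_le_rpow (by positivity) (by linarith) ht0
        _ = 2 ^ t * y ^ t := Real.mul_rpow (by norm_num) hy
        _ ≤ _ := by
            gcongr
            exact le_add_of_nonneg_left (Real.rpow_nonneg hx _)
    · calc (x + y) ^ t ≤ (2 * x) ^ t := Real.rpow_le_rpow (by positivity) (by linarith) ht0
        _ = 2 ^ t * x ^ t := Real.mul_rpow (by norm_num) hx
        _ ≤ _ := by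
            gcongr
            exact le_add_of_nonneg_right (Real.rpow_nonneg hy _)
  set X := M⁻¹ * ∑ i, b i with hX
  have hX0 : 0 ≤ X := mul_nonneg (by positivity) (Finset.sum_nonneg fun i _ => hb i)
  set D := M⁻¹ * ∑ i, b i ^ q with hD
  -- one term
  have hterm : ∀ i, ∑ ω : ι → G, b i * ind0 (ω i) * S ω ^ t ≤
      2 ^ t * (b i ^ q * (M⁻¹ * Om) + b i * (M⁻¹ * ∑ ω, S ω ^ t)) := by
    intro i
    have h1 : ∀ ω, b i * ind0 (ω i) * S ω ^ t ≤
        2 ^ t * (b i ^ q * ind0 (ω i) + b i * (ind0 (ω i) * S' i ω ^ t)) := by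
      intro ω
      by_cases h : ω i = 0
      · have e1 : ind0 (ω i) = 1 := by unfold ind0; rw [if_pos h]
        rw [hSS' i ω, e1, mul_one, mul_one, one_mul, ← hmulpow (b i) (hb i)]
        calc b i * (b i + S' i ω) ^ t ≤ b i * (2 ^ t * (b i ^ t + S' i ω ^ t)) := by
              gcongr
              · exact hb i
              · exact hadd _ _ (hb i) (hS'0 i ω)
          _ = _ := by ring
      · have e1 : ind0 (ω i) = 0 := by unfold ind0; rw [if_neg h]
        rw [e1]
        simp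
    have h2 : ∑ ω : ι → G, ind0 (ω i) = M⁻¹ * Om := by
      have := sum_ind_indep i (fun _ : ι → G => (1 : ℝ)) (fun _ _ => rfl)
      simp only [mul_one, Finset.sum_const, Finset.card_univ, nsmul_eq_mul] at this
      rw [hOm, ← this, ← mul_assoc, inv_mul_cancel₀ hMpos.ne', one_mul]
    have h3 : ∑ ω : ι → G, ind0 (ω i) * S' i ω ^ t = M⁻¹ * ∑ ω, S' i ω ^ t := by
      have := sum_ind_indep i (fun ω : ι → G => S' i ω ^ t) (fun ω x => by
        congr 1
        refine Finset.sum_congr rfl fun k hk => ?_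
        rw [Finset.mem_erase] at hk
        rw [Pi.add_apply, Pi.single_eq_of_ne hk.1, add_zero])
      rw [← this, ← mul_assoc, inv_mul_cancel₀ hMpos.ne', one_mul]
    calc ∑ ω : ι → G, b i * ind0 (ω i) * S ω ^ t
        ≤ ∑ ω : ι → G, 2 ^ t * (b i ^ q * ind0 (ω i) + b i * (ind0 (ω i) * S' i ω ^ t)) :=
          Finset.sum_le_sum fun ω _ => h1 ω
      _ = 2 ^ t * (b i ^ q * (M⁻¹ * Om) + b i * (M⁻¹ * ∑ ω, S' i ω ^ t)) := by
          rw [← Finset.mul_sum, Finset.sum_add_distrib, ← Finset.mul_sum, ← Finset.mul_sum, h2, h3]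
      _ ≤ _ := by
          gcongr with ω _
          · exact hb i
          · exact hS'0 i ω
          · exact hS'S i ω
  have hmain : ∑ ω : ι → G, S ω ^ q ≤ 2 ^ t * (Om * D + X * ∑ ω, S ω ^ t) := by
    calc ∑ ω : ι → G, S ω ^ q = ∑ ω : ι → G, ∑ i, b i * ind0 (ω i) * S ω ^ t := by
          refine Finset.sum_congr rfl fun ω _ => ?_
          rw [← Finset.sum_mul, hmulpow _ (hS0 ω)]
      _ = ∑ i, ∑ ω : ι → G, b i * ind0 (ω i) * S ω ^ t := Finset.sum_comm
      _ ≤ ∑ i, 2 ^ t * (b i ^ q * (M⁻¹ * Om) + b i * (M⁻¹ * ∑ ω, S ω ^ t)) :=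
          Finset.sum_le_sum fun i _ => hterm i
      _ = 2 ^ t * (Om * D + X * ∑ ω, S ω ^ t) := by
          rw [← Finset.mul_sum, Finset.sum_add_distrib, ← Finset.sum_mul, ← Finset.sum_mul, hD, hX]
          ring
  have hpt : ∀ ω, 2 ^ q * X * S ω ^ t ≤ (2 ^ q * X) ^ q + S ω ^ q := by
    intro ω
    have h2X : 0 ≤ 2 ^ q * X := by positivity
    rcases le_total (S ω) (2 ^ q * X) with h | h
    · calc 2 ^ q * X * S ω ^ t ≤ 2 ^ q * X * (2 ^ q * X) ^ t := by
            gcongr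
            exact hS0 ω
        _ = (2 ^ q * X) ^ q := hmulpow _ h2X
        _ ≤ _ := le_add_of_nonneg_right (Real.rpow_nonneg (hS0 ω) _)
    · calc 2 ^ q * X * S ω ^ t ≤ S ω * S ω ^ t := by
            have := Real.rpow_nonneg (hS0 ω) t
            gcongr
        _ = S ω ^ q := hmulpow _ (hS0 ω)
        _ ≤ _ := le_add_of_nonneg_left (Real.rpow_nonneg h2X _)
  have hsum : 2 ^ q * X * ∑ ω : ι → G, S ω ^ t ≤ Om * (2 ^ q * X) ^ q + ∑ ω, S ω ^ q := by
    rw [Finset.mul_sum]
    refine (Finset.sum_le_sum fun ω _ => hpt ω).trans (le_of_eq ?_)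
    rw [Finset.sum_add_distrib, Finset.sum_const, Finset.card_univ, nsmul_eq_mul]
  have h2q : (2 : ℝ) ^ q = 2 * 2 ^ t := (hmulpow 2 (by norm_num)).symm
  have h3 : 2 * ∑ ω : ι → G, S ω ^ q ≤ 2 ^ q * (Om * D) + 2 ^ q * X * ∑ ω : ι → G, S ω ^ t := by
    calc 2 * ∑ ω : ι → G, S ω ^ q ≤ 2 * (2 ^ t * (Om * D + X * ∑ ω, S ω ^ t)) := by gcongr
      _ = _ := by rw [h2q]; ring
  have h4 : ∑ ω : ι → G, S ω ^ q ≤ 2 ^ q * (Om * D) + Om * (2 ^ q * X) ^ q := by linarith
  refine h4.trans (le_of_eq (by ring))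

end Pool.Agent.H14.NP
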