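import Mathlib

/-!
# Sign vectors: Bessel and Khintchine type inequalities
-/

open Filter Topology
open scoped ENNReal

namespace Pool.Agent.H14.NP

/-- The sign of a Boolean. -/
def sg (b : Bool) : ℝ := if b then 1 else -1

theorem sg_mul_self (b : Bool) : sg b * sg b = 1 := by cases b <;> simp [sg]

theorem sg_not (b : Bool) : sg (!b) = - sg b := by cases b <;> simp [sg]

theorem abs_sg (b : Bool) : |sg b| = 1 := by cases b <;> simp [sg]

variable {ι : Type*} [Fintype ι] [DecidableEq ι]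

/-- Flip one coordinate. -/
def flipAt (c : ι) : Equiv.Perm (ι → Bool) where
  toFun u := Function.update u c (!u c)
  invFun u := Function.update u c (!u c)
  left_inv u := by
    ext i
    by_cases h : i = c
    · subst h; simp
    · simp [h]
  right_inv u := by
    ext i
    by_cases h : i = c
    · subst h; simp
    · simp [h]

omit [Fintype ι] in
theorem flipAt_same (c : ι) (u : ι → Bool) : flipAt c u c = !u c := by simp [flipAt]

omit [Fintype ι] in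
theorem flipAt_ne (c : ι) (u : ι → Bool) {i : ι} (h : i ≠ c) : flipAt c u i = u i := by
  simp [flipAt, h]

theorem sum_flip {M : Type*} [AddCommMonoid M] (c : ι) (f : (ι → Bool) → M) :
    ∑ u, f (flipAt c u) = ∑ u, f u := Equiv.sum_comp (flipAt c) f

/-- A function that changes sign under a flip has sum zero. -/
theorem sum_eq_zero_of_flip (c : ι) (f : (ι → Bool) → ℝ) (hf : ∀ u, f (flipAt c u) = - f u) :
    ∑ u, f u = 0 := by
  have h := sum_flip c f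
  simp only [hf, Finset.sum_neg_distrib] at h
  linarith

theorem sum_sg_mul_sg {s t : ι} (h : s ≠ t) : ∑ j : ι → Bool, sg (j s) * sg (j t) = 0 := by
  refine sum_eq_zero_of_flip s _ fun u => ?_
  rw [flipAt_same, flipAt_ne s u h.symm, sg_not]
  ring

theorem sum_sg_four {s t s' t' : ι} (h : s ≠ t) (h1 : s ≠ s') (h2 : s ≠ t') :
    ∑ j : ι → Bool, (sg (j s) * sg (j t)) * (sg (j s') * sg (j t')) = 0 := by
  refine sum_eq_zero_of_flip s _ fun u => ?_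
  rw [flipAt_same, flipAt_ne s u h.symm, flipAt_ne s u h1.symm, flipAt_ne s u h2.symm, sg_not]
  ring

variable {𝕜 : Type*} [RCLike 𝕜]

/-- Bessel's inequality for orthogonal sign vectors. -/
theorem bessel_signs {J K : Type*} [Fintype J] [Fintype K] [DecidableEq K] (w : K → J → ℝ)
    (hw : ∀ k j, w k j * w k j = 1) (ho : ∀ k k', k ≠ k' → ∑ j, w k j * w k' j = 0) (a : J → 𝕜) :
    ∑ k, ‖∑ j, (w k j : 𝕜) * a j‖ ^ 2 ≤ Fintype.card J * ∑ j, ‖a j‖ ^ 2 := by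
  classical
  rcases isEmpty_or_nonempty J with hJ | hJ
  · simp
  have hm : (0 : ℝ) < Fintype.card J := by exact_mod_cast Fintype.card_pos
  set m : ℝ := (Fintype.card J : ℝ) with hmdef
  let v : K → EuclideanSpace 𝕜 J := fun k => WithLp.toLp 2 fun j => (((Real.sqrt m)⁻¹ * w k j : ℝ) : 𝕜)
  have hv : Orthonormal 𝕜 v := by
    rw [orthonormal_iff_ite]
    intro k k'
    have h1 : inner 𝕜 (v k) (v k') = ((m⁻¹ * ∑ j, w k j * w k' j : ℝ) : 𝕜) := by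
      simp only [v, PiLp.inner_apply, RCLike.inner_apply, RCLike.conj_ofReal]
      rw [Finset.mul_sum]
      push_cast
      refine Finset.sum_congr rfl fun j _ => ?_
      have h2 : ((Real.sqrt m : ℝ) : 𝕜)⁻¹ * ((Real.sqrt m : ℝ) : 𝕜)⁻¹ = ((m : ℝ) : 𝕜)⁻¹ := by
        rw [← mul_inv, ← RCLike.ofReal_mul, Real.mul_self_sqrt hm.le]
      calc ((Real.sqrt m : ℝ) : 𝕜)⁻¹ * (w k' j : 𝕜) * (((Real.sqrt m : ℝ) : 𝕜)⁻¹ * (w k j : 𝕜))
          = (((Real.sqrt m : ℝ) : 𝕜)⁻¹ * ((Real.sqrt m : ℝ) : 𝕜)⁻¹) * ((w k j : 𝕜) * (w k' j : 𝕜)) := by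
            ring
        _ = _ := by rw [h2]
    rw [h1]
    split_ifs with h
    · subst h
      simp only [hw, Finset.sum_const, Finset.card_univ, nsmul_eq_mul, mul_one]
      rw [← hmdef, inv_mul_cancel₀ hm.ne']
      simp
    · rw [ho k k' h]; simp
  let x : EuclideanSpace 𝕜 J := WithLp.toLp 2 a
  have hb := hv.sum_inner_products_le (s := Finset.univ) x
  have h3 : ∀ k, ‖inner 𝕜 (v k) x‖ ^ 2 = m⁻¹ * ‖∑ j, (w k j : 𝕜) * a j‖ ^ 2 := by
    intro k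
    have h4 : inner 𝕜 (v k) x = (((Real.sqrt m)⁻¹ : ℝ) : 𝕜) * ∑ j, (w k j : 𝕜) * a j := by
      simp only [v, x, PiLp.inner_apply, RCLike.inner_apply, RCLike.conj_ofReal]
      rw [Finset.mul_sum]
      refine Finset.sum_congr rfl fun j _ => ?_
      push_cast
      ring
    rw [h4, norm_mul, mul_pow]
    congr 1
    rw [RCLike.norm_ofReal, abs_of_nonneg (by positivity), inv_pow, Real.sq_sqrt hm.le]
  have h5 : ‖x‖ ^ 2 = ∑ j, ‖a j‖ ^ 2 := by
    rw [EuclideanSpace.norm_sq_eq]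
  simp only [h3] at hb
  rw [← Finset.mul_sum, h5] at hb
  rw [inv_mul_le_iff₀ hm] at hb
  exact hb

/-- Second moment of a Rademacher sum. -/
theorem second_moment (a : ι → 𝕜) (s : Finset ι) :
    ∑ u : ι → Bool, ‖∑ i ∈ s, (sg (u i) : 𝕜) * a i‖ ^ 2
      = 2 ^ Fintype.card ι * ∑ i ∈ s, ‖a i‖ ^ 2 := by
  classical
  induction s using Finset.induction_on with
  | empty => simp
  | insert c s hc ih =>
    have h1 : ∀ u : ι → Bool, ∑ i ∈ insert c s, (sg (u i) : 𝕜) * a i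
        = (sg (u c) : 𝕜) * a c + ∑ i ∈ s, (sg (u i) : 𝕜) * a i := fun u => by
      rw [Finset.sum_insert hc]
    have h2 : ∀ u : ι → Bool, ∑ i ∈ insert c s, (sg (flipAt c u i) : 𝕜) * a i
        = -((sg (u c) : 𝕜) * a c) + ∑ i ∈ s, (sg (u i) : 𝕜) * a i := fun u => by
      rw [Finset.sum_insert hc, flipAt_same, sg_not]
      congr 1
      · push_cast; ring
      · refine Finset.sum_congr rfl fun i hi => ?_
        rw [flipAt_ne c u (by rintro rfl; exact hc hi)]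
    have h3 := sum_flip c (fun u => ‖∑ i ∈ insert c s, (sg (u i) : 𝕜) * a i‖ ^ 2)
    have h4 : ∑ u : ι → Bool, ‖∑ i ∈ insert c s, (sg (u i) : 𝕜) * a i‖ ^ 2
        = ∑ u : ι → Bool, (‖a c‖ ^ 2 + ‖∑ i ∈ s, (sg (u i) : 𝕜) * a i‖ ^ 2) := by
      have h5 : 2 * ∑ u : ι → Bool, ‖∑ i ∈ insert c s, (sg (u i) : 𝕜) * a i‖ ^ 2
          = 2 * ∑ u : ι → Bool, (‖a c‖ ^ 2 + ‖∑ i ∈ s, (sg (u i) : 𝕜) * a i‖ ^ 2) := by
        rw [two_mul]
        conv_lhs => rw [← h3]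
        rw [h3] 
        nth_rewrite 2 [← h3]
        rw [← Finset.sum_add_distrib, Finset.mul_sum]
        refine Finset.sum_congr rfl fun u _ => ?_
        rw [h1, h2]
        have hp := parallelogram_law_with_norm 𝕜 (∑ i ∈ s, (sg (u i) : 𝕜) * a i)
          ((sg (u c) : 𝕜) * a c)
        have hn : ‖(sg (u c) : 𝕜) * a c‖ = ‖a c‖ := by
          rw [norm_mul, RCLike.norm_ofReal, abs_sg, one_mul]
        rw [hn] at hp
        have e1 : (sg (u c) : 𝕜) * a c + ∑ i ∈ s, (sg (u i) : 𝕜) * a i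
          = ∑ i ∈ s, (sg (u i) : 𝕜) * a i + (sg (u c) : 𝕜) * a c := add_comm _ _
        have e2 : -((sg (u c) : 𝕜) * a c) + ∑ i ∈ s, (sg (u i) : 𝕜) * a i
          = ∑ i ∈ s, (sg (u i) : 𝕜) * a i - (sg (u c) : 𝕜) * a c := by ring
        rw [e1, e2]
        nlinarith [hp]
      linarith
    rw [h4, Finset.sum_add_distrib, ih, Finset.sum_const, Finset.card_univ, Finset.sum_insert hc]
    simp only [Fintype.card_pi, Fintype.card_bool, Finset.prod_const, Finset.card_univ,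
      nsmul_eq_mul]
    push_cast
    ring

theorem norm_four_le (x y : 𝕜) :
    ‖x + y‖ ^ 4 + ‖x - y‖ ^ 4 ≤ 2 * ‖x‖ ^ 4 + 12 * (‖x‖ ^ 2 * ‖y‖ ^ 2) + 2 * ‖y‖ ^ 4 := by
  have h1 := norm_add_sq (𝕜 := 𝕜) x y
  have h2 := norm_sub_sq (𝕜 := 𝕜) x y
  set r := RCLike.re (inner 𝕜 x y) with hr
  have h3 : |r| ≤ ‖x‖ * ‖y‖ := (RCLike.abs_re_le_norm _).trans (norm_inner_le_norm x y)
  have h4 : r ^ 2 ≤ ‖x‖ ^ 2 * ‖y‖ ^ 2 := by
    rw [← sq_abs, ← mul_pow]
    exact pow_le_pow_left₀ (abs_nonneg _) h3 2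
  have e1 : ‖x + y‖ ^ 4 = (‖x‖ ^ 2 + 2 * r + ‖y‖ ^ 2) ^ 2 := by rw [← h1]; ring
  have e2 : ‖x - y‖ ^ 4 = (‖x‖ ^ 2 - 2 * r + ‖y‖ ^ 2) ^ 2 := by rw [← h2]; ring
  rw [e1, e2]
  nlinarith [h4]

/-- Fourth moment of a Rademacher sum. -/
theorem fourth_moment (a : ι → 𝕜) (s : Finset ι) :
    ∑ u : ι → Bool, ‖∑ i ∈ s, (sg (u i) : 𝕜) * a i‖ ^ 4
      ≤ 3 * 2 ^ Fintype.card ι * (∑ i ∈ s, ‖a i‖ ^ 2) ^ 2 := by
  classical
  induction s using Finset.induction_on with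
  | empty => simp
  | insert c s hc ih =>
    have h1 : ∀ u : ι → Bool, ∑ i ∈ insert c s, (sg (u i) : 𝕜) * a i
        = ∑ i ∈ s, (sg (u i) : 𝕜) * a i + (sg (u c) : 𝕜) * a c := fun u => by
      rw [Finset.sum_insert hc, add_comm]
    have h2 : ∀ u : ι → Bool, ∑ i ∈ insert c s, (sg (flipAt c u i) : 𝕜) * a i
        = ∑ i ∈ s, (sg (u i) : 𝕜) * a i - (sg (u c) : 𝕜) * a c := fun u => by
      rw [Finset.sum_insert hc, flipAt_same, sg_not, add_comm, sub_eq_add_neg]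
      congr 1
      · refine Finset.sum_congr rfl fun i hi => ?_
        rw [flipAt_ne c u (by rintro rfl; exact hc hi)]
      · push_cast; ring
    have h3 := sum_flip c (fun u => ‖∑ i ∈ insert c s, (sg (u i) : 𝕜) * a i‖ ^ 4)
    have hsm := second_moment a s
    have h5 : 2 * ∑ u : ι → Bool, ‖∑ i ∈ insert c s, (sg (u i) : 𝕜) * a i‖ ^ 4
        ≤ ∑ u : ι → Bool, (2 * ‖∑ i ∈ s, (sg (u i) : 𝕜) * a i‖ ^ 4 +
          12 * (‖∑ i ∈ s, (sg (u i) : 𝕜) * a i‖ ^ 2 * ‖a c‖ ^ 2) + 2 * ‖a c‖ ^ 4) := by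
      rw [two_mul]
      nth_rewrite 2 [← h3]
      rw [← Finset.sum_add_distrib]
      refine Finset.sum_le_sum fun u _ => ?_
      rw [h1, h2]
      have hn : ‖(sg (u c) : 𝕜) * a c‖ = ‖a c‖ := by
        rw [norm_mul, RCLike.norm_ofReal, abs_sg, one_mul]
      have := norm_four_le (∑ i ∈ s, (sg (u i) : 𝕜) * a i) ((sg (u c) : 𝕜) * a c)
      rw [hn] at this
      exact this
    have h6 : ∑ u : ι → Bool, (2 * ‖∑ i ∈ s, (sg (u i) : 𝕜) * a i‖ ^ 4 +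
          12 * (‖∑ i ∈ s, (sg (u i) : 𝕜) * a i‖ ^ 2 * ‖a c‖ ^ 2) + 2 * ‖a c‖ ^ 4)
        = 2 * ∑ u : ι → Bool, ‖∑ i ∈ s, (sg (u i) : 𝕜) * a i‖ ^ 4 +
          12 * ((2 ^ Fintype.card ι * ∑ i ∈ s, ‖a i‖ ^ 2) * ‖a c‖ ^ 2) +
          2 ^ Fintype.card ι * (2 * ‖a c‖ ^ 4) := by
      rw [Finset.sum_add_distrib, Finset.sum_add_distrib, ← Finset.mul_sum, ← Finset.mul_sum,
        ← Finset.sum_mul, hsm, Finset.sum_const, Finset.card_univ]
      simp only [Fintype.card_pi, Fintype.card_bool, Finset.prod_const, Finset.card_univ,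
        nsmul_eq_mul]
      push_cast
      ring
    rw [h6] at h5
    rw [Finset.sum_insert hc]
    have hpow : (0 : ℝ) < 2 ^ Fintype.card ι := by positivity
    have hS : 0 ≤ ∑ i ∈ s, ‖a i‖ ^ 2 := Finset.sum_nonneg fun i _ => by positivity
    set S := ∑ i ∈ s, ‖a i‖ ^ 2 with hSdef
    set D : ℝ := (2 : ℝ) ^ Fintype.card ι with hD
    have h7 : 2 * ∑ u : ι → Bool, ‖∑ i ∈ insert c s, (sg (u i) : 𝕜) * a i‖ ^ 4
        ≤ 2 * (3 * D * S ^ 2) + 12 * (D * S * ‖a c‖ ^ 2) + D * (2 * ‖a c‖ ^ 4) := by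
      linarith
    nlinarith [h7, mul_nonneg hpow.le (pow_nonneg (norm_nonneg (a c)) 4)]

/-- Khintchine: the `L_1` norm of a Rademacher sum dominates the `ℓ_2` norm. -/
theorem khintchine (a : ι → 𝕜) (s : Finset ι) :
    5 / 9 * 2 ^ Fintype.card ι * Real.sqrt (∑ i ∈ s, ‖a i‖ ^ 2)
      ≤ ∑ u : ι → Bool, ‖∑ i ∈ s, (sg (u i) : 𝕜) * a i‖ := by
  classical
  set S := ∑ i ∈ s, ‖a i‖ ^ 2 with hS
  have hS0 : 0 ≤ S := Finset.sum_nonneg fun i _ => by positivity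
  rcases hS0.eq_or_lt with h0 | hpos
  · rw [← h0]
    simp only [Real.sqrt_zero, mul_zero]
    exact Finset.sum_nonneg fun u _ => norm_nonneg _
  set σ := Real.sqrt S with hσ
  have hσpos : 0 < σ := Real.sqrt_pos.2 hpos
  have hσ2 : σ ^ 2 = S := Real.sq_sqrt hS0
  have hpt : ∀ y : ℝ, 0 ≤ y → y ^ 2 * (27 * σ ^ 2) ≤ y * (27 * σ ^ 3) + 4 * y ^ 4 := by
    intro y hy
    have : 0 ≤ y * ((2 * y - 3 * σ) ^ 2 * (y + 3 * σ)) := by positivity
    nlinarith [this]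
  have h2 := second_moment a s
  have h4 := fourth_moment a s
  rw [← hS] at h2 h4
  have h5 : ∑ u : ι → Bool, ‖∑ i ∈ s, (sg (u i) : 𝕜) * a i‖ ^ 2 * (27 * σ ^ 2)
      ≤ ∑ u : ι → Bool, (‖∑ i ∈ s, (sg (u i) : 𝕜) * a i‖ * (27 * σ ^ 3) +
        4 * ‖∑ i ∈ s, (sg (u i) : 𝕜) * a i‖ ^ 4) :=
    Finset.sum_le_sum fun u _ => hpt _ (norm_nonneg _)
  rw [← Finset.sum_mul, h2, Finset.sum_add_distrib, ← Finset.sum_mul, ← Finset.mul_sum] at h5
  set X := ∑ u : ι → Bool, ‖∑ i ∈ s, (sg (u i) : 𝕜) * a i‖ with hX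
  set D : ℝ := (2 : ℝ) ^ Fintype.card ι with hD
  have hD0 : 0 < D := by positivity
  have h6 : D * S * (27 * σ ^ 2) ≤ X * (27 * σ ^ 3) + 4 * (3 * D * S ^ 2) := by linarith
  rw [← hσ2] at h6
  have h7 : (15 * D * σ) * σ ^ 3 ≤ (27 * X) * σ ^ 3 := by nlinarith [h6]
  have h8 : 15 * D * σ ≤ 27 * X := le_of_mul_le_mul_right h7 (by positivity)
  linarith

end Pool.Agent.H14.NP
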