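import Pool.Agent.H14.NP.Groth
import Pool.Agent.H14.NP.MixOps
import Pool.Agent.H14.NP.Combine
import Pool.Agent.H14.NP.EllOneAux

/-!
# Spaces with uniformly complemented `ℓ_2^n`'s and `ℓ_∞^n`'s have (NP)
-/

open Filter Topology
open scoped ENNReal

namespace Pool.Agent.H14.NP

variable {𝕜 : Type*} [RCLike 𝕜]

/-- A finite half-net of functionals in the unit ball of a finite dimensional Hilbert space. -/
theorem exists_net (ι : Type) [Fintype ι] :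
    ∃ (N : ℕ) (x : Fin N → PiLp 2 (fun _ : ι => 𝕜)), (∀ t, ‖x t‖ ≤ 1) ∧
      ∀ a : PiLp 2 (fun _ : ι => 𝕜), a ≠ 0 → ∃ t, 1 / 2 * ‖a‖ ≤ ‖inner 𝕜 (x t) a‖ := by
  classical
  have : ProperSpace (PiLp 2 (fun _ : ι => 𝕜)) := FiniteDimensional.proper 𝕜 _
  obtain ⟨s, hs1, hs2, hs3⟩ := (isCompact_sphere (0 : PiLp 2 (fun _ : ι => 𝕜)) 1).finite_cover_balls
    (e := 1 / 2) (by norm_num)
  let e := (hs2.toFinset).equivFin
  refine ⟨_, fun t => (e.symm t : PiLp 2 (fun _ : ι => 𝕜)), fun t => ?_, fun a ha => ?_⟩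
  · have h1 : (e.symm t : PiLp 2 (fun _ : ι => 𝕜)) ∈ s := hs2.mem_toFinset.1 (e.symm t).2
    have h2 := hs1 h1
    rw [mem_sphere_zero_iff_norm] at h2
    exact h2.le
  · have hapos : 0 < ‖a‖ := norm_pos_iff.2 ha
    have hak : (‖a‖ : 𝕜) ≠ 0 := by rw [Ne, RCLike.ofReal_eq_zero]; exact hapos.ne'
    set b : PiLp 2 (fun _ : ι => 𝕜) := ((‖a‖ : 𝕜)⁻¹) • a with hb
    have hbn : ‖b‖ = 1 := by
      rw [hb, norm_smul, norm_inv, RCLike.norm_ofReal, abs_of_pos hapos, inv_mul_cancel₀ hapos.ne']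
    have h1 : b ∈ Metric.sphere (0 : PiLp 2 (fun _ : ι => 𝕜)) 1 := by
      rw [mem_sphere_zero_iff_norm]; exact hbn
    have h2 := hs3 h1
    simp only [Set.mem_iUnion, exists_prop] at h2
    obtain ⟨c, hc, hcb⟩ := h2
    refine ⟨e ⟨c, hs2.mem_toFinset.2 hc⟩, ?_⟩
    simp only [Equiv.symm_apply_apply]
    have hcn : ‖c‖ = 1 := by
      have := hs1 hc
      rwa [mem_sphere_zero_iff_norm] at this
    rw [Metric.mem_ball, dist_eq_norm] at hcb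
    have h3 := norm_sub_sq (𝕜 := 𝕜) b c
    rw [hbn, hcn] at h3
    have h4 : ‖b - c‖ ^ 2 < (1 / 2) ^ 2 := by
      apply pow_lt_pow_left₀ hcb (norm_nonneg _) two_ne_zero
    have h5 : 1 / 2 ≤ ‖inner 𝕜 c b‖ := by
      rw [norm_inner_symm]
      have := RCLike.re_le_norm (inner 𝕜 b c)
      linarith
    have h6 : a = (‖a‖ : 𝕜) • b := by
      rw [hb, smul_smul, mul_inv_cancel₀ hak, one_smul]
    have h7 : inner 𝕜 c a = (‖a‖ : 𝕜) * inner 𝕜 c b := by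
      rw [← inner_smul_right, ← h6]
    rw [h7, norm_mul, RCLike.norm_ofReal, abs_of_pos hapos, mul_comm]
    gcongr

/-- The identity `𝕜^ι → ℓ_p^ι`. -/
noncomputable def toLpL (𝕜 : Type*) [RCLike 𝕜] (p : ℝ≥0∞) (ι : Type*) :
    (ι → 𝕜) →ₗ[𝕜] PiLp p (fun _ : ι => 𝕜) := (WithLp.linearEquiv p 𝕜 (ι → 𝕜)).symm.toLinearMap

theorem toLpL_apply (p : ℝ≥0∞) (ι : Type*) (a : ι → 𝕜) : toLpL 𝕜 p ι a = WithLp.toLp p a := rfl

theorem norm_restrict_set_le (p : ℝ≥0∞) [hp1 : Fact (1 ≤ p)] {ι : Type*} [Fintype ι]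
    [DecidableEq ι] (a : ι → 𝕜) (s : Finset ι) :
    ‖(WithLp.toLp p (fun j => if j ∈ s then a j else 0) : PiLp p (fun _ : ι => 𝕜))‖ ≤
      ‖(WithLp.toLp p a : PiLp p (fun _ : ι => 𝕜))‖ := by
  rcases eq_or_ne p ∞ with rfl | hp
  · rw [PiLp.norm_eq_ciSup]
    refine Real.iSup_le (fun i => ?_) (norm_nonneg _)
    simp only
    split_ifs
    · exact PiLp.norm_apply_le (WithLp.toLp ∞ a : PiLp ∞ (fun _ : ι => 𝕜)) i
    · rw [norm_zero]; exact norm_nonneg _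
  · have hpos : 0 < p.toReal := ENNReal.toReal_pos (by
      intro h
      have := hp1.out
      rw [h] at this
      simp at this) hp
    rw [PiLp.norm_eq_sum hpos, PiLp.norm_eq_sum hpos]
    refine Real.rpow_le_rpow (Finset.sum_nonneg fun i _ => Real.rpow_nonneg (norm_nonneg _) _) ?_
      (by positivity)
    refine Finset.sum_le_sum fun i _ => ?_
    refine Real.rpow_le_rpow (norm_nonneg _) ?_ hpos.le
    simp only
    split_ifs
    · exact le_rfl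
    · rw [norm_zero]; exact norm_nonneg _

/-- Sum of the squares of the right-hand sides. -/
theorem sum_norm_Fv (r : ℕ) (hr : 0 < r) (A : Finset (JJ r)) (hA : A.card = 2 ^ r) :
    (2 : ℝ) ^ r / (8 * r ^ 2) ≤ ∑ i', ‖(WithLp.toLp 2 (Fv 𝕜 r A i') : PiLp 2 (fun _ : Cube r => 𝕜))‖ ^ 2 := by
  refine (mixing r hr A hA).trans (le_of_eq ?_)
  refine Finset.sum_congr rfl fun i' _ => ?_
  rw [EuclideanSpace.norm_sq_eq]
  refine Finset.sum_congr rfl fun i _ => ?_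
  simp only [Fv]
  rw [RCLike.norm_ofReal, sq_abs]

/-- Bessel-type bound for the kernel vectors. -/
theorem sum_inner_vf_le (r : ℕ) (hr : 0 < r) (x : PiLp 2 (fun _ : JJ r => 𝕜)) (hx : ‖x‖ ≤ 1) :
    ∑ i', ‖inner 𝕜 x (WithLp.toLp 2 (vf 𝕜 r i') : PiLp 2 (fun _ : JJ r => 𝕜))‖ ^ 2 ≤ 2 ^ 2 := by
  classical
  let L : PiLp 2 (fun _ : Cube r => 𝕜) →L[𝕜] PiLp 2 (fun _ : JJ r => 𝕜) := vL 2 𝕜 r
  have hL : ∀ i', WithLp.toLp 2 (vf 𝕜 r i') = L (PiLp.single 2 i' 1) := by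
    intro i'
    change _ = vL 2 𝕜 r _
    rw [vL_eq]
    congr 1
    rw [Finset.sum_eq_single i']
    · simp
    · intro b _ hb
      simp [hb]
    · intro h
      exact absurd (Finset.mem_univ _) h
  let w : PiLp 2 (fun _ : Cube r => 𝕜) := L.adjoint x
  have h1 : ∀ i', ‖inner 𝕜 x (WithLp.toLp 2 (vf 𝕜 r i') : PiLp 2 (fun _ : JJ r => 𝕜))‖ = ‖w i'‖ := by
    intro i'
    rw [hL, ← ContinuousLinearMap.adjoint_inner_left]
    change ‖inner 𝕜 w (EuclideanSpace.single i' (1 : 𝕜))‖ = _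
    rw [EuclideanSpace.inner_single_right]
    simp
  simp only [h1]
  rw [← EuclideanSpace.norm_sq_eq]
  have h2 : ‖w‖ ≤ 2 := by
    calc ‖w‖ ≤ ‖L.adjoint‖ * ‖x‖ := ContinuousLinearMap.le_opNorm _ _
      _ ≤ 2 * 1 := by
          gcongr
          rw [LinearIsometryEquiv.norm_map]
          exact norm_vL_le 2 r hr
      _ = 2 := by norm_num
  exact pow_le_pow_left₀ (norm_nonneg _) h2 2

/-- Existence of the block in `ℓ_2 ⊕ ℓ_∞`. -/
theorem two_infty_block (K : ℝ) : ∃ (r N : ℕ) (Z : (JJ r → 𝕜) →ₗ[𝕜] PiLp ∞ (fun _ : Fin N => 𝕜)),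
    (∀ j, bvec r (toLpL 𝕜 2 (Cube r)) Z j ≠ 0) ∧
    (∀ (a : JJ r → 𝕜) (s : Finset (JJ r)), ‖∑ j ∈ s, a j • bvec r (toLpL 𝕜 2 (Cube r)) Z j‖ ≤
      4 * ‖∑ j, a j • bvec r (toLpL 𝕜 2 (Cube r)) Z j‖) ∧
    (∀ A : Finset (JJ r), A.card = 2 ^ r →
      ∀ T : PiLp 2 (fun _ : Cube r => 𝕜) × PiLp ∞ (fun _ : Fin N => 𝕜) →L[𝕜]
        PiLp 2 (fun _ : Cube r => 𝕜) × PiLp ∞ (fun _ : Fin N => 𝕜),
      (∀ j, T (bvec r (toLpL 𝕜 2 (Cube r)) Z j) =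
        if j ∈ A then bvec r (toLpL 𝕜 2 (Cube r)) Z j else 0) → K < ‖T‖) := by
  classical
  -- choice of r
  obtain ⟨r, hr, hrK⟩ : ∃ r : ℕ, 0 < r ∧ (18 / 5 * K) ^ 2 < (2 : ℝ) ^ r / (8 * r ^ 2) := by
    have h1 : Tendsto (fun r : ℕ => (r : ℝ) ^ 2 / (2 : ℝ) ^ r) atTop (𝓝 0) :=
      tendsto_pow_const_div_const_pow_of_one_lt 2 (by norm_num)
    have hε : 0 < 1 / (8 * ((18 / 5 * K) ^ 2 + 1)) := by positivity
    have h2 := (h1.eventually (gt_mem_nhds hε)).and (eventually_gt_atTop 0)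
    obtain ⟨r, hr1, hr2⟩ := h2.exists
    refine ⟨r, hr2, ?_⟩
    have hr' : (0 : ℝ) < r := by exact_mod_cast hr2
    rw [div_lt_div_iff₀ (by positivity) (by positivity)] at hr1
    rw [lt_div_iff₀ (by positivity)]
    nlinarith [sq_nonneg (18 / 5 * K), pow_pos hr' 2]
  obtain ⟨N, x, hx1, hx2⟩ := exists_net (𝕜 := 𝕜) (JJ r)
  let Z : (JJ r → 𝕜) →ₗ[𝕜] PiLp ∞ (fun _ : Fin N => 𝕜) :=
    { toFun := fun a => WithLp.toLp ∞ fun t => inner 𝕜 (x t) (WithLp.toLp 2 a : PiLp 2 (fun _ : JJ r => 𝕜))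
      map_add' := fun a b => by
        ext t
        change inner 𝕜 (x t) (WithLp.toLp 2 (a + b)) = inner 𝕜 (x t) (WithLp.toLp 2 a) +
          inner 𝕜 (x t) (WithLp.toLp 2 b)
        rw [← inner_add_right]
        rfl
      map_smul' := fun c a => by
        ext t
        change inner 𝕜 (x t) (WithLp.toLp 2 (c • a)) = c * inner 𝕜 (x t) (WithLp.toLp 2 a)
        rw [← inner_smul_right]
        rfl }
  have hZ : ∀ a t, Z a t = inner 𝕜 (x t) (WithLp.toLp 2 a : PiLp 2 (fun _ : JJ r => 𝕜)) :=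
    fun a t => rfl
  have hZle : ∀ a, ‖Z a‖ ≤ ‖(WithLp.toLp 2 a : PiLp 2 (fun _ : JJ r => 𝕜))‖ := by
    intro a
    rw [PiLp.norm_eq_ciSup]
    refine Real.iSup_le (fun t => ?_) (norm_nonneg _)
    rw [hZ]
    refine (norm_inner_le_norm _ _).trans ?_
    calc ‖x t‖ * ‖(WithLp.toLp 2 a : PiLp 2 (fun _ : JJ r => 𝕜))‖
        ≤ 1 * ‖(WithLp.toLp 2 a : PiLp 2 (fun _ : JJ r => 𝕜))‖ := by
          gcongr
          exact hx1 t
      _ = _ := one_mul _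
  have hZge : ∀ a, 1 / 2 * ‖(WithLp.toLp 2 a : PiLp 2 (fun _ : JJ r => 𝕜))‖ ≤ ‖Z a‖ := by
    intro a
    rcases eq_or_ne (WithLp.toLp 2 a : PiLp 2 (fun _ : JJ r => 𝕜)) 0 with h0 | h0
    · rw [h0, norm_zero, mul_zero]; exact norm_nonneg _
    · obtain ⟨t, ht⟩ := hx2 _ h0
      refine ht.trans ?_
      rw [← hZ]
      exact PiLp.norm_apply_le (Z a) t
  set U := toLpL 𝕜 2 (Cube r) with hU
  have hPle : ∀ a : JJ r → 𝕜, ‖U (Pf 𝕜 r a)‖ ≤ 2 * ‖(WithLp.toLp 2 a : PiLp 2 (fun _ : JJ r => 𝕜))‖ := by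
    intro a
    rw [hU, toLpL_apply, ← PL_eq]
    refine (ContinuousLinearMap.le_opNorm _ _).trans ?_
    gcongr
    exact norm_PL_le 2 r hr
  have hup : ∀ (a : JJ r → 𝕜) (s : Finset (JJ r)), ‖∑ j ∈ s, a j • bvec r U Z j‖ ≤
      2 * ‖(WithLp.toLp 2 a : PiLp 2 (fun _ : JJ r => 𝕜))‖ := by
    intro a s
    rw [sum_bvec_finset, Prod.norm_def]
    have h1 := norm_restrict_set_le 2 a s
    refine max_le ?_ ?_
    · refine (hPle _).trans ?_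
      gcongr
    · refine (hZle _).trans ?_
      have := norm_nonneg (WithLp.toLp 2 a : PiLp 2 (fun _ : JJ r => 𝕜))
      linarith
  have hlow : ∀ (a : JJ r → 𝕜), 1 / 2 * ‖(WithLp.toLp 2 a : PiLp 2 (fun _ : JJ r => 𝕜))‖ ≤
      ‖∑ j, a j • bvec r U Z j‖ := by
    intro a
    rw [sum_bvec]
    exact (hZge a).trans (norm_snd_le (U (Pf 𝕜 r a), Z a))
  refine ⟨r, N, Z, ?_, ?_, ?_⟩
  · intro j h0
    have h1 := hlow (Pi.single j 1)
    have h2 : ∑ j', (Pi.single j 1 : JJ r → 𝕜) j' • bvec r U Z j' = bvec r U Z j := by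
      rw [Finset.sum_eq_single j]
      · simp
      · intro b _ hb
        simp [hb]
      · intro h
        exact absurd (Finset.mem_univ _) h
    rw [h2, h0, norm_zero] at h1
    have h3 : ‖(WithLp.toLp 2 (Pi.single j (1 : 𝕜)) : PiLp 2 (fun _ : JJ r => 𝕜))‖ = 1 := by
      have := PiLp.norm_single (p := 2) (β := fun _ : JJ r => 𝕜) j (1 : 𝕜)
      rw [norm_one] at this
      exact this
    rw [h3] at h1
    norm_num at h1
  · intro a s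
    calc ‖∑ j ∈ s, a j • bvec r U Z j‖ ≤ 2 * ‖(WithLp.toLp 2 a : PiLp 2 (fun _ : JJ r => 𝕜))‖ := hup a s
      _ = 4 * (1 / 2 * ‖(WithLp.toLp 2 a : PiLp 2 (fun _ : JJ r => 𝕜))‖) := by ring
      _ ≤ 4 * ‖∑ j, a j • bvec r U Z j‖ := by
          gcongr
          exact hlow a
  · intro A hA T hT
    have hkey := key_relation r U Z A T hT
    let R : PiLp ∞ (fun _ : Fin N => 𝕜) →L[𝕜] PiLp 2 (fun _ : Cube r => 𝕜) :=
      (ContinuousLinearMap.fst 𝕜 _ _).comp (T.comp (ContinuousLinearMap.inr 𝕜 _ _))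
    have hR : ∀ z, R z = (T (0, z)).1 := fun z => rfl
    have hRn : ‖R‖ ≤ ‖T‖ := by
      refine ContinuousLinearMap.opNorm_le_bound _ (norm_nonneg _) fun z => ?_
      rw [hR]
      calc ‖(T (0, z)).1‖ ≤ ‖T (0, z)‖ := norm_fst_le _
        _ ≤ ‖T‖ * ‖((0 : PiLp 2 (fun _ : Cube r => 𝕜)), z)‖ := T.le_opNorm _
        _ = ‖T‖ * ‖z‖ := by rw [Prod.norm_def]; simp
    have h1 : (2 : ℝ) ^ r / (8 * r ^ 2) ≤ ∑ i', ‖R (Z (vf 𝕜 r i'))‖ ^ 2 := by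
      refine (sum_norm_Fv (𝕜 := 𝕜) r hr A hA).trans (le_of_eq ?_)
      refine Finset.sum_congr rfl fun i' _ => ?_
      rw [hR, hkey]
      rfl
    have h2 := little_grothendieck R (fun i' => Z (vf 𝕜 r i')) 2 (by norm_num) (fun t =>
      sum_inner_vf_le r hr (x t) (hx1 t))
    by_contra hle
    push Not at hle
    have hT0 : 0 ≤ ‖R‖ := norm_nonneg _
    have h3 : 9 / 5 * 2 * ‖R‖ ≤ 18 / 5 * K := by linarith
    have h4 : (9 / 5 * 2 * ‖R‖) ^ 2 ≤ (18 / 5 * K) ^ 2 := pow_le_pow_left₀ (by positivity) h3 2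
    linarith

variable {E : Type*} [NormedAddCommGroup E] [NormedSpace 𝕜 E]

theorem IsBasis.exists_proj' [CompleteSpace E] {e : ℕ → E} (he : IsBasis 𝕜 e) :
    ∃ (P : ℕ → E →L[𝕜] E) (CP : ℝ), (∀ n, ‖P n‖ ≤ CP) ∧
      (∀ n m v, P n (P m v) = P (min n m) v) ∧
      (∀ v, Tendsto (fun n => P n v) atTop (𝓝 v)) ∧
      (∀ n, ∃ V : Submodule 𝕜 E, FiniteDimensional 𝕜 V ∧ ∀ v, P n v ∈ V) := by
  obtain ⟨P, CP, hCP0, hPC, -, hPt, hPf, hPP⟩ := he.exists_proj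
  refine ⟨P, CP, hPC, hPP, hPt, fun n => ?_⟩
  refine ⟨Submodule.span 𝕜 (e '' (Finset.range n : Set ℕ)), ?_, fun v => ?_⟩
  · exact FiniteDimensional.span_of_finite 𝕜 ((Finset.finite_toSet _).image _)
  · obtain ⟨a, ha⟩ := hPf n v
    rw [ha]
    exact Submodule.sum_mem _ fun i hi =>
      Submodule.smul_mem _ _ (Submodule.subset_span ⟨i, hi, rfl⟩)

theorem card_JJ (r : ℕ) : Fintype.card (JJ r) = 2 * 2 ^ r := by
  simp [JJ, two_mul]

theorem propNP_of_two_infty [CompleteSpace E] (hE : ∃ e : ℕ → E, IsBasis 𝕜 e)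
    (h2 : UnifCompl 𝕜 E 2) (hinf : UnifCompl 𝕜 E ∞) : PropNP 𝕜 E := by
  classical
  obtain ⟨e, he⟩ := hE
  obtain ⟨P, CP, hPC, hPP, hPt, hPf⟩ := he.exists_proj'
  obtain ⟨C2, hC20, hC2⟩ := h2.tailEmb P CP hPC hPP hPt hPf
  obtain ⟨C3, hC30, hC3⟩ := hinf.tailEmb P CP hPC hPP hPt hPf
  set C := 2 * max C2 C3 with hC
  have hC0 : 0 ≤ C := by positivity
  refine propNP_of_blocks P CP hPC hPP (C ^ 2 * 4) fun K k => ?_
  obtain ⟨r, N, Z, hb0, hb, hbT⟩ := two_infty_block (𝕜 := 𝕜) (C ^ 2 * K)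
  have hemb : TailEmb P C (PiLp 2 (fun _ : Cube r => 𝕜) × PiLp ∞ (fun _ : Fin N => 𝕜)) :=
    ((hC2 (Cube r)).mono (le_max_left _ _)).prod hPP ((hC3 (Fin N)).mono (le_max_right _ _))
  obtain ⟨l, i, q, hkl, hqi, hPl, hPk, -, -, hi, hq⟩ := hemb k
  exact block_transfer P 4 C K k l hkl i q hqi hPl hPk hi hq (2 ^ r) (by positivity)
    (Fintype.equivFinOfCardEq (card_JJ r)) (bvec r (toLpL 𝕜 2 (Cube r)) Z) hb0 hb hbT

end Pool.Agent.H14.NP
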