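import Pool.Agent.H14.NP.KhinUp
import Pool.Agent.H14.NP.Tail

/-!
# Uniformly complemented `ℓ_p^n`'s give uniformly complemented `ℓ_2^n`'s, `1 < p < ∞`
-/

open Filter Topology
open scoped ENNReal

namespace Pool.Agent.H14.NP

variable {𝕜 : Type*} [RCLike 𝕜] {E : Type*} [NormedAddCommGroup E] [NormedSpace 𝕜 E]

variable {p : ℝ≥0∞} [hp1 : Fact (1 ≤ p)]

theorem UnifCompl.fintype (h : UnifCompl 𝕜 E p) :
    ∃ C : ℝ, 0 ≤ C ∧ ∀ (ι : Type) [Fintype ι], ∃ (i : PiLp p (fun _ : ι => 𝕜) →L[𝕜] E)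
      (q : E →L[𝕜] PiLp p (fun _ : ι => 𝕜)), (∀ x, q (i x) = x) ∧ ‖i‖ ≤ C ∧ ‖q‖ ≤ 1 := by
  obtain ⟨C, hC0, hC⟩ := h.normalize
  refine ⟨C, hC0, fun ι _ => ?_⟩
  obtain ⟨i, q, hqi, hi, hq⟩ := hC (Fintype.card ι)
  let R : PiLp p (fun _ : ι => 𝕜) ≃ₗᵢ[𝕜] PiLp p (fun _ : Fin (Fintype.card ι) => 𝕜) :=
    LinearIsometryEquiv.piLpCongrLeft p 𝕜 𝕜 (Fintype.equivFin ι)
  refine ⟨i.comp (R.toContinuousLinearEquiv : PiLp p (fun _ : ι => 𝕜) →L[𝕜] _),
    (R.symm.toContinuousLinearEquiv : _ →L[𝕜] PiLp p (fun _ : ι => 𝕜)).comp q, ?_, ?_, ?_⟩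
  · intro x
    change R.symm (q (i (R x))) = x
    rw [hqi, R.symm_apply_apply]
  · refine ContinuousLinearMap.opNorm_le_bound _ hC0 fun x => ?_
    change ‖i (R x)‖ ≤ C * ‖x‖
    calc ‖i (R x)‖ ≤ ‖i‖ * ‖R x‖ := i.le_opNorm _
      _ ≤ C * ‖x‖ := by
          rw [R.norm_map]
          gcongr
  · refine ContinuousLinearMap.opNorm_le_bound _ zero_le_one fun x => ?_
    change ‖R.symm (q x)‖ ≤ 1 * ‖x‖
    rw [R.symm.norm_map]
    exact (q.le_opNorm _).trans (by gcongr)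

/-- The Rademacher embedding of `ℓ_2^n` into `ℓ_p^{2^n}` and its left inverse. -/
theorem exists_rademacher (h1 : 1 < p) (htop : p ≠ ∞) (n : ℕ) :
    ∃ (i : PiLp 2 (fun _ : Fin n => 𝕜) →L[𝕜] PiLp p (fun _ : Fin n → Bool => 𝕜))
      (q : PiLp p (fun _ : Fin n → Bool => 𝕜) →L[𝕜] PiLp 2 (fun _ : Fin n => 𝕜)),
      (∀ x, q (i x) = x) ∧ ‖i‖ ≤ kc p.toReal ^ (1 / p.toReal) ∧
      ‖q‖ ≤ kc (Real.conjExponent p.toReal) ^ (1 / Real.conjExponent p.toReal) := by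
  classical
  set s := p.toReal with hs
  have hs1 : 1 < s := by
    rw [hs, ← ENNReal.toReal_one]
    exact (ENNReal.toReal_lt_toReal ENNReal.one_ne_top htop).2 h1
  have hs0 : 0 < s := zero_lt_one.trans hs1
  set s' := Real.conjExponent s with hs'
  have hconj : s.HolderConjugate s' := Real.HolderConjugate.conjExponent hs1
  have hs'0 : 0 < s' := hconj.symm.pos
  have hsum : 1 / s + 1 / s' = 1 := by
    have := hconj.inv_add_inv_eq_one
    rw [one_div, one_div]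
    exact this
  set D : ℝ := 2 ^ n with hD
  have hD0 : 0 < D := by positivity
  have hcard : (2 : ℝ) ^ Fintype.card (Fin n) = D := by rw [Fintype.card_fin]
  set c : ℝ := D ^ (-(1 / s)) with hc
  set c' : ℝ := D ^ (-(1 / s')) with hc'
  have hc0 : 0 < c := Real.rpow_pos_of_pos hD0 _
  have hc'0 : 0 < c' := Real.rpow_pos_of_pos hD0 _
  have hcc : c * c' * D = 1 := by
    rw [hc, hc', ← Real.rpow_add hD0]
    have : -(1 / s) + -(1 / s') = -1 := by linarith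
    rw [this, Real.rpow_neg_one, inv_mul_cancel₀ hD0.ne']
  have hcs : c ^ s * D = 1 := by
    rw [hc, ← Real.rpow_mul hD0.le]
    have : -(1 / s) * s = -1 := by field_simp
    rw [this, Real.rpow_neg_one, inv_mul_cancel₀ hD0.ne']
  have hcs' : c' ^ s' * D = 1 := by
    rw [hc', ← Real.rpow_mul hD0.le]
    have : -(1 / s') * s' = -1 := by field_simp
    rw [this, Real.rpow_neg_one, inv_mul_cancel₀ hD0.ne']
  -- moments
  have hmom : ∀ (t d : ℝ), 0 < t → 0 < d → d ^ t * D = 1 → ∀ a : Fin n → 𝕜,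
      (∑ u : Fin n → Bool, (d * ‖∑ j, (sg (u j) : 𝕜) * a j‖) ^ t) ^ (1 / t) ≤
        kc t ^ (1 / t) * Real.sqrt (∑ j, ‖a j‖ ^ 2) := by
    intro t d ht hd hdt a
    have h2 := khintchine_upper ht a
    rw [hcard] at h2
    have h3 : ∑ u : Fin n → Bool, (d * ‖∑ j, (sg (u j) : 𝕜) * a j‖) ^ t ≤
        kc t * (Real.sqrt (∑ j, ‖a j‖ ^ 2)) ^ t := by
      calc ∑ u : Fin n → Bool, (d * ‖∑ j, (sg (u j) : 𝕜) * a j‖) ^ t
          = d ^ t * ∑ u : Fin n → Bool, ‖∑ j, (sg (u j) : 𝕜) * a j‖ ^ t := by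
            rw [Finset.mul_sum]
            exact Finset.sum_congr rfl fun u _ => Real.mul_rpow hd.le (norm_nonneg _)
        _ ≤ d ^ t * (D * kc t * (Real.sqrt (∑ j, ‖a j‖ ^ 2)) ^ t) := by gcongr
        _ = (d ^ t * D) * (kc t * (Real.sqrt (∑ j, ‖a j‖ ^ 2)) ^ t) := by ring
        _ = _ := by rw [hdt, one_mul]
    calc _ ≤ (kc t * (Real.sqrt (∑ j, ‖a j‖ ^ 2)) ^ t) ^ (1 / t) :=
          Real.rpow_le_rpow (Finset.sum_nonneg fun u _ => Real.rpow_nonneg (by positivity) _) h3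
            (by positivity)
      _ = kc t ^ (1 / t) * ((Real.sqrt (∑ j, ‖a j‖ ^ 2)) ^ t) ^ (1 / t) :=
          Real.mul_rpow (kc_pos t).le (Real.rpow_nonneg (Real.sqrt_nonneg _) _)
      _ = _ := by
          rw [← Real.rpow_mul (Real.sqrt_nonneg _), mul_one_div_cancel ht.ne', Real.rpow_one]
  let i0 : PiLp 2 (fun _ : Fin n => 𝕜) →ₗ[𝕜] PiLp p (fun _ : Fin n → Bool => 𝕜) :=
    { toFun := fun a => WithLp.toLp p fun u => (c : 𝕜) * ∑ j, (sg (u j) : 𝕜) * a j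
      map_add' := fun a b => by
        ext u
        change (c : 𝕜) * ∑ j, (sg (u j) : 𝕜) * (a + b) j = (c : 𝕜) * ∑ j, (sg (u j) : 𝕜) * a j +
          (c : 𝕜) * ∑ j, (sg (u j) : 𝕜) * b j
        rw [← mul_add, ← Finset.sum_add_distrib]
        congr 1
        exact Finset.sum_congr rfl fun j _ => by rw [PiLp.add_apply]; ring
      map_smul' := fun z a => by
        ext u
        change (c : 𝕜) * ∑ j, (sg (u j) : 𝕜) * (z • a) j = z * ((c : 𝕜) * ∑ j, (sg (u j) : 𝕜) * a j)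
        rw [mul_left_comm z, Finset.mul_sum (a := z)]
        congr 1
        exact Finset.sum_congr rfl fun j _ => by rw [PiLp.smul_apply, smul_eq_mul]; ring }
  let q0 : PiLp p (fun _ : Fin n → Bool => 𝕜) →ₗ[𝕜] PiLp 2 (fun _ : Fin n => 𝕜) :=
    { toFun := fun f => WithLp.toLp 2 fun j => (c' : 𝕜) * ∑ u : Fin n → Bool, (sg (u j) : 𝕜) * f u
      map_add' := fun a b => by
        ext j
        change (c' : 𝕜) * ∑ u : Fin n → Bool, (sg (u j) : 𝕜) * (a + b) u =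
          (c' : 𝕜) * ∑ u : Fin n → Bool, (sg (u j) : 𝕜) * a u +
          (c' : 𝕜) * ∑ u : Fin n → Bool, (sg (u j) : 𝕜) * b u
        rw [← mul_add, ← Finset.sum_add_distrib]
        congr 1
        exact Finset.sum_congr rfl fun j _ => by rw [PiLp.add_apply]; ring
      map_smul' := fun z a => by
        ext j
        change (c' : 𝕜) * ∑ u : Fin n → Bool, (sg (u j) : 𝕜) * (z • a) u =
          z * ((c' : 𝕜) * ∑ u : Fin n → Bool, (sg (u j) : 𝕜) * a u)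
        rw [mul_left_comm z, Finset.mul_sum (a := z)]
        congr 1
        exact Finset.sum_congr rfl fun j _ => by rw [PiLp.smul_apply, smul_eq_mul]; ring }
  have hi0 : ∀ a u, i0 a u = (c : 𝕜) * ∑ j, (sg (u j) : 𝕜) * a j := fun a u => rfl
  have hq0 : ∀ f j, q0 f j = (c' : 𝕜) * ∑ u : Fin n → Bool, (sg (u j) : 𝕜) * f u := fun f j => rfl
  have hi : ∀ a, ‖i0 a‖ ≤ kc s ^ (1 / s) * ‖a‖ := by
    intro a
    rw [PiLp.norm_eq_sum hs0, EuclideanSpace.norm_eq]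
    refine le_trans (le_of_eq ?_) (hmom s c hs0 hc0 hcs a)
    congr 1
    refine Finset.sum_congr rfl fun u _ => ?_
    rw [hi0, norm_mul, RCLike.norm_ofReal, abs_of_pos hc0]
  have hq : ∀ f, ‖q0 f‖ ≤ kc s' ^ (1 / s') * ‖f‖ := by
    intro f
    set b := q0 f with hb
    -- pairing
    have e1 : ((∑ j, ‖b j‖ ^ 2 : ℝ) : 𝕜) =
        ∑ u : Fin n → Bool, f u * ((c' : 𝕜) * ∑ j, (sg (u j) : 𝕜) * (starRingEnd 𝕜) (b j)) := by
      have e2 : ∀ j, ((‖b j‖ ^ 2 : ℝ) : 𝕜) =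
          ∑ u : Fin n → Bool, f u * ((c' : 𝕜) * ((sg (u j) : 𝕜) * (starRingEnd 𝕜) (b j))) := by
        intro j
        rw [RCLike.ofReal_pow, ← RCLike.mul_conj, hb, hq0, Finset.mul_sum, Finset.sum_mul]
        exact Finset.sum_congr rfl fun u _ => by ring
      rw [RCLike.ofReal_sum, Finset.sum_congr rfl fun j _ => e2 j, Finset.sum_comm]
      refine Finset.sum_congr rfl fun u _ => ?_
      rw [← Finset.mul_sum, ← Finset.mul_sum]
    have e3 : (∑ j, ‖b j‖ ^ 2 : ℝ) ≤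
        ∑ u : Fin n → Bool, ‖f u‖ * (c' * ‖∑ j, (sg (u j) : 𝕜) * (starRingEnd 𝕜) (b j)‖) := by
      have e4 : ‖((∑ j, ‖b j‖ ^ 2 : ℝ) : 𝕜)‖ = ∑ j, ‖b j‖ ^ 2 := by
        rw [RCLike.norm_ofReal]
        exact abs_of_nonneg (Finset.sum_nonneg fun _ _ => by positivity)
      rw [← e4, e1]
      refine (norm_sum_le _ _).trans (le_of_eq ?_)
      refine Finset.sum_congr rfl fun u _ => ?_
      rw [norm_mul, norm_mul, RCLike.norm_ofReal, abs_of_pos hc'0]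
    have e5 := Real.inner_le_Lp_mul_Lq Finset.univ (fun u : Fin n → Bool => ‖f u‖)
      (fun u => c' * ‖∑ j, (sg (u j) : 𝕜) * (starRingEnd 𝕜) (b j)‖) hconj
    have e6 := hmom s' c' hs'0 hc'0 hcs' (fun j => (starRingEnd 𝕜) (b j))
    simp only [RCLike.norm_conj] at e6
    have e7 : (∑ u : Fin n → Bool, |‖f u‖| ^ s) ^ (1 / s) = ‖f‖ := by
      rw [PiLp.norm_eq_sum hs0]
      congr 1
      exact Finset.sum_congr rfl fun u _ => by rw [abs_norm]
    have e8 : (∑ u : Fin n → Bool, |c' * ‖∑ j, (sg (u j) : 𝕜) * (starRingEnd 𝕜) (b j)‖| ^ s') ^ (1 / s')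
        ≤ kc s' ^ (1 / s') * ‖b‖ := by
      rw [EuclideanSpace.norm_eq]
      refine le_trans (le_of_eq ?_) e6
      congr 1
      exact Finset.sum_congr rfl fun u _ => by rw [abs_of_nonneg (by positivity)]
    rw [e7] at e5
    have e9 : ‖b‖ ^ 2 ≤ ‖f‖ * (kc s' ^ (1 / s') * ‖b‖) := by
      rw [EuclideanSpace.norm_sq_eq]
      exact e3.trans (e5.trans (mul_le_mul_of_nonneg_left e8 (norm_nonneg _)))
    rcases eq_or_lt_of_le (norm_nonneg b) with h0 | hpos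
    · rw [← h0]
      have := kc_pos s'
      positivity
    · have : ‖b‖ * ‖b‖ ≤ (kc s' ^ (1 / s') * ‖f‖) * ‖b‖ := by
        calc ‖b‖ * ‖b‖ = ‖b‖ ^ 2 := by ring
          _ ≤ _ := e9
          _ = _ := by ring
      exact le_of_mul_le_mul_right this hpos
  have hk : ∀ t : ℝ, 0 ≤ kc t ^ (1 / t) := fun t => Real.rpow_nonneg (kc_pos t).le _
  refine ⟨i0.mkContinuous _ hi, q0.mkContinuous _ hq, ?_, LinearMap.mkContinuous_norm_le _ (hk s) _,
    LinearMap.mkContinuous_norm_le _ (hk s') _⟩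
  intro a
  ext j
  change q0 (i0 a) j = a j
  rw [hq0]
  simp only [hi0]
  have e1 : ∑ u : Fin n → Bool, (sg (u j) : 𝕜) * ((c : 𝕜) * ∑ k, (sg (u k) : 𝕜) * a k) =
      (c : 𝕜) * ∑ k, (∑ u : Fin n → Bool, sg (u j) * sg (u k) : ℝ) * a k := by
    rw [Finset.mul_sum]
    have : ∀ u : Fin n → Bool, (sg (u j) : 𝕜) * ((c : 𝕜) * ∑ k, (sg (u k) : 𝕜) * a k) =
        ∑ k, (c : 𝕜) * ((sg (u j) * sg (u k) : ℝ) * a k) := by
      intro u
      rw [Finset.mul_sum, Finset.mul_sum]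
      refine Finset.sum_congr rfl fun k _ => ?_
      push_cast
      ring
    rw [Finset.sum_congr rfl fun u _ => this u, Finset.sum_comm]
    refine Finset.sum_congr rfl fun k _ => ?_
    rw [RCLike.ofReal_sum, Finset.sum_mul, Finset.mul_sum]
  rw [e1]
  have e2 : ∀ k, (∑ u : Fin n → Bool, sg (u j) * sg (u k) : ℝ) = if k = j then D else 0 := by
    intro k
    split_ifs with hk
    · subst hk
      simp only [sg_mul_self, Finset.sum_const, Finset.card_univ, nsmul_eq_mul, mul_one]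
      simp [hD]
    · exact sum_sg_mul_sg (fun h => hk h.symm)
  have e3 : ∑ k, ((∑ u : Fin n → Bool, sg (u j) * sg (u k) : ℝ) : 𝕜) * a k = (D : 𝕜) * a j := by
    rw [Finset.sum_eq_single j]
    · rw [e2, if_pos rfl]
    · intro k _ hk
      rw [e2, if_neg hk]
      simp
    · intro h
      exact absurd (Finset.mem_univ _) h
  rw [e3]
  have e4 : (c' : 𝕜) * ((c : 𝕜) * ((D : 𝕜) * a j)) = ((c * c' * D : ℝ) : 𝕜) * a j := by
    push_cast
    ring
  rw [e4, hcc]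
  simp

theorem UnifCompl.two (h1 : 1 < p) (htop : p ≠ ∞) (h : UnifCompl 𝕜 E p) : UnifCompl 𝕜 E 2 := by
  obtain ⟨C, hC0, hC⟩ := h.fintype
  refine ⟨C * kc p.toReal ^ (1 / p.toReal) *
    kc (Real.conjExponent p.toReal) ^ (1 / Real.conjExponent p.toReal), fun n => ?_⟩
  obtain ⟨i0, q0, hqi0, hi0, hq0⟩ := exists_rademacher (𝕜 := 𝕜) h1 htop n
  obtain ⟨i, q, hqi, hi, hq⟩ := hC (Fin n → Bool)
  refine ⟨i.comp i0, q0.comp q, fun x => ?_, ?_⟩
  · change q0 (q (i (i0 x))) = x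
    rw [hqi, hqi0]
  · have e1 : ‖i.comp i0‖ ≤ C * kc p.toReal ^ (1 / p.toReal) :=
      (ContinuousLinearMap.opNorm_comp_le _ _).trans (mul_le_mul hi hi0 (norm_nonneg _) hC0)
    have e2 : ‖q0.comp q‖ ≤ kc (Real.conjExponent p.toReal) ^ (1 / Real.conjExponent p.toReal) := by
      refine (ContinuousLinearMap.opNorm_comp_le _ _).trans ?_
      calc ‖q0‖ * ‖q‖ ≤ _ * 1 := mul_le_mul hq0 hq (norm_nonneg _)
            (Real.rpow_nonneg (kc_pos _).le _)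
        _ = _ := mul_one _
    have e3 : 0 ≤ C * kc p.toReal ^ (1 / p.toReal) := (norm_nonneg _).trans e1
    exact mul_le_mul e1 e2 (norm_nonneg _) e3

end Pool.Agent.H14.NP
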