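import Pool.Agent.H14.NP.Rand2
import Pool.Agent.H14.NP.UnifTwo
import Pool.Agent.H14.NP.TwoInfty

/-!
# Spaces with uniformly complemented `ℓ_p^n`'s, `1 < p < 2`, have (NP)
-/

open Filter Topology
open scoped ENNReal

namespace Pool.Agent.H14.NP

variable {𝕜 : Type*} [RCLike 𝕜]

/-- Scalar Bessel-type estimate by duality. -/
theorem bessel_dual {T K : Type*} [Fintype T] [Fintype K] (W : K → T → 𝕜) (B : ℝ) (hB : 0 ≤ B)
    (hW : ∀ c : K → 𝕜, ∑ t, ‖∑ k, c k * W k t‖ ^ 2 ≤ B * ∑ k, ‖c k‖ ^ 2) (y : T → 𝕜) :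
    ∑ k, ‖∑ t, W k t * y t‖ ^ 2 ≤ B * ∑ t, ‖y t‖ ^ 2 := by
  set c : K → 𝕜 := fun k => (starRingEnd 𝕜) (∑ t, W k t * y t) with hc
  have hcn : ∀ k, ‖c k‖ = ‖∑ t, W k t * y t‖ := fun k => by rw [hc]; exact RCLike.norm_conj _
  set S := ∑ k, ‖∑ t, W k t * y t‖ ^ 2 with hS
  set Y := ∑ t, ‖y t‖ ^ 2 with hY
  have hS0 : 0 ≤ S := Finset.sum_nonneg fun _ _ => by positivity
  have hY0 : 0 ≤ Y := Finset.sum_nonneg fun _ _ => by positivity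
  have e1 : ((S : ℝ) : 𝕜) = ∑ t, y t * ∑ k, c k * W k t := by
    have e2 : ∀ k, ((‖∑ t, W k t * y t‖ ^ 2 : ℝ) : 𝕜) = ∑ t, y t * (c k * W k t) := by
      intro k
      rw [RCLike.ofReal_pow, ← RCLike.mul_conj, Finset.sum_mul]
      exact Finset.sum_congr rfl fun t _ => by rw [hc]; ring
    rw [hS, RCLike.ofReal_sum, Finset.sum_congr rfl fun k _ => e2 k, Finset.sum_comm]
    exact Finset.sum_congr rfl fun t _ => by rw [Finset.mul_sum]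
  have e3 : S ≤ ∑ t, ‖y t‖ * ‖∑ k, c k * W k t‖ := by
    have e4 : ‖((S : ℝ) : 𝕜)‖ = S := by rw [RCLike.norm_ofReal]; exact abs_of_nonneg hS0
    rw [← e4, e1]
    refine (norm_sum_le _ _).trans (le_of_eq ?_)
    exact Finset.sum_congr rfl fun t _ => norm_mul _ _
  have e5 := Finset.sum_mul_sq_le_sq_mul_sq Finset.univ (fun t => ‖y t‖)
    (fun t => ‖∑ k, c k * W k t‖)
  have e6 : S ^ 2 ≤ Y * (B * S) := by
    have e7 : S ^ 2 ≤ (∑ t, ‖y t‖ * ‖∑ k, c k * W k t‖) ^ 2 := pow_le_pow_left₀ hS0 e3 2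
    refine e7.trans (e5.trans ?_)
    have e8 := hW c
    simp only [hcn] at e8
    exact mul_le_mul_of_nonneg_left e8 hY0
  rcases hS0.eq_or_lt with h0 | hpos
  · rw [← h0]; positivity
  · nlinarith [e6]

/-- Vector-valued version. -/
theorem bessel_dual_vec {T K ι : Type*} [Fintype T] [Fintype K] [Fintype ι] (W : K → T → 𝕜)
    (B : ℝ) (hB : 0 ≤ B)
    (hW : ∀ c : K → 𝕜, ∑ t, ‖∑ k, c k * W k t‖ ^ 2 ≤ B * ∑ k, ‖c k‖ ^ 2)
    (ρ : T → PiLp 2 (fun _ : ι => 𝕜)) (κ : ℝ) (hρ : ∀ t, ‖ρ t‖ ≤ κ) :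
    ∑ k, ‖∑ t, W k t • ρ t‖ ^ 2 ≤ B * (Fintype.card T * κ ^ 2) := by
  have e1 : ∀ k, ‖∑ t, W k t • ρ t‖ ^ 2 = ∑ i, ‖∑ t, W k t * ρ t i‖ ^ 2 := by
    intro k
    rw [EuclideanSpace.norm_sq_eq]
    refine Finset.sum_congr rfl fun i _ => ?_
    rw [WithLp.ofLp_sum, Finset.sum_apply]
    rfl
  rw [Finset.sum_congr rfl fun k _ => e1 k, Finset.sum_comm]
  calc ∑ i, ∑ k, ‖∑ t, W k t * ρ t i‖ ^ 2 ≤ ∑ i, B * ∑ t, ‖ρ t i‖ ^ 2 :=
        Finset.sum_le_sum fun i _ => bessel_dual W B hB hW fun t => ρ t i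
    _ = B * ∑ t, ‖ρ t‖ ^ 2 := by
        rw [← Finset.mul_sum, Finset.sum_comm]
        congr 1
        exact Finset.sum_congr rfl fun t _ => (EuclideanSpace.norm_sq_eq _).symm
    _ ≤ B * ∑ _t : T, κ ^ 2 := by
        gcongr with t _
        exact hρ t
    _ = B * (Fintype.card T * κ ^ 2) := by
        rw [Finset.sum_const, Finset.card_univ, nsmul_eq_mul]

/-- The action of a sign matrix on scalars in `𝕜`. -/
noncomputable def Xk (𝕜 : Type*) [RCLike 𝕜] {T ι : Type*} [Fintype ι] (M : T × ι → Bool)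
    (a : ι → 𝕜) (t : T) : 𝕜 := ∑ i, (sg (M (t, i)) : 𝕜) * a i

theorem re_Xk {T ι : Type*} [Fintype ι] (M : T × ι → Bool) (a : ι → 𝕜) (t : T) :
    RCLike.re (Xk 𝕜 M a t) = Xs M (fun i => RCLike.re (a i)) t := by
  unfold Xk Xs
  rw [map_sum]
  exact Finset.sum_congr rfl fun i _ => RCLike.re_ofReal_mul _ _

theorem im_Xk {T ι : Type*} [Fintype ι] (M : T × ι → Bool) (a : ι → 𝕜) (t : T) :
    RCLike.im (Xk 𝕜 M a t) = Xs M (fun i => RCLike.im (a i)) t := by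
  unfold Xk Xs
  rw [map_sum]
  exact Finset.sum_congr rfl fun i _ => RCLike.im_ofReal_mul _ _

theorem norm_sq_re_im (z : 𝕜) : ‖z‖ ^ 2 = RCLike.re z ^ 2 + RCLike.im z ^ 2 := by
  rw [RCLike.norm_sq_eq_def]; ring

theorem sum_norm_sq_re_im {ι : Type*} [Fintype ι] (a : ι → 𝕜) : ∑ i, ‖a i‖ ^ 2 =
    ∑ i, (RCLike.re (a i)) ^ 2 + ∑ i, (RCLike.im (a i)) ^ 2 := by
  rw [← Finset.sum_add_distrib]
  exact Finset.sum_congr rfl fun i _ => norm_sq_re_im _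

theorem sqrt_add_le' {x y : ℝ} (hx : 0 ≤ x) (hy : 0 ≤ y) :
    Real.sqrt (x + y) ≤ Real.sqrt x + Real.sqrt y := by
  rw [Real.sqrt_le_iff]
  refine ⟨by positivity, ?_⟩
  nlinarith [Real.sq_sqrt hx, Real.sq_sqrt hy, mul_nonneg (Real.sqrt_nonneg x) (Real.sqrt_nonneg y)]

/-- The good sign matrices for scalars in `𝕜`. -/
theorem exists_sign_matrix' (𝕜 : Type*) [RCLike 𝕜] (ι : Type) [Fintype ι] [DecidableEq ι]
    [Nonempty ι] : ∃ M : Fin (256 * Fintype.card ι) × ι → Bool,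
      (∀ (a : ι → 𝕜), ∑ t, ‖Xk 𝕜 M a t‖ ^ 2 ≤
        144 * (256 * Fintype.card ι) * ∑ i, ‖a i‖ ^ 2) ∧
      (∀ a : ι → 𝕜, (256 * Fintype.card ι : ℝ) / 64 * Real.sqrt (∑ i, ‖a i‖ ^ 2) ≤
        ∑ t, ‖Xk 𝕜 M a t‖) := by
  obtain ⟨M, hM1, hM2⟩ := exists_sign_matrix ι
  set N : ℝ := 256 * Fintype.card ι with hN
  have hN0 : 0 ≤ N := by positivity
  have hM1' : ∀ a : ι → ℝ, ∑ t, Xs M a t ^ 2 ≤ 144 * N * ∑ i, a i ^ 2 := by
    intro a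
    have h1 := hM1 a
    have h2 : 0 ≤ ∑ t, Xs M a t ^ 2 := Finset.sum_nonneg fun _ _ => sq_nonneg _
    have h3 : 0 ≤ ∑ i, a i ^ 2 := Finset.sum_nonneg fun _ _ => sq_nonneg _
    have h4 := pow_le_pow_left₀ (Real.sqrt_nonneg _) h1 2
    rw [Real.sq_sqrt h2, mul_pow, mul_pow, Real.sq_sqrt hN0, Real.sq_sqrt h3] at h4
    linarith
  refine ⟨M, fun a => ?_, fun a => ?_⟩
  · rw [sum_norm_sq_re_im, sum_norm_sq_re_im a]
    simp only [re_Xk, im_Xk]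
    have h1 := hM1' (fun i => RCLike.re (a i))
    have h2 := hM1' (fun i => RCLike.im (a i))
    linarith
  · have h1 := hM2 (fun i => RCLike.re (a i))
    have h2 := hM2 (fun i => RCLike.im (a i))
    have h3 : ∑ t, |Xs M (fun i => RCLike.re (a i)) t| ≤ ∑ t, ‖Xk 𝕜 M a t‖ :=
      Finset.sum_le_sum fun t _ => by rw [← re_Xk]; exact RCLike.abs_re_le_norm _
    have h4 : ∑ t, |Xs M (fun i => RCLike.im (a i)) t| ≤ ∑ t, ‖Xk 𝕜 M a t‖ :=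
      Finset.sum_le_sum fun t _ => by rw [← im_Xk]; exact RCLike.abs_im_le_norm _
    rw [sum_norm_sq_re_im]
    have h5 := sqrt_add_le' (x := ∑ i, (RCLike.re (a i)) ^ 2)
      (y := ∑ i, (RCLike.im (a i)) ^ 2) (Finset.sum_nonneg fun _ _ => sq_nonneg _)
      (Finset.sum_nonneg fun _ _ => sq_nonneg _)
    have h6 : N / 64 * Real.sqrt (∑ i, (RCLike.re (a i)) ^ 2 + ∑ i, (RCLike.im (a i)) ^ 2) ≤
        N / 64 * (Real.sqrt (∑ i, (RCLike.re (a i)) ^ 2) + Real.sqrt (∑ i, (RCLike.im (a i)) ^ 2)) := by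
      gcongr
    linarith

/-- Comparison of normalised means. -/
theorem mean_bounds {T : Type*} [Fintype T] [Nonempty T] {s : ℝ} (hs1 : 1 ≤ s) (hs2 : s ≤ 2)
    (x : T → ℝ) (hx : ∀ t, 0 ≤ x t) :
    (Fintype.card T : ℝ)⁻¹ * ∑ t, x t ≤ ((Fintype.card T : ℝ)⁻¹ * ∑ t, x t ^ s) ^ (1 / s) ∧
      ((Fintype.card T : ℝ)⁻¹ * ∑ t, x t ^ s) ^ (1 / s) ≤
        Real.sqrt ((Fintype.card T : ℝ)⁻¹ * ∑ t, x t ^ 2) := by
  have hs0 : 0 < s := by linarith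
  set N : ℝ := (Fintype.card T : ℝ) with hN
  have hNpos : 0 < N := by rw [hN]; exact_mod_cast Fintype.card_pos
  have hw : ∑ _t : T, N⁻¹ = 1 := by
    rw [Finset.sum_const, Finset.card_univ, nsmul_eq_mul, ← hN, mul_inv_cancel₀ hNpos.ne']
  have hSs : 0 ≤ N⁻¹ * ∑ t, x t ^ s :=
    mul_nonneg (by positivity) (Finset.sum_nonneg fun t _ => Real.rpow_nonneg (hx t) _)
  constructor
  · have h1 := Real.rpow_arith_mean_le_arith_mean_rpow Finset.univ (fun _ : T => N⁻¹) x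
      (fun _ _ => by positivity) hw (fun t _ => hx t) hs1
    rw [← Finset.mul_sum, ← Finset.mul_sum] at h1
    have h0 : 0 ≤ N⁻¹ * ∑ t, x t := mul_nonneg (by positivity) (Finset.sum_nonneg fun t _ => hx t)
    calc N⁻¹ * ∑ t, x t = ((N⁻¹ * ∑ t, x t) ^ s) ^ (1 / s) := by
          rw [← Real.rpow_mul h0, mul_one_div_cancel hs0.ne', Real.rpow_one]
      _ ≤ _ := Real.rpow_le_rpow (Real.rpow_nonneg h0 _) h1 (by positivity)
  · have h1 := Real.rpow_arith_mean_le_arith_mean_rpow Finset.univ (fun _ : T => N⁻¹)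
      (fun t => x t ^ s) (fun _ _ => by positivity) hw (fun t _ => Real.rpow_nonneg (hx t) _)
      (p := 2 / s) (by rw [le_div_iff₀ hs0]; linarith)
    have h2 : ∀ t, (x t ^ s) ^ (2 / s) = x t ^ 2 := by
      intro t
      rw [← Real.rpow_mul (hx t), mul_div_cancel₀ _ hs0.ne']
      norm_num
    simp only [h2] at h1
    rw [← Finset.mul_sum, ← Finset.mul_sum] at h1
    rw [Real.sqrt_eq_rpow]
    calc (N⁻¹ * ∑ t, x t ^ s) ^ (1 / s) = ((N⁻¹ * ∑ t, x t ^ s) ^ (2 / s)) ^ ((1 : ℝ) / 2) := by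
          rw [← Real.rpow_mul hSs]
          congr 1
          field_simp
      _ ≤ _ := Real.rpow_le_rpow (Real.rpow_nonneg hSs _) h1 (by positivity)

/-- The embedding of `ℓ_2` given by a sign matrix. -/
noncomputable def matL (𝕜 : Type*) [RCLike 𝕜] (p : ℝ≥0∞) {N : ℕ} {ι : Type*} [Fintype ι]
    (M : Fin N × ι → Bool) (c : ℝ) : (ι → 𝕜) →ₗ[𝕜] PiLp p (fun _ : Fin N => 𝕜) where
  toFun a := WithLp.toLp p fun t => (c : 𝕜) * Xk 𝕜 M a t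
  map_add' a b := by
    ext t
    change (c : 𝕜) * Xk 𝕜 M (a + b) t = (c : 𝕜) * Xk 𝕜 M a t + (c : 𝕜) * Xk 𝕜 M b t
    unfold Xk
    rw [← mul_add, ← Finset.sum_add_distrib]
    congr 1
    exact Finset.sum_congr rfl fun i _ => by rw [Pi.add_apply]; ring
  map_smul' z a := by
    ext t
    change (c : 𝕜) * Xk 𝕜 M (z • a) t = z * ((c : 𝕜) * Xk 𝕜 M a t)
    unfold Xk
    rw [mul_left_comm z, Finset.mul_sum (a := z)]
    congr 1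
    exact Finset.sum_congr rfl fun i _ => by rw [Pi.smul_apply, smul_eq_mul]; ring

theorem matL_apply (p : ℝ≥0∞) {N : ℕ} {ι : Type*} [Fintype ι]
    (M : Fin N × ι → Bool) (c : ℝ) (a : ι → 𝕜) (t : Fin N) :
    matL 𝕜 p M c a t = (c : 𝕜) * Xk 𝕜 M a t := rfl

/-- The norm of `matL` with the normalisation `c = N^{-1/s}`. -/
theorem norm_matL (p : ℝ≥0∞) [hp1 : Fact (1 ≤ p)] (hp2 : p ≤ 2) {N : ℕ} [NeZero N] {ι : Type*}
    [Fintype ι] (M : Fin N × ι → Bool)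
    (hM1 : ∀ (a : ι → 𝕜), ∑ t, ‖Xk 𝕜 M a t‖ ^ 2 ≤ 144 * N * ∑ i, ‖a i‖ ^ 2)
    (hM2 : ∀ a : ι → 𝕜, (N : ℝ) / 64 * Real.sqrt (∑ i, ‖a i‖ ^ 2) ≤ ∑ t, ‖Xk 𝕜 M a t‖)
    (a : ι → 𝕜) :
    1 / 64 * ‖(WithLp.toLp 2 a : PiLp 2 (fun _ : ι => 𝕜))‖ ≤
      ‖matL 𝕜 p M ((N : ℝ) ^ (-(1 / p.toReal))) a‖ ∧
    ‖matL 𝕜 p M ((N : ℝ) ^ (-(1 / p.toReal))) a‖ ≤
      12 * ‖(WithLp.toLp 2 a : PiLp 2 (fun _ : ι => 𝕜))‖ := by
  have htop : p ≠ ∞ := (lt_of_le_of_lt hp2 ENNReal.ofNat_lt_top).ne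
  set s := p.toReal with hs
  have hs1 : 1 ≤ s := by
    rw [hs, ← ENNReal.toReal_one]
    exact (ENNReal.toReal_le_toReal ENNReal.one_ne_top htop).2 hp1.out
  have hs2 : s ≤ 2 := by
    rw [hs, ← ENNReal.toReal_ofNat 2]
    exact (ENNReal.toReal_le_toReal htop ENNReal.ofNat_ne_top).2 hp2
  have hs0 : 0 < s := by linarith
  have hN0 : (0 : ℝ) < N := by exact_mod_cast Nat.pos_of_ne_zero (NeZero.ne N)
  set c : ℝ := (N : ℝ) ^ (-(1 / s)) with hc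
  have hc0 : 0 < c := Real.rpow_pos_of_pos hN0 _
  have hcs : c ^ s = (N : ℝ)⁻¹ := by
    rw [hc, ← Real.rpow_mul hN0.le]
    have : -(1 / s) * s = -1 := by field_simp
    rw [this, Real.rpow_neg_one]
  have hnorm : ‖matL 𝕜 p M c a‖ = ((N : ℝ)⁻¹ * ∑ t, ‖Xk 𝕜 M a t‖ ^ s) ^ (1 / s) := by
    rw [PiLp.norm_eq_sum hs0]
    congr 1
    rw [← hcs, Finset.mul_sum]
    refine Finset.sum_congr rfl fun t _ => ?_
    rw [matL_apply, norm_mul, RCLike.norm_ofReal, abs_of_pos hc0,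
      Real.mul_rpow hc0.le (norm_nonneg _)]
  have hm := mean_bounds hs1 hs2 (fun t : Fin N => ‖Xk 𝕜 M a t‖) fun t => norm_nonneg _
  rw [Fintype.card_fin] at hm
  rw [hnorm, EuclideanSpace.norm_eq]
  constructor
  · refine le_trans ?_ hm.1
    have h1 := hM2 a
    calc 1 / 64 * Real.sqrt (∑ i, ‖a i‖ ^ 2) = (N : ℝ)⁻¹ * ((N : ℝ) / 64 * Real.sqrt (∑ i, ‖a i‖ ^ 2)) := by
          field_simp
      _ ≤ _ := by gcongr
  · refine hm.2.trans ?_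
    have h1 := hM1 a
    have h2 : (N : ℝ)⁻¹ * ∑ t, ‖Xk 𝕜 M a t‖ ^ 2 ≤ 144 * ∑ i, ‖a i‖ ^ 2 := by
      calc (N : ℝ)⁻¹ * ∑ t, ‖Xk 𝕜 M a t‖ ^ 2 ≤ (N : ℝ)⁻¹ * (144 * N * ∑ i, ‖a i‖ ^ 2) := by gcongr
        _ = _ := by field_simp
    calc Real.sqrt ((N : ℝ)⁻¹ * ∑ t, ‖Xk 𝕜 M a t‖ ^ 2) ≤ Real.sqrt (144 * ∑ i, ‖a i‖ ^ 2) :=
          Real.sqrt_le_sqrt h2
      _ = 12 * Real.sqrt (∑ i, ‖a i‖ ^ 2) := by
          rw [Real.sqrt_mul (by norm_num)]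
          congr 1
          rw [show (144 : ℝ) = 12 ^ 2 by norm_num, Real.sqrt_sq (by norm_num)]

/-- The obstruction: operators from `ℓ_p^N` to a Hilbert space are small on the kernel vectors. -/
theorem obstruction_small (p : ℝ≥0∞) [hp1 : Fact (1 ≤ p)] (r : ℕ) (hr : 0 < r) {N : ℕ}
    [NeZero N] (M : Fin N × JJ r → Bool) (c : ℝ)
    (hM1 : ∀ (a : JJ r → 𝕜), ∑ t, ‖Xk 𝕜 M a t‖ ^ 2 ≤ 144 * N * ∑ i, ‖a i‖ ^ 2)
    (R : PiLp p (fun _ : Fin N => 𝕜) →L[𝕜] PiLp 2 (fun _ : Cube r => 𝕜)) :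
    ∑ i', ‖R (matL 𝕜 p M c (vf 𝕜 r i'))‖ ^ 2 ≤ 576 * N * c ^ 2 * (N * ‖R‖ ^ 2) := by
  classical
  let ρ : Fin N → PiLp 2 (fun _ : Cube r => 𝕜) := fun t => R (PiLp.single p t (1 : 𝕜))
  have hρ : ∀ t, ‖ρ t‖ ≤ ‖R‖ := by
    intro t
    refine (R.le_opNorm _).trans ?_
    rw [PiLp.norm_single, norm_one, mul_one]
  have hR : ∀ z, R z = ∑ t, z t • ρ t := by
    intro z
    have hz : z = ∑ t, z t • (PiLp.single p t (1 : 𝕜)) := by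
      have := (PiLp.basisFun p 𝕜 (Fin N)).sum_repr z
      simp only [PiLp.basisFun_repr, PiLp.basisFun_apply] at this
      exact this.symm
    conv_lhs => rw [hz]
    rw [map_sum]
    exact Finset.sum_congr rfl fun t _ => map_smul _ _ _
  have hlin : ∀ (k : Cube r → 𝕜) (t : Fin N),
      ∑ i', k i' * ((c : 𝕜) * Xk 𝕜 M (vf 𝕜 r i') t) =
        (c : 𝕜) * Xk 𝕜 M (∑ i', k i' • vf 𝕜 r i') t := by
    intro k t
    unfold Xk
    simp only [Finset.sum_apply, Pi.smul_apply, smul_eq_mul, Finset.mul_sum]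
    rw [Finset.sum_comm]
    exact Finset.sum_congr rfl fun i _ => Finset.sum_congr rfl fun i' _ => by ring
  have hW : ∀ k : Cube r → 𝕜, ∑ t, ‖∑ i', k i' * ((c : 𝕜) * Xk 𝕜 M (vf 𝕜 r i') t)‖ ^ 2 ≤
      (576 * N * c ^ 2) * ∑ i', ‖k i'‖ ^ 2 := by
    intro k
    simp only [hlin]
    have h1 := hM1 (∑ i', k i' • vf 𝕜 r i')
    have h2 : ∑ i, ‖(∑ i', k i' • vf 𝕜 r i') i‖ ^ 2 ≤ 4 * ∑ i', ‖k i'‖ ^ 2 := by
      have h3 := (vL 2 𝕜 r).le_opNorm (WithLp.toLp 2 k)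
      rw [vL_eq] at h3
      have h4 : ‖(WithLp.toLp 2 (∑ i', k i' • vf 𝕜 r i') : PiLp 2 (fun _ : JJ r => 𝕜))‖ ≤
          2 * ‖(WithLp.toLp 2 k : PiLp 2 (fun _ : Cube r => 𝕜))‖ :=
        h3.trans (by gcongr; exact norm_vL_le 2 r hr)
      have h5 := pow_le_pow_left₀ (norm_nonneg _) h4 2
      rw [mul_pow, EuclideanSpace.norm_sq_eq, EuclideanSpace.norm_sq_eq] at h5
      calc _ ≤ _ := h5
        _ = _ := by norm_num
    calc ∑ t, ‖(c : 𝕜) * Xk 𝕜 M (∑ i', k i' • vf 𝕜 r i') t‖ ^ 2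
        = c ^ 2 * ∑ t, ‖Xk 𝕜 M (∑ i', k i' • vf 𝕜 r i') t‖ ^ 2 := by
          rw [Finset.mul_sum]
          refine Finset.sum_congr rfl fun t _ => ?_
          rw [norm_mul, mul_pow, RCLike.norm_ofReal, sq_abs]
      _ ≤ c ^ 2 * (144 * N * (4 * ∑ i', ‖k i'‖ ^ 2)) := by
          gcongr
          exact h1.trans (by gcongr)
      _ = _ := by ring
  have h6 := bessel_dual_vec (fun i' t => (c : 𝕜) * Xk 𝕜 M (vf 𝕜 r i') t) (576 * N * c ^ 2)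
    (by positivity) hW ρ ‖R‖ hρ
  rw [Fintype.card_fin] at h6
  refine le_trans (le_of_eq ?_) h6
  refine Finset.sum_congr rfl fun i' _ => ?_
  rw [hR]
  rfl

end Pool.Agent.H14.NP
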